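import Pool.Agent.Helper5.GapSoluble
import Pool.Agent.Helper10.Gap.Kronecker

namespace Pool.Agent.Helper5.Gap

open Polynomial

theorem kronStatement : KronStatement := by
  classical
  intro m P hP hroots
  set A : Matrix (Fin m) (Fin m) ℂ := P.map (Int.castRingHom ℂ) with hA
  have hchar : A.charpoly = P.charpoly.map (Int.castRingHom ℂ) := by
    rw [hA, Matrix.charpoly_map]
  have hmem : ∀ z, z ∈ spectrum ℂ A ↔ z ∈ A.charpoly.roots := by
    intro z
    rw [Matrix.mem_spectrum_iff_isRoot_charpoly, Polynomial.mem_roots A.charpoly_monic.ne_zero]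
  have h := Pool.Agent.Helper10.Gap.kronecker_quant P (by
    intro z hz
    apply hroots
    rw [← hchar, ← hmem]
    exact hz)
  have hAunit : IsUnit A := by
    have : A = (Int.castRingHom ℂ).mapMatrix P := rfl
    rw [this]
    exact hP.map _
  have h' : ∀ z ∈ A.charpoly.roots, ∃ n : ℕ, 1 ≤ n ∧ z ^ n = 1 := by
    intro z hz
    rcases h z ((hmem z).2 hz) with h0 | h1
    · exfalso
      have h2 := (hmem z).2 hz
      rw [h0, spectrum.zero_mem_iff] at h2
      exact h2 hAunit
    · exact h1
  choose! n hn1 hn using h'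
  set N := ∏ z ∈ A.charpoly.roots.toFinset, n z with hN
  have hNpos : 0 < N := Finset.prod_pos (fun z hz => hn1 z (by simpa using hz))
  have hNz : ∀ z ∈ A.charpoly.roots, z ^ N = 1 := by
    intro z hz
    obtain ⟨c, hc⟩ := Finset.dvd_prod_of_mem n (Multiset.mem_toFinset.2 hz)
    rw [hN, hc, pow_mul, hn z hz, one_pow]
  refine ⟨N, hNpos, Multiset.card A.charpoly.roots, ?_⟩
  have hsplit : A.charpoly = (A.charpoly.roots.map (fun a => X - C a)).prod := by
    have := Polynomial.Splits.eq_prod_roots_of_monic (IsAlgClosed.splits A.charpoly)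
      A.charpoly_monic
    exact this
  have hdvd : A.charpoly ∣ (X ^ N - 1 : ℂ[X]) ^ (Multiset.card A.charpoly.roots) := by
    rw [hsplit]
    have h1 : (X ^ N - 1 : ℂ[X]) ^ (Multiset.card A.charpoly.roots) =
        (A.charpoly.roots.map (fun _ => (X ^ N - 1 : ℂ[X]))).prod := by
      rw [Multiset.map_const', Multiset.prod_replicate]
    have h2 : (Multiset.card ((A.charpoly.roots.map (fun a => X - C a)).prod).roots) =
        Multiset.card A.charpoly.roots := by rw [← hsplit]
    rw [h2, h1]
    apply Multiset.prod_dvd_prod_of_dvd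
    intro a ha
    rw [Polynomial.dvd_iff_isRoot, Polynomial.IsRoot]
    simp [hNz a ha]
  have hdvd' : P.charpoly ∣ (X ^ N - 1 : ℤ[X]) ^ (Multiset.card A.charpoly.roots) := by
    rw [← Polynomial.map_dvd_map (Int.castRingHom ℂ) (RingHom.injective_int _) P.charpoly_monic]
    rw [← hchar]
    simpa using hdvd
  obtain ⟨q, hq⟩ := hdvd'
  have h3 := congrArg (aeval P) hq
  rw [map_mul, Matrix.aeval_self_charpoly, zero_mul] at h3
  simpa using h3

end Pool.Agent.Helper5.Gap
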