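import Mathlib

/-!
Interfaces for the logarithmic bound on the derived length of soluble linear groups.
-/

namespace Pool.Agent.Helper5.Zas

/-- Every finite soluble group acting irreducibly on a space of dimension at most `D` over an
algebraically closed field: the `k`-th derived subgroup acts trivially. -/
def IrrBound (D k : ℕ) : Prop :=
  ∀ (F : Type) [Field F] [IsAlgClosed F] (V : Type) [AddCommGroup V] [Module F V]
    [Module.Finite F V] (G : Type) [Group G] [Finite G] [Group.IsSolvable G] (ρ : G →* (V →ₗ[F] V)),
    (∀ W : Submodule F V, (∀ g : G, ∀ w ∈ W, ρ g w ∈ W) → W = ⊥ ∨ W = ⊤) →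
    Module.finrank F V ≤ D → ∀ g ∈ derivedSeries G k, ρ g = 1

/-- Every finite soluble group acting on an abelian group of order at most `u`: the `k`-th
derived subgroup acts trivially. -/
def AutBound (u k : ℕ) : Prop :=
  ∀ (E : Type) [CommGroup E] [Finite E] (G : Type) [Group G] [Finite G] [Group.IsSolvable G]
    (φ : G →* MulAut E), Nat.card E ≤ u → ∀ g ∈ derivedSeries G k, φ g = 1

/-- Every finite soluble group acting on a set with at most `t` elements: the `k`-th
derived subgroup acts trivially. -/
def PermBound (t k : ℕ) : Prop :=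
  ∀ (G : Type) [Group G] [Finite G] [Group.IsSolvable G] (Ω : Type) [Finite Ω] [MulAction G Ω],
    Nat.card Ω ≤ t → ∀ g ∈ derivedSeries G k, ∀ ω : Ω, g • ω = ω

end Pool.Agent.Helper5.Zas
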