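import Pool.Agent.Helper3.ZasFinite
import Pool.Agent.Helper52.ZasPerm
import Pool.Agent.Helper63.CliffordStep
import Pool.Agent.Helper74.Zas46

/-!
A sharper bound for soluble groups acting on small abelian groups, and the resulting
logarithmic bound for the derived length of irreducible soluble linear groups.
-/

namespace Pool.Agent.Helper5.Zas

open Pool.Agent.Helper3.Zas
open scoped commutatorElement

theorem exists_chain {x k : ℕ} (h : IrrBound x k) (m : ℕ) : m ≤ x →
    ∀ (E : Type) [CommGroup E] [Finite E] (G : Type) [Group G] [Group.IsSolvable G]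
    (φ : G →* MulAut E), Nat.card E < 2 ^ (m + 1) → ∃ L : ℕ → Subgroup E, L 0 = ⊤ ∧ L m = ⊥ ∧
      (∀ i, L (i + 1) ≤ L i) ∧ (∀ i, ∀ g, ∀ e ∈ L i, φ g e ∈ L i) ∧
      ∀ g ∈ derivedSeries G k, ∀ i, ∀ e ∈ L i, φ g e * e⁻¹ ∈ L (i + 1) := by
  induction m with
  | zero =>
    intro hx E _ _ G _ _ φ hcard
    have hpos : 0 < Nat.card E := Nat.card_pos
    have h1 : Nat.card E = 1 := by omega
    have : Subsingleton E := (Nat.card_eq_one_iff_unique.1 h1).1
    refine ⟨fun _ => ⊥, Subsingleton.elim _ _, rfl, fun i => le_rfl, ?_, ?_⟩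
    · intro i g e he
      rw [Subsingleton.elim (φ g e) 1]
      exact one_mem _
    · intro g _ i e he
      rw [Subsingleton.elim (φ g e * e⁻¹) 1]
      exact one_mem _
  | succ m ih =>
    intro hx E _ _ G _ _ φ hcard
    rcases subsingleton_or_nontrivial E with hE | hE
    · refine ⟨fun _ => ⊥, Subsingleton.elim _ _, rfl, fun i => le_rfl, ?_, ?_⟩
      · intro i g e he
        rw [Subsingleton.elim (φ g e) 1]
        exact one_mem _
      · intro g _ i e he
        rw [Subsingleton.elim (φ g e * e⁻¹) 1]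
        exact one_mem _
    obtain ⟨N, hN, hN0, hmin⟩ := exists_minimal_invariant φ
    have hq : Nat.card (E ⧸ N) < 2 ^ (m + 1) := card_quot_lt N hN0 (by rw [pow_succ] at hcard; omega)
    obtain ⟨L', h0, hm, hanti, hinv, hfix⟩ := ih (by omega) (E ⧸ N) G (quotAct φ N hN) hq
    have hc : Nat.card E < 2 ^ (x + 1) :=
      lt_of_lt_of_le hcard (Nat.pow_le_pow_right (by norm_num) (by omega))
    have key := minimal_fixed h φ N hN hN0 hmin hc
    have hLm : (L' m).comap (QuotientGroup.mk' N) = N := by
      rw [hm]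
      exact QuotientGroup.ker_mk' N
    refine ⟨fun i => if i ≤ m then (L' i).comap (QuotientGroup.mk' N) else ⊥, ?_, ?_, ?_, ?_, ?_⟩
    · simp [h0]
    · simp
    · intro i
      rcases lt_trichotomy i m with hi | hi | hi
      · simp only [if_pos (show i + 1 ≤ m by omega), if_pos (show i ≤ m by omega)]
        exact Subgroup.comap_mono (hanti i)
      · simp only [if_neg (show ¬ i + 1 ≤ m by omega)]
        exact bot_le
      · simp only [if_neg (show ¬ i + 1 ≤ m by omega)]
        exact bot_le
    · intro i g e he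
      rcases Nat.lt_or_ge m i with hi | hi
      · simp only [if_neg (show ¬ i ≤ m by omega)] at he ⊢
        rw [Subgroup.mem_bot] at he
        rw [he, map_one]
        exact one_mem _
      · simp only [if_pos hi] at he ⊢
        exact hinv i g _ he
    · intro g hg i e he
      rcases lt_trichotomy i m with hi | hi | hi
      · simp only [if_pos (show i + 1 ≤ m by omega), if_pos (show i ≤ m by omega)] at he ⊢
        exact hfix g hg i _ he
      · simp only [if_neg (show ¬ i + 1 ≤ m by omega), if_pos (show i ≤ m by omega)] at he ⊢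
        rw [hi, hLm] at he
        rw [key g hg e he, mul_inv_cancel]
        exact one_mem _
      · simp only [if_neg (show ¬ i ≤ m by omega)] at he
        rw [Subgroup.mem_bot] at he
        rw [he, map_one, inv_one, one_mul]
        exact one_mem _

/-- The elements that move the `i`-th term of a filtration into the `(i+r)`-th one. -/
def stab {E G : Type*} [CommGroup E] [Group G] (φ : G →* MulAut E) (L : ℕ → Subgroup E)
    (hinv : ∀ i, ∀ g, ∀ e ∈ L i, φ g e ∈ L i) (r : ℕ) : Subgroup G where
  carrier := {g | ∀ i, ∀ e ∈ L i, φ g e * e⁻¹ ∈ L (i + r)}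
  mul_mem' := by
    intro a b ha hb i e he
    have h1 := ha i (φ b e) (hinv i b e he)
    have h2 := hb i e he
    have : φ (a * b) e * e⁻¹ = (φ a (φ b e) * (φ b e)⁻¹) * (φ b e * e⁻¹) := by
      rw [map_mul, MulAut.mul_apply]
      group
    rw [this]
    exact mul_mem h1 h2
  one_mem' := by
    intro i e _
    rw [map_one, MulAut.one_apply, mul_inv_cancel]
    exact one_mem _
  inv_mem' := by
    intro a ha i e he
    have h1 := ha i (φ a⁻¹ e) (hinv i a⁻¹ e he)
    have h2 : φ a (φ a⁻¹ e) = e := by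
      rw [← MulAut.mul_apply, ← map_mul, mul_inv_cancel, map_one, MulAut.one_apply]
    rw [h2] at h1
    have h3 := inv_mem h1
    rw [mul_inv_rev, inv_inv] at h3
    exact h3

theorem stab_commutator {E G : Type*} [CommGroup E] [Group G] (φ : G →* MulAut E)
    (L : ℕ → Subgroup E) (hinv : ∀ i, ∀ g, ∀ e ∈ L i, φ g e ∈ L i) (r : ℕ) :
    ⁅stab φ L hinv r, stab φ L hinv r⁆ ≤ stab φ L hinv (r + r) := by
  rw [Subgroup.commutator_le]
  intro g hg h hh i e he
  obtain ⟨e', he'⟩ : ∃ e', e' = φ (g⁻¹ * h⁻¹) e := ⟨_, rfl⟩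
  have he'L : e' ∈ L i := he' ▸ hinv i _ e he
  have h1 : e = φ h (φ g e') := by
    rw [he', ← MulAut.mul_apply, ← map_mul, ← MulAut.mul_apply, ← map_mul]
    have : h * g * (g⁻¹ * h⁻¹) = 1 := by group
    rw [this, map_one, MulAut.one_apply]
  have h2 : φ ⁅g, h⁆ e = φ g (φ h e') := by
    rw [he', ← MulAut.mul_apply, ← map_mul, ← MulAut.mul_apply, ← map_mul, commutatorElement_def]
    congr 2
    group
  obtain ⟨a, ha⟩ : ∃ a, a = φ h e' * e'⁻¹ := ⟨_, rfl⟩
  obtain ⟨b, hb⟩ : ∃ b, b = φ g e' * e'⁻¹ := ⟨_, rfl⟩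
  have haL : a ∈ L (i + r) := ha ▸ hh i e' he'L
  have hbL : b ∈ L (i + r) := hb ▸ hg i e' he'L
  have hca : φ g a * a⁻¹ ∈ L (i + r + r) := hg (i + r) a haL
  have hdb : φ h b * b⁻¹ ∈ L (i + r + r) := hh (i + r) b hbL
  have h3 : φ h e' = a * e' := by rw [ha]; group
  have h4 : φ g e' = b * e' := by rw [hb]; group
  have h5 : φ ⁅g, h⁆ e * e⁻¹ = (φ g a * a⁻¹) * (φ h b * b⁻¹)⁻¹ := by
    rw [h2, h1, h4, map_mul, h3, map_mul, h4]
    have hcomm : ∀ p q s t u : E, (p * (s * u)) * (q * (t * u))⁻¹ = (p * t⁻¹) * (q * s⁻¹)⁻¹ := by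
      intro p q s t u
      rw [mul_inv_rev, mul_inv_rev, mul_inv_rev, inv_inv]
      calc (p * (s * u)) * (u⁻¹ * t⁻¹ * q⁻¹) = p * s * (u * u⁻¹) * t⁻¹ * q⁻¹ := by
            simp only [mul_assoc]
        _ = p * t⁻¹ * (s * q⁻¹) := by
            rw [mul_inv_cancel, mul_one]
            calc p * s * t⁻¹ * q⁻¹ = p * (s * t⁻¹) * q⁻¹ := by simp only [mul_assoc]
              _ = p * (t⁻¹ * s) * q⁻¹ := by rw [mul_comm s t⁻¹]
              _ = p * t⁻¹ * (s * q⁻¹) := by simp only [mul_assoc]
    exact hcomm _ _ _ _ _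
  rw [h5, ← add_assoc]
  exact mul_mem hca (inv_mem hdb)

theorem autBound_clog {x k u : ℕ} (hu : u < 2 ^ (x + 1)) (h : IrrBound x k) :
    AutBound u (k + Nat.clog 2 x) := by
  intro E _ _ G _ _ _ φ hE g hg
  obtain ⟨L, h0, hx, hanti, hinv, hfix⟩ := exists_chain h x le_rfl E G φ (by omega)
  have hanti' : ∀ i j, i ≤ j → L j ≤ L i := by
    intro i j hij
    induction j, hij using Nat.le_induction with
    | base => exact le_rfl
    | succ j _ ih => exact (hanti j).trans ih
  have key : ∀ j, derivedSeries G (k + j) ≤ stab φ L hinv (2 ^ j) := by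
    intro j
    induction j with
    | zero =>
      intro g hg i e he
      exact hfix g hg i e he
    | succ j ih =>
      rw [← add_assoc, derivedSeries_succ, pow_succ, mul_two]
      exact (Subgroup.commutator_mono ih ih).trans (stab_commutator φ L hinv _)
  have hmem := key _ hg
  apply MulEquiv.ext
  intro e
  rw [MulAut.one_apply]
  have h1 : φ g e * e⁻¹ ∈ L (0 + 2 ^ Nat.clog 2 x) := hmem 0 e (by rw [h0]; exact Subgroup.mem_top e)
  have h2 : L (0 + 2 ^ Nat.clog 2 x) ≤ L x := hanti' _ _ (by
    rw [zero_add]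
    exact Nat.le_pow_clog (by norm_num) x)
  have h3 := h2 h1
  rw [hx, Subgroup.mem_bot] at h3
  exact mul_inv_eq_one.1 h3

/-- the bound for automorphism groups used below -/
def fc (u : ℕ) : ℕ :=
  if Nat.log 2 u ≤ 5 then Nat.log 2 u * (Nat.log 2 u + 1)
  else 7 * Nat.log 2 (Nat.log 2 u) + 18 + Nat.clog 2 (Nat.log 2 u)

theorem clog_le_log_succ (x : ℕ) : Nat.clog 2 x ≤ Nat.log 2 x + 1 := by
  rw [Nat.clog_le_iff_le_pow (by norm_num)]
  exact (Nat.lt_pow_succ_log_self (by norm_num) x).le

theorem eight_log_le (x : ℕ) (hx : 6 ≤ x) : 7 * Nat.log 2 x + 18 + Nat.clog 2 x + 1 ≤ 7 * x := by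
  have h1 := clog_le_log_succ x
  rcases Nat.lt_or_ge x 8 with h8 | h8
  · have h2 : Nat.log 2 x = 2 := by
      rw [Nat.log_eq_iff (by norm_num)]
      omega
    omega
  · have h3 : 4 * Nat.log 2 x ≤ x + 4 := Pool.Agent.Helper74.Zas.four_mul_log_le x
    omega

theorem irrBound_log7 (D : ℕ) : IrrBound D (7 * Nat.log 2 D + 18) := by
  induction D using Nat.strong_induction_on with
  | _ D ih =>
    have hmono : Monotone (fun t : ℕ => 7 * Nat.log 2 t) := by
      intro a b hab
      exact Nat.mul_le_mul_left _ (Nat.log_mono_right hab)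
    have haut : ∀ u, u ≤ D → 1 ≤ u → AutBound u (fc u) := by
      intro u huD hu1
      unfold fc
      split_ifs with h5
      · exact Pool.Agent.Helper74.Zas.autBound_trivial u
      · have h3 : Nat.log 2 u < D := (Nat.log_lt_self 2 (by omega)).trans_le huD
        exact autBound_clog (Nat.lt_pow_succ_log_self (by norm_num) u) (ih _ h3)
    have hperm : ∀ t ≤ D, PermBound t (7 * Nat.log 2 t) := by
      refine Pool.Agent.Helper52.Zas.permBound_of_autBound fc (fun t => 7 * Nat.log 2 t) hmono ?_
        D ?_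
      · intro u t hu ht
        have h1 := Pool.Agent.Helper74.Zas.log_mul_ge t u ht (by omega)
        have h2 : 1 ≤ Nat.log 2 u := (Nat.le_log_iff_pow_le (by norm_num) (by omega)).2 (by simpa)
        unfold fc
        split_ifs with h5
        · have : Nat.log 2 u * (Nat.log 2 u + 1) + 1 ≤ 7 * Nat.log 2 u := by
            interval_cases (Nat.log 2 u) <;> norm_num
          omega
        · have := eight_log_le (Nat.log 2 u) (by omega)
          omega
      · intro u hu1 huD
        exact haut u huD hu1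
    obtain ⟨a, ha, hak⟩ : ∃ a, AutBound (D ^ 2) a ∧ a + 2 ≤ 7 * Nat.log 2 D + 18 := by
      rcases Nat.eq_zero_or_pos D with rfl | hD
      · exact ⟨_, Pool.Agent.Helper74.Zas.autBound_trivial _, by simp⟩
      · have hx := Pool.Agent.Helper74.Zas.log_sq_le D hD
        rcases Nat.lt_or_ge (Nat.log 2 D) 3 with hy | hy
        · refine ⟨_, Pool.Agent.Helper74.Zas.autBound_trivial _, ?_⟩
          have hmul : Nat.log 2 (D ^ 2) * (Nat.log 2 (D ^ 2) + 1) ≤
              (2 * Nat.log 2 D + 1) * (2 * Nat.log 2 D + 1 + 1) :=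
            Nat.mul_le_mul hx (by omega)
          refine (Nat.add_le_add_right hmul 2).trans ?_
          interval_cases (Nat.log 2 D) <;> norm_num
        · have hD8 : 2 ^ Nat.log 2 D ≤ D := Nat.pow_log_le_self 2 (by omega)
          have h8 : ∀ y, 3 ≤ y → 2 * y + 1 < 2 ^ y := by
            intro y hy
            induction y, hy using Nat.le_induction with
            | base => norm_num
            | succ y hy ihy => rw [pow_succ]; omega
          have hxD : Nat.log 2 (D ^ 2) < D := by
            have := h8 _ hy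
            omega
          refine ⟨_, autBound_clog (u := D ^ 2) (Nat.lt_pow_succ_log_self (by norm_num) _)
            (ih _ hxD), ?_⟩
          have hc := clog_le_log_succ (Nat.log 2 (D ^ 2))
          have h74 : ∀ z : ℕ, z ≤ 7 → Nat.log 2 z ≤ 2 := by
            intro z hz
            have : Nat.log 2 z ≤ Nat.log 2 7 := Nat.log_mono_right hz
            have h7 : Nat.log 2 7 = 2 := by norm_num [Nat.log_eq_iff]
            omega
          have h94 : ∀ z : ℕ, z ≤ 15 → Nat.log 2 z ≤ 3 := by
            intro z hz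
            have : Nat.log 2 z ≤ Nat.log 2 15 := Nat.log_mono_right hz
            have h7 : Nat.log 2 15 = 3 := by norm_num [Nat.log_eq_iff]
            omega
          rcases Nat.lt_or_ge (Nat.log 2 D) 4 with hy4 | hy4
          · have := h74 (Nat.log 2 (D ^ 2)) (by omega)
            omega
          · rcases Nat.lt_or_ge (Nat.log 2 D) 8 with hy8 | hy8
            · have := h94 (Nat.log 2 (D ^ 2)) (by omega)
              omega
            · have h3 := Pool.Agent.Helper74.Zas.four_mul_log_le (Nat.log 2 (D ^ 2))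
              omega
    refine Pool.Agent.Helper63.Clifford.irrBound_step (fun s => 7 * Nat.log 2 s + 18)
      (fun t => 7 * Nat.log 2 t) ih hperm ha (by omega) hak ?_ ?_
    · intro s t hs ht hst
      have h1 := Pool.Agent.Helper74.Zas.log_mul_ge s t hs (by omega)
      have h2 : Nat.log 2 (s * t) ≤ Nat.log 2 D := Nat.log_mono_right hst
      omega
    · intro a b hab
      have := hmono hab
      simp only at this ⊢
      omega

end Pool.Agent.Helper5.Zas
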