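import Pool.Agent.Helper5.GapResidual

open scoped commutatorElement

namespace Pool.Agent.Helper5.Gap

open Pool.Agent.Helper5.Zas

universe u

theorem Gen.fg {G : Type*} [Group G] {X : Set G} (hX : X.Finite) {L : ℕ} {N : Subgroup G}
    (h : Gen X L N) : N.FG := by
  have hfin : ((N : Set G) ∩ ball X L).Finite := (ball_finite hX L).inter_of_right _
  refine ⟨hfin.toFinset, ?_⟩
  rw [Set.Finite.coe_toFinset]
  exact h.closure_eq.symm

/-- Single-scale structure theorem, valid for every finitely generated group: small growth at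
one scale implies that the group is perfect-by-(virtually nilpotent). -/
theorem structure_single_scale (kron : KronStatement)
    (zas : ∀ D : ℕ, IrrBound D (7 * Nat.log 2 D + 18)) {G : Type u} [Group G] {X : Set G}
    (hX : X.Finite) (hXt : Subgroup.closure X = ⊤) {K : ℕ} (hK : 1 ≤ K)
    (hg : growth X (136 * 4 ^ 18 * K ^ 20) < 2 ^ K) :
    ∃ r : ℕ, (derivedSeries G r).FG ∧ derivedSeries G (r + 1) = derivedSeries G r ∧
      VirtNilpotent (G ⧸ derivedSeries G r) := by
  obtain ⟨I, hI1, hI2⟩ := exists_two_pow K hK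
  set k := 7 * Nat.log 2 K + 18 with hk
  obtain ⟨c, hc⟩ : ∃ c : ℕ, c = 4 ^ 18 := ⟨_, rfl⟩
  have hc1 : 1 ≤ c := by rw [hc]; norm_num
  rw [← hc] at hg
  have h4I : 4 ^ (k + I) ≤ 4 * c * K ^ 16 := by
    have h1 : (4 : ℕ) ^ I = (2 ^ I) ^ 2 := by rw [← pow_mul, mul_comm, pow_mul]; norm_num
    have h2 : (4 : ℕ) ^ k = (2 ^ (Nat.log 2 K)) ^ 14 * c := by
      rw [hk, pow_add, ← hc, ← pow_mul, show (4 : ℕ) = 2 ^ 2 by norm_num, ← pow_mul]
      congr 2
      ring_nf
    rw [pow_add, h2, h1]
    calc (2 ^ (Nat.log 2 K)) ^ 14 * c * (2 ^ I) ^ 2 ≤ K ^ 14 * c * (2 * K) ^ 2 := by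
          gcongr
          exact Nat.pow_log_le_self 2 (by omega)
      _ = 4 * c * K ^ 16 := by ring
  have hL : 4 ^ (k + I) * (K + 1) ≤ 8 * c * K ^ 17 := by
    calc 4 ^ (k + I) * (K + 1) ≤ 4 * c * K ^ 16 * (2 * K) := Nat.mul_le_mul h4I (by omega)
      _ = 8 * c * K ^ 17 := by ring
  have hR1 : K * ((3 * (4 ^ (k + I) * (K + 1)) + 2 * K) * 2 ^ I + 2 * K) ≤
      136 * c * K ^ 20 := by
    calc K * ((3 * (4 ^ (k + I) * (K + 1)) + 2 * K) * 2 ^ I + 2 * K)
        ≤ K * ((3 * (8 * c * K ^ 17) + 2 * K) * (2 * K) + 2 * K) := by gcongr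
      _ = 48 * c * K ^ 19 + 4 * 1 * K ^ 3 + 2 * 1 * K ^ 2 := by ring
      _ ≤ 48 * c * K ^ 20 + 4 * c * K ^ 20 + 2 * c * K ^ 20 := by
        gcongr <;> first | exact hK | norm_num
      _ = 54 * (c * K ^ 20) := by ring
      _ ≤ 136 * (c * K ^ 20) := by omega
      _ = 136 * c * K ^ 20 := by ring
  have hR2 : K * (4 ^ (k + I) * (K + 1) + 16 * K ^ 2 * (4 ^ (k + I) * (K + 1))) ≤
      136 * c * K ^ 20 := by
    calc K * (4 ^ (k + I) * (K + 1) + 16 * K ^ 2 * (4 ^ (k + I) * (K + 1)))
        ≤ K * (8 * c * K ^ 17 + 16 * K ^ 2 * (8 * c * K ^ 17)) := by gcongr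
      _ = 8 * c * K ^ 18 + 128 * c * K ^ 20 := by ring
      _ ≤ 8 * c * K ^ 20 + 128 * c * K ^ 20 := by
        gcongr <;> first | exact hK | norm_num
      _ = 136 * c * K ^ 20 := by ring
  have hR3 : K * (4 ^ (k + (I + 1)) * (K + 1)) ≤ 136 * c * K ^ 20 := by
    calc K * (4 ^ (k + (I + 1)) * (K + 1)) = 4 * K * (4 ^ (k + I) * (K + 1)) := by
          rw [← Nat.add_assoc, pow_succ]; ring
      _ ≤ 4 * K * (8 * c * K ^ 17) := by gcongr
      _ = 32 * c * K ^ 18 := by ring
      _ ≤ 136 * c * K ^ 20 := by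
        gcongr <;> first | exact hK | norm_num
  set r := k + (I + 1) with hr
  set P := derivedSeries G r with hP
  -- the derived length of soluble quotients is at most `r`
  have hle : P ≤ derivedSeries G (r + 1) := by
    set N := derivedSeries G (r + 1) with hN
    have hsol : Group.IsSolvable (G ⧸ N) := by
      refine ⟨r + 1, ?_⟩
      rw [← map_derivedSeries_eq (QuotientGroup.mk'_surjective N) (r + 1),
        Subgroup.map_eq_bot_iff, QuotientGroup.ker_mk']
    have h1 := derived_soluble (hX.image (QuotientGroup.mk' N)) (closure_quotient N hXt)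
      (lt_of_le_of_lt (growth_quotient N hX _) hg) hI1 (zas K) hR1
    rw [← hk, ← hr, ← map_derivedSeries_eq (QuotientGroup.mk'_surjective N) r,
      Subgroup.map_eq_bot_iff, QuotientGroup.ker_mk'] at h1
    exact h1
  refine ⟨r, ?_, ?_, ?_⟩
  · exact (gen_derivedSeries hX hXt hg r hR3 r le_rfl).fg hX
  · exact le_antisymm (derivedSeries_antitone G (Nat.le_succ r)) hle
  · refine exists_nilpotent kron (hX.image (QuotientGroup.mk' P))
      (lt_of_le_of_lt (growth_quotient P hX _) hg) hR2 r ?_ ?_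
    · rw [← map_derivedSeries_eq (QuotientGroup.mk'_surjective P) r,
        Subgroup.map_eq_bot_iff, QuotientGroup.ker_mk']
    · intro i hi
      refine (gen_derivedSeries (hX.image (QuotientGroup.mk' P)) (closure_quotient P hXt)
        (lt_of_le_of_lt (growth_quotient P hX _) hg) (k + I) ?_ i (by omega)).mono ?_
      · exact le_trans (Nat.mul_le_mul_left _ (Nat.le_add_right _ _)) hR2
      · exact Nat.mul_le_mul_right _ (Nat.pow_le_pow_right (by norm_num) (by omega))

/-- Finite-by-(virtually nilpotent) groups are virtually nilpotent. -/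
theorem virtNilpotent_of_finite_normal {G : Type*} [Group G] (P : Subgroup G) [hPn : P.Normal]
    [Finite P] (h : VirtNilpotent (G ⧸ P)) : VirtNilpotent G := by
  obtain ⟨H, hH, hnil⟩ := h
  have hH' : (H.comap (QuotientGroup.mk' P)).FiniteIndex :=
    ⟨by
      rw [Subgroup.index_comap_of_surjective _ (QuotientGroup.mk'_surjective P)]
      exact hH.index_ne_zero⟩
  set C := (MulAut.conjNormal (H := P)).ker with hC
  have hCf : C.FiniteIndex := inferInstance
  set H₀ := H.comap (QuotientGroup.mk' P) ⊓ C with hH₀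
  refine ⟨H₀, inferInstance, ?_⟩
  let f : H₀ →* H :=
    { toFun := fun x => ⟨QuotientGroup.mk' P x, x.2.1⟩
      map_one' := by ext; simp
      map_mul' := by intro x y; ext; simp }
  have hker : f.ker ≤ Subgroup.center H₀ := by
    intro x hx
    rw [Subgroup.mem_center_iff]
    intro y
    have h1 : (x : G) ∈ P := by
      have h2 : f x = 1 := hx
      have h3 := congrArg (fun z : H => (z : G ⧸ P)) h2
      exact (QuotientGroup.eq_one_iff (x : G)).1 h3
    have h4 : (y : G) ∈ C := y.2.2
    have h5 : MulAut.conjNormal (H := P) (y : G) = 1 := h4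
    have h6 := congrArg (fun e : MulAut P => ((e ⟨x, h1⟩ : P) : G)) h5
    simp only [MulAut.conjNormal_apply, MulAut.one_apply] at h6
    apply Subtype.ext
    show (y : G) * x = x * y
    rw [← mul_inv_eq_iff_eq_mul]
    exact h6
  exact Subgroup.isNilpotent_of_ker_le_center f hker

/-- Single scale version of the main result. -/
theorem virtNilpotent_of_not_perfectByNilpotent (kron : KronStatement)
    (zas : ∀ D : ℕ, IrrBound D (7 * Nat.log 2 D + 18)) {G : Type u} [Group G] {X : Set G}
    (hX : X.Finite) (hXt : Subgroup.closure X = ⊤) (hG : ¬ PerfectByNilpotent G) {K : ℕ}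
    (hK : 1 ≤ K) (hg : growth X (136 * 4 ^ 18 * K ^ 20) < 2 ^ K) : VirtNilpotent G := by
  obtain ⟨r, h1, h2, h3⟩ := structure_single_scale kron zas hX hXt hK hg
  rcases finite_or_infinite (derivedSeries G r) with hfin | hinf
  · exact virtNilpotent_of_finite_normal _ h3
  · exfalso
    apply hG
    refine ⟨derivedSeries G r, inferInstance, h1, hinf, ?_, ?_, h3⟩
    · rw [← derivedSeries_succ, h2]
    · refine ⟨r, ?_⟩
      rw [← map_derivedSeries_eq (QuotientGroup.mk'_surjective (derivedSeries G r)) r,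
        Subgroup.map_eq_bot_iff, QuotientGroup.ker_mk']

/-- Residually soluble groups have no nontrivial perfect subgroups. -/
theorem not_perfectByNilpotent_of_resSoluble {G : Type u} [Group G] (hG : ResSoluble G) :
    ¬ PerfectByNilpotent G := by
  rintro ⟨P, _, _, hinf, hperf, _, _⟩
  have h0 : ∀ n, P ≤ derivedSeries G n := by
    intro n
    induction n with
    | zero => simp
    | succ n ih =>
      rw [derivedSeries_succ]
      calc P = ⁅P, P⁆ := hperf.symm
        _ ≤ _ := Subgroup.commutator_mono ih ih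
  have h1 : P = ⊥ := by
    rw [eq_bot_iff]
    intro g hg
    rw [Subgroup.mem_bot]
    by_contra hne
    obtain ⟨N, hN, ⟨n, hn⟩, hgN⟩ := hG g hne
    apply hgN
    rw [← map_derivedSeries_eq (QuotientGroup.mk'_surjective N) n] at hn
    have h2 : QuotientGroup.mk' N g ∈ (derivedSeries G n).map (QuotientGroup.mk' N) :=
      ⟨g, h0 n hg, rfl⟩
    rw [hn, Subgroup.mem_bot] at h2
    exact (QuotientGroup.eq_one_iff g).1 h2
  rw [h1] at hinf
  exact hinf.not_finite inferInstance

end Pool.Agent.Helper5.Gap
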