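import Pool.Agent.Helper5.GapBasic

open scoped commutatorElement

namespace Pool.Agent.Helper5.Gap

variable {G : Type*} [Group G] {X : Set G}

/-- A subgroup that is mapped into itself by conjugation with all `x ∈ X` and their inverses is
normal when `X` generates. -/
theorem normal_of_generators (hXt : Subgroup.closure X = ⊤) (N : Subgroup G)
    (h : ∀ x ∈ ball X 1, ∀ n ∈ N, x * n * x⁻¹ ∈ N) : N.Normal := by
  constructor
  intro n hn g
  have hg : g ∈ Subgroup.closure X := by rw [hXt]; trivial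
  induction hg using Subgroup.closure_induction'' generalizing n with
  | mem x hx => exact h x (mem_ball_one hx) n hn
  | inv_mem x hx => exact h _ (inv_mem_ball (mem_ball_one hx)) n hn
  | one => simpa using hn
  | mul x y _ _ hx hy =>
    have := hx _ (hy n hn)
    simpa [mul_assoc] using this

/-- Milnor's argument: a normal closure of short elements is generated by short elements
when the growth is small. -/
theorem NGen.gen (hX : X.Finite) (hXt : Subgroup.closure X = ⊤) {K R ℓ : ℕ}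
    (hg : growth X R < 2 ^ K) (hR : K * (ℓ + 2 * K) ≤ R) {N : Subgroup G} (hN : N.Normal)
    (h : NGen X ℓ N) : Gen X (ℓ + 2 * K) N := by
  classical
  set T : ℕ → Set G := fun m => {y | ∃ g ∈ ball X m, ∃ s ∈ (N : Set G) ∩ ball X ℓ, y = g * s * g⁻¹}
    with hT
  set S : ℕ → Subgroup G := fun m => Subgroup.closure (T m) with hS
  have hTmono : ∀ {m n : ℕ}, m ≤ n → T m ⊆ T n := by
    rintro m n hmn y ⟨g, hg, s, hs, rfl⟩
    exact ⟨g, ball_mono hmn hg, s, hs, rfl⟩
  have hSmono : ∀ {m n : ℕ}, m ≤ n → S m ≤ S n := fun hmn =>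
    Subgroup.closure_mono (hTmono hmn)
  have hTN : ∀ m, T m ⊆ (N : Set G) ∩ ball X (ℓ + 2 * m) := by
    rintro m y ⟨g, hg, s, hs, rfl⟩
    exact ⟨hN.conj_mem s hs.1 g, conj_mem_ball hg hs.2⟩
  by_cases hstop : ∃ m < K, S (m + 1) ≤ S m
  · obtain ⟨m, hm, hSm⟩ := hstop
    have hnorm : (S m).Normal := by
      refine normal_of_generators hXt _ ?_
      intro x hx n hn
      apply hSm
      have hn' : n ∈ Subgroup.closure (T m) := hn
      have : MulAut.conj x n ∈ (Subgroup.closure (T m)).map (MulAut.conj x).toMonoidHom :=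
        ⟨n, hn', rfl⟩
      rw [MonoidHom.map_closure] at this
      refine Subgroup.closure_mono ?_ this
      rintro _ ⟨y, ⟨g, hg, s, hs, rfl⟩, rfl⟩
      refine ⟨x * g, ?_, s, hs, ?_⟩
      · rw [add_comm]; exact mul_mem_ball hx hg
      · simp [MulAut.conj_apply, mul_assoc]
    have h1 : N ≤ S m := by
      refine h.trans (Subgroup.normalClosure_le_normal ?_)
      intro s hs
      exact Subgroup.subset_closure ⟨1, one_mem_ball m, s, hs, by simp⟩
    refine h1.trans (Subgroup.closure_mono ?_)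
    refine (hTN m).trans (Set.inter_subset_inter_right _ (ball_mono (by omega)))
  · exfalso
    push Not at hstop
    have key : ∀ m ≤ K, Lev X (ℓ + 2 * K) (S m) (S 0) m := by
      intro m
      induction m with
      | zero => intro _; exact .zero le_rfl
      | succ m ih =>
        intro hm
        have h1 : ¬ (T (m + 1) ⊆ (S m : Set G)) := by
          intro h2
          exact hstop m (by omega) ((Subgroup.closure_le _).2 h2)
        obtain ⟨y, hy, hy'⟩ := Set.not_subset.1 h1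
        exact .step (hSmono (Nat.le_succ m)) (Subgroup.subset_closure hy) hy'
          (ball_mono (by omega) (hTN _ hy).2) (ih (by omega))
    exact absurd ((key K le_rfl).two_pow_le hX hR) (not_le.2 hg)

theorem ngen_commutator {ℓ₁ ℓ₂ : ℕ} {M N : Subgroup G} (_ : M.Normal) (_ : N.Normal)
    (gM : Gen X ℓ₁ M) (gN : Gen X ℓ₂ N) : NGen X (2 * (ℓ₁ + ℓ₂)) ⁅M, N⁆ := by
  set T : Subgroup G :=
    Subgroup.normalClosure (((⁅M, N⁆ : Subgroup G) : Set G) ∩ ball X (2 * (ℓ₁ + ℓ₂))) with hT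
  set q := QuotientGroup.mk' T with hq
  have h0 : ∀ m ∈ (M : Set G) ∩ ball X ℓ₁, ∀ n ∈ (N : Set G) ∩ ball X ℓ₂,
      q m * q n = q n * q m := by
    intro m hm n hn
    have h1 : ⁅m, n⁆ ∈ T := by
      apply Subgroup.subset_normalClosure
      exact ⟨Subgroup.commutator_mem_commutator hm.1 hn.1, commutator_mem_ball hm.2 hn.2⟩
    have h2 : q ⁅m, n⁆ = 1 := (QuotientGroup.eq_one_iff _).2 h1
    rw [map_commutatorElement, commutatorElement_eq_one_iff_mul_comm] at h2
    exact h2
  have h1 : ∀ m ∈ (M : Set G) ∩ ball X ℓ₁, ∀ n ∈ N, q m * q n = q n * q m := by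
    intro m hm
    have : N ≤ (Subgroup.centralizer {q m}).comap q := by
      refine gN.trans ((Subgroup.closure_le _).2 ?_)
      intro n hn
      simp only [Subgroup.coe_comap, Set.mem_preimage, SetLike.mem_coe,
        Subgroup.mem_centralizer_iff, Set.mem_singleton_iff, forall_eq]
      exact h0 m hm n hn
    intro n hn
    have := this hn
    simpa only [Subgroup.mem_comap, Subgroup.mem_centralizer_iff, Set.mem_singleton_iff,
      forall_eq] using this
  have h2 : ∀ n ∈ N, ∀ m ∈ M, q m * q n = q n * q m := by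
    intro n hn
    have : M ≤ (Subgroup.centralizer {q n}).comap q := by
      refine gM.trans ((Subgroup.closure_le _).2 ?_)
      intro m hm
      simp only [Subgroup.coe_comap, Set.mem_preimage, SetLike.mem_coe,
        Subgroup.mem_centralizer_iff, Set.mem_singleton_iff, forall_eq]
      exact (h1 m hm n hn).symm
    intro m hm
    have := this hm
    simpa only [Subgroup.mem_comap, Subgroup.mem_centralizer_iff, Set.mem_singleton_iff,
      forall_eq, eq_comm] using this
  unfold NGen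
  rw [Subgroup.commutator_le]
  intro m hm n hn
  have h3 : q ⁅m, n⁆ = 1 := by
    rw [map_commutatorElement, commutatorElement_eq_one_iff_mul_comm]
    exact h2 n hn m hm
  exact (QuotientGroup.eq_one_iff _).1 h3

/-- The terms of the derived series are generated by short elements. -/
theorem gen_derivedSeries (hX : X.Finite) (hXt : Subgroup.closure X = ⊤) {K R : ℕ}
    (hg : growth X R < 2 ^ K) (r : ℕ) (hR : K * (4 ^ r * (K + 1)) ≤ R) :
    ∀ i ≤ r, Gen X (4 ^ i * (K + 1)) (derivedSeries G i) := by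
  have key : ∀ i ≤ r, ∃ ℓ, ℓ + K ≤ 4 ^ i * (K + 1) ∧ Gen X ℓ (derivedSeries G i) := by
    intro i
    induction i with
    | zero =>
      intro _
      refine ⟨1, by omega, ?_⟩
      rw [derivedSeries_zero]
      exact gen_top hXt
    | succ i ih =>
      intro hi
      obtain ⟨ℓ, hℓ, hgen⟩ := ih (by omega)
      have h1 : 4 ^ (i + 1) * (K + 1) ≤ 4 ^ r * (K + 1) :=
        Nat.mul_le_mul_right _ (Nat.pow_le_pow_right (by norm_num) hi)
      have h2 : 2 * (ℓ + ℓ) + 2 * K + K ≤ 4 ^ (i + 1) * (K + 1) := by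
        rw [pow_succ]; nlinarith
      refine ⟨2 * (ℓ + ℓ) + 2 * K, h2, ?_⟩
      rw [derivedSeries_succ]
      refine NGen.gen hX hXt hg ?_ inferInstance (ngen_commutator inferInstance inferInstance hgen hgen)
      refine le_trans (Nat.mul_le_mul_left _ ?_) hR
      omega
  intro i hi
  obtain ⟨ℓ, hℓ, hgen⟩ := key i hi
  exact hgen.mono (by omega)

/-- The three subgroups lemma in the form `[A, [D, D]] ≤ [[A, D], D]`. -/
theorem commutator_commutator_le' (A D : Subgroup G) [A.Normal] [D.Normal] :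
    ⁅A, ⁅D, D⁆⁆ ≤ ⁅⁅A, D⁆, D⁆ := by
  set N : Subgroup G := ⁅⁅A, D⁆, D⁆ with hN
  set q := QuotientGroup.mk' N with hq
  have h1 : ⁅⁅A.map q, D.map q⁆, D.map q⁆ = ⊥ := by
    rw [← Subgroup.map_commutator, ← Subgroup.map_commutator, Subgroup.map_eq_bot_iff,
      QuotientGroup.ker_mk']
  have h2 : ⁅⁅D.map q, D.map q⁆, A.map q⁆ = ⊥ := by
    refine Subgroup.commutator_commutator_eq_bot_of_rotate ?_ h1
    rw [Subgroup.commutator_comm (D.map q) (A.map q)]
    exact h1
  rw [← Subgroup.map_commutator, ← Subgroup.map_commutator,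
    Subgroup.map_eq_bot_iff, QuotientGroup.ker_mk'] at h2
  rw [Subgroup.commutator_comm A ⁅D, D⁆]
  exact h2

/-- The main chain: from `A` down to `[A, D j]` there are `2 ^ j` levels. -/
theorem chain_levels (hX : X.Finite) (hXt : Subgroup.closure X = ⊤) {K R L Λ : ℕ}
    (hg : growth X R < 2 ^ K) (hR : K * (Λ + 2 * K) ≤ R) (D : ℕ → Subgroup G)
    (hDn : ∀ j, (D j).Normal) (hD : ∀ j, D (j + 1) = ⁅D j, D j⁆) {I : ℕ}
    (hDg : ∀ j ≤ I, Gen X L (D j))
    (H : ∀ B : Subgroup G, B.Normal → Gen X Λ B → B ≤ ⁅B, D 0⁆ → B = ⊥) :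
    ∀ j ≤ I, ∀ (A : Subgroup G) (ℓ : ℕ), A.Normal → Gen X ℓ A →
      (ℓ + 2 * L + 2 * K) * 2 ^ j ≤ Λ → ⁅A, D j⁆ ≠ ⊥ → Lev X Λ A ⁅A, D j⁆ (2 ^ j) := by
  intro j
  induction j with
  | zero =>
    intro _ A ℓ hA hAg hΛ hne
    have hΛ' : ℓ ≤ Λ := by omega
    have hA0 : A ≠ ⊥ := by
      rintro rfl
      exact hne (Subgroup.commutator_bot_left _)
    have h1 : ¬ A ≤ ⁅A, D 0⁆ := fun h => hA0 (H A hA (hAg.mono hΛ') h)
    have h2 : ¬ ((A : Set G) ∩ ball X ℓ ⊆ (⁅A, D 0⁆ : Subgroup G)) := by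
      intro h
      exact h1 (hAg.trans ((Subgroup.closure_le _).2 h))
    obtain ⟨a, ha, ha'⟩ := Set.not_subset.1 h2
    have h3 : ⁅A, D 0⁆ ≤ A := Subgroup.commutator_le_left _ _
    exact .step h3 ha.1 ha' (ball_mono hΛ' ha.2) (.zero le_rfl)
  | succ j ih =>
    intro hj A ℓ hA hAg hΛ hne
    have := hDn j
    have h1 : ⁅A, D (j + 1)⁆ ≤ ⁅⁅A, D j⁆, D j⁆ := by
      rw [hD]; exact commutator_commutator_le' A (D j)
    have h2 : ⁅⁅A, D j⁆, D j⁆ ≠ ⊥ := fun h => hne (le_bot_iff.1 (h ▸ h1))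
    have h3 : ⁅A, D j⁆ ≠ ⊥ := by
      intro h
      exact h2 (by rw [h]; exact Subgroup.commutator_bot_left _)
    have h2j : 0 < 2 ^ j := by positivity
    have hΛ1 : (ℓ + 2 * L + 2 * K) * 2 ^ j ≤ Λ := by
      refine le_trans (Nat.mul_le_mul_left _ ?_) hΛ
      exact Nat.pow_le_pow_right (by norm_num) (by omega)
    have hΛ2 : (2 * (ℓ + L) + 2 * K + 2 * L + 2 * K) * 2 ^ j ≤ Λ := by
      rw [pow_succ] at hΛ
      nlinarith
    have h4 : Gen X (2 * (ℓ + L) + 2 * K) ⁅A, D j⁆ := by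
      refine NGen.gen hX hXt hg ?_ inferInstance (ngen_commutator hA (hDn j) hAg
        (hDg j (by omega)))
      refine le_trans (Nat.mul_le_mul_left _ ?_) hR
      have : (2 * (ℓ + L) + 2 * K + 2 * L + 2 * K) * 1 ≤ Λ :=
        le_trans (Nat.mul_le_mul_left _ h2j) hΛ2
      omega
    have h5 := ih (by omega) A ℓ hA hAg hΛ1 h3
    have h6 := ih (by omega) ⁅A, D j⁆ _ inferInstance h4 hΛ2 h2
    have h7 := (h5.trans h6).down h1
    rw [pow_succ, mul_two]
    exact h7

/-- Bounding the derived length. -/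
theorem derived_bound (hX : X.Finite) (hXt : Subgroup.closure X = ⊤) {K R L Λ : ℕ}
    (hg : growth X R < 2 ^ K) (hR : K * (Λ + 2 * K) ≤ R) (D : ℕ → Subgroup G)
    (hDn : ∀ j, (D j).Normal) (hD : ∀ j, D (j + 1) = ⁅D j, D j⁆) {I : ℕ}
    (hI : K ≤ 2 ^ I) (hDg : ∀ j ≤ I, Gen X L (D j)) (hΛ : (L + 2 * L + 2 * K) * 2 ^ I ≤ Λ)
    (H : ∀ B : Subgroup G, B.Normal → Gen X Λ B → B ≤ ⁅B, D 0⁆ → B = ⊥) :
    D (I + 1) = ⊥ := by
  by_contra hne
  have hanti : ∀ j, D j ≤ D 0 := by
    intro j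
    induction j with
    | zero => exact le_rfl
    | succ j ih =>
      rw [hD]
      have := hDn j
      exact (Subgroup.commutator_le_left _ _).trans ih
  have h1 : ⁅D 0, D I⁆ ≠ ⊥ := by
    intro h
    apply hne
    rw [hD, eq_bot_iff, ← h]
    exact Subgroup.commutator_mono (hanti I) le_rfl
  have h2 := chain_levels hX hXt hg hR D hDn hD hDg H I le_rfl (D 0) L (hDn 0)
    (hDg 0 (Nat.zero_le _)) hΛ h1
  have h3 := h2.lt_of_growth hX (R := R) (K := K)
    (le_trans (Nat.mul_le_mul_left _ (by omega)) hR) hg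
  omega

end Pool.Agent.Helper5.Gap
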