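import Pool.Agent.Helper5.GapFinite

open scoped commutatorElement

namespace Pool.Agent.Helper5.Gap

universe w

section

variable {k : Type*} [Field k]

/-- Quasi-unipotent operators. -/
def QU {V : Type*} [AddCommGroup V] [Module k V] (f : Module.End k V) : Prop :=
  ∃ N : ℕ, 0 < N ∧ IsNilpotent (f ^ N - 1)

theorem intertwine_pow {V V' : Type*} [AddCommGroup V] [Module k V] [AddCommGroup V'] [Module k V']
    (π : V →ₗ[k] V') (f : Module.End k V) (f' : Module.End k V')
    (h : ∀ v, π (f v) = f' (π v)) (N c : ℕ) (v : V) :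
    π (((f ^ N - 1) ^ c) v) = ((f' ^ N - 1) ^ c) (π v) := by
  have h1 : ∀ n v, π ((f ^ n) v) = (f' ^ n) (π v) := by
    intro n
    induction n with
    | zero => intro v; simp
    | succ n ih => intro v; rw [pow_succ, pow_succ, Module.End.mul_apply, Module.End.mul_apply,
        ih, h]
  induction c generalizing v with
  | zero => simp
  | succ c ih =>
    rw [pow_succ, pow_succ, Module.End.mul_apply, Module.End.mul_apply, ih]
    congr 1
    simp [h1]

theorem QU.of_injective {V V' : Type*} [AddCommGroup V] [Module k V] [AddCommGroup V']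
    [Module k V'] {π : V →ₗ[k] V'} (hπ : Function.Injective π) {f : Module.End k V}
    {f' : Module.End k V'} (h : ∀ v, π (f v) = f' (π v)) (hf : QU f') : QU f := by
  obtain ⟨N, hN, c, hc⟩ := hf
  refine ⟨N, hN, c, ?_⟩
  ext v
  apply hπ
  rw [intertwine_pow π f f' h, hc]
  simp

theorem QU.of_surjective {V V' : Type*} [AddCommGroup V] [Module k V] [AddCommGroup V']
    [Module k V'] {π : V →ₗ[k] V'} (hπ : Function.Surjective π) {f : Module.End k V}
    {f' : Module.End k V'} (h : ∀ v, π (f v) = f' (π v)) (hf : QU f) : QU f' := by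
  obtain ⟨N, hN, c, hc⟩ := hf
  refine ⟨N, hN, c, ?_⟩
  ext v'
  obtain ⟨v, rfl⟩ := hπ v'
  rw [← intertwine_pow π f f' h, hc]
  simp

theorem exists_minimal_invariant {V : Type*} [AddCommGroup V] [Module k V] [Module.Finite k V]
    [Nontrivial V] {G : Type*} [Group G] (ρ : G →* Module.End k V) :
    ∃ U : Submodule k V, U ≠ ⊥ ∧ (∀ g : G, ∀ w ∈ U, ρ g w ∈ U) ∧
      ∀ U' ≤ U, (∀ g : G, ∀ w ∈ U', ρ g w ∈ U') → U' = ⊥ ∨ U' = U := by
  set 𝒮 : Set (Submodule k V) := {P | P ≠ ⊥ ∧ ∀ g, ∀ w ∈ P, ρ g w ∈ P} with h𝒮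
  have hne : 𝒮.Nonempty := ⟨⊤, top_ne_bot, fun _ _ _ => Submodule.mem_top⟩
  obtain ⟨P, ⟨hP0, hPi⟩, hPmin⟩ :=
    WellFounded.has_min (wellFounded_lt (α := Submodule k V)) 𝒮 hne
  refine ⟨P, hP0, hPi, fun U' hU' hi => ?_⟩
  by_contra hcon
  push Not at hcon
  exact hPmin U' ⟨hcon.1, hi⟩ (lt_of_le_of_ne hU' hcon.2)

/-- A finite-index subgroup acts unipotently. -/
theorem exists_unipotent_subgroup {G : Type*} [Group G] (r : ℕ) (hr : derivedSeries G r = ⊥)
    (S : ℕ → Set G) (hS : ∀ i < r, (S i).Finite)
    (hDS : ∀ i < r, derivedSeries G i = Subgroup.closure (S i)) :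
    ∀ (n : ℕ) (V : Type w) [AddCommGroup V] [Module k V] [Module.Finite k V]
      (ρ : G →* Module.End k V), Module.finrank k V ≤ n →
      (∀ i < r, ∀ s ∈ S i, QU (ρ s)) →
      ∃ G₀ : Subgroup G, G₀.FiniteIndex ∧ ∃ (c : ℕ) (F : ℕ → Submodule k V), F 0 = ⊤ ∧ F c = ⊥ ∧
        ∀ j, ∀ g ∈ G₀, ∀ v ∈ F j, ρ g v - v ∈ F (j + 1) := by
  intro n
  induction n with
  | zero =>
    intro V _ _ _ ρ hn _
    have hsub : Subsingleton V := Module.finrank_zero_iff.1 (Nat.le_zero.1 hn)
    refine ⟨⊤, inferInstance, 0, fun _ => ⊤, rfl, Subsingleton.elim _ _, ?_⟩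
    intro _ _ _ _ _
    trivial
  | succ n ih =>
    intro V _ _ _ ρ hn hq
    rcases subsingleton_or_nontrivial V with hsub | hnt
    · refine ⟨⊤, inferInstance, 0, fun _ => ⊤, rfl, Subsingleton.elim _ _, ?_⟩
      intro _ _ _ _ _
      trivial
    obtain ⟨U, hU0, hUi, hUmin⟩ := exists_minimal_invariant ρ
    -- the sub
    let ρU : G →* Module.End k U :=
      { toFun := fun g => (ρ g).restrict (hUi g)
        map_one' := by
          ext u; simp [LinearMap.restrict_apply]
        map_mul' := by
          intro g h; ext u; simp [LinearMap.restrict_apply] }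
    have hρU : ∀ g (u : U), ((ρU g u : U) : V) = ρ g u := fun g u => rfl
    let Q := V ⧸ U
    let ρQ : G →* Module.End k (V ⧸ U) :=
      { toFun := fun g => U.mapQ U (ρ g) (hUi g)
        map_one' := by
          ext v; simp
        map_mul' := by
          intro g h; ext v; simp }
    have hρQ : ∀ g (v : V), ρQ g (U.mkQ v) = U.mkQ (ρ g v) := fun g v => rfl
    -- quotient part
    have hfr : Module.finrank k (V ⧸ U) ≤ n := by
      have h1 := Submodule.finrank_quotient_add_finrank U
      have h2 : 0 < Module.finrank k U := by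
        rw [Module.finrank_pos_iff]
        exact Submodule.nontrivial_iff_ne_bot.2 hU0
      omega
    obtain ⟨G₂, hG₂, c, F, hF0, hFc, hF⟩ := ih (V ⧸ U) ρQ hfr (fun i hi s hs =>
      QU.of_surjective (π := U.mkQ) (Submodule.mkQ_surjective U) (fun v => (hρQ s v).symm)
        (hq i hi s hs))
    -- sub part
    set τ : G →* (Module.End k U)ˣ := MonoidHom.toHomUnits ρU with hτ
    have hτv : ∀ g, ((τ g : (Module.End k U)ˣ) : Module.End k U) = ρU g := fun g => rfl
    set Γ := G ⧸ τ.ker with hΓ
    set σ : Γ →* Module.End k U := (Units.coeHom _).comp (QuotientGroup.kerLift τ) with hσ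
    have hσmk : ∀ g : G, σ (QuotientGroup.mk g) = ρU g := fun g => rfl
    have hσinj : Function.Injective σ :=
      Units.val_injective.comp (QuotientGroup.kerLift_injective τ)
    have hfinΓ : Finite Γ := by
      have hmapD : ∀ i, derivedSeries Γ i = (derivedSeries G i).map (QuotientGroup.mk' τ.ker) := by
        intro i
        exact (map_derivedSeries_eq (QuotientGroup.mk'_surjective τ.ker) i).symm
      refine finite_of_quasiunipotent σ hσinj ?_ r ?_
        (fun i => (QuotientGroup.mk' τ.ker) '' (S i)) (fun i hi => (hS i hi).image _) ?_ ?_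
      · intro U' hU'
        have h1 : ∀ g : G, ∀ w ∈ U'.map U.subtype, ρ g w ∈ U'.map U.subtype := by
          rintro g _ ⟨u, hu, rfl⟩
          exact ⟨ρU g u, hU' (QuotientGroup.mk g) u hu, rfl⟩
        have h2 : U'.map U.subtype ≤ U := Submodule.map_subtype_le U U'
        rcases hUmin _ h2 h1 with h | h
        · left
          rw [eq_bot_iff]
          intro u hu
          have hu' : (u : V) ∈ U'.map U.subtype := ⟨u, hu, rfl⟩
          rw [h, Submodule.mem_bot] at hu'
          rw [Submodule.mem_bot]
          exact Subtype.ext hu'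
        · right
          rw [eq_top_iff]
          intro u _
          have hu : (u : V) ∈ U'.map U.subtype := by rw [h]; exact u.2
          obtain ⟨u', hu', he⟩ := hu
          have : u' = u := Subtype.ext he
          rwa [← this]
      · rw [hmapD, hr, Subgroup.map_bot]
      · intro i hi
        rw [hmapD, hDS i hi, MonoidHom.map_closure]
      · rintro i hi _ ⟨s, hs, rfl⟩
        exact QU.of_injective (π := U.subtype) U.injective_subtype (f := σ (QuotientGroup.mk s))
          (f' := ρ s) (fun v => rfl) (hq i hi s hs)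
    have hker : τ.ker.FiniteIndex := Subgroup.finiteIndex_of_finite_quotient
    refine ⟨τ.ker ⊓ G₂, inferInstance, c + 1,
      fun j => if j ≤ c then (F j).comap U.mkQ else ⊥, ?_, ?_, ?_⟩
    · simp [hF0]
    · simp
    · intro j g hg v hv
      beta_reduce at hv ⊢
      rcases lt_trichotomy j c with hj | hj | hj
      · rw [if_pos hj.le] at hv
        rw [if_pos (by omega)]
        have := hF j g hg.2 (U.mkQ v) hv
        rw [hρQ, ← map_sub] at this
        exact this
      · subst hj
        rw [if_pos le_rfl, hFc] at hv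
        have hvU : v ∈ U := by
          have : U.mkQ v = 0 := hv
          rwa [Submodule.mkQ_apply, Submodule.Quotient.mk_eq_zero] at this
        rw [if_neg (by omega), Submodule.mem_bot]
        have h1 : ρU g = 1 := by
          have h2 : τ g = 1 := hg.1
          rw [← hτv, h2, Units.val_one]
        have h3 := hρU g ⟨v, hvU⟩
        rw [h1] at h3
        simp only [Module.End.one_apply] at h3
        rw [← h3, sub_self]
      · rw [if_neg (by omega), Submodule.mem_bot] at hv
        rw [hv, if_neg (by omega)]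
        simp

end

end Pool.Agent.Helper5.Gap
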