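import Pool.Agent.Helper5.GapDefs

open scoped commutatorElement

namespace Pool.Agent.Helper5.Gap

variable {G : Type*} [Group G] {X : Set G}

theorem one_mem_ball (n : ℕ) : (1 : G) ∈ ball X n :=
  ⟨[], by simp, by simp, by simp⟩

theorem mem_ball_one {x : G} (hx : x ∈ X) : x ∈ ball X 1 :=
  ⟨[x], by simp, by simp [hx], by simp⟩

theorem ball_mono {m n : ℕ} (h : m ≤ n) : ball X m ⊆ ball X n := by
  rintro g ⟨l, hl, hx, rfl⟩
  exact ⟨l, hl.trans h, hx, rfl⟩

theorem mul_mem_ball {g h : G} {m n : ℕ} (hg : g ∈ ball X m) (hh : h ∈ ball X n) :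
    g * h ∈ ball X (m + n) := by
  obtain ⟨l, hl, hx, rfl⟩ := hg
  obtain ⟨l', hl', hx', rfl⟩ := hh
  refine ⟨l ++ l', by simp; omega, ?_, by simp⟩
  intro x hxm
  rcases List.mem_append.1 hxm with h | h
  · exact hx x h
  · exact hx' x h

theorem inv_mem_ball {g : G} {n : ℕ} (hg : g ∈ ball X n) : g⁻¹ ∈ ball X n := by
  obtain ⟨l, hl, hx, rfl⟩ := hg
  refine ⟨(l.map (fun x => x⁻¹)).reverse, by simpa using hl, ?_, ?_⟩
  · intro x hxm
    simp only [List.mem_reverse, List.mem_map] at hxm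
    obtain ⟨y, hy, rfl⟩ := hxm
    rw [inv_inv]
    exact (hx y hy).symm
  · rw [List.prod_inv_reverse]

theorem pow_mem_ball {g : G} {m : ℕ} (hg : g ∈ ball X m) (n : ℕ) : g ^ n ∈ ball X (n * m) := by
  induction n with
  | zero => simpa using one_mem_ball (X := X) (0 * m)
  | succ n ih =>
    rw [pow_succ, Nat.succ_mul]
    exact mul_mem_ball ih hg

theorem conj_mem_ball {g s : G} {m n : ℕ} (hg : g ∈ ball X m) (hs : s ∈ ball X n) :
    g * s * g⁻¹ ∈ ball X (n + 2 * m) := by
  have := mul_mem_ball (mul_mem_ball hg hs) (inv_mem_ball hg)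
  exact ball_mono (by omega) this

theorem commutator_mem_ball {g s : G} {m n : ℕ} (hg : g ∈ ball X m) (hs : s ∈ ball X n) :
    ⁅g, s⁆ ∈ ball X (2 * (m + n)) := by
  rw [commutatorElement_def]
  have := mul_mem_ball (mul_mem_ball (mul_mem_ball hg hs) (inv_mem_ball hg)) (inv_mem_ball hs)
  exact ball_mono (by omega) this

theorem ball_finite (hX : X.Finite) (n : ℕ) : (ball X n).Finite := by
  have hs : (X ∪ X⁻¹).Finite := hX.union hX.inv
  have h1 : {l : List G | l.length ≤ n ∧ ∀ x ∈ l, x ∈ X ∪ X⁻¹}.Finite := by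
    have : Finite (X ∪ X⁻¹ : Set G) := hs.to_subtype
    refine ((List.finite_length_le (X ∪ X⁻¹ : Set G) n).image
      (List.map Subtype.val)).subset ?_
    rintro l ⟨hl, hx⟩
    refine ⟨l.attach.map (fun y => ⟨y.1, hx y.1 y.2⟩), by simpa using hl, ?_⟩
    simp [List.map_map, Function.comp_def]
  refine (h1.image List.prod).subset ?_
  rintro g ⟨l, hl, hx, rfl⟩
  refine ⟨l, ⟨hl, fun x hxl => ?_⟩, rfl⟩
  rcases hx x hxl with h | h
  · exact Or.inl h
  · exact Or.inr (by simpa using h)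

theorem exists_mem_ball (hX : Subgroup.closure X = ⊤) (g : G) : ∃ n, g ∈ ball X n := by
  have hg : g ∈ Subgroup.closure X := by rw [hX]; trivial
  induction hg using Subgroup.closure_induction with
  | mem x hx => exact ⟨1, mem_ball_one hx⟩
  | one => exact ⟨0, one_mem_ball 0⟩
  | mul x y _ _ hx hy =>
    obtain ⟨m, hm⟩ := hx
    obtain ⟨n, hn⟩ := hy
    exact ⟨m + n, mul_mem_ball hm hn⟩
  | inv x _ hx =>
    obtain ⟨m, hm⟩ := hx
    exact ⟨m, inv_mem_ball hm⟩

/-- A chain of `m` levels from `A` down to `B`, witnessed by elements of the ball of radius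
`ℓ`. -/
inductive Lev (X : Set G) (ℓ : ℕ) : Subgroup G → Subgroup G → ℕ → Prop
  | zero {A B : Subgroup G} (h : B ≤ A) : Lev X ℓ A B 0
  | step {A B C : Subgroup G} {m : ℕ} {a : G} (h : B ≤ A) (ha : a ∈ A) (hb : a ∉ B)
      (hl : a ∈ ball X ℓ) (t : Lev X ℓ B C m) : Lev X ℓ A C (m + 1)

theorem Lev.le {ℓ : ℕ} {A B : Subgroup G} {m : ℕ} (h : Lev X ℓ A B m) : B ≤ A := by
  induction h with
  | zero h => exact h
  | step h _ _ _ _ ih => exact ih.trans h

theorem Lev.down {ℓ : ℕ} {A B B' : Subgroup G} {m : ℕ} (h : Lev X ℓ A B m) (hB : B' ≤ B) :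
    Lev X ℓ A B' m := by
  induction h with
  | zero h => exact .zero (hB.trans h)
  | step h ha hb hl _ ih => exact .step h ha hb hl (ih hB)

theorem Lev.up {ℓ : ℕ} {A A' B : Subgroup G} {m : ℕ} (h : Lev X ℓ A B m) (hA : A ≤ A') :
    Lev X ℓ A' B m := by
  cases h with
  | zero h => exact .zero (h.trans hA)
  | step h ha hb hl t => exact .step (h.trans hA) (hA ha) hb hl t

theorem Lev.trans {ℓ : ℕ} {A B C : Subgroup G} {m n : ℕ} (h : Lev X ℓ A B m)
    (h' : Lev X ℓ B C n) : Lev X ℓ A C (m + n) := by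
  induction h with
  | zero h => rw [zero_add]; exact h'.up h
  | step h ha hb hl _ ih => rw [Nat.add_right_comm]; exact .step h ha hb hl (ih h')

theorem Lev.trunc {ℓ : ℕ} {A B : Subgroup G} {m n : ℕ} (h : Lev X ℓ A B m) (hn : n ≤ m) :
    Lev X ℓ A B n := by
  induction h generalizing n with
  | zero h => obtain rfl : n = 0 := by omega
              exact .zero h
  | step h ha hb hl t ih =>
    rcases n with _ | n
    · exact .zero (t.le.trans h)
    · exact .step h ha hb hl (ih (by omega))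

theorem Lev.mono {ℓ ℓ' : ℕ} {A B : Subgroup G} {m : ℕ} (h : Lev X ℓ A B m) (hl : ℓ ≤ ℓ') :
    Lev X ℓ' A B m := by
  induction h with
  | zero h => exact .zero h
  | step h ha hb hl' _ ih => exact .step h ha hb (ball_mono hl hl') ih

theorem Lev.exists_finset {ℓ : ℕ} {A B : Subgroup G} {m : ℕ} (h : Lev X ℓ A B m) :
    ∃ P : Finset G, P.card = 2 ^ m ∧ ∀ p ∈ P, p ∈ A ∧ p ∈ ball X (m * ℓ) := by
  classical
  induction h with
  | zero h => exact ⟨{1}, by simp, by simp [one_mem_ball, one_mem]⟩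
  | @step A B C m a h ha hb hl _ ih =>
    obtain ⟨P, hP, hP'⟩ := ih
    refine ⟨P ∪ P.image (fun p => a * p), ?_, ?_⟩
    · rw [Finset.card_union_of_disjoint, Finset.card_image_of_injective _ (mul_right_injective a),
        hP, pow_succ]
      · ring
      · rw [Finset.disjoint_left]
        intro p hp hp'
        obtain ⟨q, hq, rfl⟩ := Finset.mem_image.1 hp'
        apply hb
        have h1 := (hP' _ hp).1
        have h2 := (hP' _ hq).1
        simpa using mul_mem h1 (inv_mem h2)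
    · intro p hp
      rcases Finset.mem_union.1 hp with hp | hp
      · obtain ⟨h1, h2⟩ := hP' p hp
        refine ⟨h h1, ball_mono (Nat.mul_le_mul_right _ (by omega)) h2⟩
      · obtain ⟨q, hq, rfl⟩ := Finset.mem_image.1 hp
        obtain ⟨h1, h2⟩ := hP' q hq
        refine ⟨mul_mem ha (h h1), ?_⟩
        have := mul_mem_ball hl h2
        exact ball_mono (by rw [Nat.succ_mul]; omega) this

theorem card_le_growth (hX : X.Finite) {R : ℕ} (P : Finset G) (hP : ∀ p ∈ P, p ∈ ball X R) :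
    P.card ≤ growth X R := by
  unfold growth
  rw [← Set.ncard_coe_finset]
  exact Set.ncard_le_ncard (fun p hp => hP p (by simpa using hp)) (ball_finite hX R)

/-- Many levels give large growth. -/
theorem Lev.two_pow_le (hX : X.Finite) {ℓ : ℕ} {A B : Subgroup G} {m : ℕ} (h : Lev X ℓ A B m)
    {R : ℕ} (hR : m * ℓ ≤ R) : 2 ^ m ≤ growth X R := by
  obtain ⟨P, hP, hP'⟩ := h.exists_finset
  rw [← hP]
  exact card_le_growth hX P (fun p hp => ball_mono hR (hP' p hp).2)

theorem growth_mono (hX : X.Finite) {m n : ℕ} (h : m ≤ n) : growth X m ≤ growth X n :=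
  Set.ncard_le_ncard (ball_mono h) (ball_finite hX n)

theorem growth_pos (hX : X.Finite) (n : ℕ) : 0 < growth X n := by
  unfold growth
  rw [Set.ncard_pos (ball_finite hX n)]
  exact ⟨1, one_mem_ball n⟩

theorem Lev.lt_of_growth (hX : X.Finite) {ℓ : ℕ} {A B : Subgroup G} {m : ℕ}
    (h : Lev X ℓ A B m) {R K : ℕ} (hR : K * ℓ ≤ R) (hg : growth X R < 2 ^ K) : m < K := by
  by_contra hm
  exact absurd ((h.trunc (not_lt.1 hm)).two_pow_le hX hR) (not_le.2 hg)

/-- `N` is generated by its elements of length at most `ℓ`. -/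
def Gen (X : Set G) (ℓ : ℕ) (N : Subgroup G) : Prop :=
  N ≤ Subgroup.closure ((N : Set G) ∩ ball X ℓ)

/-- `N` is generated as a normal subgroup by its elements of length at most `ℓ`. -/
def NGen (X : Set G) (ℓ : ℕ) (N : Subgroup G) : Prop :=
  N ≤ Subgroup.normalClosure ((N : Set G) ∩ ball X ℓ)

theorem Gen.mono {ℓ ℓ' : ℕ} {N : Subgroup G} (h : Gen X ℓ N) (hl : ℓ ≤ ℓ') : Gen X ℓ' N :=
  h.trans (Subgroup.closure_mono (Set.inter_subset_inter_right _ (ball_mono hl)))

theorem NGen.mono {ℓ ℓ' : ℕ} {N : Subgroup G} (h : NGen X ℓ N) (hl : ℓ ≤ ℓ') : NGen X ℓ' N :=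
  h.trans (Subgroup.normalClosure_mono (Set.inter_subset_inter_right _ (ball_mono hl)))

theorem gen_top (hX : Subgroup.closure X = ⊤) : Gen X 1 (⊤ : Subgroup G) := by
  unfold Gen
  rw [← hX]
  refine Subgroup.closure_mono ?_
  intro x hx
  exact ⟨Subgroup.subset_closure hx, mem_ball_one hx⟩

end Pool.Agent.Helper5.Gap
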