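import Mathlib

set_option autoImplicit false

namespace Pool.Agent.Helper5.PropT

open Finset Matrix

section SL2

variable {p : ℕ} [Fact p.Prime]

/-- upper unipotent -/
def xx (a : ZMod p) : Matrix.SpecialLinearGroup (Fin 2) (ZMod p) :=
  ⟨!![1, a; 0, 1], by simp [Matrix.det_fin_two]⟩

/-- lower unipotent -/
def yy (b : ZMod p) : Matrix.SpecialLinearGroup (Fin 2) (ZMod p) :=
  ⟨!![1, 0; b, 1], by simp [Matrix.det_fin_two]⟩

@[simp] theorem coe_xx (a : ZMod p) : (xx a : Matrix (Fin 2) (Fin 2) (ZMod p)) = !![1, a; 0, 1] := rfl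
@[simp] theorem coe_yy (a : ZMod p) : (yy a : Matrix (Fin 2) (Fin 2) (ZMod p)) = !![1, 0; a, 1] := rfl

theorem xx_mul (a b : ZMod p) : xx a * xx b = xx (a + b) := by
  ext i j
  rw [Matrix.SpecialLinearGroup.coe_mul, coe_xx, coe_xx, coe_xx]
  fin_cases i <;> fin_cases j <;> simp [Matrix.mul_apply, Fin.sum_univ_two, add_comm]

theorem yy_mul (a b : ZMod p) : yy a * yy b = yy (a + b) := by
  ext i j
  rw [Matrix.SpecialLinearGroup.coe_mul, coe_yy, coe_yy, coe_yy]
  fin_cases i <;> fin_cases j <;> simp [Matrix.mul_apply, Fin.sum_univ_two, add_comm]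

theorem xx_zero : xx (0 : ZMod p) = 1 := by
  ext i j
  rw [coe_xx, Matrix.SpecialLinearGroup.coe_one]
  fin_cases i <;> fin_cases j <;> simp

theorem yy_zero : yy (0 : ZMod p) = 1 := by
  ext i j
  rw [coe_yy, Matrix.SpecialLinearGroup.coe_one]
  fin_cases i <;> fin_cases j <;> simp

/-- upper unipotent, as a homomorphism -/
def xHom : Multiplicative (ZMod p) →* Matrix.SpecialLinearGroup (Fin 2) (ZMod p) where
  toFun a := xx a.toAdd
  map_one' := xx_zero
  map_mul' _ _ := (xx_mul _ _).symm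

/-- lower unipotent, as a homomorphism -/
def yHom : Multiplicative (ZMod p) →* Matrix.SpecialLinearGroup (Fin 2) (ZMod p) where
  toFun a := yy a.toAdd
  map_one' := yy_zero
  map_mul' _ _ := (yy_mul _ _).symm

theorem xyx_entries (a b c : ZMod p) :
    (xx a * yy b * xx c) 0 0 = 1 + a * b ∧ (xx a * yy b * xx c) 0 1 = (1 + a * b) * c + a ∧
    (xx a * yy b * xx c) 1 0 = b ∧ (xx a * yy b * xx c) 1 1 = b * c + 1 := by
  rw [Matrix.SpecialLinearGroup.coe_mul, Matrix.SpecialLinearGroup.coe_mul, coe_xx, coe_yy, coe_xx]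
  simp [Matrix.mul_apply, Fin.sum_univ_two]

theorem eq_xyx (g : Matrix.SpecialLinearGroup (Fin 2) (ZMod p)) (hg : g 1 0 ≠ 0) :
    xx ((g 0 0 - 1) / g 1 0) * yy (g 1 0) * xx ((g 1 1 - 1) / g 1 0) = g := by
  obtain ⟨h1, h2, h3, h4⟩ := xyx_entries ((g 0 0 - 1) / g 1 0) (g 1 0) ((g 1 1 - 1) / g 1 0)
  have hdet : g 0 0 * g 1 1 - g 0 1 * g 1 0 = 1 := by
    have := g.2; rwa [Matrix.det_fin_two] at this
  ext i j
  fin_cases i <;> fin_cases j
  · refine h1.trans ?_
    simp only [Fin.zero_eta]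
    field_simp; ring
  · refine h2.trans ?_
    simp only [Fin.zero_eta, Fin.mk_one]
    field_simp
    linear_combination hdet
  · exact h3
  · refine h4.trans ?_
    simp only [Fin.mk_one]
    field_simp; ring

/-- the upper triangular subgroup -/
def Bsub (p : ℕ) [Fact p.Prime] : Subgroup (Matrix.SpecialLinearGroup (Fin 2) (ZMod p)) where
  carrier := {g | g 1 0 = 0}
  one_mem' := by
    change (1 : Matrix.SpecialLinearGroup (Fin 2) (ZMod p)) 1 0 = 0
    simp
  mul_mem' := by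
    intro a b ha hb
    change (a * b) 1 0 = 0
    change a 1 0 = 0 at ha
    change b 1 0 = 0 at hb
    rw [Matrix.SpecialLinearGroup.coe_mul, Matrix.mul_apply, Fin.sum_univ_two, ha, hb]
    simp
  inv_mem' := by
    intro a ha
    change a⁻¹ 1 0 = 0
    change a 1 0 = 0 at ha
    rw [Matrix.SpecialLinearGroup.coe_inv, Matrix.adjugate_fin_two]
    simp [ha]

theorem mem_Bsub (g : Matrix.SpecialLinearGroup (Fin 2) (ZMod p)) : g ∈ Bsub p ↔ g 1 0 = 0 := Iff.rfl

instance : DecidablePred (· ∈ Bsub p) := fun g => inferInstanceAs (Decidable (g 1 0 = 0))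

variable {M : Type*} [AddCommGroup M]

theorem sum_big_cell (f : Matrix.SpecialLinearGroup (Fin 2) (ZMod p) → M) :
    ∑ t ∈ (univ : Finset (ZMod p × ZMod p × ZMod p)).filter (fun t => t.2.1 ≠ 0),
      f (xx t.1 * yy t.2.1 * xx t.2.2) =
    ∑ g ∈ (univ : Finset (Matrix.SpecialLinearGroup (Fin 2) (ZMod p))).filter (fun g => g ∉ Bsub p), f g := by
  refine Finset.sum_bij' (fun t _ => xx t.1 * yy t.2.1 * xx t.2.2)
    (fun g _ => ((g 0 0 - 1) / g 1 0, g 1 0, (g 1 1 - 1) / g 1 0)) ?_ ?_ ?_ ?_ ?_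
  · rintro ⟨a, b, c⟩ h
    simp only [mem_filter, mem_univ, true_and, mem_Bsub] at h ⊢
    obtain ⟨h1, h2, h3, h4⟩ := xyx_entries a b c
    rw [h3]; exact h
  · intro g h
    simp only [mem_filter, mem_univ, true_and, mem_Bsub] at h ⊢
    exact h
  · rintro ⟨a, b, c⟩ h
    simp only [mem_filter, mem_univ, true_and] at h
    obtain ⟨h1, h2, h3, h4⟩ := xyx_entries a b c
    simp only [h1, h3, h4, Prod.mk.injEq]
    refine ⟨?_, trivial, ?_⟩ <;> field_simp <;> ring
  · intro g h
    simp only [mem_filter, mem_univ, true_and, mem_Bsub] at h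
    exact eq_xyx g h
  · intro t h
    rfl

theorem sum_xyx (f : Matrix.SpecialLinearGroup (Fin 2) (ZMod p) → M) :
    ∑ a, ∑ b, ∑ c, f (xx a * yy b * xx c) =
      p • (∑ a, f (xx a)) + (∑ g, f g - ∑ g : Bsub p, f g) := by
  have h0 : ∑ a, ∑ b, ∑ c, f (xx a * yy b * xx c) =
      ∑ t : ZMod p × ZMod p × ZMod p, f (xx t.1 * yy t.2.1 * xx t.2.2) := by
    rw [Fintype.sum_prod_type]
    refine Finset.sum_congr rfl (fun a _ => ?_)
    rw [Fintype.sum_prod_type]
  rw [h0, ← Finset.sum_filter_add_sum_filter_not univ (fun t : ZMod p × ZMod p × ZMod p => t.2.1 = 0)]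
  congr 1
  · have : ∑ t ∈ (univ : Finset (ZMod p × ZMod p × ZMod p)).filter (fun t => t.2.1 = 0),
        f (xx t.1 * yy t.2.1 * xx t.2.2) = ∑ s : ZMod p × ZMod p, f (xx (s.1 + s.2)) := by
      refine Finset.sum_bij' (fun t _ => (t.1, t.2.2)) (fun s _ => (s.1, 0, s.2)) ?_ ?_ ?_ ?_ ?_
      · intro t _; exact mem_univ _
      · intro s _; simp
      · rintro ⟨a, b, c⟩ h
        simp only [mem_filter, mem_univ, true_and] at h
        simp [h]
      · intro s _; rfl
      · rintro ⟨a, b, c⟩ h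
        simp only [mem_filter, mem_univ, true_and] at h
        subst h
        simp [yy_zero, xx_mul]
    rw [this, Fintype.sum_prod_type_right]
    have h2 : ∀ y : ZMod p, ∑ x : ZMod p, f (xx (x + y)) = ∑ x : ZMod p, f (xx x) := by
      intro y
      exact Fintype.sum_equiv (Equiv.addRight y) _ _ (fun x => rfl)
    simp_rw [h2]
    rw [Finset.sum_const, Finset.card_univ, ZMod.card]
  · rw [sum_big_cell, eq_sub_iff_add_eq]
    have h3 : ∑ g : Bsub p, f g =
        ∑ g ∈ (univ : Finset (Matrix.SpecialLinearGroup (Fin 2) (ZMod p))).filter (fun g => g ∈ Bsub p), f g := by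
      rw [← Finset.sum_subtype_eq_sum_filter]
      simp
    rw [h3, add_comm]
    exact Finset.sum_filter_add_sum_filter_not _ _ _

end SL2

end Pool.Agent.Helper5.PropT
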