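import Mathlib
import Pool.Agent.Helper5.SL2Sum

set_option autoImplicit false

namespace Pool.Agent.Helper5.PropT

open Matrix

section Ring

variable {S : Type*} [CommRing S]

/-- first transvection -/
def T1 (s' a : S) : Matrix.SpecialLinearGroup (Fin 3) S :=
  ⟨!![1, a, -(a * s'); 0, 1, 0; 0, 0, 1], by simp [Matrix.det_fin_three]⟩

/-- second transvection -/
def T2 (a : S) : Matrix.SpecialLinearGroup (Fin 3) S :=
  ⟨!![1, 0, 0; -a, 1, a; 0, 0, 1], by simp [Matrix.det_fin_three]⟩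

/-- third transvection -/
def T3 (s a : S) : Matrix.SpecialLinearGroup (Fin 3) S :=
  ⟨!![1, 0, 0; 0, 1, 0; a * s, -a, 1], by simp [Matrix.det_fin_three]⟩

@[simp] theorem coe_T1 (s' a : S) : (T1 s' a : Matrix (Fin 3) (Fin 3) S) =
    !![1, a, -(a * s'); 0, 1, 0; 0, 0, 1] := rfl
@[simp] theorem coe_T2 (a : S) : (T2 a : Matrix (Fin 3) (Fin 3) S) =
    !![1, 0, 0; -a, 1, a; 0, 0, 1] := rfl
@[simp] theorem coe_T3 (s a : S) : (T3 s a : Matrix (Fin 3) (Fin 3) S) =
    !![1, 0, 0; 0, 1, 0; a * s, -a, 1] := rfl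

theorem T1_mul (s' a b : S) : T1 s' a * T1 s' b = T1 s' (a + b) := by
  ext i j
  rw [Matrix.SpecialLinearGroup.coe_mul, coe_T1, coe_T1, coe_T1]
  fin_cases i <;> fin_cases j <;> simp [Matrix.mul_apply, Fin.sum_univ_three] <;> ring

theorem T2_mul (a b : S) : T2 a * T2 b = T2 (a + b) := by
  ext i j
  rw [Matrix.SpecialLinearGroup.coe_mul, coe_T2, coe_T2, coe_T2]
  fin_cases i <;> fin_cases j <;> simp [Matrix.mul_apply, Fin.sum_univ_three] <;> ring

theorem T3_mul (s a b : S) : T3 s a * T3 s b = T3 s (a + b) := by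
  ext i j
  rw [Matrix.SpecialLinearGroup.coe_mul, coe_T3, coe_T3, coe_T3]
  fin_cases i <;> fin_cases j <;> simp [Matrix.mul_apply, Fin.sum_univ_three] <;> ring

theorem T1_zero (s' : S) : T1 s' 0 = 1 := by
  ext i j
  rw [coe_T1, Matrix.SpecialLinearGroup.coe_one]
  fin_cases i <;> fin_cases j <;> simp

theorem T2_zero : T2 (0 : S) = 1 := by
  ext i j
  rw [coe_T2, Matrix.SpecialLinearGroup.coe_one]
  fin_cases i <;> fin_cases j <;> simp

theorem T3_zero (s : S) : T3 s 0 = 1 := by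
  ext i j
  rw [coe_T3, Matrix.SpecialLinearGroup.coe_one]
  fin_cases i <;> fin_cases j <;> simp

variable (p : ℕ) [Fact p.Prime] [Algebra (ZMod p) S]

/-- first hom -/
def t1H (s' : S) : Multiplicative (ZMod p) →* Matrix.SpecialLinearGroup (Fin 3) S where
  toFun a := T1 s' (algebraMap (ZMod p) S a.toAdd)
  map_one' := by
    change T1 s' (algebraMap (ZMod p) S 0) = 1
    rw [map_zero, T1_zero]
  map_mul' a b := by
    rw [T1_mul, ← map_add]; rfl

/-- second hom -/
def t2H : Multiplicative (ZMod p) →* Matrix.SpecialLinearGroup (Fin 3) S where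
  toFun a := T2 (algebraMap (ZMod p) S a.toAdd)
  map_one' := by
    change T2 (algebraMap (ZMod p) S 0) = 1
    rw [map_zero, T2_zero]
  map_mul' a b := by
    rw [T2_mul, ← map_add]; rfl

/-- third hom -/
def t3H (s : S) : Multiplicative (ZMod p) →* Matrix.SpecialLinearGroup (Fin 3) S where
  toFun a := T3 s (algebraMap (ZMod p) S a.toAdd)
  map_one' := by
    change T3 s (algebraMap (ZMod p) S 0) = 1
    rw [map_zero, T3_zero]
  map_mul' a b := by
    rw [T3_mul, ← map_add]; rfl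

variable {p}

theorem al_det (g : Matrix.SpecialLinearGroup (Fin 2) (ZMod p)) :
    algebraMap (ZMod p) S (g 0 0) * algebraMap (ZMod p) S (g 1 1) -
      algebraMap (ZMod p) S (g 0 1) * algebraMap (ZMod p) S (g 1 0) = 1 := by
  have h : g 0 0 * g 1 1 - g 0 1 * g 1 0 = 1 := by
    have := g.2; rwa [Matrix.det_fin_two] at this
  rw [← map_mul, ← map_mul, ← map_sub, h, map_one]

/-- matrix of `ψ₁₂` -/
def M12 (s' : S) (g : Matrix.SpecialLinearGroup (Fin 2) (ZMod p)) : Matrix (Fin 3) (Fin 3) S :=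
  !![algebraMap (ZMod p) S (g 0 0), algebraMap (ZMod p) S (g 0 1),
      1 - algebraMap (ZMod p) S (g 0 0) - s' * algebraMap (ZMod p) S (g 0 1);
     algebraMap (ZMod p) S (g 1 0), algebraMap (ZMod p) S (g 1 1),
      s' - algebraMap (ZMod p) S (g 1 0) - s' * algebraMap (ZMod p) S (g 1 1);
     0, 0, 1]

/-- matrix of `ψ₂₃` -/
def M23 (s : S) (g : Matrix.SpecialLinearGroup (Fin 2) (ZMod p)) : Matrix (Fin 3) (Fin 3) S :=
  !![1, 0, 0;
     s - s * algebraMap (ZMod p) S (g 0 0) - algebraMap (ZMod p) S (g 0 1),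
      algebraMap (ZMod p) S (g 0 0), algebraMap (ZMod p) S (g 0 1);
     1 - s * algebraMap (ZMod p) S (g 1 0) - algebraMap (ZMod p) S (g 1 1),
      algebraMap (ZMod p) S (g 1 0), algebraMap (ZMod p) S (g 1 1)]

/-- matrix of `ψ₃₁` -/
def M31 (s s' : S) (g : Matrix.SpecialLinearGroup (Fin 2) (ZMod p)) : Matrix (Fin 3) (Fin 3) S :=
  !![algebraMap (ZMod p) S (g 1 1),
      s' - s' * algebraMap (ZMod p) S (g 1 1) - algebraMap (ZMod p) S (g 1 0),
      s' * algebraMap (ZMod p) S (g 1 0);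
     0, 1, 0;
     s * algebraMap (ZMod p) S (g 0 1),
      s - algebraMap (ZMod p) S (g 0 1) - s * algebraMap (ZMod p) S (g 0 0),
      algebraMap (ZMod p) S (g 0 0)]

theorem det_M12 (s' : S) (g : Matrix.SpecialLinearGroup (Fin 2) (ZMod p)) : (M12 s' g).det = 1 := by
  have h := al_det (S := S) g
  simp only [M12, Matrix.det_fin_three]
  simp
  linear_combination h

theorem det_M23 (s : S) (g : Matrix.SpecialLinearGroup (Fin 2) (ZMod p)) : (M23 s g).det = 1 := by
  have h := al_det (S := S) g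
  simp only [M23, Matrix.det_fin_three]
  simp
  linear_combination h

theorem det_M31 (s s' : S) (hs : s * s' = 1) (g : Matrix.SpecialLinearGroup (Fin 2) (ZMod p)) :
    (M31 s s' g).det = 1 := by
  have h := al_det (S := S) g
  simp only [M31, Matrix.det_fin_three]
  simp
  linear_combination h - (algebraMap (ZMod p) S (g 0 1) * algebraMap (ZMod p) S (g 1 0)) * hs

theorem sl2_mul_entry (g h : Matrix.SpecialLinearGroup (Fin 2) (ZMod p)) (i j : Fin 2) :
    algebraMap (ZMod p) S ((g * h) i j) =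
      algebraMap (ZMod p) S (g i 0) * algebraMap (ZMod p) S (h 0 j) +
      algebraMap (ZMod p) S (g i 1) * algebraMap (ZMod p) S (h 1 j) := by
  rw [Matrix.SpecialLinearGroup.coe_mul, Matrix.mul_apply, Fin.sum_univ_two, map_add, map_mul, map_mul]

/-- `ψ₁₂` -/
def psi12 (s' : S) : Matrix.SpecialLinearGroup (Fin 2) (ZMod p) →* Matrix.SpecialLinearGroup (Fin 3) S where
  toFun g := ⟨M12 s' g, det_M12 s' g⟩
  map_one' := by
    apply Subtype.ext
    change M12 s' 1 = 1
    ext i j
    fin_cases i <;> fin_cases j <;> simp [M12]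
  map_mul' g h := by
    apply Subtype.ext
    change M12 s' (g * h) = M12 s' g * M12 s' h
    ext i j
    simp only [M12, sl2_mul_entry]
    fin_cases i <;> fin_cases j <;> simp [Matrix.mul_apply, Fin.sum_univ_three] <;> ring

/-- `ψ₂₃` -/
def psi23 (s : S) : Matrix.SpecialLinearGroup (Fin 2) (ZMod p) →* Matrix.SpecialLinearGroup (Fin 3) S where
  toFun g := ⟨M23 s g, det_M23 s g⟩
  map_one' := by
    apply Subtype.ext
    change M23 s 1 = 1
    ext i j
    fin_cases i <;> fin_cases j <;> simp [M23]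
  map_mul' g h := by
    apply Subtype.ext
    change M23 s (g * h) = M23 s g * M23 s h
    ext i j
    simp only [M23, sl2_mul_entry]
    fin_cases i <;> fin_cases j <;> simp [Matrix.mul_apply, Fin.sum_univ_three] <;> ring

/-- `ψ₃₁` -/
def psi31 (s s' : S) (hs : s * s' = 1) :
    Matrix.SpecialLinearGroup (Fin 2) (ZMod p) →* Matrix.SpecialLinearGroup (Fin 3) S where
  toFun g := ⟨M31 s s' g, det_M31 s s' hs g⟩
  map_one' := by
    apply Subtype.ext
    change M31 s s' 1 = 1
    ext i j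
    fin_cases i <;> fin_cases j <;> simp [M31]
  map_mul' g h := by
    apply Subtype.ext
    change M31 s s' (g * h) = M31 s s' g * M31 s s' h
    ext i j
    simp only [M31, sl2_mul_entry]
    fin_cases i <;> fin_cases j <;> simp [Matrix.mul_apply, Fin.sum_univ_three]
    · linear_combination (-(algebraMap (ZMod p) S (g 1 0) * algebraMap (ZMod p) S (h 0 1))) * hs
    · linear_combination (algebraMap (ZMod p) S (g 1 0) * algebraMap (ZMod p) S (h 0 0) -
        algebraMap (ZMod p) S (g 1 0)) * hs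
    · ring
    · ring
    · linear_combination (algebraMap (ZMod p) S (g 0 1) * algebraMap (ZMod p) S (h 1 1) -
        algebraMap (ZMod p) S (g 0 1)) * hs
    · linear_combination (-(algebraMap (ZMod p) S (g 0 1) * algebraMap (ZMod p) S (h 1 0))) * hs

theorem psi12_xx (s' : S) (a : ZMod p) : psi12 s' (xx a) = t1H p s' (Multiplicative.ofAdd a) := by
  apply Subtype.ext
  change M12 s' (xx a) = !![1, algebraMap (ZMod p) S a, -(algebraMap (ZMod p) S a * s'); 0, 1, 0; 0, 0, 1]
  simp only [M12]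
  ext i j
  fin_cases i <;> fin_cases j <;> simp [mul_comm]

theorem psi12_yy (s' : S) (a : ZMod p) : psi12 s' (yy a) = t2H p (Multiplicative.ofAdd (-a)) := by
  apply Subtype.ext
  change M12 s' (yy a) = !![1, 0, 0; -(algebraMap (ZMod p) S (-a)), 1, algebraMap (ZMod p) S (-a); 0, 0, 1]
  simp only [M12]
  ext i j
  fin_cases i <;> fin_cases j <;> simp [mul_comm]

theorem psi23_xx (s : S) (a : ZMod p) : psi23 s (xx a) = t2H p (Multiplicative.ofAdd a) := by
  apply Subtype.ext
  change M23 s (xx a) = !![1, 0, 0; -(algebraMap (ZMod p) S a), 1, algebraMap (ZMod p) S a; 0, 0, 1]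
  simp only [M23]
  ext i j
  fin_cases i <;> fin_cases j <;> simp [mul_comm]

theorem psi23_yy (s : S) (a : ZMod p) : psi23 s (yy a) = t3H p s (Multiplicative.ofAdd (-a)) := by
  apply Subtype.ext
  change M23 s (yy a) = !![1, 0, 0; 0, 1, 0; algebraMap (ZMod p) S (-a) * s, -(algebraMap (ZMod p) S (-a)), 1]
  simp only [M23]
  ext i j
  fin_cases i <;> fin_cases j <;> simp [mul_comm]

theorem psi31_xx (s s' : S) (hs : s * s' = 1) (a : ZMod p) :
    psi31 s s' hs (xx a) = t3H p s (Multiplicative.ofAdd a) := by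
  apply Subtype.ext
  change M31 s s' (xx a) = !![1, 0, 0; 0, 1, 0; algebraMap (ZMod p) S a * s, -(algebraMap (ZMod p) S a), 1]
  simp only [M31]
  ext i j
  fin_cases i <;> fin_cases j <;> simp [mul_comm]

theorem psi31_yy (s s' : S) (hs : s * s' = 1) (a : ZMod p) :
    psi31 s s' hs (yy a) = t1H p s' (Multiplicative.ofAdd (-a)) := by
  apply Subtype.ext
  change M31 s s' (yy a) = !![1, algebraMap (ZMod p) S (-a), -(algebraMap (ZMod p) S (-a) * s'); 0, 1, 0; 0, 0, 1]
  simp only [M31]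
  ext i j
  fin_cases i <;> fin_cases j <;> simp [mul_comm]

/-- `SL₂(p)` is generated by the two root subgroups. -/
theorem sl2_gen (g : Matrix.SpecialLinearGroup (Fin 2) (ZMod p)) :
    g ∈ Subgroup.closure (Set.range (xx (p := p)) ∪ Set.range (yy (p := p))) := by
  have hx : ∀ a : ZMod p, xx a ∈ Subgroup.closure (Set.range (xx (p := p)) ∪ Set.range (yy (p := p))) :=
    fun a => Subgroup.subset_closure (Or.inl ⟨a, rfl⟩)
  have hy : ∀ a : ZMod p, yy a ∈ Subgroup.closure (Set.range (xx (p := p)) ∪ Set.range (yy (p := p))) :=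
    fun a => Subgroup.subset_closure (Or.inr ⟨a, rfl⟩)
  have key : ∀ g : Matrix.SpecialLinearGroup (Fin 2) (ZMod p), g 1 0 ≠ 0 →
      g ∈ Subgroup.closure (Set.range (xx (p := p)) ∪ Set.range (yy (p := p))) := by
    intro g hg
    rw [← eq_xyx g hg]
    exact mul_mem (mul_mem (hx _) (hy _)) (hx _)
  by_cases hg : g 1 0 = 0
  · have h1 : ((yy (1 : ZMod p) : Matrix.SpecialLinearGroup (Fin 2) (ZMod p)) * g) 1 0 ≠ 0 := by
      rw [Matrix.SpecialLinearGroup.coe_mul, coe_yy, Matrix.mul_apply, Fin.sum_univ_two]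
      simp only [Matrix.of_apply, Matrix.cons_val', Matrix.cons_val_zero, Matrix.cons_val_one,
        Matrix.cons_val_fin_one, hg]
      intro h0
      have hdet : g 0 0 * g 1 1 - g 0 1 * g 1 0 = 1 := by
        have := g.2; rwa [Matrix.det_fin_two] at this
      have h00 : g 0 0 = 0 := by simpa using h0
      rw [h00, hg] at hdet
      simp at hdet
    have h2 := key _ h1
    have h3 : g = (yy (1 : ZMod p))⁻¹ * (yy (1 : ZMod p) * g) := by group
    rw [h3]
    exact mul_mem (inv_mem (hy 1)) h2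
  · exact key g hg

variable (p) in
/-- The triangle group in `SL₃(S)`. -/
def Tri (s s' : S) : Subgroup (Matrix.SpecialLinearGroup (Fin 3) S) :=
  Subgroup.closure (Set.range (t1H p s') ∪ Set.range (t2H p (S := S)) ∪ Set.range (t3H p s))

theorem t1_mem (s s' : S) (a : Multiplicative (ZMod p)) : t1H p s' a ∈ Tri p s s' :=
  Subgroup.subset_closure (Or.inl (Or.inl ⟨a, rfl⟩))

theorem t2_mem (s s' : S) (a : Multiplicative (ZMod p)) : t2H p a ∈ Tri p s s' :=
  Subgroup.subset_closure (Or.inl (Or.inr ⟨a, rfl⟩))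

theorem t3_mem (s s' : S) (a : Multiplicative (ZMod p)) : t3H p s a ∈ Tri p s s' :=
  Subgroup.subset_closure (Or.inr ⟨a, rfl⟩)

theorem hom_mem_of_gen {G : Type*} [Group G] (Γ : Subgroup G)
    (ψ : Matrix.SpecialLinearGroup (Fin 2) (ZMod p) →* G)
    (hx : ∀ a, ψ (xx a) ∈ Γ) (hy : ∀ a, ψ (yy a) ∈ Γ) (g : Matrix.SpecialLinearGroup (Fin 2) (ZMod p)) :
    ψ g ∈ Γ := by
  have h : Subgroup.closure (Set.range (xx (p := p)) ∪ Set.range (yy (p := p))) ≤ Γ.comap ψ := by
    rw [Subgroup.closure_le]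
    rintro _ (⟨a, rfl⟩ | ⟨a, rfl⟩)
    · exact hx a
    · exact hy a
  exact h (sl2_gen g)

theorem psi12_mem (s s' : S) (g : Matrix.SpecialLinearGroup (Fin 2) (ZMod p)) :
    psi12 s' g ∈ Tri p s s' :=
  hom_mem_of_gen _ _ (fun a => by rw [psi12_xx]; exact t1_mem s s' _)
    (fun a => by rw [psi12_yy]; exact t2_mem s s' _) g

theorem psi23_mem (s s' : S) (g : Matrix.SpecialLinearGroup (Fin 2) (ZMod p)) :
    psi23 s g ∈ Tri p s s' :=
  hom_mem_of_gen _ _ (fun a => by rw [psi23_xx]; exact t2_mem s s' _)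
    (fun a => by rw [psi23_yy]; exact t3_mem s s' _) g

theorem psi31_mem (s s' : S) (hs : s * s' = 1) (g : Matrix.SpecialLinearGroup (Fin 2) (ZMod p)) :
    psi31 s s' hs g ∈ Tri p s s' :=
  hom_mem_of_gen _ _ (fun a => by rw [psi31_xx]; exact t3_mem s s' _)
    (fun a => by rw [psi31_yy]; exact t1_mem s s' _) g

end Ring

end Pool.Agent.Helper5.PropT
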