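import Mathlib
import Pool.Agent.Helper5.Triangle

set_option autoImplicit false

namespace Pool.Agent.Helper5.PropT

open Matrix

section Field

variable {K : Type*} [Field K] (σ : K →+* K) (s : K)

/-- unipotent elements -/
def UM (c γ : K) : Matrix.SpecialLinearGroup (Fin 3) K :=
  ⟨!![1, γ + c, (s - σ s) * σ c - σ s * γ - σ s * c;
      0, 1 + c * σ s, -(σ s ^ 2 * c);
      0, c, 1 - σ s * c], by simp [Matrix.det_fin_three]; ring⟩

theorem coe_UM (c γ : K) : (UM σ s c γ : Matrix (Fin 3) (Fin 3) K) =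
    !![1, γ + c, (s - σ s) * σ c - σ s * γ - σ s * c;
      0, 1 + c * σ s, -(σ s ^ 2 * c);
      0, c, 1 - σ s * c] := rfl

theorem UM_mul (c γ c1 γ1 : K) :
    UM σ s c γ * UM σ s c1 γ1 = UM σ s (c + c1) (γ + γ1 + (s - σ s) * σ c * c1) := by
  ext i j
  rw [Matrix.SpecialLinearGroup.coe_mul, coe_UM, coe_UM, coe_UM]
  fin_cases i <;> fin_cases j <;> simp [Matrix.mul_apply, Fin.sum_univ_three] <;> ring

theorem UM_zero : UM σ s 0 0 = 1 := by
  ext i j
  rw [coe_UM, Matrix.SpecialLinearGroup.coe_one]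
  fin_cases i <;> fin_cases j <;> simp

theorem UM_T1 (a : K) : UM σ s 0 a = T1 (σ s) a := by
  ext i j
  rw [coe_UM, coe_T1]
  fin_cases i <;> fin_cases j <;> simp [mul_comm]

theorem UM_inv (c γ : K) :
    (UM σ s c γ)⁻¹ = UM σ s (-c) (-γ + (s - σ s) * σ c * c) := by
  rw [inv_eq_iff_mul_eq_one, UM_mul]
  have h : γ + (-γ + (s - σ s) * σ c * c) + (s - σ s) * σ c * -c = 0 := by ring
  rw [h, add_neg_cancel, UM_zero]

/-- the skew-hermitian form -/
def ff (x y : Fin 3 → K) : K :=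
  σ (x 0) * (y 1 - σ s * y 2) + σ (x 1) * (-y 0 + y 2) + σ (x 2) * (s * y 0 - y 1)

theorem smul_apply3 (g : Matrix.SpecialLinearGroup (Fin 3) K) (x : Fin 3 → K) (i : Fin 3) :
    (g • x) i = g i 0 * x 0 + g i 1 * x 1 + g i 2 * x 2 := by
  rw [Matrix.SpecialLinearGroup.smul_def]
  change (g.1 *ᵥ x) i = _
  rw [Matrix.mulVec, dotProduct, Fin.sum_univ_three]

/-- preserving the form -/
def Pres (g : Matrix.SpecialLinearGroup (Fin 3) K) : Prop :=
  ∀ x y : Fin 3 → K, ff σ s (g • x) (g • y) = ff σ s x y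

variable {σ s}
variable {p : ℕ} [Fact p.Prime] [Algebra (ZMod p) K]

theorem sigma_alg (a : ZMod p) : σ (algebraMap (ZMod p) K a) = algebraMap (ZMod p) K a := by
  have h : σ.comp (algebraMap (ZMod p) K) = algebraMap (ZMod p) K := Subsingleton.elim _ _
  exact congrArg (fun f : ZMod p →+* K => f a) h

theorem pres_Tri (hσ : ∀ x, σ (σ x) = x) (hs : s * σ s = 1)
    (g : Matrix.SpecialLinearGroup (Fin 3) K) (hg : g ∈ Tri p s (σ s)) :
    Pres σ s g := by
  induction hg using Subgroup.closure_induction with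
  | mem z hz =>
    rcases hz with (⟨a, rfl⟩ | ⟨a, rfl⟩) | ⟨a, rfl⟩
    · intro x y
      change ff σ s (T1 (σ s) (algebraMap (ZMod p) K a.toAdd) • x)
        (T1 (σ s) (algebraMap (ZMod p) K a.toAdd) • y) = _
      have ha := sigma_alg (σ := σ) a.toAdd
      set b := algebraMap (ZMod p) K a.toAdd with hb
      simp only [ff, smul_apply3, coe_T1]
      simp [ha, hσ]
      ring
    · intro x y
      change ff σ s (T2 (algebraMap (ZMod p) K a.toAdd) • x)
        (T2 (algebraMap (ZMod p) K a.toAdd) • y) = _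
      have ha := sigma_alg (σ := σ) a.toAdd
      set b := algebraMap (ZMod p) K a.toAdd with hb
      simp only [ff, smul_apply3, coe_T2]
      simp [ha]
      ring
    · intro x y
      change ff σ s (T3 s (algebraMap (ZMod p) K a.toAdd) • x)
        (T3 s (algebraMap (ZMod p) K a.toAdd) • y) = _
      have ha := sigma_alg (σ := σ) a.toAdd
      set b := algebraMap (ZMod p) K a.toAdd with hb
      simp only [ff, smul_apply3, coe_T3]
      simp [ha]
      linear_combination (0 : K) * hs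
  | one => intro x y; simp
  | mul a b _ _ ha hb => intro x y; rw [mul_smul, mul_smul, ha, hb]
  | inv a _ ha =>
    intro x y
    rw [← ha (a⁻¹ • x) (a⁻¹ • y), smul_inv_smul, smul_inv_smul]

theorem det3 (g : Matrix.SpecialLinearGroup (Fin 3) K) :
    g 0 0 * g 1 1 * g 2 2 - g 0 0 * g 1 2 * g 2 1 - g 0 1 * g 1 0 * g 2 2 + g 0 1 * g 1 2 * g 2 0
      + g 0 2 * g 1 0 * g 2 1 - g 0 2 * g 1 1 * g 2 0 = 1 := by
  have := g.2
  rwa [Matrix.det_fin_three] at this

/-- the first basis vector -/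
def e0 : Fin 3 → K := ![1, 0, 0]
/-- the second basis vector -/
def e1 : Fin 3 → K := ![0, 1, 0]
/-- the third basis vector -/
def e2 : Fin 3 → K := ![0, 0, 1]

theorem smul_e0 (g : Matrix.SpecialLinearGroup (Fin 3) K) : g • (e0 : Fin 3 → K) = fun i => g i 0 := by
  funext i; rw [smul_apply3]; simp [e0]

theorem smul_e1 (g : Matrix.SpecialLinearGroup (Fin 3) K) : g • (e1 : Fin 3 → K) = fun i => g i 1 := by
  funext i; rw [smul_apply3]; simp [e1]

theorem smul_e2 (g : Matrix.SpecialLinearGroup (Fin 3) K) : g • (e2 : Fin 3 → K) = fun i => g i 2 := by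
  funext i; rw [smul_apply3]; simp [e2]

/-- An isometry of determinant one fixing the first basis vector is one of the `UM`. -/
theorem eq_UM_of_fix (hσ : ∀ x, σ (σ x) = x) (hs : s * σ s = 1)
    (g : Matrix.SpecialLinearGroup (Fin 3) K) (hg : Pres σ s g) (h0 : g • (e0 : Fin 3 → K) = e0) :
    g = UM σ s (g 2 1) (g 0 1 - g 2 1) ∧
      (g 0 1 - g 2 1) - σ (g 0 1 - g 2 1) = (s - σ s) * (g 2 1 * σ (g 2 1)) := by
  have c00 : g 0 0 = 1 := by
    have := congrFun h0 0; rw [smul_e0] at this; simpa [e0] using this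
  have c10 : g 1 0 = 0 := by
    have := congrFun h0 1; rw [smul_e0] at this; simpa [e0] using this
  have c20 : g 2 0 = 0 := by
    have := congrFun h0 2; rw [smul_e0] at this; simpa [e0] using this
  have f01 := hg e0 e1
  have f02 := hg e0 e2
  have f11 := hg e1 e1
  have f12 := hg e1 e2
  rw [h0] at f01 f02
  rw [smul_e1] at f01 f11 f12
  rw [smul_e2] at f02 f12
  simp only [ff, e0, e1, e2] at f01 f02 f11 f12
  simp at f01 f02 f11 f12
  have hdet := det3 g
  rw [c00, c10, c20] at hdet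
  have hss : σ s * s = 1 := by rw [mul_comm]; exact hs
  have d11 : g 1 1 = 1 + g 2 1 * σ s := by linear_combination f01
  have d12 : g 1 2 = -σ s + σ s * g 2 2 := by linear_combination f02
  have d22 : g 2 2 = 1 - σ s * g 2 1 := by
    rw [d11, d12] at hdet
    linear_combination hdet
  have d12' : g 1 2 = -(σ s ^ 2 * g 2 1) := by rw [d12, d22]; ring
  have s11 : σ (g 1 1) = 1 + σ (g 2 1) * s := by
    rw [d11, map_add, map_mul, map_one, hσ]
  have key : σ (g 0 1) - g 0 1 + g 2 1 - σ (g 2 1) + (s - σ s) * (g 2 1 * σ (g 2 1)) = 0 := by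
    rw [d11] at f11
    rw [map_add, map_mul, map_one, hσ] at f11
    linear_combination f11
  have d02 : g 0 2 = (s - σ s) * σ (g 2 1) - σ s * (g 0 1 - g 2 1) - σ s * g 2 1 := by
    rw [s11, d12', d22] at f12
    have e : σ (g 0 1) = g 0 1 - g 2 1 + σ (g 2 1) - (s - σ s) * (g 2 1 * σ (g 2 1)) := by
      linear_combination key
    rw [e] at f12
    linear_combination -f12
  refine ⟨?_, ?_⟩
  · ext i j
    rw [coe_UM]
    fin_cases i <;> fin_cases j <;> simp [c00, c10, c20, d11, d12', d22, d02]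
  · rw [map_sub]; linear_combination -key

/-- the element rotating the triangle -/
def G0 (σ : K →+* K) (s : K) : Matrix.SpecialLinearGroup (Fin 3) K :=
  (T3 s 1 * T1 (σ s) 1) * ((T2 1 * T3 s 1) * (T1 (σ s) 1 * T2 1))

theorem coe_G0 (hs : s * σ s = 1) : (G0 σ s : Matrix (Fin 3) (Fin 3) K) =
    !![-σ s, s - 1 + σ s, s + σ s - 1;
      0, s - 1, s + σ s - 1;
      0, s ^ 2 - s + 1, s ^ 2 - s + 1 - σ s] := by
  have h1 : (T1 (σ s) 1 * T2 1 : Matrix.SpecialLinearGroup (Fin 3) K).1 =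
      !![0, 1, 1 - σ s; -1, 1, 1; 0, 0, 1] := by
    rw [Matrix.SpecialLinearGroup.coe_mul, coe_T1, coe_T2]
    ext i j
    fin_cases i <;> fin_cases j <;> simp [Matrix.mul_apply, Fin.sum_univ_three]
    ring
  have h2 : (T2 1 * T3 s 1 : Matrix.SpecialLinearGroup (Fin 3) K).1 =
      !![1, 0, 0; s - 1, 0, 1; s, -1, 1] := by
    rw [Matrix.SpecialLinearGroup.coe_mul, coe_T2, coe_T3]
    ext i j
    fin_cases i <;> fin_cases j <;> simp [Matrix.mul_apply, Fin.sum_univ_three]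
    ring
  have h3 : (T3 s 1 * T1 (σ s) 1 : Matrix.SpecialLinearGroup (Fin 3) K).1 =
      !![1, 1, -σ s; 0, 1, 0; s, s - 1, 0] := by
    rw [Matrix.SpecialLinearGroup.coe_mul, coe_T1, coe_T3]
    ext i j
    fin_cases i <;> fin_cases j <;> simp [Matrix.mul_apply, Fin.sum_univ_three]
    · ring
    · linear_combination -hs
  change (T3 s 1 * T1 (σ s) 1 : Matrix.SpecialLinearGroup (Fin 3) K).1 *
    ((T2 1 * T3 s 1 : Matrix.SpecialLinearGroup (Fin 3) K).1 *
      (T1 (σ s) 1 * T2 1 : Matrix.SpecialLinearGroup (Fin 3) K).1) = _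
  rw [h1, h2, h3]
  ext i j
  fin_cases i <;> fin_cases j <;> simp [Matrix.mul_apply, Fin.sum_univ_three]
  · linear_combination -hs
  · linear_combination (σ s - 2) * hs
  · linear_combination -hs
  · ring
  · linear_combination (1 - s) * hs

theorem G0_UM (hs : s * σ s = 1) (c γ : K) :
    G0 σ s * UM σ s c γ = UM σ s (-(s ^ 3 * c))
      (γ + (s - σ s) * ((s ^ 2 - s + 1) * c - ((σ s) ^ 2 - σ s + 1) * σ c)) * G0 σ s := by
  have hs0 : s ≠ 0 := left_ne_zero_of_mul_eq_one hs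
  have hs' : σ s = s⁻¹ := (inv_eq_of_mul_eq_one_right hs).symm
  apply Subtype.ext
  change (G0 σ s : Matrix (Fin 3) (Fin 3) K) * (UM σ s c γ : Matrix (Fin 3) (Fin 3) K) =
    (UM σ s (-(s ^ 3 * c))
      (γ + (s - σ s) * ((s ^ 2 - s + 1) * c - ((σ s) ^ 2 - σ s + 1) * σ c)) :
        Matrix (Fin 3) (Fin 3) K) * (G0 σ s : Matrix (Fin 3) (Fin 3) K)
  rw [coe_G0 hs, coe_UM, coe_UM, map_neg, map_mul, map_pow, hs']
  ext i j
  fin_cases i <;> fin_cases j <;> simp [Matrix.mul_apply, Fin.sum_univ_three]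
  all_goals try field_simp
  all_goals try ring

theorem G0_mem (p : ℕ) [Fact p.Prime] [Algebra (ZMod p) K] : G0 σ s ∈ Tri p s (σ s) := by
  have h1 : T1 (σ s) 1 ∈ Tri p s (σ s) := by
    have := t1_mem (p := p) s (σ s) (Multiplicative.ofAdd 1)
    have e : t1H p (σ s) (Multiplicative.ofAdd 1) = T1 (σ s) 1 := by
      change T1 (σ s) (algebraMap (ZMod p) K 1) = _
      rw [map_one]
    rwa [e] at this
  have h2 : T2 (1 : K) ∈ Tri p s (σ s) := by
    have := t2_mem (p := p) s (σ s) (Multiplicative.ofAdd 1)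
    have e : t2H p (Multiplicative.ofAdd 1) = T2 (1 : K) := by
      change T2 (algebraMap (ZMod p) K 1) = _
      rw [map_one]
    rwa [e] at this
  have h3 : T3 s 1 ∈ Tri p s (σ s) := by
    have := t3_mem (p := p) s (σ s) (Multiplicative.ofAdd 1)
    have e : t3H p s (Multiplicative.ofAdd 1) = T3 s 1 := by
      change T3 s (algebraMap (ZMod p) K 1) = _
      rw [map_one]
    rwa [e] at this
  exact mul_mem (mul_mem h3 h1) (mul_mem (mul_mem h2 h3) (mul_mem h1 h2))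

/-- diagonal element of `SL₂` -/
def dd (p : ℕ) [Fact p.Prime] (h2 : (2 : ZMod p) ≠ 0) : Matrix.SpecialLinearGroup (Fin 2) (ZMod p) :=
  ⟨!![2⁻¹, 0; 0, 2], by simp [Matrix.det_fin_two, h2]⟩

theorem P_eq (h2 : (2 : ZMod p) ≠ 0) (hs : s * σ s = 1) :
    psi12 (σ s) (dd p h2) * psi31 s (σ s) hs (dd p h2) =
      UM σ s (s / 2) (-(s / 4) - σ s / 2) := by
  have h2K : (2 : K) ≠ 0 := by
    have := (map_ne_zero (algebraMap (ZMod p) K)).mpr h2
    rwa [map_ofNat] at this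
  have h4K : (4 : K) ≠ 0 := by
    have : (4 : K) = 2 * 2 := by norm_num
    rw [this]; exact mul_ne_zero h2K h2K
  have a1 : algebraMap (ZMod p) K (2⁻¹) = (2 : K)⁻¹ := by rw [map_inv₀, map_ofNat]
  have a2 : algebraMap (ZMod p) K 2 = (2 : K) := by rw [map_ofNat]
  have s0 : σ (s / 2) = σ s / 2 := by rw [map_div₀, map_ofNat]
  have hs0 : s ≠ 0 := left_ne_zero_of_mul_eq_one hs
  have hs' : σ s = s⁻¹ := (inv_eq_of_mul_eq_one_right hs).symm
  have m1 : M12 (σ s) (dd p h2) = !![(2 : K)⁻¹, 0, 1 - 2⁻¹; 0, 2, σ s - σ s * 2; 0, 0, 1] := by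
    ext i j
    fin_cases i <;> fin_cases j <;> simp [M12, dd, a1, a2]
  have m2 : M31 s (σ s) (dd p h2) = !![(2 : K), σ s - σ s * 2, 0; 0, 1, 0; 0, s - s * 2⁻¹, 2⁻¹] := by
    ext i j
    fin_cases i <;> fin_cases j <;> simp [M31, dd, a1, a2]
  apply Subtype.ext
  change M12 (σ s) (dd p h2) * M31 s (σ s) (dd p h2) = _
  rw [m1, m2]
  change _ = !![1, (-(s / 4) - σ s / 2) + s / 2,
      (s - σ s) * σ (s / 2) - σ s * (-(s / 4) - σ s / 2) - σ s * (s / 2);
      0, 1 + (s / 2) * σ s, -(σ s ^ 2 * (s / 2));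
      0, (s / 2), 1 - σ s * (s / 2)]
  rw [s0, hs']
  ext i j
  fin_cases i <;> fin_cases j <;> simp [Matrix.mul_apply, Fin.sum_univ_three, h2K]
  all_goals try field_simp
  all_goals try ring

theorem P_mem (h2 : (2 : ZMod p) ≠ 0) (hs : s * σ s = 1) :
    UM σ s (s / 2) (-(s / 4) - σ s / 2) ∈ Tri p s (σ s) := by
  rw [← P_eq (p := p) h2 hs]
  exact mul_mem (psi12_mem s (σ s) _) (psi31_mem s (σ s) hs _)

/-- the additive subgroup of middle coordinates -/
def Cset (p : ℕ) [Fact p.Prime] [Algebra (ZMod p) K] (σ : K →+* K) (s : K) : AddSubgroup K where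
  carrier := {c | ∃ γ, UM σ s c γ ∈ Tri p s (σ s)}
  zero_mem' := ⟨0, by rw [UM_zero]; exact one_mem _⟩
  add_mem' := by
    rintro a b ⟨γ, ha⟩ ⟨γ', hb⟩
    exact ⟨_, by rw [← UM_mul]; exact mul_mem ha hb⟩
  neg_mem' := by
    rintro a ⟨γ, ha⟩
    exact ⟨_, by rw [← UM_inv]; exact inv_mem ha⟩

theorem Cset_mul_s3 (hs : s * σ s = 1) (c : K) (hc : c ∈ Cset p σ s) : s ^ 3 * c ∈ Cset p σ s := by
  obtain ⟨γ, h⟩ := hc
  rw [← neg_mem_iff]
  have h1 := G0_UM hs c γ
  have h2 := mul_inv_eq_of_eq_mul h1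
  have h3 : G0 σ s * UM σ s c γ * (G0 σ s)⁻¹ ∈ Tri p s (σ s) :=
    mul_mem (mul_mem (G0_mem p) h) (inv_mem (G0_mem p))
  rw [h2] at h3
  exact ⟨_, h3⟩

theorem Cset_mul_adjoin (hs : s * σ s = 1) (x : K) (hx : x ∈ Algebra.adjoin (ZMod p) {s ^ 3}) :
    ∀ c ∈ Cset p σ s, x * c ∈ Cset p σ s := by
  induction hx using Algebra.adjoin_induction with
  | mem y hy =>
    intro c hc
    rw [Set.mem_singleton_iff.mp hy]
    exact Cset_mul_s3 hs c hc
  | algebraMap r =>
    intro c hc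
    have : algebraMap (ZMod p) K r * c = r.val • c := by
      rw [nsmul_eq_mul]
      congr 1
      conv_lhs => rw [← ZMod.natCast_zmod_val r]
      rw [map_natCast]
    rw [this]
    exact nsmul_mem hc _
  | add y z _ _ hy hz =>
    intro c hc
    rw [add_mul]
    exact add_mem (hy c hc) (hz c hc)
  | mul y z _ _ hy hz =>
    intro c hc
    rw [mul_assoc]
    exact hy _ (hz c hc)

theorem Cset_top (h2 : (2 : ZMod p) ≠ 0) (hs : s * σ s = 1)
    (hgen : Algebra.adjoin (ZMod p) {s ^ 3} = (⊤ : Subalgebra (ZMod p) K)) (c : K) :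
    c ∈ Cset p σ s := by
  have h2K : (2 : K) ≠ 0 := by
    have := (map_ne_zero (algebraMap (ZMod p) K)).mpr h2
    rwa [map_ofNat] at this
  have hs0 : s ≠ 0 := left_ne_zero_of_mul_eq_one hs
  have h0 : s / 2 ∈ Cset p σ s := ⟨_, P_mem h2 hs⟩
  have h1 : c * (s / 2)⁻¹ * (s / 2) ∈ Cset p σ s :=
    Cset_mul_adjoin hs _ (by rw [hgen]; trivial) _ h0
  have h3 : s / 2 ≠ 0 := div_ne_zero hs0 h2K
  rwa [inv_mul_cancel_right₀ h3] at h1

theorem comm_mem (c γ c1 γ1 : K) (h : UM σ s c γ ∈ Tri p s (σ s)) (h1 : UM σ s c1 γ1 ∈ Tri p s (σ s)) :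
    UM σ s 0 ((s - σ s) * (σ c * c1 - σ c1 * c)) ∈ Tri p s (σ s) := by
  have e : UM σ s 0 ((s - σ s) * (σ c * c1 - σ c1 * c)) * (UM σ s c1 γ1 * UM σ s c γ) =
      UM σ s c γ * UM σ s c1 γ1 := by
    rw [UM_mul, UM_mul, UM_mul]
    congr 1
    · ring
    · simp; ring
  have := eq_mul_inv_of_mul_eq e
  rw [this]
  exact mul_mem (mul_mem h h1) (inv_mem (mul_mem h1 h))

theorem UM_zero_mem (hσ : ∀ x, σ (σ x) = x) (h2 : (2 : ZMod p) ≠ 0) (hs : s * σ s = 1)
    (hne : s ≠ σ s)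
    (hgen : Algebra.adjoin (ZMod p) {s ^ 3} = (⊤ : Subalgebra (ZMod p) K)) (a : K) (ha : σ a = a) :
    UM σ s 0 a ∈ Tri p s (σ s) := by
  have h2K : (2 : K) ≠ 0 := by
    have := (map_ne_zero (algebraMap (ZMod p) K)).mpr h2
    rwa [map_ofNat] at this
  have hd : s - σ s ≠ 0 := sub_ne_zero.mpr hne
  obtain ⟨γ, h⟩ := Cset_top h2 hs hgen (-a / (2 * (s - σ s)))
  obtain ⟨γ1, h1⟩ := Cset_top h2 hs hgen (1 : K)
  have := comm_mem _ _ _ _ h h1
  have e : (s - σ s) * (σ (-a / (2 * (s - σ s))) * 1 - σ 1 * (-a / (2 * (s - σ s)))) = a := by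
    rw [map_div₀, map_neg, map_mul, map_sub, map_ofNat, hσ, ha, map_one]
    have hd' : σ s - s ≠ 0 := sub_ne_zero.mpr hne.symm
    field_simp
    ring
  rwa [e] at this

theorem UM_mem (hσ : ∀ x, σ (σ x) = x) (h2 : (2 : ZMod p) ≠ 0) (hs : s * σ s = 1)
    (hne : s ≠ σ s)
    (hgen : Algebra.adjoin (ZMod p) {s ^ 3} = (⊤ : Subalgebra (ZMod p) K)) (c γ : K)
    (h : γ - σ γ = (s - σ s) * (c * σ c)) :
    UM σ s c γ ∈ Tri p s (σ s) := by
  obtain ⟨γ1, h1⟩ := Cset_top h2 hs hgen c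
  have hfix : UM σ s c γ1 • (e0 : Fin 3 → K) = e0 := by
    rw [smul_e0, coe_UM]
    funext i
    fin_cases i <;> simp [e0]
  have h3 := (eq_UM_of_fix hσ hs _ (pres_Tri hσ hs _ h1) hfix).2
  have e01 : (UM σ s c γ1) 0 1 = γ1 + c := rfl
  have e21 : (UM σ s c γ1) 2 1 = c := rfl
  rw [e01, e21, add_sub_cancel_right] at h3
  have h4 : σ (γ - γ1) = γ - γ1 := by
    rw [map_sub]; linear_combination h3 - h
  have h5 := UM_zero_mem hσ h2 hs hne hgen _ h4
  have h6 : UM σ s c γ = UM σ s 0 (γ - γ1) * UM σ s c γ1 := by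
    rw [UM_mul]; congr 1 <;> simp
  rw [h6]
  exact mul_mem h5 h1

end Field

end Pool.Agent.Helper5.PropT
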