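import Mathlib
import Pool.Agent.Helper5.Unip

set_option autoImplicit false

namespace Pool.Agent.Helper5.PropT

open Matrix
open scoped LinearAlgebra.Projectivization Pointwise

section Geometry

variable {K : Type} [Field K] {σ : K →+* K} {s : K} {p : ℕ} [Fact p.Prime] [Algebra (ZMod p) K]

theorem e0_ne : (e0 : Fin 3 → K) ≠ 0 := fun h => by
  have := congrFun h 0; simp [e0] at this

theorem e1_ne : (e1 : Fin 3 → K) ≠ 0 := fun h => by
  have := congrFun h 1; simp [e1] at this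

variable (K) in
/-- the base point -/
def P0 : ℙ K (Fin 3 → K) := Projectivization.mk K e0 e0_ne

variable (K) in
/-- the second point -/
def P1 : ℙ K (Fin 3 → K) := Projectivization.mk K e1 e1_ne

theorem Tsmul (g : ↥(Tri p s (σ s))) (x : ℙ K (Fin 3 → K)) : g • x = g.1 • x := rfl

theorem smul_mk' (g : ↥(Tri p s (σ s))) (v : Fin 3 → K) (hv : v ≠ 0) :
    g • (Projectivization.mk K v hv) = Projectivization.mk K (g.1 • v)
      ((smul_ne_zero_iff_ne g.1).mpr hv) := rfl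

theorem UM_e1 (c γ : K) : UM σ s c γ • (e1 : Fin 3 → K) = ![γ + c, 1 + c * σ s, c] := by
  rw [smul_e1, coe_UM]
  funext i
  fin_cases i <;> simp

theorem UM_e0 (c γ : K) : UM σ s c γ • (e0 : Fin 3 → K) = e0 := by
  rw [smul_e0, coe_UM]
  funext i
  fin_cases i <;> simp [e0]

theorem UM_P0 (c γ : K) : UM σ s c γ • (P0 K) = P0 K := by
  unfold P0
  rw [Projectivization.smul_mk]
  congr 1
  exact UM_e0 c γ

/-- classification of the points of the orbit -/
theorem orbit_class (hσ : ∀ x, σ (σ x) = x) (hs : s * σ s = 1) (hne : s ≠ σ s)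
    (g : Matrix.SpecialLinearGroup (Fin 3) K) (hg : Pres σ s g) (hgP : g • P0 K ≠ P0 K) :
    ∃ c γ, γ - σ γ = (s - σ s) * (c * σ c) ∧ g • P0 K = UM σ s c γ • P1 K := by
  have hss : σ s * s = 1 := by rw [mul_comm]; exact hs
  set a := g 0 0 with ha
  set b := g 1 0 with hb
  set d := g 2 0 with hd
  have hv : g • (e0 : Fin 3 → K) = ![a, b, d] := by
    rw [smul_e0]; funext i; fin_cases i <;> rfl
  have hf := hg e0 e0
  rw [hv] at hf
  simp only [ff, e0] at hf
  simp at hf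
  -- hf : isotropy of (a,b,d)
  have hdel : s - σ s ≠ 0 := sub_ne_zero.mpr hne
  have hm : b - σ s * d ≠ 0 := by
    intro h0
    have hb' : b = σ s * d := sub_eq_zero.mp h0
    have hσb : σ b = s * σ d := by rw [hb', map_mul, hσ]
    rw [hσb, hb'] at hf
    have h1 : (s - σ s) * (σ d * d) = 0 := by linear_combination hf
    have h2 : σ d * d = 0 := (mul_eq_zero.mp h1).resolve_left hdel
    have h3 : d = 0 := by
      rcases mul_eq_zero.mp h2 with h | h
      · have := congrArg σ h; rwa [hσ, map_zero] at this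
      · exact h
    have h4 : b = 0 := by rw [hb', h3, mul_zero]
    apply hgP
    unfold P0
    rw [Projectivization.smul_mk, Projectivization.mk_eq_mk_iff']
    refine ⟨a, ?_⟩
    rw [hv, h3, h4]
    funext i
    fin_cases i <;> simp [e0]
  set m := b - σ s * d with hmdef
  refine ⟨d / m, a / m - d / m, ?_, ?_⟩
  · have hσm : σ m = σ b - s * σ d := by rw [hmdef, map_sub, map_mul, hσ]
    have hσm0 : σ m ≠ 0 := (map_ne_zero σ).mpr hm
    rw [map_sub, map_div₀, map_div₀]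
    field_simp
    rw [hσm, hmdef]
    linear_combination -hf
  · unfold P0 P1
    rw [Projectivization.smul_mk, Projectivization.smul_mk, Projectivization.mk_eq_mk_iff']
    refine ⟨m, ?_⟩
    rw [hv, UM_e1]
    funext i
    fin_cases i
    · simp; field_simp
    · simp; field_simp; rw [hmdef]; ring
    · simp; field_simp

/-- an element fixing the base vector and another point of the orbit is trivial -/
theorem fix_eq_one (hσ : ∀ x, σ (σ x) = x) (hs : s * σ s = 1)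
    (g : Matrix.SpecialLinearGroup (Fin 3) K) (hg : Pres σ s g) (h0 : g • (e0 : Fin 3 → K) = e0)
    (h1 : g • P1 K = P1 K) : g = 1 := by
  obtain ⟨h2, -⟩ := eq_UM_of_fix hσ hs g hg h0
  set c := g 2 1 with hc
  set γ := g 0 1 - g 2 1 with hγ
  unfold P1 at h1
  rw [Projectivization.smul_mk, Projectivization.mk_eq_mk_iff'] at h1
  obtain ⟨a, ha⟩ := h1
  rw [h2, UM_e1] at ha
  have c0 : c = 0 := by
    have := congrFun ha 2
    simpa [e1] using this.symm
  have c1 : γ + c = 0 := by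
    have := congrFun ha 0
    simpa [e1] using this.symm
  have γ0 : γ = 0 := by rw [c0, add_zero] at c1; exact c1
  rw [h2, c0, γ0, UM_zero]

theorem pres_mul {g h : Matrix.SpecialLinearGroup (Fin 3) K} (hg : Pres σ s g) (hh : Pres σ s h) :
    Pres σ s (g * h) := by
  intro x y; rw [mul_smul, mul_smul, hg, hh]

theorem pres_inv {g : Matrix.SpecialLinearGroup (Fin 3) K} (hg : Pres σ s g) :
    Pres σ s g⁻¹ := by
  intro x y
  rw [← hg (g⁻¹ • x) (g⁻¹ • y), smul_inv_smul, smul_inv_smul]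

/-- an element fixing the base vector and any other point of the orbit is trivial -/
theorem fix_eq_one' (hσ : ∀ x, σ (σ x) = x) (hs : s * σ s = 1)
    (g k : Matrix.SpecialLinearGroup (Fin 3) K) (hg : Pres σ s g) (h0 : g • (e0 : Fin 3 → K) = e0)
    (hk : Pres σ s k) (hk0 : k • (e0 : Fin 3 → K) = e0)
    (h1 : g • k • P1 K = k • P1 K) : g = 1 := by
  have h2 : k⁻¹ * g * k = 1 := by
    apply fix_eq_one hσ hs _ (pres_mul (pres_mul (pres_inv hk) hg) hk)
    · rw [mul_smul, mul_smul, hk0, h0]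
      rw [inv_smul_eq_iff, hk0]
    · rw [mul_smul, mul_smul, h1, inv_smul_smul]
  have h3 : g = k * (k⁻¹ * g * k) * k⁻¹ := by group
  rw [h3, h2]; group

theorem P0_ne_P1 : P0 K ≠ P1 K := by
  unfold P0 P1
  rw [Ne, Projectivization.mk_eq_mk_iff']
  rintro ⟨a, ha⟩
  have := congrFun ha 0
  simp [e0, e1] at this

theorem UM_P1_ne (c γ : K) : UM σ s c γ • P1 K ≠ P0 K := by
  intro h
  have h' : P1 K = P0 K := by
    have := congrArg (fun x => (UM σ s c γ)⁻¹ • x) h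
    simp only [inv_smul_smul] at this
    rw [this, inv_smul_eq_iff, UM_P0]
  exact P0_ne_P1 h'.symm

theorem UM_P1_inj (c γ c1 γ1 : K) (h : UM σ s c γ • P1 K = UM σ s c1 γ1 • P1 K) : c = c1 := by
  unfold P1 at h
  rw [Projectivization.smul_mk, Projectivization.smul_mk, Projectivization.mk_eq_mk_iff'] at h
  obtain ⟨a, ha⟩ := h
  rw [UM_e1, UM_e1] at ha
  have h0 : a * c1 = c := by have := congrFun ha 2; simpa using this
  have h1 : a * (1 + c1 * σ s) = 1 + c * σ s := by have := congrFun ha 1; simpa using this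
  have h2 : a = 1 := by linear_combination h1 - (σ s) * h0
  rw [h2, one_mul] at h0
  exact h0.symm

theorem P1_mem_orbit : ∃ g : ↥(Tri p s (σ s)), g.1 • P0 K = P1 K := by
  have h1 : T1 (σ s) 1 ∈ Tri p s (σ s) := by
    have := t1_mem (p := p) s (σ s) (Multiplicative.ofAdd 1)
    have e : t1H p (σ s) (Multiplicative.ofAdd 1) = T1 (σ s) 1 := by
      change T1 (σ s) (algebraMap (ZMod p) K 1) = _
      rw [map_one]
    rwa [e] at this
  have h2 : T2 (1 : K) ∈ Tri p s (σ s) := by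
    have := t2_mem (p := p) s (σ s) (Multiplicative.ofAdd 1)
    have e : t2H p (Multiplicative.ofAdd 1) = T2 (1 : K) := by
      change T2 (algebraMap (ZMod p) K 1) = _
      rw [map_one]
    rwa [e] at this
  refine ⟨⟨T1 (σ s) 1 * T2 1, mul_mem h1 h2⟩, ?_⟩
  change (T1 (σ s) 1 * T2 1) • P0 K = P1 K
  unfold P0 P1
  rw [Projectivization.smul_mk, Projectivization.mk_eq_mk_iff']
  refine ⟨-1, ?_⟩
  funext i
  rw [mul_smul, smul_apply3, smul_apply3, smul_apply3, smul_apply3, coe_T1, coe_T2]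
  fin_cases i <;> simp [e0, e1]

end Geometry

section Action

/-- The standing hypotheses on the field. -/
structure Good (p : ℕ) [Fact p.Prime] (K : Type) [Field K] [Algebra (ZMod p) K]
    (σ : K →+* K) (s : K) : Prop where
  hσ : ∀ x, σ (σ x) = x
  h2 : (2 : ZMod p) ≠ 0
  h3 : (3 : ZMod p) ≠ 0
  hs : s * σ s = 1
  hne : s ≠ σ s
  hgen : Algebra.adjoin (ZMod p) {s ^ 3} = (⊤ : Subalgebra (ZMod p) K)

variable {K : Type} [Field K] {σ : K →+* K} {s : K} {p : ℕ} [Fact p.Prime] [Algebra (ZMod p) K]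

variable (p σ s) in
/-- the set acted on -/
abbrev XX : Type := ↥(MulAction.orbit (↥(Tri p s (σ s))) (P0 K))

variable (p σ s) in
/-- the base point of `XX` -/
def x0 : XX σ s p := ⟨P0 K, MulAction.mem_orbit_self _⟩

variable (p σ s) in
/-- the second point of `XX` -/
def x1 : XX σ s p := ⟨P1 K, by
  obtain ⟨g, hg⟩ := P1_mem_orbit (p := p) (σ := σ) (s := s)
  exact ⟨g, hg⟩⟩

theorem coe_smul_XX (g : ↥(Tri p s (σ s))) (x : XX σ s p) : ((g • x : XX σ s p) : ℙ K (Fin 3 → K)) =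
    g.1 • x.1 := rfl

theorem exists_UM (h : Good p K σ s) (x : XX σ s p) (hx : x ≠ x0 σ s p) :
    ∃ c γ, ∃ hm : UM σ s c γ ∈ Tri p s (σ s),
      x = (⟨UM σ s c γ, hm⟩ : ↥(Tri p s (σ s))) • x1 σ s p := by
  obtain ⟨x, g, hg⟩ := x
  have hg' : g.1 • P0 K = x := hg
  have hx' : g.1 • P0 K ≠ P0 K := by
    intro h'
    apply hx
    apply Subtype.ext
    change x = P0 K
    rw [← hg', h']
  obtain ⟨c, γ, h1, h2⟩ := orbit_class h.hσ h.hs h.hne g.1 (pres_Tri h.hσ h.hs g.1 g.2) hx'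
  refine ⟨c, γ, UM_mem h.hσ h.h2 h.hs h.hne h.hgen c γ h1, ?_⟩
  apply Subtype.ext
  rw [coe_smul_XX]
  change x = UM σ s c γ • P1 K
  rw [← h2, hg']

theorem UM_x0 (c γ : K) (hm : UM σ s c γ ∈ Tri p s (σ s)) :
    (⟨UM σ s c γ, hm⟩ : ↥(Tri p s (σ s))) • x0 σ s p = x0 σ s p := by
  apply Subtype.ext
  rw [coe_smul_XX]
  exact UM_P0 c γ

theorem exists_smul_pair (h : Good p K σ s) (a b : XX σ s p) (hab : a ≠ b) :
    ∃ g : ↥(Tri p s (σ s)), g • x0 σ s p = a ∧ g • x1 σ s p = b := by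
  obtain ⟨k, hk⟩ := MulAction.exists_smul_eq (↥(Tri p s (σ s))) (x0 σ s p) a
  have hb : k⁻¹ • b ≠ x0 σ s p := by
    intro h'
    apply hab
    rw [← hk, ← h', smul_inv_smul]
  obtain ⟨c, γ, hm, he⟩ := exists_UM h _ hb
  refine ⟨k * ⟨UM σ s c γ, hm⟩, ?_, ?_⟩
  · rw [mul_smul, UM_x0, hk]
  · rw [mul_smul, ← he, smul_inv_smul]

theorem two_trans (h : Good p K σ s) (a b c d : XX σ s p) (hab : a ≠ b) (hcd : c ≠ d) :
    ∃ g : ↥(Tri p s (σ s)), g • a = c ∧ g • b = d := by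
  obtain ⟨g, rfl, rfl⟩ := exists_smul_pair h a b hab
  obtain ⟨k, rfl, rfl⟩ := exists_smul_pair h c d hcd
  refine ⟨k * g⁻¹, ?_, ?_⟩
  · rw [mul_smul, inv_smul_smul]
  · rw [mul_smul, inv_smul_smul]

theorem quasiprim (h : Good p K σ s) :
    MulAction.IsQuasiPreprimitive (↥(Tri p s (σ s))) (XX σ s p) := by
  have h2 : MulAction.IsMultiplyPretransitive (↥(Tri p s (σ s))) (XX σ s p) 2 := by
    rw [MulAction.is_two_pretransitive_iff]
    intro a b c d hab hcd
    exact two_trans h a b c d hab hcd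
  have h3 := MulAction.isPreprimitive_of_is_two_pretransitive h2
  infer_instance

/-- the root-type subgroup attached to a point: its pointwise stabiliser in the underlying
vector space line -/
def Ux (x : XX σ s p) : Subgroup ↥(Tri p s (σ s)) where
  carrier := {g | ∀ (v : Fin 3 → K) (hv : v ≠ 0), Projectivization.mk K v hv = x.1 → g.1 • v = v}
  one_mem' := by intro v hv _; exact one_smul _ v
  mul_mem' := by
    intro a b ha hb v hv hx
    change (a.1 * b.1) • v = v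
    rw [mul_smul, hb v hv hx, ha v hv hx]
  inv_mem' := by
    intro a ha v hv hx
    change (a.1)⁻¹ • v = v
    rw [inv_smul_eq_iff, ha v hv hx]

theorem mem_Ux (x : XX σ s p) (g : ↥(Tri p s (σ s))) : g ∈ Ux x ↔
    ∀ (v : Fin 3 → K) (hv : v ≠ 0), Projectivization.mk K v hv = x.1 → g.1 • v = v := Iff.rfl

theorem mem_Ux0 (g : ↥(Tri p s (σ s))) : g ∈ Ux (x0 σ s p) ↔ g.1 • (e0 : Fin 3 → K) = e0 := by
  rw [mem_Ux]
  constructor
  · intro h; exact h e0 e0_ne rfl
  · intro h v hv hx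
    have hx' : Projectivization.mk K v hv = Projectivization.mk K e0 e0_ne := hx
    rw [Projectivization.mk_eq_mk_iff'] at hx'
    obtain ⟨a, rfl⟩ := hx'
    rw [smul_comm, h]

theorem Ux_smul (g k : ↥(Tri p s (σ s))) (x : XX σ s p) :
    k ∈ Ux (g • x) ↔ g⁻¹ * k * g ∈ Ux x := by
  rw [mem_Ux, mem_Ux]
  constructor
  · intro h v hv hx
    have h1 : Projectivization.mk K (g.1 • v) ((smul_ne_zero_iff_ne g.1).mpr hv) = (g • x).1 := by
      rw [coe_smul_XX, ← hx, Projectivization.smul_mk]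
    have h2 := h _ _ h1
    change (g.1⁻¹ * k.1 * g.1) • v = v
    rw [mul_smul, mul_smul, h2, inv_smul_smul]
  · intro h v hv hx
    have h1 : Projectivization.mk K (g.1⁻¹ • v) ((smul_ne_zero_iff_ne g.1⁻¹).mpr hv) = x.1 := by
      rw [← Projectivization.smul_mk _ hv, hx, coe_smul_XX, inv_smul_smul]
    have h2 := h _ _ h1
    have h3 : (g.1⁻¹ * k.1 * g.1) • (g.1⁻¹ • v) = g.1⁻¹ • v := h2
    rw [mul_smul, mul_smul, smul_inv_smul] at h3
    exact (smul_left_cancel_iff _).mp h3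

/-- the root subgroups: centres of the `Ux` -/
def Tx (x : XX σ s p) : Subgroup ↥(Tri p s (σ s)) where
  carrier := {z | z ∈ Ux x ∧ ∀ u ∈ Ux x, z * u = u * z}
  one_mem' := ⟨one_mem _, fun u _ => by rw [one_mul, mul_one]⟩
  mul_mem' := by
    rintro a b ⟨ha, ha'⟩ ⟨hb, hb'⟩
    refine ⟨mul_mem ha hb, fun u hu => ?_⟩
    rw [mul_assoc, hb' u hu, ← mul_assoc, ha' u hu, mul_assoc]
  inv_mem' := by
    rintro a ⟨ha, ha'⟩
    refine ⟨inv_mem ha, fun u hu => ?_⟩
    have := ha' u hu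
    rw [inv_mul_eq_iff_eq_mul, ← mul_assoc, this, mul_assoc, mul_inv_cancel, mul_one]

theorem mem_Tx (x : XX σ s p) (z : ↥(Tri p s (σ s))) : z ∈ Tx x ↔
    z ∈ Ux x ∧ ∀ u ∈ Ux x, z * u = u * z := Iff.rfl

theorem Tx_smul (g k : ↥(Tri p s (σ s))) (x : XX σ s p) :
    k ∈ Tx (g • x) ↔ g⁻¹ * k * g ∈ Tx x := by
  rw [mem_Tx, mem_Tx, Ux_smul]
  refine and_congr_right (fun _ => ?_)
  constructor
  · intro h u hu
    have h1 : g * u * g⁻¹ ∈ Ux (g • x) := by
      rw [Ux_smul]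
      have : g⁻¹ * (g * u * g⁻¹) * g = u := by group
      rwa [this]
    have h2 := h _ h1
    calc g⁻¹ * k * g * u = g⁻¹ * (k * (g * u * g⁻¹)) * g := by group
      _ = g⁻¹ * ((g * u * g⁻¹) * k) * g := by rw [h2]
      _ = u * (g⁻¹ * k * g) := by group
  · intro h u hu
    rw [Ux_smul] at hu
    have h2 := h _ hu
    calc k * u = g * ((g⁻¹ * k * g) * (g⁻¹ * u * g)) * g⁻¹ := by group
      _ = g * ((g⁻¹ * u * g) * (g⁻¹ * k * g)) * g⁻¹ := by rw [h2]
      _ = u * k := by group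

theorem t1_mem_Tx (h : Good p K σ s) (a : Multiplicative (ZMod p)) :
    (⟨t1H p (σ s) a, t1_mem s (σ s) a⟩ : ↥(Tri p s (σ s))) ∈ Tx (x0 σ s p) := by
  have e : t1H p (σ s) a = UM σ s 0 (algebraMap (ZMod p) K a.toAdd) := by
    rw [UM_T1]; rfl
  rw [mem_Tx, mem_Ux0]
  refine ⟨?_, fun u hu => ?_⟩
  · change t1H p (σ s) a • (e0 : Fin 3 → K) = e0
    rw [e, UM_e0]
  · rw [mem_Ux0] at hu
    obtain ⟨hu', -⟩ := eq_UM_of_fix h.hσ h.hs u.1 (pres_Tri h.hσ h.hs u.1 u.2) hu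
    apply Subtype.ext
    change t1H p (σ s) a * u.1 = u.1 * t1H p (σ s) a
    rw [e, hu', UM_mul, UM_mul]
    congr 1
    · ring
    · simp; ring

/-- the Weyl element of `SL₂` -/
def ww (p : ℕ) [Fact p.Prime] : Matrix.SpecialLinearGroup (Fin 2) (ZMod p) :=
  ⟨!![0, 1; -1, 0], by simp [Matrix.det_fin_two]⟩

theorem ww_conj (a : ZMod p) : ww p * xx a * (ww p)⁻¹ = yy (-a) := by
  rw [mul_inv_eq_iff_eq_mul]
  apply Subtype.ext
  change !![0, 1; -1, 0] * !![1, a; 0, 1] = !![1, 0; -a, 1] * !![0, 1; -1, 0]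
  ext i j
  fin_cases i <;> fin_cases j <;> simp [Matrix.mul_apply, Fin.sum_univ_two]

theorem conj_mem_iSup (g k : ↥(Tri p s (σ s))) (hk : k ∈ iSup (Tx (σ := σ) (s := s) (p := p))) :
    g * k * g⁻¹ ∈ iSup (Tx (σ := σ) (s := s) (p := p)) := by
  have h1 : (iSup (Tx (σ := σ) (s := s) (p := p))).map (MulAut.conj g).toMonoidHom ≤
      iSup (Tx (σ := σ) (s := s) (p := p)) := by
    rw [Subgroup.map_iSup]
    refine iSup_le (fun x => ?_)
    refine le_trans ?_ (le_iSup _ (g • x))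
    rintro _ ⟨z, hz, rfl⟩
    rw [Tx_smul]
    have : g⁻¹ * ((MulAut.conj g).toMonoidHom z) * g = z := by
      change g⁻¹ * (g * z * g⁻¹) * g = z
      group
    rw [this]; exact hz
  exact h1 ⟨k, hk, rfl⟩

theorem iSup_Tx (h : Good p K σ s) : iSup (Tx (σ := σ) (s := s) (p := p)) = ⊤ := by
  set N := iSup (Tx (σ := σ) (s := s) (p := p)) with hN
  have h1 : ∀ a, (⟨t1H p (σ s) a, t1_mem s (σ s) a⟩ : ↥(Tri p s (σ s))) ∈ N :=
    fun a => (le_iSup (Tx (σ := σ) (s := s) (p := p)) (x0 σ s p)) (t1_mem_Tx h a)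
  have h2 : ∀ a, (⟨t2H p a, t2_mem s (σ s) a⟩ : ↥(Tri p s (σ s))) ∈ N := by
    intro a
    have e := conj_mem_iSup (⟨psi12 (σ s) (ww p), psi12_mem s (σ s) _⟩ : ↥(Tri p s (σ s))) _
      (h1 a)
    convert e using 1
    apply Subtype.ext
    change t2H p a = psi12 (σ s) (ww p) * t1H p (σ s) a * (psi12 (σ s) (ww p))⁻¹
    have e1 : t1H p (σ s) a = psi12 (σ s) (xx a.toAdd) := (psi12_xx (σ s) a.toAdd).symm
    rw [e1, ← map_inv, ← map_mul, ← map_mul, ww_conj, psi12_yy, neg_neg]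
    rfl
  have h3 : ∀ a, (⟨t3H p s a, t3_mem s (σ s) a⟩ : ↥(Tri p s (σ s))) ∈ N := by
    intro a
    have e := conj_mem_iSup (⟨psi23 s (ww p), psi23_mem s (σ s) _⟩ : ↥(Tri p s (σ s))) _
      (h2 a)
    convert e using 1
    apply Subtype.ext
    change t3H p s a = psi23 s (ww p) * t2H p a * (psi23 s (ww p))⁻¹
    have e1 : t2H p a = psi23 s (xx a.toAdd) := (psi23_xx s a.toAdd).symm
    rw [e1, ← map_inv, ← map_mul, ← map_mul, ww_conj, psi23_yy, neg_neg]
    rfl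
  rw [eq_top_iff]
  rintro ⟨g, hg⟩ -
  have h4 : Tri p s (σ s) ≤ N.map (Tri p s (σ s)).subtype := by
    unfold Tri
    rw [Subgroup.closure_le]
    rintro _ ((⟨a, rfl⟩ | ⟨a, rfl⟩) | ⟨a, rfl⟩)
    · exact ⟨_, h1 a, rfl⟩
    · exact ⟨_, h2 a, rfl⟩
    · exact ⟨_, h3 a, rfl⟩
  obtain ⟨k, hk, hk'⟩ := h4 hg
  have : k = ⟨g, hg⟩ := Subtype.ext hk'
  rwa [← this]

/-- the Iwasawa structure -/
def iwa (h : Good p K σ s) : MulAction.IwasawaStructure ↥(Tri p s (σ s)) (XX σ s p) where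
  T := Tx
  is_comm x := ⟨⟨fun a b => Subtype.ext (a.2.2 b.1 b.2.1)⟩⟩
  is_conj g x := by
    ext k
    rw [Tx_smul, Subgroup.mem_pointwise_smul_iff_inv_smul_mem]
    rfl
  is_generator := iSup_Tx h

theorem perfect (h : Good p K σ s) : commutator ↥(Tri p s (σ s)) = ⊤ := by
  have hc : commutator (Matrix.SpecialLinearGroup (Fin 2) (ZMod p)) = ⊤ :=
    SL2.commutator_eq_top (a := (2 : ZMod p)) h.h2 (by
      intro h4
      apply h.h3
      linear_combination h4)
  have key : ∀ (ψ : Matrix.SpecialLinearGroup (Fin 2) (ZMod p) →* ↥(Tri p s (σ s))) g,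
      ψ g ∈ commutator ↥(Tri p s (σ s)) := by
    intro ψ g
    have h1 : (commutator (Matrix.SpecialLinearGroup (Fin 2) (ZMod p))).map ψ ≤
        commutator ↥(Tri p s (σ s)) := by
      rw [commutator_def, commutator_def, Subgroup.map_commutator]
      exact Subgroup.commutator_mono le_top le_top
    apply h1
    rw [hc]
    exact ⟨g, trivial, rfl⟩
  rw [eq_top_iff]
  rintro ⟨g, hg⟩ -
  have h4 : Tri p s (σ s) ≤ (commutator ↥(Tri p s (σ s))).map (Tri p s (σ s)).subtype := by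
    conv_lhs => unfold Tri
    rw [Subgroup.closure_le]
    rintro _ ((⟨a, rfl⟩ | ⟨a, rfl⟩) | ⟨a, rfl⟩)
    · refine ⟨_, key ((psi12 (σ s)).codRestrict (Tri p s (σ s)) (psi12_mem s (σ s))) (xx a.toAdd), ?_⟩
      exact psi12_xx (σ s) a.toAdd
    · refine ⟨_, key ((psi23 s).codRestrict (Tri p s (σ s)) (psi23_mem s (σ s))) (xx a.toAdd), ?_⟩
      exact psi23_xx s a.toAdd
    · refine ⟨_, key ((psi31 s (σ s) h.hs).codRestrict (Tri p s (σ s)) (psi31_mem s (σ s) h.hs))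
        (xx a.toAdd), ?_⟩
      exact psi31_xx s (σ s) h.hs a.toAdd
  obtain ⟨k, hk, hk'⟩ := h4 hg
  have : k = ⟨g, hg⟩ := Subtype.ext hk'
  rwa [← this]

theorem x0_ne_x1 : x0 σ s p ≠ x1 σ s p := by
  intro h
  exact P0_ne_P1 (congrArg Subtype.val h)

variable (σ s p) in
/-- the simple quotient -/
abbrev QQ : Subgroup (Equiv.Perm (XX σ s p)) :=
  (MulAction.toPermHom (↥(Tri p s (σ s))) (XX σ s p)).range

theorem QQ_simple (h : Good p K σ s) : IsSimpleGroup ↥(QQ σ s p) := by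
  have hq := quasiprim h
  have nt : Nontrivial ↥(QQ σ s p) := by
    obtain ⟨g, hg⟩ := MulAction.exists_smul_eq (↥(Tri p s (σ s))) (x0 σ s p) (x1 σ s p)
    refine ⟨⟨⟨MulAction.toPermHom _ _ g, ⟨g, rfl⟩⟩, 1, ?_⟩⟩
    intro h1
    have h2 := congrArg (fun q : ↥(QQ σ s p) => (q.1 : Equiv.Perm (XX σ s p)) (x0 σ s p)) h1
    change g • x0 σ s p = x0 σ s p at h2
    rw [hg] at h2
    exact x0_ne_x1 h2.symm
  refine ⟨fun N hN => ?_⟩
  set φ := (MulAction.toPermHom (↥(Tri p s (σ s))) (XX σ s p)).rangeRestrict with hφ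
  have hsurj : Function.Surjective φ := MonoidHom.rangeRestrict_surjective _
  by_cases hfix : MulAction.fixedPoints (N.comap φ) (XX σ s p) = .univ
  · left
    rw [Subgroup.eq_bot_iff_forall]
    intro q hq'
    obtain ⟨g, rfl⟩ := hsurj q
    apply Subtype.ext
    apply Equiv.ext
    intro x
    have hx : x ∈ MulAction.fixedPoints (N.comap φ) (XX σ s p) := by rw [hfix]; trivial
    exact hx ⟨g, hq'⟩
  · right
    have hle := (iwa h).commutator_le (N.comap φ) hfix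
    rw [perfect h] at hle
    rw [eq_top_iff]
    intro q _
    obtain ⟨g, rfl⟩ := hsurj q
    exact hle (Subgroup.mem_top g)

/-- an injection of `Option K` into `XX` -/
theorem card_XX (h : Good p K σ s) [Finite K] : Nat.card K + 1 ≤ Nat.card (XX σ s p) := by
  have h2K : (2 : K) ≠ 0 := by
    have := (map_ne_zero (algebraMap (ZMod p) K)).mpr h.h2
    rwa [map_ofNat] at this
  have hm : ∀ c : K, UM σ s c ((s - σ s) * (c * σ c) / 2) ∈ Tri p s (σ s) := by
    intro c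
    apply UM_mem h.hσ h.h2 h.hs h.hne h.hgen
    rw [map_div₀, map_mul, map_sub, map_mul, h.hσ, h.hσ, map_ofNat]
    field_simp
    ring
  let F : Option K → XX σ s p := fun o => match o with
    | none => x0 σ s p
    | some c => (⟨UM σ s c ((s - σ s) * (c * σ c) / 2), hm c⟩ : ↥(Tri p s (σ s))) • x1 σ s p
  have hF : Function.Injective F := by
    intro a b hab
    match a, b with
    | none, none => rfl
    | none, some c => exact absurd (congrArg Subtype.val hab).symm (UM_P1_ne _ _)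
    | some c, none => exact absurd (congrArg Subtype.val hab) (UM_P1_ne _ _)
    | some c, some d =>
      have := UM_P1_inj _ _ _ _ (congrArg Subtype.val hab)
      rw [this]
  have := Nat.card_le_card_of_injective F hF
  rwa [Finite.card_option] at this

theorem exists_unique_U (h : Good p K σ s) (y z : XX σ s p) (hy : y ≠ x0 σ s p) (hz : z ≠ x0 σ s p) :
    ∃! u : ↥(QQ σ s p), u ∈ (Ux (x0 σ s p)).map
      (MulAction.toPermHom (↥(Tri p s (σ s))) (XX σ s p)).rangeRestrict ∧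
      (u.1 : Equiv.Perm (XX σ s p)) y = z := by
  obtain ⟨c, γ, hm, he⟩ := exists_UM h y hy
  obtain ⟨c1, γ1, hm1, he1⟩ := exists_UM h z hz
  set k : ↥(Tri p s (σ s)) := ⟨UM σ s c γ, hm⟩ with hk
  set k1 : ↥(Tri p s (σ s)) := ⟨UM σ s c1 γ1, hm1⟩ with hk1
  have hkU : k ∈ Ux (x0 σ s p) := by rw [mem_Ux0]; exact UM_e0 c γ
  have hkU1 : k1 ∈ Ux (x0 σ s p) := by rw [mem_Ux0]; exact UM_e0 c1 γ1
  refine ⟨(MulAction.toPermHom (↥(Tri p s (σ s))) (XX σ s p)).rangeRestrict (k1 * k⁻¹),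
    ⟨⟨k1 * k⁻¹, mul_mem hkU1 (inv_mem hkU), rfl⟩, ?_⟩, ?_⟩
  · change (k1 * k⁻¹) • y = z
    rw [he, mul_smul, inv_smul_smul, he1]
  · rintro _ ⟨⟨g, hg, rfl⟩, hgy⟩
    change g • y = z at hgy
    congr 1
    have h1 : ((k1 * k⁻¹)⁻¹ * g).1 = 1 := by
      refine fix_eq_one' h.hσ h.hs _ k.1 (pres_Tri h.hσ h.hs _ ((k1 * k⁻¹)⁻¹ * g).2) ?_
        (pres_Tri h.hσ h.hs _ k.2) (UM_e0 c γ) ?_
      · rw [← mem_Ux0]
        exact mul_mem (inv_mem (mul_mem hkU1 (inv_mem hkU))) hg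
      · have h2 : ((k1 * k⁻¹)⁻¹ * g) • (k • x1 σ s p) = k • x1 σ s p := by
          rw [← he, mul_smul, hgy, inv_smul_eq_iff, mul_smul, he1]
          congr 1
          rw [he, inv_smul_smul]
        exact congrArg Subtype.val h2
    have h3 : (k1 * k⁻¹)⁻¹ * g = 1 := Subtype.ext h1
    have h4 := inv_mul_eq_one.mp h3
    exact h4.symm

theorem main_quotient (h : Good p K σ s) [Finite K] :
    Finite ↥(QQ σ s p) ∧ IsSimpleGroup ↥(QQ σ s p) ∧ Nat.card K ≤ Nat.card ↥(QQ σ s p) ∧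
    ∃ (X : Type) (φ : ↥(QQ σ s p) →* Equiv.Perm X), Finite X ∧ 3 ≤ Nat.card X ∧
      (∀ a b c d : X, a ≠ b → c ≠ d → ∃ g : ↥(QQ σ s p), φ g a = c ∧ φ g b = d) ∧
      ∃ (x : X) (U : Subgroup ↥(QQ σ s p)),
        (∀ u ∈ U, φ u x = x) ∧
        (∀ u ∈ U, ∀ h : ↥(QQ σ s p), φ h x = x → h * u * h⁻¹ ∈ U) ∧
        ∀ y z : X, y ≠ x → z ≠ x → ∃! u : ↥(QQ σ s p), u ∈ U ∧ φ u y = z := by
  have hfinX : Finite (XX σ s p) := inferInstance
  have hfinQ : Finite ↥(QQ σ s p) := inferInstance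
  refine ⟨hfinQ, QQ_simple h, ?_, XX σ s p, (QQ σ s p).subtype, hfinX, ?_, ?_, x0 σ s p,
    (Ux (x0 σ s p)).map (MulAction.toPermHom (↥(Tri p s (σ s))) (XX σ s p)).rangeRestrict,
    ?_, ?_, ?_⟩
  · have h1 : Nat.card (XX σ s p) ≤ Nat.card ↥(QQ σ s p) := by
      refine Nat.card_le_card_of_surjective
        (fun q : ↥(QQ σ s p) => (q.1 : Equiv.Perm (XX σ s p)) (x0 σ s p)) ?_
      intro x
      obtain ⟨g, hg⟩ := MulAction.exists_smul_eq (↥(Tri p s (σ s))) (x0 σ s p) x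
      exact ⟨⟨MulAction.toPermHom _ _ g, ⟨g, rfl⟩⟩, hg⟩
    have h2 := card_XX h
    omega
  · have h2 := card_XX h
    have h3 : 1 < Nat.card K := Finite.one_lt_card
    omega
  · intro a b c d hab hcd
    obtain ⟨g, hg1, hg2⟩ := two_trans h a b c d hab hcd
    exact ⟨⟨MulAction.toPermHom _ _ g, ⟨g, rfl⟩⟩, hg1, hg2⟩
  · rintro _ ⟨g, hg, rfl⟩
    change g • x0 σ s p = x0 σ s p
    have hg' : g.1 • (e0 : Fin 3 → K) = e0 := (mem_Ux0 g).mp hg
    apply Subtype.ext
    rw [coe_smul_XX]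
    change g.1 • Projectivization.mk K e0 e0_ne = Projectivization.mk K e0 e0_ne
    rw [Projectivization.smul_mk]
    congr 1
  · rintro _ ⟨g, hg, rfl⟩ q hq
    obtain ⟨k, rfl⟩ := MonoidHom.rangeRestrict_surjective
      (MulAction.toPermHom (↥(Tri p s (σ s))) (XX σ s p)) q
    have hk : k • x0 σ s p = x0 σ s p := hq
    refine ⟨k * g * k⁻¹, ?_, by rw [map_mul, map_mul, map_inv]⟩
    have h1 : k * g * k⁻¹ ∈ Ux (k • x0 σ s p) := by
      rw [Ux_smul]
      have : k⁻¹ * (k * g * k⁻¹) * k = g := by group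
      rw [this]; exact hg
    rwa [hk] at h1
  · intro y z hy hz
    exact exists_unique_U h y z hy hz

end Action

end Pool.Agent.Helper5.PropT
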