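import Mathlib
import Pool.Agent.Helper5.Simple

set_option autoImplicit false

namespace Pool.Agent.Helper5.PropT

variable {p : ℕ} [Fact p.Prime]

theorem exists_good (hp : 5 ≤ p) (K : Type) [Field K] [Finite K] [Algebra (ZMod p) K] (n : ℕ)
    (hn : 1 ≤ n) (hfin : Module.finrank (ZMod p) K = 2 ^ (n + 1)) :
    ∃ (σ : K →+* K) (s : K), Good p K σ s := by
  classical
  have hpp : p.Prime := Fact.out
  have : Fintype K := Fintype.ofFinite K
  have : CharP K p := charP_of_injective_algebraMap (algebraMap (ZMod p) K).injective p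
  have : ExpChar K p := ExpChar.prime hpp
  set q := p ^ (2 ^ n) with hq
  have hcard : Fintype.card K = q * q := by
    rw [Module.card_eq_pow_finrank (K := ZMod p) (V := K), hfin, ZMod.card, hq, ← pow_add]
    congr 1
    rw [pow_succ]; ring
  have hq25 : 25 ≤ q := by
    have h1 : 2 ≤ 2 ^ n := by
      calc 2 = 2 ^ 1 := by norm_num
        _ ≤ 2 ^ n := Nat.pow_le_pow_right (by norm_num) hn
    calc 25 = 5 ^ 2 := by norm_num
      _ ≤ p ^ 2 := Nat.pow_le_pow_left hp 2
      _ ≤ p ^ (2 ^ n) := Nat.pow_le_pow_right hpp.pos h1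
  obtain ⟨g, hg⟩ := IsCyclic.exists_ofOrder_eq_natCard (α := Kˣ)
  have hcu : Nat.card Kˣ = q * q - 1 := by
    rw [Nat.card_eq_fintype_card, Fintype.card_units, hcard]
  rw [hcu] at hg
  have hq1 : 1 ≤ q := by omega
  have hfac : q * q - 1 = (q - 1) * (q + 1) := by
    have gen : ∀ r : ℕ, 1 ≤ r → r * r - 1 = (r - 1) * (r + 1) := by
      intro r hr
      obtain ⟨t, rfl⟩ : ∃ t, r = t + 1 := ⟨r - 1, by omega⟩
      have : (t + 1) * (t + 1) = t * (t + 1 + 1) + 1 := by ring
      rw [this]; simp
    exact gen q hq1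
  set s : K := ((g ^ (q - 1) : Kˣ) : K) with hs
  have hσdef : ∀ x : K, iterateFrobenius K p (2 ^ n) x = x ^ q := fun x => iterateFrobenius_def p _ x
  have hpow : ∀ x : K, (x ^ q) ^ q = x := by
    intro x
    rw [← pow_mul, ← hcard, FiniteField.pow_card]
  have hss : s * s ^ q = 1 := by
    have h1 : (g ^ (q - 1)) * (g ^ (q - 1)) ^ q = 1 := by
      rw [← pow_succ', ← pow_mul, ← hfac, ← hg, pow_orderOf_eq_one]
    rw [hs, ← Units.val_pow_eq_pow_val, ← Units.val_mul, h1, Units.val_one]
  have hpow_ne : ∀ m : ℕ, 0 < m → m ≤ 6 → s ^ m ≠ 1 := by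
    intro m hm hm6 h
    have h1 : g ^ ((q - 1) * m) = 1 := by
      apply Units.ext
      rw [pow_mul, Units.val_pow_eq_pow_val, ← hs, h, Units.val_one]
    have h2 := orderOf_dvd_of_pow_eq_one h1
    rw [hg, hfac] at h2
    have h3 : (q + 1) ∣ m := Nat.dvd_of_mul_dvd_mul_left (by omega) h2
    have h4 := Nat.le_of_dvd hm h3
    omega
  refine ⟨iterateFrobenius K p (2 ^ n), s, ?_, ?_, ?_, ?_, ?_, ?_⟩
  · intro x; rw [hσdef, hσdef, hpow]
  · intro h
    have : ((2 : ℕ) : ZMod p) = 0 := by exact_mod_cast h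
    rw [ZMod.natCast_eq_zero_iff] at this
    have := Nat.le_of_dvd (by norm_num) this
    omega
  · intro h
    have : ((3 : ℕ) : ZMod p) = 0 := by exact_mod_cast h
    rw [ZMod.natCast_eq_zero_iff] at this
    have := Nat.le_of_dvd (by norm_num) this
    omega
  · rw [hσdef, hss]
  · rw [hσdef]
    intro h
    apply hpow_ne 2 (by norm_num) (by norm_num)
    rw [sq]
    nth_rewrite 2 [h]
    exact hss
  · -- generation
    have hint : IsAlgebraic (ZMod p) (s ^ 3) := Algebra.IsAlgebraic.isAlgebraic _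
    rw [← IntermediateField.adjoin_simple_toSubalgebra_of_isAlgebraic hint]
    set F := IntermediateField.adjoin (ZMod p) {s ^ 3} with hF
    have hmem : s ^ 3 ∈ F := IntermediateField.mem_adjoin_simple_self _ _
    have hmul : Module.finrank (ZMod p) F * Module.finrank F K = 2 ^ (n + 1) := by
      rw [Module.finrank_mul_finrank, hfin]
    obtain ⟨i, hi, hi'⟩ := (Nat.dvd_prime_pow Nat.prime_two).mp (Dvd.intro _ hmul)
    rcases Nat.lt_or_ge i (n + 1) with hlt | hge
    · exfalso
      have hFc : Fintype.card F = p ^ (2 ^ i) := by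
        rw [Module.card_eq_pow_finrank (K := ZMod p) (V := F), hi', ZMod.card]
      have h1 : ∀ x : F, x ^ q = x := by
        intro x
        have h2 := FiniteField.pow_card_pow (2 ^ (n - i)) x
        rw [hFc, ← pow_mul, ← pow_add] at h2
        have h3 : i + (n - i) = n := by omega
        rw [h3] at h2
        exact h2
      have h2 : (s ^ 3) ^ q = s ^ 3 := congrArg Subtype.val (h1 ⟨s ^ 3, hmem⟩)
      apply hpow_ne 6 (by norm_num) (by norm_num)
      calc s ^ 6 = s ^ 3 * s ^ 3 := by ring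
        _ = s ^ 3 * (s ^ 3) ^ q := by rw [h2]
        _ = (s * s ^ q) ^ 3 := by ring
        _ = 1 := by rw [hss, one_pow]
    · have hi2 : i = n + 1 := le_antisymm hi hge
      have hF1 : Module.finrank F K = 1 := by
        rw [hi', hi2] at hmul
        have : 0 < 2 ^ (n + 1) := by positivity
        exact Nat.eq_of_mul_eq_mul_left this (by rw [hmul, mul_one])
      have : F = ⊤ := IntermediateField.finrank_eq_one_iff_eq_top.mp hF1
      rw [this]
      rfl

end Pool.Agent.Helper5.PropT
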