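import Mathlib

/-!
Growth of finitely generated groups and the uniform gap property.

For a subset `X` of a group, `ball X n` is the set of all products of at most `n` elements of
`X ∪ X⁻¹`, and `growth X n` is its cardinality, i.e. the growth function `γ_X(n)`.
-/

namespace Pool.Agent.Helper5.Gap

universe u

/-- The ball of radius `n`: all group elements that are a product of at most `n` elements
of `X ∪ X⁻¹`. -/
def ball {G : Type*} [Group G] (X : Set G) (n : ℕ) : Set G :=
  {g | ∃ l : List G, l.length ≤ n ∧ (∀ x ∈ l, x ∈ X ∨ x⁻¹ ∈ X) ∧ l.prod = g}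

/-- The growth function `γ_X(n)`. -/
noncomputable def growth {G : Type*} [Group G] (X : Set G) (n : ℕ) : ℕ := (ball X n).ncard

/-- `G` has a nilpotent subgroup of finite index. -/
def VirtNilpotent (G : Type*) [Group G] : Prop :=
  ∃ H : Subgroup G, H.FiniteIndex ∧ Group.IsNilpotent H

/-- Residually nilpotent groups: every nontrivial element survives in a nilpotent quotient. -/
def ResNilpotent (G : Type u) [Group G] : Prop :=
  ∀ g : G, g ≠ 1 → ∃ (N : Subgroup G) (_ : N.Normal), Group.IsNilpotent (G ⧸ N) ∧ g ∉ N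

/-- Residually soluble groups: every nontrivial element survives in a soluble quotient. -/
def ResSoluble (G : Type u) [Group G] : Prop :=
  ∀ g : G, g ≠ 1 → ∃ (N : Subgroup G) (_ : N.Normal), Group.IsSolvable (G ⧸ N) ∧ g ∉ N

/-- `G` is an extension of an infinite, finitely generated, perfect group `P` by a soluble
virtually nilpotent group. -/
def PerfectByNilpotent (G : Type u) [Group G] : Prop :=
  ∃ (P : Subgroup G) (_ : P.Normal), P.FG ∧ Infinite P ∧ ⁅P, P⁆ = P ∧
    Group.IsSolvable (G ⧸ P) ∧ VirtNilpotent (G ⧸ P)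

/-- `f ≽ g`: there is a constant `C ≥ 1` with `g n ≤ f (C n)` for all `n ≥ 1`. -/
def Dominates (f g : ℕ → ℝ) : Prop :=
  ∃ C : ℕ, 1 ≤ C ∧ ∀ n : ℕ, 1 ≤ n → g n ≤ f (C * n)

/-- The statement `Gap**(β)` for the groups in a class `𝒞`: one non-decreasing function
`f ≽ exp(n^β)` is a lower bound, at every `n ≥ 1`, for the growth functions `γ_X` of all groups
`G = ⟨X⟩` in the class that are not virtually nilpotent. -/
def UniformGap (𝒞 : ∀ (G : Type u) [Group G], Prop) (β : ℝ) : Prop :=
  ∃ f : ℕ → ℝ, Monotone f ∧ Dominates f (fun n => Real.exp ((n : ℝ) ^ β)) ∧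
    ∀ (G : Type u) [Group G] (X : Finset G), Subgroup.closure (X : Set G) = ⊤ → 𝒞 G →
      ¬ VirtNilpotent G → ∀ n : ℕ, 1 ≤ n → f n ≤ growth (X : Set G) n

end Pool.Agent.Helper5.Gap
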