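import Pool.Agent.Helper5.GapBasic

open scoped commutatorElement

namespace Pool.Agent.Helper5.Gap

variable {G : Type*} [Group G] {X : Set G}

/-- Words `a^ε₀ t a^ε₁ t ⋯` are distinct when `t` expands an additive functional by a factor of
norm at least `2`. -/
theorem words_separated (D : Subgroup G) [D.Normal] (φ : G → ℂ)
    (hadd : ∀ x ∈ D, ∀ y ∈ D, φ (x * y) = φ x + φ y) (t : G) (ν : ℂ)
    (hconj : ∀ x ∈ D, φ (t * x * t⁻¹) = ν * φ x) (hν : 2 ≤ ‖ν‖) (a : G) (ha : a ∈ D)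
    (hφa : φ a ≠ 0) {ℓ ℓ' : ℕ} (hal : a ∈ ball X ℓ) (htl : t ∈ ball X ℓ') (n : ℕ) :
    ∃ P : Finset G, P.card = 2 ^ n ∧
      (∀ w ∈ P, w ∈ ball X (n * (ℓ + ℓ')) ∧ w * (t ^ n)⁻¹ ∈ D) ∧
      ∀ w ∈ P, ∀ w' ∈ P, w ≠ w' → ‖φ a‖ ≤ ‖φ (w * (t ^ n)⁻¹) - φ (w' * (t ^ n)⁻¹)‖ := by
  classical
  have hDn : D.Normal := inferInstance
  induction n with
  | zero =>
    refine ⟨{1}, by simp, by simp [one_mem_ball, one_mem], ?_⟩
    intro w hw w' hw' hne
    simp only [Finset.mem_singleton] at hw hw'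
    exact absurd (hw.trans hw'.symm) hne
  | succ n ih =>
    obtain ⟨P, hcard, hP, hsep⟩ := ih
    have e1 : ∀ w : G, t * w * (t ^ (n + 1))⁻¹ = t * (w * (t ^ n)⁻¹) * t⁻¹ := by
      intro w; rw [pow_succ', mul_inv_rev]; simp only [mul_assoc]
    have e2 : ∀ w : G, a * (t * w) * (t ^ (n + 1))⁻¹ = a * (t * (w * (t ^ n)⁻¹) * t⁻¹) := by
      intro w; rw [mul_assoc, e1]
    have v1 : ∀ w ∈ P, φ (t * w * (t ^ (n + 1))⁻¹) = ν * φ (w * (t ^ n)⁻¹) := by
      intro w hw; rw [e1]; exact hconj _ (hP w hw).2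
    have m1 : ∀ w ∈ P, t * w * (t ^ (n + 1))⁻¹ ∈ D := by
      intro w hw; rw [e1]; exact hDn.conj_mem _ (hP w hw).2 t
    have v2 : ∀ w ∈ P, φ (a * (t * w) * (t ^ (n + 1))⁻¹) = φ a + ν * φ (w * (t ^ n)⁻¹) := by
      intro w hw
      rw [e2, hadd _ ha _ (hDn.conj_mem _ (hP w hw).2 t)]
      rw [hconj _ (hP w hw).2]
    have m2 : ∀ w ∈ P, a * (t * w) * (t ^ (n + 1))⁻¹ ∈ D := by
      intro w hw; rw [e2]; exact D.mul_mem ha (hDn.conj_mem _ (hP w hw).2 t)
    have hpos : 0 < ‖φ a‖ := norm_pos_iff.2 hφa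
    have big : ∀ w ∈ P, ∀ w' ∈ P, w ≠ w' →
        2 * ‖φ a‖ ≤ ‖ν * φ (w * (t ^ n)⁻¹) - ν * φ (w' * (t ^ n)⁻¹)‖ := by
      intro w hw w' hw' hne
      rw [← mul_sub, norm_mul]
      exact mul_le_mul hν (hsep w hw w' hw' hne) hpos.le (by positivity)
    have mixed : ∀ w ∈ P, ∀ w' ∈ P, ‖φ a‖ ≤
        ‖(φ a + ν * φ (w * (t ^ n)⁻¹)) - ν * φ (w' * (t ^ n)⁻¹)‖ := by
      intro w hw w' hw'
      by_cases hne : w = w'
      · subst hne
        rw [add_sub_cancel_right]
      · have h1 := big w hw w' hw' hne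
        have h2 := norm_sub_norm_le (ν * φ (w * (t ^ n)⁻¹) - ν * φ (w' * (t ^ n)⁻¹)) (-φ a)
        rw [norm_neg] at h2
        have h3 : (ν * φ (w * (t ^ n)⁻¹) - ν * φ (w' * (t ^ n)⁻¹)) - -φ a =
          (φ a + ν * φ (w * (t ^ n)⁻¹)) - ν * φ (w' * (t ^ n)⁻¹) := by ring
        rw [h3] at h2
        linarith
    refine ⟨P.image (fun w => t * w) ∪ P.image (fun w => a * (t * w)), ?_, ?_, ?_⟩
    · have hinj : Function.Injective (fun w : G => a * (t * w)) := by
        intro x y hxy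
        exact mul_left_cancel (mul_left_cancel hxy)
      rw [Finset.card_union_of_disjoint, Finset.card_image_of_injective _ (mul_right_injective t),
        Finset.card_image_of_injective _ hinj, hcard, pow_succ]
      · ring
      · rw [Finset.disjoint_left]
        intro p hp hp'
        obtain ⟨w, hw, rfl⟩ := Finset.mem_image.1 hp
        obtain ⟨w', hw', he⟩ := Finset.mem_image.1 hp'
        have he' : a * (t * w') = t * w := he
        have h1 := mixed w' hw' w hw
        rw [← v2 w' hw', ← v1 w hw, he', sub_self, norm_zero] at h1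
        linarith
    · intro p hp
      rcases Finset.mem_union.1 hp with hp | hp
      · obtain ⟨w, hw, rfl⟩ := Finset.mem_image.1 hp
        refine ⟨?_, m1 w hw⟩
        have := mul_mem_ball htl (hP w hw).1
        exact ball_mono (by rw [Nat.succ_mul]; omega) this
      · obtain ⟨w, hw, rfl⟩ := Finset.mem_image.1 hp
        refine ⟨?_, m2 w hw⟩
        have := mul_mem_ball hal (mul_mem_ball htl (hP w hw).1)
        exact ball_mono (by rw [Nat.succ_mul]; omega) this
    · intro p hp p' hp' hne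
      rcases Finset.mem_union.1 hp with hp | hp <;> rcases Finset.mem_union.1 hp' with hp' | hp'
      · obtain ⟨w, hw, rfl⟩ := Finset.mem_image.1 hp
        obtain ⟨w', hw', rfl⟩ := Finset.mem_image.1 hp'
        rw [v1 w hw, v1 w' hw']
        have hne' : w ≠ w' := by rintro rfl; exact hne rfl
        have := big w hw w' hw' hne'
        linarith
      · obtain ⟨w, hw, rfl⟩ := Finset.mem_image.1 hp
        obtain ⟨w', hw', rfl⟩ := Finset.mem_image.1 hp'
        rw [v1 w hw, v2 w' hw', norm_sub_rev]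
        exact mixed w' hw' w hw
      · obtain ⟨w, hw, rfl⟩ := Finset.mem_image.1 hp
        obtain ⟨w', hw', rfl⟩ := Finset.mem_image.1 hp'
        rw [v2 w hw, v1 w' hw']
        exact mixed w hw w' hw'
      · obtain ⟨w, hw, rfl⟩ := Finset.mem_image.1 hp
        obtain ⟨w', hw', rfl⟩ := Finset.mem_image.1 hp'
        rw [v2 w hw, v2 w' hw', add_sub_add_left_eq_sub]
        have hne' : w ≠ w' := by rintro rfl; exact hne rfl
        have := big w hw w' hw' hne'
        linarith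

/-- An eigenvalue with a large power gives large growth. -/
theorem growth_of_eigen (hX : X.Finite) (D : Subgroup G) [D.Normal] {L L' : ℕ}
    (hgen : Gen X L D) {m : ℕ} (θ : D → (Fin m → ℤ)) (P : G →* Matrix (Fin m) (Fin m) ℤ)
    (hsurj : Function.Surjective θ) (hadd : ∀ x y, θ (x * y) = θ x + θ y)
    (hconj : ∀ g d, θ (MulAut.conjNormal g d) = (P g).mulVec (θ d))
    (h : G) (hh : h ∈ ball X L') (k : ℕ) (z : ℂ)
    (hz : z ∈ ((P h).charpoly.map (Int.castRingHom ℂ)).roots) (hk : 2 ≤ ‖z‖ ^ k) {K R : ℕ}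
    (hR : K * (L + k * L') ≤ R) : 2 ^ K ≤ growth X R := by
  classical
  have hDn : D.Normal := inferInstance
  set A : Matrix (Fin m) (Fin m) ℂ := (P h).map (Int.castRingHom ℂ) with hA
  -- the eigenfunctional
  have hz' : A.charpoly.IsRoot z := by
    rw [hA, Matrix.charpoly_map]
    exact Polynomial.isRoot_of_mem_roots hz
  obtain ⟨v, hv0, hv⟩ : ∃ v : Fin m → ℂ, v ≠ 0 ∧ Matrix.vecMul v A = z • v := by
    have h1 : (Matrix.scalar (Fin m) z - A).det = 0 := by
      rw [Polynomial.IsRoot, Matrix.eval_charpoly] at hz'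
      exact hz'
    obtain ⟨v, hv0, hv⟩ := Matrix.exists_vecMul_eq_zero_iff.2 h1
    refine ⟨v, hv0, ?_⟩
    rw [Matrix.vecMul_sub, sub_eq_zero] at hv
    rw [← hv]
    ext i
    simp [Matrix.vecMul_diagonal, mul_comm]
  set ψ : D → ℂ := fun d => v ⬝ᵥ (fun i => ((θ d i : ℤ) : ℂ)) with hψ
  have hψadd : ∀ x y, ψ (x * y) = ψ x + ψ y := by
    intro x y
    simp only [hψ, hadd, Pi.add_apply, Int.cast_add]
    rw [← dotProduct_add]
    rfl
  have hψconj : ∀ d, ψ (MulAut.conjNormal h d) = z * ψ d := by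
    intro d
    have h1 : (fun i => (((θ (MulAut.conjNormal h d)) i : ℤ) : ℂ)) =
        A.mulVec (fun i => ((θ d i : ℤ) : ℂ)) := by
      rw [hconj]
      ext i
      simp [Matrix.mulVec, dotProduct, hA]
    show v ⬝ᵥ _ = z * (v ⬝ᵥ _)
    rw [h1, Matrix.dotProduct_mulVec, hv, smul_dotProduct, smul_eq_mul]
  -- extend to `G`
  set φ : G → ℂ := fun g => if hg : g ∈ D then ψ ⟨g, hg⟩ else 0 with hφ
  have hφD : ∀ d : D, φ d = ψ d := by
    intro d
    simp [hφ]
  have hφadd : ∀ x ∈ D, ∀ y ∈ D, φ (x * y) = φ x + φ y := by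
    intro x hx y hy
    have h1 := hψadd ⟨x, hx⟩ ⟨y, hy⟩
    have h2 := hφD (⟨x, hx⟩ * ⟨y, hy⟩)
    rw [h1, ← hφD, ← hφD] at h2
    exact h2
  have hφconj1 : ∀ x ∈ D, φ (h * x * h⁻¹) = z * φ x := by
    intro x hx
    have h1 := hψconj ⟨x, hx⟩
    rw [← hφD, ← hφD] at h1
    simpa using h1
  have hφconj : ∀ n : ℕ, ∀ x ∈ D, φ (h ^ n * x * (h ^ n)⁻¹) = z ^ n * φ x := by
    intro n
    induction n with
    | zero => intro x _; simp
    | succ n ih =>
      intro x hx
      have h1 : h ^ (n + 1) * x * (h ^ (n + 1))⁻¹ = h * (h ^ n * x * (h ^ n)⁻¹) * h⁻¹ := by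
        rw [pow_succ', mul_inv_rev]; simp only [mul_assoc]
      rw [h1, hφconj1 _ (hDn.conj_mem x hx _), ih x hx, pow_succ']
      ring
  obtain ⟨a, ha, hφa⟩ : ∃ a ∈ (D : Set G) ∩ ball X L, φ a ≠ 0 := by
    by_contra hcon
    push Not at hcon
    have h1 : ∀ x ∈ D, φ x = 0 := by
      intro x hx
      have hx' : x ∈ Subgroup.closure ((D : Set G) ∩ ball X L) := hgen hx
      have hle : Subgroup.closure ((D : Set G) ∩ ball X L) ≤ D := by
        rw [Subgroup.closure_le]; exact Set.inter_subset_left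
      have hone : φ 1 = 0 := by
        have := hφadd 1 D.one_mem 1 D.one_mem
        rw [mul_one] at this
        linear_combination -this
      induction hx' using Subgroup.closure_induction with
      | mem y hy => exact hcon y hy
      | one => exact hone
      | mul x y hx' hy' ihx ihy =>
        rw [hφadd x (hle hx') y (hle hy'), ihx (hle hx'), ihy (hle hy'), add_zero]
      | inv x hx' ihx =>
        have h2 := hφadd x (hle hx') x⁻¹ (D.inv_mem (hle hx'))
        rw [mul_inv_cancel, hone, ihx (hle hx'), zero_add] at h2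
        exact h2.symm
    apply hv0
    ext i
    obtain ⟨d, hd⟩ := hsurj (Pi.single i 1)
    have h2 := h1 d d.2
    rw [hφD] at h2
    have h3 : ψ d = v i := by
      simp only [hψ, hd]
      rw [dotProduct, Finset.sum_eq_single i]
      · simp
      · intro j _ hj
        simp [hj]
      · simp
    rw [h3] at h2
    exact h2
  obtain ⟨Q, hcard, hQ, _⟩ := words_separated (X := X) D φ hφadd (h ^ k) (z ^ k) (hφconj k)
    (by rw [norm_pow]; exact hk) a ha.1 hφa ha.2 (pow_mem_ball hh k) K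
  rw [← hcard]
  exact card_le_growth hX Q (fun p hp => ball_mono hR (hQ p hp).1)

end Pool.Agent.Helper5.Gap
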