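import Mathlib

open scoped commutatorElement

namespace Pool.Agent.Helper5.Gap

section

variable {k : Type*} [Field k] {W : Type*} [AddCommGroup W] [Module k W] [Module.Finite k W]
  {Γ : Type*} [Group Γ]

/-- In a faithful irreducible representation, a unipotent element all of whose conjugates
commute is trivial. -/
theorem eq_one_of_unipotent (ρ : Γ →* Module.End k W) (hinj : Function.Injective ρ)
    (hirr : ∀ U : Submodule k W, (∀ g : Γ, ∀ w ∈ U, ρ g w ∈ U) → U = ⊥ ∨ U = ⊤)
    (u : Γ) (hcomm : ∀ g h : Γ, Commute (g * u * g⁻¹) (h * u * h⁻¹))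
    (hu : IsNilpotent (ρ u - 1)) : u = 1 := by
  classical
  rcases subsingleton_or_nontrivial W with hW | hW
  · apply hinj
    ext w
    exact Subsingleton.elim _ _
  set T : Γ → Module.End k W := fun g => ρ (g * u * g⁻¹) with hT
  have hTn : ∀ g, IsNilpotent (T g - 1) := by
    intro g
    obtain ⟨n, hn⟩ := hu
    refine ⟨n, ?_⟩
    have h1 : T g - 1 = ρ g * (ρ u - 1) * ρ g⁻¹ := by
      simp only [hT, map_mul, mul_sub, sub_mul, mul_one]
      rw [← map_mul ρ g g⁻¹, mul_inv_cancel, map_one]
    have h2 : ∀ n, (ρ g * (ρ u - 1) * ρ g⁻¹) ^ n = ρ g * (ρ u - 1) ^ n * ρ g⁻¹ := by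
      intro n
      induction n with
      | zero => simp only [pow_zero, mul_one]; rw [← map_mul ρ g g⁻¹, mul_inv_cancel, map_one]
      | succ n ih =>
        rw [pow_succ, ih, pow_succ]
        have h3 : ρ g⁻¹ * ρ g = 1 := by rw [← map_mul, inv_mul_cancel, map_one]
        calc ρ g * (ρ u - 1) ^ n * ρ g⁻¹ * (ρ g * (ρ u - 1) * ρ g⁻¹)
            = ρ g * (ρ u - 1) ^ n * (ρ g⁻¹ * ρ g) * (ρ u - 1) * ρ g⁻¹ := by
              simp only [mul_assoc]
          _ = _ := by rw [h3]; simp only [mul_one, mul_assoc]
    rw [h1, h2, hn]; simp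
  have hTc : ∀ g h, Commute (T g) (T h) := fun g h => (hcomm g h).map ρ
  set 𝒮 : Set (Submodule k W) := {P | P ≠ ⊥ ∧ ∀ g, ∀ w ∈ P, T g w ∈ P} with h𝒮
  have hne : 𝒮.Nonempty := ⟨⊤, top_ne_bot, fun _ _ _ => Submodule.mem_top⟩
  obtain ⟨P, ⟨hP0, hPi⟩, hPmin⟩ :=
    WellFounded.has_min (wellFounded_lt (α := Submodule k W)) 𝒮 hne
  have hkill : ∀ g, ∀ w ∈ P, T g w = w := by
    intro g
    set φ : Module.End k W := T g - 1 with hφ
    have hφP : P.map φ ≤ P := by
      rintro _ ⟨w, hw, rfl⟩
      rw [hφ, LinearMap.sub_apply]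
      exact P.sub_mem (hPi g w hw) hw
    have hφi : ∀ h, ∀ w ∈ P.map φ, T h w ∈ P.map φ := by
      rintro h _ ⟨w, hw, rfl⟩
      refine ⟨T h w, hPi h w hw, ?_⟩
      have hc : Commute φ (T h) := (hTc g h).sub_left (Commute.one_left _)
      have := congrArg (fun f : Module.End k W => f w) hc.eq
      simpa [Module.End.mul_apply] using this
    have hbot : P.map φ = ⊥ := by
      by_contra hb
      have hnlt := hPmin (P.map φ) ⟨hb, hφi⟩
      have heq : P.map φ = P := by
        by_contra hne
        exact hnlt (lt_of_le_of_ne hφP hne)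
      obtain ⟨n, hn⟩ := hTn g
      have hpow : ∀ n, P.map (φ ^ n) = P := by
        intro n
        induction n with
        | zero => simp [Module.End.one_eq_id]
        | succ n ih =>
          rw [pow_succ, Module.End.mul_eq_comp, Submodule.map_comp, heq, ih]
      have := hpow n
      rw [hn] at this
      apply hP0
      rw [← this]
      exact Submodule.map_zero P
    intro w hw
    have h0 : φ w ∈ P.map φ := ⟨w, hw, rfl⟩
    rw [hbot, Submodule.mem_bot, hφ, LinearMap.sub_apply, sub_eq_zero] at h0
    exact h0
  set Fix : Submodule k W :=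
    { carrier := {w | ∀ g, T g w = w}
      add_mem' := by intro a b ha hb g; rw [map_add, ha g, hb g]
      zero_mem' := by intro g; rw [map_zero]
      smul_mem' := by intro c a ha g; rw [map_smul, ha g] } with hFix
  have hFixi : ∀ h : Γ, ∀ w ∈ Fix, ρ h w ∈ Fix := by
    intro h w hw g
    have h1 : T g * ρ h = ρ h * T (h⁻¹ * g) := by
      simp only [hT, ← map_mul]
      congr 1
      group
    have h2 : T g (ρ h w) = ρ h (T (h⁻¹ * g) w) := by
      have := congrArg (fun f : Module.End k W => f w) h1
      simpa [Module.End.mul_apply] using this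
    rw [h2, hw]
  have hFixtop : Fix = ⊤ := by
    rcases hirr Fix hFixi with h | h
    · exfalso
      apply hP0
      rw [eq_bot_iff, ← h]
      intro w hw g
      exact hkill g w hw
    · exact h
  apply hinj
  rw [map_one]
  ext w
  have hw : w ∈ Fix := by rw [hFixtop]; trivial
  have := hw 1
  simpa [hT] using this

/-- The main step of the finiteness argument. -/
theorem finite_of_commutator_finite (ρ : Γ →* Module.End k W) (hinj : Function.Injective ρ)
    (hirr : ∀ U : Submodule k W, (∀ g : Γ, ∀ w ∈ U, ρ g w ∈ U) → U = ⊥ ∨ U = ⊤)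
    (D : Subgroup Γ) [D.Normal] (hfin : Finite (⁅D, D⁆ : Subgroup Γ)) (S : Set Γ)
    (hS : S.Finite) (hDS : D = Subgroup.closure S)
    (hq : ∀ s ∈ S, ∃ N : ℕ, 0 < N ∧ IsNilpotent (ρ s ^ N - 1)) : Finite D := by
  classical
  set E : Subgroup Γ := ⁅D, D⁆ with hE
  have hSD : ∀ s ∈ S, s ∈ D := fun s hs => by rw [hDS]; exact Subgroup.subset_closure hs
  have hfo : ∀ s ∈ S, IsOfFinOrder s := by
    intro s hs
    obtain ⟨N, hN, hnil⟩ := hq s hs
    set a := Nat.card (MulAut E) with ha
    have ha0 : 0 < a := Nat.card_pos
    set b := Nat.card E with hb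
    have hb0 : 0 < b := Nat.card_pos
    have h1 : ∀ e ∈ E, s ^ a * e = e * s ^ a := by
      intro e he
      have h2 : MulAut.conjNormal (H := E) (s ^ a) = 1 := by
        rw [map_pow]; exact pow_card_eq_one'
      have h3 := congrArg (fun f : MulAut E => ((f ⟨e, he⟩ : E) : Γ)) h2
      simp only [MulAut.conjNormal_apply, MulAut.one_apply] at h3
      rw [← mul_inv_eq_iff_eq_mul]
      exact h3
    have hsaD : s ^ a ∈ D := D.pow_mem (hSD s hs) a
    have h4 : ∀ y ∈ D, Commute ((s ^ a) ^ b) y := by
      intro y hy
      set z := ⁅s ^ a, y⁆ with hz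
      have hzE : z ∈ E := Subgroup.commutator_mem_commutator hsaD hy
      have hzc := h1 z hzE
      have hstep : ∀ j : ℕ, (s ^ a) ^ j * y = z ^ j * y * (s ^ a) ^ j := by
        intro j
        induction j with
        | zero => simp
        | succ j ih =>
          have e1 : s ^ a * y = z * y * s ^ a := by
            rw [hz, commutatorElement_def]; group
          have e2 : s ^ a * z ^ j = z ^ j * s ^ a := by
            have : Commute (s ^ a) z := hzc
            exact (this.pow_right j).eq
          calc (s ^ a) ^ (j + 1) * y = s ^ a * ((s ^ a) ^ j * y) := by rw [pow_succ', mul_assoc]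
            _ = s ^ a * (z ^ j * y * (s ^ a) ^ j) := by rw [ih]
            _ = (s ^ a * z ^ j) * y * (s ^ a) ^ j := by simp only [mul_assoc]
            _ = z ^ j * (s ^ a * y) * (s ^ a) ^ j := by rw [e2]; simp only [mul_assoc]
            _ = z ^ j * (z * y * s ^ a) * (s ^ a) ^ j := by rw [e1]
            _ = z ^ (j + 1) * y * (s ^ a) ^ (j + 1) := by
              rw [pow_succ z j, pow_succ' (s ^ a) j]; simp only [mul_assoc]
      have hzb : z ^ b = 1 := by
        exact congrArg Subtype.val (pow_card_eq_one' (x := (⟨z, hzE⟩ : E)))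
      have := hstep b
      rw [hzb, one_mul] at this
      exact this
    set u := (s ^ a) ^ b with hu
    have huD : u ∈ D := D.pow_mem hsaD b
    have h5 : ∀ y ∈ D, Commute (u ^ N) y := fun y hy => (h4 y hy).pow_left N
    have h6 : u ^ N = 1 := by
      refine eq_one_of_unipotent ρ hinj hirr (u ^ N) ?_ ?_
      · intro g h
        have h7 : ∀ g : Γ, ∀ y ∈ D, Commute (g * u ^ N * g⁻¹) y := by
          intro g y hy
          have h8 : g⁻¹ * y * g ∈ D := by
            have := (inferInstance : D.Normal).conj_mem y hy g⁻¹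
            simpa using this
          have h9 := (h5 _ h8).eq
          show g * u ^ N * g⁻¹ * y = y * (g * u ^ N * g⁻¹)
          calc g * u ^ N * g⁻¹ * y = g * (u ^ N * (g⁻¹ * y * g)) * g⁻¹ := by group
            _ = g * ((g⁻¹ * y * g) * u ^ N) * g⁻¹ := by rw [h9]
            _ = y * (g * u ^ N * g⁻¹) := by group
        exact h7 g _ ((inferInstance : D.Normal).conj_mem _ (D.pow_mem huD N) h)
      · have h10 : ρ (u ^ N) - 1 = (ρ s ^ N) ^ (a * b) - 1 := by
          rw [hu]
          simp only [map_pow, ← pow_mul]
          congr 2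
          ring
        rw [h10]
        have h11 : (ρ s ^ N) ^ (a * b) - 1 =
            (ρ s ^ N - 1) * (∑ i ∈ Finset.range (a * b), (ρ s ^ N) ^ i) := by
          rw [mul_geom_sum]
        rw [h11]
        refine Commute.isNilpotent_mul_right ?_ hnil
        refine Commute.sum_right _ _ _ (fun i _ => ?_)
        exact ((Commute.refl _).sub_left (Commute.one_left _)).pow_right i
    rw [isOfFinOrder_iff_pow_eq_one]
    refine ⟨a * b * N, by positivity, ?_⟩
    rw [pow_mul, pow_mul]
    exact h6
  -- the abelianization is finite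
  have hfg : Group.FG D := by
    rw [Group.fg_iff_subgroup_fg]
    exact ⟨hS.toFinset, by simp [hDS]⟩
  have htor : IsMulTorsion (Abelianization D) := by
    have hgen : Subgroup.closure ((fun s : D => Abelianization.of s) ''
        ((Subtype.val : D → Γ) ⁻¹' S)) = ⊤ := by
      have h1 : Subgroup.closure ((Subtype.val : D → Γ) ⁻¹' S) = ⊤ := by
        have := Subgroup.closure_closure_coe_preimage (k := S)
        subst hDS
        exact this
      have h2 : Function.Surjective (Abelianization.of : D →* Abelianization D) :=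
        QuotientGroup.mk_surjective
      have h3 := MonoidHom.map_closure (Abelianization.of : D →* Abelianization D)
        ((Subtype.val : D → Γ) ⁻¹' S)
      rw [h1, ← MonoidHom.range_eq_map, MonoidHom.range_eq_top.2 h2] at h3
      exact h3.symm
    have hle : Subgroup.closure ((fun s : D => Abelianization.of s) ''
        ((Subtype.val : D → Γ) ⁻¹' S)) ≤ CommGroup.torsion (Abelianization D) := by
      rw [Subgroup.closure_le]
      rintro _ ⟨s, hs, rfl⟩
      have h1 : IsOfFinOrder s := by
        have := hfo s.1 hs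
        rwa [← Submonoid.isOfFinOrder_coe] 
      exact MonoidHom.isOfFinOrder _ h1
    intro x
    have : x ∈ CommGroup.torsion (Abelianization D) := by
      apply hle; rw [hgen]; trivial
    exact this
  have hab : Finite (Abelianization D) := by
    have : Group.FG (Abelianization D) := by
      exact Group.fg_of_surjective (f := (Abelianization.of : D →* Abelianization D))
        QuotientGroup.mk_surjective
    exact CommGroup.finite_of_fg_isMulTorsion _ htor
  have hcf : Finite (commutator D) := by
    have h1 : (commutator D).map D.subtype = E := by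
      rw [commutator_def, Subgroup.map_commutator, ← MonoidHom.range_eq_map, D.range_subtype]
    have h2 : Finite ((commutator D).map D.subtype) := by rw [h1]; exact hfin
    have h3 := (commutator D).equivMapOfInjective D.subtype D.subtype_injective
    exact Finite.of_equiv _ h3.toEquiv.symm
  have hab' : Finite (D ⧸ commutator D) := hab
  have := Subgroup.card_eq_card_quotient_mul_card_subgroup (commutator D)
  apply Nat.finite_of_card_ne_zero
  rw [this]
  exact Nat.mul_ne_zero Nat.card_pos.ne' Nat.card_pos.ne'

/-- The image of a soluble group in a simple section is finite if all members of suitable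
generating sets of the derived subgroups are quasi-unipotent. -/
theorem finite_of_quasiunipotent (ρ : Γ →* Module.End k W) (hinj : Function.Injective ρ)
    (hirr : ∀ U : Submodule k W, (∀ g : Γ, ∀ w ∈ U, ρ g w ∈ U) → U = ⊥ ∨ U = ⊤)
    (r : ℕ) (hr : derivedSeries Γ r = ⊥) (S : ℕ → Set Γ) (hS : ∀ i < r, (S i).Finite)
    (hDS : ∀ i < r, derivedSeries Γ i = Subgroup.closure (S i))
    (hq : ∀ i < r, ∀ s ∈ S i, ∃ N : ℕ, 0 < N ∧ IsNilpotent (ρ s ^ N - 1)) : Finite Γ := by
  have key : ∀ j ≤ r, Finite (derivedSeries Γ (r - j)) := by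
    intro j
    induction j with
    | zero => intro _; rw [Nat.sub_zero, hr]; infer_instance
    | succ j ih =>
      intro hj
      have h1 := ih (by omega)
      have h2 : r - j = (r - (j + 1)) + 1 := by omega
      rw [h2, derivedSeries_succ] at h1
      exact finite_of_commutator_finite ρ hinj hirr _ h1 _ (hS _ (by omega))
        (hDS _ (by omega)) (hq _ (by omega))
  have h := key r le_rfl
  rw [Nat.sub_self, derivedSeries_zero] at h
  exact Finite.of_equiv _ (Subgroup.topEquiv (G := Γ)).toEquiv

end

end Pool.Agent.Helper5.Gap
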