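import Pool.Agent.Helper5.GapChain
import Pool.Agent.Helper3.ZasFinite

open scoped commutatorElement

namespace Pool.Agent.Helper5.Gap

open Pool.Agent.Helper5.Zas

universe u

/-- A nonzero finitely generated abelian group is not `p`-divisible for some prime `p`. -/
theorem exists_prime_not_divisible (V : Type*) [AddCommGroup V] [Module.Finite ℤ V]
    [Nontrivial V] : ∃ p : ℕ, p.Prime ∧ ∃ v : V, ∀ w : V, (p : ℤ) • w ≠ v := by
  classical
  by_contra hcon
  push Not at hcon
  -- `V` has positive exponent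
  have h1 : ∃ n : ℕ, 0 < n ∧ ∀ v : V, (n : ℤ) • v = 0 := by
    have h2 : (⊤ : Submodule ℤ V) ≤ (Ideal.span {(2 : ℤ)}) • (⊤ : Submodule ℤ V) := by
      intro v _
      obtain ⟨w, hw⟩ := hcon 2 Nat.prime_two v
      rw [← hw]
      exact Submodule.smul_mem_smul (Ideal.mem_span_singleton_self _) trivial
    obtain ⟨r, hr1, hr2⟩ := Submodule.exists_sub_one_mem_and_smul_eq_zero_of_fg_of_le_smul
      _ _ (Module.Finite.fg_top) h2
    have hr0 : r ≠ 0 := by
      rintro rfl
      rw [zero_sub, Ideal.mem_span_singleton] at hr1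
      norm_num at hr1
    refine ⟨r.natAbs, Int.natAbs_pos.2 hr0, fun v => ?_⟩
    rcases Int.natAbs_eq r with h | h
    · rw [← h]; exact hr2 v trivial
    · have h3 : ((r.natAbs : ℕ) : ℤ) = -r := by omega
      rw [h3, neg_smul, hr2 v trivial, neg_zero]
  set n := Nat.find h1 with hn
  obtain ⟨hn0, hnv⟩ := Nat.find_spec h1
  have hn1 : n ≠ 1 := by
    intro h
    rw [← hn, h] at hnv
    obtain ⟨v, hv⟩ := exists_ne (0 : V)
    exact hv (by simpa using hnv v)
  obtain ⟨p, hp, hpn⟩ := Nat.exists_prime_and_dvd hn1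
  obtain ⟨k, hk⟩ := hpn
  have hk0 : 0 < k := by
    rcases Nat.eq_zero_or_pos k with h | h
    · subst h; simp at hk; omega
    · exact h
  refine Nat.find_min h1 (m := k) ?_ ⟨hk0, fun v => ?_⟩
  · rw [← hn, hk]
    have := hp.two_le
    nlinarith
  · obtain ⟨w, hw⟩ := hcon p hp v
    rw [← hw, smul_smul]
    have := hnv w
    rw [← hn, hk] at this
    rw [← this]
    congr 1
    push_cast
    ring

/-- A group acting additively on a vector space over `ZMod p` acts linearly. -/
noncomputable def toZModRep {G : Type*} [Group G] (p : ℕ) {V : Type*} [AddCommGroup V]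
    [Module (ZMod p) V] (ρ : G → (V →+ V)) (h1 : ∀ v, ρ 1 v = v)
    (h2 : ∀ g h v, ρ (g * h) v = ρ g (ρ h v)) : G →* (V →ₗ[ZMod p] V) where
  toFun g := AddMonoidHom.toZModLinearMap p (ρ g)
  map_one' := by
    ext v
    exact h1 v
  map_mul' g h := by
    ext v
    exact h2 g h v

theorem toZModRep_apply {G : Type*} [Group G] (p : ℕ) {V : Type*} [AddCommGroup V]
    [Module (ZMod p) V] (ρ : G → (V →+ V)) (h1 : ∀ v, ρ 1 v = v)
    (h2 : ∀ g h v, ρ (g * h) v = ρ g (ρ h v)) (g : G) (v : V) :
    toZModRep p ρ h1 h2 g v = ρ g v := rfl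

variable {G : Type u} [Group G] {X : Set G}

/-- The dimension of a space spanned by the image of a short subgroup is small. -/
theorem finrank_lt_of_span (hX : X.Finite) {K R L : ℕ} (hg : growth X R < 2 ^ K)
    (hR : K * L ≤ R) (D : Subgroup G) (hgen : Gen X L D) {k : Type*} [Field k] {V : Type*}
    [AddCommGroup V] [Module k V] [Module.Finite k V] (ι : D → V)
    (hιadd : ∀ x y, ι (x * y) = ι x + ι y)
    (hspan : ∀ W : Submodule k V, (∀ d, ι d ∈ W) → W = ⊤) : Module.finrank k V < K := by
  classical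
  have hι1 : ι 1 = 0 := by
    have := hιadd 1 1
    rw [mul_one] at this
    simpa using this
  have hιinv : ∀ x, ι x⁻¹ = - ι x := by
    intro x
    have := hιadd x x⁻¹
    rw [mul_inv_cancel, hι1] at this
    exact (neg_eq_of_add_eq_zero_right this.symm).symm
  let M : Submodule k V → Subgroup G := fun U =>
    Subgroup.map D.subtype
      { carrier := {d | ι d ∈ U}
        mul_mem' := by
          intro a b ha hb
          show ι (a * b) ∈ U
          rw [hιadd]; exact U.add_mem ha hb
        one_mem' := by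
          show ι 1 ∈ U
          rw [hι1]; exact U.zero_mem
        inv_mem' := by
          intro a ha
          show ι a⁻¹ ∈ U
          rw [hιinv]; exact U.neg_mem ha }
  have hM : ∀ U (d : D), (d : G) ∈ M U ↔ ι d ∈ U := by
    intro U d
    constructor
    · rintro ⟨d', hd', he⟩
      have : d' = d := Subtype.ext he
      rw [← this]
      exact hd'
    · intro h
      exact ⟨d, h, rfl⟩
  have hMmono : ∀ {U U'}, U ≤ U' → M U ≤ M U' := by
    intro U U' h
    refine Subgroup.map_mono ?_
    intro d hd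
    exact h hd
  have key : ∀ j ≤ Module.finrank k V, ∃ U : Submodule k V, Module.finrank k U ≤ j ∧
      Lev X L (M U) (M ⊥) j := by
    intro j
    induction j with
    | zero => intro _; exact ⟨⊥, by simp, .zero le_rfl⟩
    | succ j ih =>
      intro hj
      obtain ⟨U, hU, hlev⟩ := ih (by omega)
      have hUtop : U ≠ ⊤ := by
        rintro rfl
        rw [finrank_top] at hU
        omega
      have h1 : ¬ ((D : Set G) ∩ ball X L ⊆ (M U : Set G)) := by
        intro hsub
        apply hUtop
        have h2 : D ≤ M U := hgen.trans ((Subgroup.closure_le _).2 hsub)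
        exact hspan U (fun d => (hM U d).1 (h2 d.2))
      obtain ⟨a, ha, ha'⟩ := Set.not_subset.1 h1
      set U' := U ⊔ Submodule.span k {ι ⟨a, ha.1⟩} with hU'
      refine ⟨U', ?_, ?_⟩
      · have h6 := Submodule.finrank_add_le_finrank_add_finrank U
          (Submodule.span k {ι ⟨a, ha.1⟩})
        have h7 : Module.finrank k (Submodule.span k {ι ⟨a, ha.1⟩}) ≤ 1 := by
          have := finrank_span_le_card (R := k) ({ι ⟨a, ha.1⟩} : Set V)
          simpa using this
        rw [hU']
        omega
      · refine .step (hMmono le_sup_left) (a := a) ?_ ha' ha.2 hlev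
        have h8 : ι ⟨a, ha.1⟩ ∈ U' :=
          (le_sup_right : _ ≤ U') (Submodule.mem_span_singleton_self _)
        exact (hM U' ⟨a, ha.1⟩).2 h8
  obtain ⟨U, _, hlev⟩ := key _ le_rfl
  exact hlev.lt_of_growth hX hR hg

/-- The action on an irreducible section of prime exponent. -/
theorem acts_trivially [Group.IsSolvable G] (hX : X.Finite) {K R L k : ℕ}
    (hg : growth X R < 2 ^ K) (hR : K * L ≤ R) (hirr : IrrBound K k) (B : Subgroup G)
    (hgen : Gen X L B) {V : Type u} [AddCommGroup V] [Finite V] (p : ℕ) [Fact p.Prime]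
    (hpV : ∀ v : V, p • v = 0) (ρ : G → (V →+ V)) (h1 : ∀ v, ρ 1 v = v)
    (h2 : ∀ g h v, ρ (g * h) v = ρ g (ρ h v))
    (hi : ∀ W : AddSubgroup V, (∀ g : G, ∀ w ∈ W, ρ g w ∈ W) → W = ⊥ ∨ W = ⊤)
    (ι : B → V) (hιadd : ∀ x y, ι (x * y) = ι x + ι y) (hιs : Function.Surjective ι) :
    ∀ g ∈ derivedSeries G k, ∀ v, ρ g v = v := by
  let hmod : Module (ZMod p) V := AddCommGroup.zmodModule (n := p) hpV
  have hMf : Module.Finite (ZMod p) V := Module.Finite.of_finite
  have hfr : Module.finrank (ZMod p) V < K := by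
    refine finrank_lt_of_span hX hg hR B hgen (k := ZMod p) (V := V) ι hιadd ?_
    intro W hW
    rw [eq_top_iff]
    intro v _
    obtain ⟨b, rfl⟩ := hιs v
    exact hW b
  have htriv := Pool.Agent.Helper3.Zas.zassenhaus_finite p hirr (toZModRep p ρ h1 h2) ?_ hfr.le
  · intro g hg' v
    have h3 := htriv g hg'
    have h4 : toZModRep p ρ h1 h2 g v = v := by rw [h3]; rfl
    exact h4
  · intro W hW
    rcases hi W.toAddSubgroup (fun g w hw => hW g w hw) with h | h
    · left
      rw [eq_bot_iff]
      intro v hv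
      have : v ∈ W.toAddSubgroup := hv
      rw [h] at this
      exact this
    · right
      rw [eq_top_iff]
      intro v _
      have : v ∈ W.toAddSubgroup := by rw [h]; trivial
      exact this

/-- Under small growth, the `k`-th derived subgroup of a soluble group acts trivially on a
quotient of every nontrivial short normal subgroup. -/
theorem eq_bot_of_le_commutator [Group.IsSolvable G] (hX : X.Finite) {K R Λ k : ℕ}
    (hg : growth X R < 2 ^ K) (hR : K * Λ ≤ R) (hirr : IrrBound K k) (B : Subgroup G)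
    (hBn : B.Normal) (hgen : Gen X Λ B) (hB : B ≤ ⁅B, derivedSeries G k⁆) : B = ⊥ := by
  classical
  by_contra hB0
  -- `B` is not perfect
  have hperf : ¬ B ≤ ⁅B, B⁆ := by
    intro h
    have h1 : ∀ n, B ≤ derivedSeries G n := by
      intro n
      induction n with
      | zero => simp
      | succ n ih =>
        rw [derivedSeries_succ]
        exact h.trans (Subgroup.commutator_mono ih ih)
    obtain ⟨n, hn⟩ := (inferInstance : Group.IsSolvable G).solvable
    exact hB0 (le_bot_iff.1 (hn ▸ h1 n))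
  have hfgB : Group.FG B := by
    rw [Group.fg_iff_subgroup_fg]
    have hfin : ((B : Set G) ∩ ball X Λ).Finite := (ball_finite hX Λ).inter_of_right _
    refine ⟨hfin.toFinset, ?_⟩
    rw [Set.Finite.coe_toFinset]
    exact le_antisymm ((Subgroup.closure_le _).2 Set.inter_subset_left) hgen
  have hfgA : Group.FG (Abelianization B) :=
    Group.fg_of_surjective (f := (Abelianization.of : B →* Abelianization B))
      QuotientGroup.mk_surjective
  let A := Additive (Abelianization B)
  have hAfin : Module.Finite ℤ A := by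
    rw [Module.Finite.iff_addGroup_fg]
    exact GroupFG.iff_add_fg.1 hfgA
  let q : B → A := fun d => Additive.ofMul (Abelianization.of d)
  have hqs : Function.Surjective q := by
    intro a
    obtain ⟨d, hd⟩ := QuotientGroup.mk_surjective (Additive.toMul a)
    exact ⟨d, hd⟩
  have hqm : ∀ x y, q (x * y) = q x + q y := fun x y => rfl
  have hq1 : q 1 = 0 := rfl
  have hqi : ∀ x, q x⁻¹ = - q x := fun x => rfl
  let ρ₀ : G → Module.End ℤ A := fun g => (MonoidHom.toAdditive (Abelianization.map
        ((MulAut.conjNormal g : MulAut B).toMonoidHom))).toIntLinearMap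
  have hρ₀ : ∀ g d, ρ₀ g (q d) = q (MulAut.conjNormal g d) := fun g d => rfl
  let ρA : G →* Module.End ℤ A :=
    { toFun := ρ₀
      map_one' := by
        ext a
        obtain ⟨d, rfl⟩ := hqs a
        rw [hρ₀, map_one]
        rfl
      map_mul' := by
        intro g h
        ext a
        obtain ⟨d, rfl⟩ := hqs a
        rw [Module.End.mul_apply, hρ₀, hρ₀, hρ₀, map_mul]
        rfl }
  have hρA : ∀ g d, ρA g (q d) = q (MulAut.conjNormal g d) := fun g d => rfl
  have hAnt : Nontrivial A := by
    by_contra hsub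
    rw [not_nontrivial_iff_subsingleton] at hsub
    apply hperf
    intro x hx
    have h3 : (commutator B).map B.subtype = ⁅B, B⁆ := by
      rw [commutator_def, Subgroup.map_commutator, ← MonoidHom.range_eq_map, B.range_subtype]
    rw [← h3]
    refine ⟨⟨x, hx⟩, ?_, rfl⟩
    exact (QuotientGroup.eq_one_iff _).1 (Subsingleton.elim (q ⟨x, hx⟩) (q 1))
  -- a maximal proper invariant submodule
  set 𝒮 : Set (Submodule ℤ A) := {U | U ≠ ⊤ ∧ ∀ g, ∀ a ∈ U, ρA g a ∈ U} with h𝒮
  have hne : 𝒮.Nonempty := ⟨⊥, bot_ne_top, fun g a ha => by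
    rw [Submodule.mem_bot] at ha ⊢; rw [ha, map_zero]⟩
  obtain ⟨U, ⟨hU1, hUi⟩, hUmax⟩ :=
    WellFounded.has_min (wellFounded_gt (α := Submodule ℤ A)) 𝒮 hne
  have hmax : ∀ U' : Submodule ℤ A, U ≤ U' → (∀ g, ∀ a ∈ U', ρA g a ∈ U') → U' = U ∨ U' = ⊤ := by
    intro U' hle hi
    by_contra hcon
    push Not at hcon
    exact hUmax U' ⟨hcon.2, hi⟩ (lt_of_le_of_ne hle hcon.1.symm)
  let V := A ⧸ U
  have hVnt : Nontrivial V := Submodule.Quotient.nontrivial_iff.2 hU1
  obtain ⟨p, hp, v₀, hv₀⟩ := exists_prime_not_divisible V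
  have hpf : Fact p.Prime := ⟨hp⟩
  have hpV : ∀ v : V, (p : ℤ) • v = 0 := by
    let U' : Submodule ℤ A := (Submodule.map (LinearMap.lsmul ℤ V (p : ℤ)) ⊤).comap U.mkQ
    have hU'1 : U ≤ U' := by
      intro a ha
      refine ⟨0, trivial, ?_⟩
      rw [map_zero]
      exact ((Submodule.Quotient.mk_eq_zero U).2 ha).symm
    have hU'2 : ∀ g, ∀ a ∈ U', ρA g a ∈ U' := by
      rintro g a ⟨w, _, hw⟩
      obtain ⟨b, rfl⟩ := U.mkQ_surjective w
      refine ⟨U.mkQ (ρA g b), trivial, ?_⟩
      have h1 : U.mkQ ((p : ℤ) • b) = U.mkQ a := hw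
      have h2 : (p : ℤ) • b - a ∈ U := (Submodule.Quotient.eq U).1 h1
      have h3 := hUi g _ h2
      rw [map_sub, map_smul] at h3
      exact (Submodule.Quotient.eq U).2 h3
    have hU' : U' = U := by
      rcases hmax U' hU'1 hU'2 with h | h
      · exact h
      · exfalso
        obtain ⟨a, ha⟩ := U.mkQ_surjective v₀
        have h1 : a ∈ U' := by rw [h]; trivial
        obtain ⟨w, _, hw⟩ := h1
        apply hv₀ w
        rw [← ha]
        exact hw
    intro v
    obtain ⟨a, rfl⟩ := U.mkQ_surjective v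
    have h1 : (p : ℤ) • a ∈ U' := ⟨U.mkQ a, trivial, rfl⟩
    rw [hU'] at h1
    exact (Submodule.Quotient.mk_eq_zero U).2 h1
  have hVfg : Module.Finite ℤ V := inferInstance
  have hVfin : Finite V := by
    apply Module.finite_of_fg_torsion
    intro v
    exact ⟨⟨(p : ℤ), mem_nonZeroDivisors_of_ne_zero (by exact_mod_cast hp.ne_zero)⟩, hpV v⟩
  let ρV : G → (V →+ V) := fun g => (U.mapQ U (ρA g) (hUi g)).toAddMonoidHom
  have hρV : ∀ g a, ρV g (U.mkQ a) = U.mkQ (ρA g a) := fun g a => rfl
  have htriv := acts_trivially hX hg hR hirr B hgen (V := V) p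
    (fun v => by have := hpV v; simpa using this) ρV
    (by
      intro v
      obtain ⟨a, rfl⟩ := U.mkQ_surjective v
      have h1 : ρA 1 a = a := by rw [map_one]; rfl
      exact congrArg U.mkQ h1)
    (by
      intro g h v
      obtain ⟨a, rfl⟩ := U.mkQ_surjective v
      have h1 : ρA (g * h) a = ρA g (ρA h a) := by rw [map_mul]; rfl
      exact congrArg U.mkQ h1)
    (by
      intro W hW
      let U' : Submodule ℤ A := (AddSubgroup.toIntSubmodule W).comap U.mkQ
      have hmem : ∀ a, a ∈ U' ↔ U.mkQ a ∈ W := fun a => Iff.rfl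
      have hU'1 : U ≤ U' := by
        intro a ha
        rw [hmem]
        have : U.mkQ a = 0 := (Submodule.Quotient.mk_eq_zero U).2 ha
        rw [this]
        exact W.zero_mem
      have hU'2 : ∀ g, ∀ a ∈ U', ρA g a ∈ U' := by
        intro g a ha
        rw [hmem] at ha ⊢
        rw [← hρV]
        exact hW g _ ha
      rcases hmax U' hU'1 hU'2 with h | h
      · left
        rw [eq_bot_iff]
        intro v hv
        obtain ⟨a, rfl⟩ := U.mkQ_surjective v
        have h1 : a ∈ U' := hv
        rw [h] at h1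
        exact (Submodule.Quotient.mk_eq_zero U).2 h1
      · right
        rw [eq_top_iff]
        intro v _
        obtain ⟨a, rfl⟩ := U.mkQ_surjective v
        have h1 : a ∈ U' := by rw [h]; trivial
        exact h1)
    (fun b => U.mkQ (q b))
    (by
      intro x y
      rw [hqm, map_add])
    (by
      intro v
      obtain ⟨a, rfl⟩ := U.mkQ_surjective v
      obtain ⟨b, rfl⟩ := hqs a
      exact ⟨b, rfl⟩)
  -- contradiction
  let N : Subgroup G := Subgroup.map B.subtype
      { carrier := {b | q b ∈ U}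
        mul_mem' := by
          intro a b ha hb
          show q (a * b) ∈ U
          rw [hqm]; exact U.add_mem ha hb
        one_mem' := by
          show q 1 ∈ U
          rw [hq1]; exact U.zero_mem
        inv_mem' := by
          intro a ha
          show q a⁻¹ ∈ U
          rw [hqi]; exact U.neg_mem ha }
  have hN : ∀ (b : B), (b : G) ∈ N ↔ q b ∈ U := by
    intro b
    constructor
    · rintro ⟨b', hb', he⟩
      have : b' = b := Subtype.ext he
      rw [← this]
      exact hb'
    · intro h
      exact ⟨b, h, rfl⟩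
  have hle : ⁅B, derivedSeries G k⁆ ≤ N := by
    rw [Subgroup.commutator_le]
    intro b hb g hg'
    have h1 : ⁅b, g⁆ = b * (g * b⁻¹ * g⁻¹) := by rw [commutatorElement_def]; group
    have h2 : g * b⁻¹ * g⁻¹ ∈ B := hBn.conj_mem _ (B.inv_mem hb) g
    have h3 : (⟨⁅b, g⁆, h1 ▸ B.mul_mem hb h2⟩ : B) = ⟨b, hb⟩ * MulAut.conjNormal g (⟨b, hb⟩⁻¹) := by
      apply Subtype.ext
      simp [MulAut.conjNormal_apply, mul_assoc, commutatorElement_def]
    refine (hN ⟨⁅b, g⁆, h1 ▸ B.mul_mem hb h2⟩).2 ?_
    rw [h3, hqm, ← hρA, hqi, map_neg]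
    have h5 : ρV g (U.mkQ (q ⟨b, hb⟩)) = U.mkQ (q ⟨b, hb⟩) := htriv g hg' _
    rw [hρV] at h5
    have h6 : ρA g (q ⟨b, hb⟩) - q ⟨b, hb⟩ ∈ U := (Submodule.Quotient.eq U).1 h5
    have h7 := U.neg_mem h6
    rw [neg_sub, sub_eq_add_neg] at h7
    exact h7
  apply hU1
  rw [eq_top_iff]
  intro a _
  obtain ⟨b, rfl⟩ := hqs a
  exact (hN b).1 (hle (hB b.2))

end Pool.Agent.Helper5.Gap
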