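import Pool.Agent.Helper5.GapSoluble
import Pool.Agent.Helper5.GapZas

open scoped commutatorElement

namespace Pool.Agent.Helper5.Gap

open Pool.Agent.Helper5.Zas

universe u

section quotients

variable {G : Type*} [Group G] {X : Set G} (N : Subgroup G) [N.Normal]

theorem ball_quotient (n : ℕ) :
    ball ((QuotientGroup.mk' N) '' X) n = (QuotientGroup.mk' N) '' (ball X n) := by
  ext y
  constructor
  · rintro ⟨l, hl, hx, rfl⟩
    induction l generalizing n with
    | nil => exact ⟨1, one_mem_ball n, by simp⟩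
    | cons a l ih =>
      have hln : l.length ≤ n - 1 := by
        simp only [List.length_cons] at hl; omega
      obtain ⟨g, hg, hge⟩ := ih (n - 1) hln (fun x hxl => hx x (List.mem_cons_of_mem _ hxl))
      have hn1 : 1 + (n - 1) ≤ n := by
        simp only [List.length_cons] at hl; omega
      rcases hx a List.mem_cons_self with ⟨x, hxX, hxa⟩ | ⟨x, hxX, hxa⟩
      · refine ⟨x * g, ball_mono hn1 (mul_mem_ball (mem_ball_one hxX) hg), ?_⟩
        rw [map_mul, hge, hxa, List.prod_cons]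
      · refine ⟨x⁻¹ * g, ball_mono hn1 (mul_mem_ball (inv_mem_ball (mem_ball_one hxX)) hg), ?_⟩
        rw [map_mul, hge, map_inv, hxa, inv_inv, List.prod_cons]
  · rintro ⟨_, ⟨l, hl, hx, rfl⟩, rfl⟩
    refine ⟨l.map (QuotientGroup.mk' N), by simpa using hl, ?_, by rw [map_list_prod]⟩
    intro y hy
    obtain ⟨x, hxl, rfl⟩ := List.mem_map.1 hy
    rcases hx x hxl with h | h
    · exact Or.inl ⟨x, h, rfl⟩
    · exact Or.inr ⟨x⁻¹, h, by rw [map_inv]⟩

theorem growth_quotient (hX : X.Finite) (n : ℕ) :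
    growth ((QuotientGroup.mk' N) '' X) n ≤ growth X n := by
  unfold growth
  rw [ball_quotient]
  exact Set.ncard_image_le (ball_finite hX n)

theorem closure_quotient (hXt : Subgroup.closure X = ⊤) :
    Subgroup.closure ((QuotientGroup.mk' N) '' X) = ⊤ := by
  rw [← MonoidHom.map_closure, hXt, ← MonoidHom.range_eq_map, MonoidHom.range_eq_top]
  exact QuotientGroup.mk'_surjective N

end quotients

theorem derivedSeries_eq_bot_of_residual {G : Type u} [Group G] (P : ∀ (Q : Type u) [Group Q], Prop)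
    (hG : ∀ g : G, g ≠ 1 → ∃ (N : Subgroup G) (_ : N.Normal), P (G ⧸ N) ∧ g ∉ N) (r : ℕ)
    (h : ∀ (N : Subgroup G) [N.Normal], P (G ⧸ N) → derivedSeries (G ⧸ N) r = ⊥) :
    derivedSeries G r = ⊥ := by
  rw [eq_bot_iff]
  intro g hg
  rw [Subgroup.mem_bot]
  by_contra hne
  obtain ⟨N, hN, hP, hgN⟩ := hG g hne
  apply hgN
  have h1 := h N hP
  rw [← map_derivedSeries_eq (QuotientGroup.mk'_surjective N) r] at h1
  have h2 : QuotientGroup.mk' N g ∈ (derivedSeries G r).map (QuotientGroup.mk' N) := ⟨g, hg, rfl⟩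
  rw [h1, Subgroup.mem_bot] at h2
  exact (QuotientGroup.eq_one_iff g).1 h2

/-- The derived length bound for nilpotent groups. -/
theorem derived_nilpotent {Q : Type*} [Group Q] [Group.IsNilpotent Q] {X : Set Q}
    (hX : X.Finite) (hXt : Subgroup.closure X = ⊤) {K R I : ℕ} (hg : growth X R < 2 ^ K)
    (hI : K ≤ 2 ^ I)
    (hR : K * ((3 * (4 ^ I * (K + 1)) + 2 * K) * 2 ^ I + 2 * K) ≤ R) :
    derivedSeries Q (I + 1) = ⊥ := by
  set L := 4 ^ I * (K + 1) with hL
  set Λ := (3 * L + 2 * K) * 2 ^ I with hΛ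
  have h2I : 0 < 2 ^ I := by positivity
  have hLΛ : L ≤ Λ := by rw [hΛ]; nlinarith
  have hgen : ∀ j ≤ I, Gen X L (derivedSeries Q j) := by
    intro j hj
    refine (gen_derivedSeries hX hXt hg I ?_ j hj).mono ?_
    · exact le_trans (Nat.mul_le_mul_left _ (le_trans hLΛ (Nat.le_add_right _ _))) hR
    · exact Nat.mul_le_mul_right _ (Nat.pow_le_pow_right (by norm_num) hj)
  refine derived_bound hX hXt hg (L := L) (Λ := Λ) hR (fun j => derivedSeries Q j)
    (fun j => inferInstance) (fun j => derivedSeries_succ Q j) hI hgen ?_ ?_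
  · rw [hΛ]
    apply le_of_eq
    ring
  · intro B _ _ hB
    have h1 : ∀ n, B ≤ (⊤ : Subgroup Q).lowerCentralSeries n := by
      intro n
      induction n with
      | zero => exact le_top
      | succ n ih =>
        rw [Subgroup.lowerCentralSeries_succ]
        refine hB.trans (Subgroup.commutator_mono ih ?_)
        exact le_top
    obtain ⟨n, hn⟩ := Subgroup.nilpotent_iff_lowerCentralSeries.1 (inferInstance : Group.IsNilpotent Q)
    exact le_bot_iff.1 (hn ▸ h1 n)

/-- The derived length bound for soluble groups. -/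
theorem derived_soluble {Q : Type u} [Group Q] [Group.IsSolvable Q] {X : Set Q}
    (hX : X.Finite) (hXt : Subgroup.closure X = ⊤) {K R I k : ℕ} (hg : growth X R < 2 ^ K)
    (hI : K ≤ 2 ^ I) (hirr : IrrBound K k)
    (hR : K * ((3 * (4 ^ (k + I) * (K + 1)) + 2 * K) * 2 ^ I + 2 * K) ≤ R) :
    derivedSeries Q (k + (I + 1)) = ⊥ := by
  set L := 4 ^ (k + I) * (K + 1) with hL
  set Λ := (3 * L + 2 * K) * 2 ^ I with hΛ
  have h2I : 0 < 2 ^ I := by positivity
  have hLΛ : L ≤ Λ := by rw [hΛ]; nlinarith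
  have hgen : ∀ j ≤ I, Gen X L (derivedSeries Q (k + j)) := by
    intro j hj
    refine (gen_derivedSeries hX hXt hg (k + I) ?_ (k + j) (by omega)).mono ?_
    · exact le_trans (Nat.mul_le_mul_left _ (le_trans hLΛ (Nat.le_add_right _ _))) hR
    · exact Nat.mul_le_mul_right _ (Nat.pow_le_pow_right (by norm_num) (by omega))
  refine derived_bound hX hXt hg (L := L) (Λ := Λ) hR (fun j => derivedSeries Q (k + j))
    (fun j => inferInstance) (fun j => derivedSeries_succ Q (k + j)) hI hgen ?_ ?_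
  · rw [hΛ]
    apply le_of_eq
    ring
  · intro B hBn hBg hB
    refine eq_bot_of_le_commutator hX hg ?_ hirr B hBn hBg hB
    exact le_trans (Nat.mul_le_mul_left _ (Nat.le_add_right _ _)) hR

theorem exists_two_pow (K : ℕ) (hK : 1 ≤ K) : ∃ I : ℕ, K ≤ 2 ^ I ∧ 2 ^ I ≤ 2 * K := by
  refine ⟨Nat.clog 2 K, Nat.le_pow_clog (by norm_num) K, ?_⟩
  rcases Nat.lt_or_ge 1 K with h | h
  · have h1 := Nat.pow_pred_clog_lt_self (b := 2) (by norm_num) h
    have h2 : 0 < Nat.clog 2 K := Nat.clog_pos (by norm_num) h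
    have h3 : Nat.clog 2 K = (Nat.clog 2 K).pred + 1 := (Nat.succ_pred_eq_of_pos h2).symm
    rw [h3, pow_succ]
    omega
  · have : K = 1 := le_antisymm h hK
    subst this
    simp

theorem resNilpotent_single_scale (kron : KronStatement) {G : Type u} [Group G] {X : Set G}
    (hX : X.Finite) (hXt : Subgroup.closure X = ⊤) (hG : ResNilpotent G) {K : ℕ} (hK : 1 ≤ K)
    (hg : growth X (136 * K ^ 6) < 2 ^ K) : VirtNilpotent G := by
  obtain ⟨I, hI1, hI2⟩ := exists_two_pow K hK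
  have h4I : 4 ^ I ≤ 4 * K ^ 2 := by
    have : (4 : ℕ) ^ I = (2 ^ I) ^ 2 := by rw [← pow_mul, mul_comm, pow_mul]; norm_num
    rw [this]
    calc (2 ^ I) ^ 2 ≤ (2 * K) ^ 2 := Nat.pow_le_pow_left hI2 2
      _ = 4 * K ^ 2 := by ring
  have hL : 4 ^ I * (K + 1) ≤ 8 * K ^ 3 := by
    calc 4 ^ I * (K + 1) ≤ 4 * K ^ 2 * (2 * K) := Nat.mul_le_mul h4I (by omega)
      _ = 8 * K ^ 3 := by ring
  have hR1 : K * ((3 * (4 ^ I * (K + 1)) + 2 * K) * 2 ^ I + 2 * K) ≤ 136 * K ^ 6 := by
    calc K * ((3 * (4 ^ I * (K + 1)) + 2 * K) * 2 ^ I + 2 * K)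
        ≤ K * ((3 * (8 * K ^ 3) + 2 * K) * (2 * K) + 2 * K) := by gcongr
      _ = 48 * K ^ 5 + 4 * K ^ 3 + 2 * K ^ 2 := by ring
      _ ≤ 48 * K ^ 6 + 4 * K ^ 6 + 2 * K ^ 6 := by
        gcongr <;> first | exact hK | norm_num
      _ ≤ 136 * K ^ 6 := by omega
  have hR2 : K * (4 ^ I * (K + 1) + 16 * K ^ 2 * (4 ^ I * (K + 1))) ≤ 136 * K ^ 6 := by
    calc K * (4 ^ I * (K + 1) + 16 * K ^ 2 * (4 ^ I * (K + 1)))
        ≤ K * (8 * K ^ 3 + 16 * K ^ 2 * (8 * K ^ 3)) := by gcongr
      _ = 8 * K ^ 4 + 128 * K ^ 6 := by ring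
      _ ≤ 8 * K ^ 6 + 128 * K ^ 6 := by
        gcongr <;> first | exact hK | norm_num
      _ = 136 * K ^ 6 := by ring
  have hr : derivedSeries G (I + 1) = ⊥ := by
    refine derivedSeries_eq_bot_of_residual (fun Q _ => Group.IsNilpotent Q) hG (I + 1) ?_
    intro N _ hN
    refine derived_nilpotent (hX.image (QuotientGroup.mk' N)) (closure_quotient N hXt)
      (lt_of_le_of_lt (growth_quotient N hX _) hg) hI1 hR1
  refine exists_nilpotent kron hX hg hR2 (I + 1) hr ?_
  intro i hi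
  refine (gen_derivedSeries hX hXt hg I ?_ i (by omega)).mono ?_
  · exact le_trans (Nat.mul_le_mul_left _ (Nat.le_add_right _ _)) hR2
  · exact Nat.mul_le_mul_right _ (Nat.pow_le_pow_right (by norm_num) (by omega))

end Pool.Agent.Helper5.Gap
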