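import Mathlib

open scoped commutatorElement

namespace Pool.Agent.Helper5.Gap

variable {G : Type*} [Group G]

theorem mem_commutator_of_abelianization (D : Subgroup G) {x y : D}
    (h : (Abelianization.of x : Abelianization D) = Abelianization.of y) :
    (x : G) * (y : G)⁻¹ ∈ ⁅D, D⁆ := by
  have h1 : x * y⁻¹ ∈ commutator D := by
    have h2 : (Abelianization.of (x * y⁻¹) : Abelianization D) = 1 := by
      rw [map_mul, map_inv, h, mul_inv_cancel]
    exact (QuotientGroup.eq_one_iff _).1 h2
  have h3 : (commutator D).map D.subtype = ⁅D, D⁆ := by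
    rw [commutator_def, Subgroup.map_commutator, ← MonoidHom.range_eq_map, D.range_subtype]
  rw [← h3]
  exact ⟨x * y⁻¹, h1, rfl⟩

/-- The action of `G` on the torsion-free part of the abelianization of a finitely generated
normal subgroup `D`, in coordinates. -/
theorem exists_section (D : Subgroup G) [hDn : D.Normal] (hfg : D.FG) :
    ∃ (m : ℕ) (θ : D → (Fin m → ℤ)) (P : G →* Matrix (Fin m) (Fin m) ℤ),
      Function.Surjective θ ∧ (∀ x y, θ (x * y) = θ x + θ y) ∧
      (∀ g d, θ (MulAut.conjNormal g d) = (P g).mulVec (θ d)) ∧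
      (∀ x ∈ (⁅D, D⁆ : Subgroup G), ∀ h : x ∈ D, θ ⟨x, h⟩ = 0) ∧
      ∃ G₁ : Subgroup G, G₁.FiniteIndex ∧ ∀ g ∈ G₁, ∀ d : D, θ d = 0 →
        g * (d : G) * g⁻¹ * (d : G)⁻¹ ∈ ⁅D, D⁆ := by
  classical
  have hfg' : Group.FG D := by rw [Group.fg_iff_subgroup_fg]; exact hfg
  have hfgA : Group.FG (Abelianization D) :=
    Group.fg_of_surjective (f := (Abelianization.of : D →* Abelianization D))
      QuotientGroup.mk_surjective
  let A := Additive (Abelianization D)
  have hAfin : Module.Finite ℤ A := by
    rw [Module.Finite.iff_addGroup_fg]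
    exact GroupFG.iff_add_fg.1 hfgA
  let q : D → A := fun d => Additive.ofMul (Abelianization.of d)
  have hqs : Function.Surjective q := by
    intro a
    obtain ⟨d, hd⟩ := QuotientGroup.mk_surjective (Additive.toMul a)
    exact ⟨d, hd⟩
  have hqm : ∀ x y, q (x * y) = q x + q y := fun x y => rfl
  let ρ₀ : G → Module.End ℤ A := fun g => (MonoidHom.toAdditive (Abelianization.map
        ((MulAut.conjNormal g : MulAut D).toMonoidHom))).toIntLinearMap
  have hρ₀ : ∀ g d, ρ₀ g (q d) = q (MulAut.conjNormal g d) := fun g d => rfl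
  let ρA : G →* Module.End ℤ A :=
    { toFun := ρ₀
      map_one' := by
        ext a
        obtain ⟨d, rfl⟩ := hqs a
        rw [hρ₀, map_one]
        rfl
      map_mul' := by
        intro g h
        ext a
        obtain ⟨d, rfl⟩ := hqs a
        rw [Module.End.mul_apply, hρ₀, hρ₀, hρ₀, map_mul]
        rfl }
  have hρA : ∀ g d, ρA g (q d) = q (MulAut.conjNormal g d) := fun g d => rfl
  let T : Submodule ℤ A := Submodule.torsion ℤ A
  have hT : ∀ g, T ≤ T.comap (ρA g) := by
    intro g a ha
    obtain ⟨c, hc⟩ := (Submodule.mem_torsion_iff a).1 ha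
    refine (Submodule.mem_torsion_iff _).2 ⟨c, ?_⟩
    have := congrArg (ρA g) hc
    rw [map_zero] at this
    rw [← this]
    exact ((ρA g).map_smul (c : ℤ) a).symm
  let M := A ⧸ T
  have hMtf : Module.IsTorsionFree ℤ M := inferInstanceAs (Module.IsTorsionFree ℤ (A ⧸ Submodule.torsion ℤ A))
  have hMfin : Module.Finite ℤ M := inferInstance
  have hMfree : Module.Free ℤ M := Module.free_of_finite_type_torsion_free'
  let ρM : G →* Module.End ℤ M :=
    { toFun := fun g => T.mapQ T (ρA g) (hT g)
      map_one' := by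
        ext a
        simp
      map_mul' := by
        intro g h
        ext a
        simp }
  have hρM : ∀ g a, ρM g (T.mkQ a) = T.mkQ (ρA g a) := fun g a => rfl
  let b := Module.finBasis ℤ M
  let m := Module.finrank ℤ M
  let P : G →* Matrix (Fin m) (Fin m) ℤ :=
    { toFun := fun g => LinearMap.toMatrix b b (ρM g)
      map_one' := by rw [map_one]; exact LinearMap.toMatrix_one b
      map_mul' := by
        intro g h
        rw [map_mul]
        exact LinearMap.toMatrix_mul b _ _ }
  let θ : D → (Fin m → ℤ) := fun d => b.equivFun (T.mkQ (q d))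
  have hθ0 : ∀ d, θ d = 0 ↔ q d ∈ T := by
    intro d
    show b.equivFun (T.mkQ (q d)) = 0 ↔ _
    rw [LinearEquiv.map_eq_zero_iff, Submodule.mkQ_apply, Submodule.Quotient.mk_eq_zero]
  refine ⟨m, θ, P, ?_, ?_, ?_, ?_, ?_⟩
  · intro v
    obtain ⟨a, ha⟩ := T.mkQ_surjective (b.equivFun.symm v)
    obtain ⟨d, rfl⟩ := hqs a
    refine ⟨d, ?_⟩
    show b.equivFun (T.mkQ (q d)) = v
    rw [ha, LinearEquiv.apply_symm_apply]
  · intro x y
    show b.equivFun (T.mkQ (q (x * y))) = b.equivFun (T.mkQ (q x)) + b.equivFun (T.mkQ (q y))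
    rw [hqm, map_add, map_add]
  · intro g d
    show b.equivFun (T.mkQ (q (MulAut.conjNormal g d))) = _
    rw [← hρA, ← hρM]
    exact (LinearMap.toMatrix_mulVec_repr b b (ρM g) (T.mkQ (q d))).symm
  · intro x hx h
    rw [hθ0]
    have h1 : q ⟨x, h⟩ = 0 := by
      have h3 : (commutator D).map D.subtype = ⁅D, D⁆ := by
        rw [commutator_def, Subgroup.map_commutator, ← MonoidHom.range_eq_map, D.range_subtype]
      rw [← h3] at hx
      obtain ⟨y, hy, hyx⟩ := hx
      have : y = ⟨x, h⟩ := Subtype.ext hyx
      subst this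
      exact (QuotientGroup.eq_one_iff _).2 hy
    rw [h1]
    exact T.zero_mem
  · have hTfg : Module.Finite ℤ T := inferInstance
    have hTfin : Finite T := by
      apply Module.finite_of_fg_torsion
      exact Submodule.torsion_isTorsion
    let ρT : G →* Module.End ℤ T :=
      { toFun := fun g => (ρA g).restrict (fun a ha => hT g ha)
        map_one' := by
          ext u; simp [LinearMap.restrict_apply]
        map_mul' := by
          intro g h; ext u; simp [LinearMap.restrict_apply] }
    have hρT : ∀ g (a : T), ((ρT g a : T) : A) = ρA g a := fun g a => rfl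
    let τ : G →* (Module.End ℤ T)ˣ := MonoidHom.toHomUnits ρT
    have hEnd : Finite (Module.End ℤ T) :=
      Finite.of_injective (fun f : Module.End ℤ T => (f : T → T)) DFunLike.coe_injective
    have hU : Finite (Module.End ℤ T)ˣ := inferInstance
    refine ⟨τ.ker, inferInstance, ?_⟩
    intro g hg d hd
    have h1 : ρT g = 1 := by
      have h2 : τ g = 1 := hg
      have h3 := congrArg (fun u : (Module.End ℤ T)ˣ => (u : Module.End ℤ T)) h2
      exact h3
    have h2 : q d ∈ T := (hθ0 d).1 hd
    have h3 := hρT g ⟨q d, h2⟩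
    rw [h1] at h3
    have h4 : q d = q (MulAut.conjNormal g d) := by
      rw [← hρA]
      exact h3
    have h5 : (Abelianization.of (MulAut.conjNormal g d : D) : Abelianization D)
        = Abelianization.of d := h4.symm
    have h6 := mem_commutator_of_abelianization D h5
    rw [MulAut.conjNormal_apply] at h6
    exact h6

end Pool.Agent.Helper5.Gap
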