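import Pool.Agent.Helper5.GapChain
import Pool.Agent.Helper5.GapUnip
import Pool.Agent.Helper5.GapSection
import Pool.Agent.Helper5.GapEigen

open scoped commutatorElement

namespace Pool.Agent.Helper5.Gap

variable {G : Type*} [Group G] {X : Set G}

theorem Gen.closure_eq {L : ℕ} {D : Subgroup G} (h : Gen X L D) :
    D = Subgroup.closure ((D : Set G) ∩ ball X L) :=
  le_antisymm h ((Subgroup.closure_le _).2 Set.inter_subset_left)

/-- The rank of a section is small. -/
theorem rank_lt (hX : X.Finite) {K R L : ℕ} (hg : growth X R < 2 ^ K) (hR : K * L ≤ R)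
    (D : Subgroup G) (hgen : Gen X L D) {m : ℕ} (θ : D → (Fin m → ℤ))
    (hsurj : Function.Surjective θ) (hadd : ∀ x y, θ (x * y) = θ x + θ y) : m < K := by
  classical
  set ι : D → (Fin m → ℚ) := fun d i => ((θ d i : ℤ) : ℚ) with hι
  have hιadd : ∀ x y, ι (x * y) = ι x + ι y := by
    intro x y
    ext i
    simp [hι, hadd]
  have hι1 : ι 1 = 0 := by
    have := hιadd 1 1
    rw [mul_one] at this
    simpa using this
  have hιinv : ∀ x, ι x⁻¹ = - ι x := by
    intro x
    have := hιadd x x⁻¹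
    rw [mul_inv_cancel, hι1] at this
    exact (neg_eq_of_add_eq_zero_right this.symm).symm
  let M : Submodule ℚ (Fin m → ℚ) → Subgroup G := fun U =>
    Subgroup.map D.subtype
      { carrier := {d | ι d ∈ U}
        mul_mem' := by
          intro a b ha hb
          show ι (a * b) ∈ U
          rw [hιadd]; exact U.add_mem ha hb
        one_mem' := by
          show ι 1 ∈ U
          rw [hι1]; exact U.zero_mem
        inv_mem' := by
          intro a ha
          show ι a⁻¹ ∈ U
          rw [hιinv]; exact U.neg_mem ha }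
  have hM : ∀ U (d : D), (d : G) ∈ M U ↔ ι d ∈ U := by
    intro U d
    constructor
    · rintro ⟨d', hd', he⟩
      have : d' = d := Subtype.ext he
      rw [← this]
      exact hd'
    · intro h
      exact ⟨d, h, rfl⟩
  have hMmono : ∀ {U U'}, U ≤ U' → M U ≤ M U' := by
    intro U U' h
    refine Subgroup.map_mono ?_
    intro d hd
    exact h hd
  have key : ∀ j ≤ m, ∃ U : Submodule ℚ (Fin m → ℚ), Module.finrank ℚ U ≤ j ∧
      Lev X L (M U) (M ⊥) j := by
    intro j
    induction j with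
    | zero => intro _; exact ⟨⊥, by simp, .zero le_rfl⟩
    | succ j ih =>
      intro hj
      obtain ⟨U, hU, hlev⟩ := ih (by omega)
      have hUtop : U ≠ ⊤ := by
        rintro rfl
        rw [finrank_top, Module.finrank_fintype_fun_eq_card, Fintype.card_fin] at hU
        omega
      have h1 : ¬ ((D : Set G) ∩ ball X L ⊆ (M U : Set G)) := by
        intro hsub
        apply hUtop
        have h2 : D ≤ M U := hgen.trans ((Subgroup.closure_le _).2 hsub)
        rw [eq_top_iff]
        intro w _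
        have hbasis : ∀ i, (Pi.single i 1 : Fin m → ℚ) ∈ U := by
          intro i
          obtain ⟨d, hd⟩ := hsurj (Pi.single i 1)
          have h3 := (hM U d).1 (h2 d.2)
          have h4 : ι d = Pi.single i 1 := by
            ext l
            simp only [hι, hd]
            by_cases hl : l = i
            · subst hl; simp
            · simp [hl]
          rwa [h4] at h3
        have h5 : w = ∑ i, w i • (Pi.single i 1 : Fin m → ℚ) := by
          ext l
          simp [Finset.sum_apply, Pi.single_apply]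
        rw [h5]
        exact U.sum_mem (fun i _ => U.smul_mem _ (hbasis i))
      obtain ⟨a, ha, ha'⟩ := Set.not_subset.1 h1
      set U' := U ⊔ Submodule.span ℚ {ι ⟨a, ha.1⟩} with hU'
      refine ⟨U', ?_, ?_⟩
      · have h6 := Submodule.finrank_add_le_finrank_add_finrank U
          (Submodule.span ℚ {ι ⟨a, ha.1⟩})
        have h7 : Module.finrank ℚ (Submodule.span ℚ {ι ⟨a, ha.1⟩}) ≤ 1 := by
          have := finrank_span_le_card (R := ℚ) ({ι ⟨a, ha.1⟩} : Set (Fin m → ℚ))
          simpa using this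
        rw [hU']
        omega
      · refine .step (hMmono le_sup_left) (a := a) ?_ ha' ha.2 hlev
        have h8 : ι ⟨a, ha.1⟩ ∈ U' :=
          (le_sup_right : _ ≤ U') (Submodule.mem_span_singleton_self _)
        exact (hM U' ⟨a, ha.1⟩).2 h8
  obtain ⟨U, _, hlev⟩ := key m le_rfl
  exact hlev.lt_of_growth hX hR hg

/-- A descending central-type series for the action of `H`. -/
def CD (H A B : Subgroup G) : Prop :=
  ∃ (c : ℕ) (E : ℕ → Subgroup G), E 0 = A ∧ E c = B ∧
    ∀ j, ∀ x ∈ E j, ∀ h ∈ H, x * h * x⁻¹ * h⁻¹ ∈ E (j + 1)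

theorem CD.mono {H H' A B : Subgroup G} (h : CD H A B) (hH : H' ≤ H) : CD H' A B := by
  obtain ⟨c, E, h0, hc, h⟩ := h
  exact ⟨c, E, h0, hc, fun j x hx g hg => h j x hx g (hH hg)⟩

theorem CD.trans {H A B C : Subgroup G} (h : CD H A B) (h' : CD H B C) : CD H A C := by
  obtain ⟨c, E, h0, hc, h⟩ := h
  obtain ⟨c', E', h0', hc', h'⟩ := h'
  refine ⟨c + c', fun j => if j < c then E j else E' (j - c), ?_, ?_, ?_⟩
  · by_cases hc0 : 0 < c
    · simp [hc0, h0]
    · have : c = 0 := by omega
      subst this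
      simp [h0', ← hc, h0]
  · simp [hc']
  · intro j x hx g hg
    beta_reduce at hx ⊢
    by_cases hj : j < c
    · rw [if_pos hj] at hx
      have h1 := h j x hx g hg
      by_cases hj' : j + 1 < c
      · rw [if_pos hj']; exact h1
      · have : j + 1 = c := by omega
        rw [if_neg hj', this, Nat.sub_self, h0', ← hc, ← this]
        exact h1
    · rw [if_neg hj] at hx
      rw [if_neg (by omega)]
      have h1 := h' _ x hx g hg
      have h2 : j - c + 1 = j + 1 - c := by omega
      rwa [h2] at h1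

theorem CD.isNilpotent {H : Subgroup G} (h : CD H ⊤ ⊥) : Group.IsNilpotent H := by
  obtain ⟨c, E, h0, hc, h⟩ := h
  rw [Subgroup.nilpotent_iff_finite_descending_central_series]
  refine ⟨c, fun j => (E j).subgroupOf H, ⟨?_, ?_⟩, ?_⟩
  · simp [h0]
  · intro x j hx g
    rw [Subgroup.mem_subgroupOf] at hx ⊢
    exact h j x hx g g.2
  · simp [hc]

/-- The statement of the quantitative form of Kronecker's theorem. -/
def KronStatement : Prop :=
  ∀ (m : ℕ) (P : Matrix (Fin m) (Fin m) ℤ), IsUnit P →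
    (∀ z ∈ (P.charpoly.map (Int.castRingHom ℂ)).roots, ‖z‖ ^ (16 * m ^ 2) < 2) →
    ∃ N : ℕ, 0 < N ∧ IsNilpotent (P ^ N - 1)

/-- The rational representation attached to an integral one. -/
noncomputable def ratRep {m : ℕ} (P : G →* Matrix (Fin m) (Fin m) ℤ) :
    G →* Module.End ℚ (Fin m → ℚ) where
  toFun g := Matrix.toLin' ((P g).map (Int.castRingHom ℚ))
  map_one' := by
    rw [map_one, Matrix.map_one _ (by simp) (by simp), Matrix.toLin'_one]
    rfl
  map_mul' g h := by
    rw [map_mul, Matrix.map_mul, Matrix.toLin'_mul]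
    rfl

theorem qu_ratRep (kron : KronStatement) (hX : X.Finite) {K R L : ℕ} (hg : growth X R < 2 ^ K)
    (hR : K * (L + 16 * K ^ 2 * L) ≤ R) (D : Subgroup G) [D.Normal] (hgen : Gen X L D) {m : ℕ}
    (θ : D → (Fin m → ℤ)) (P : G →* Matrix (Fin m) (Fin m) ℤ)
    (hsurj : Function.Surjective θ) (hadd : ∀ x y, θ (x * y) = θ x + θ y)
    (hconj : ∀ g d, θ (MulAut.conjNormal g d) = (P g).mulVec (θ d)) (h : G)
    (hh : h ∈ ball X L) : QU (ratRep P h) := by
  have hm : m < K := rank_lt hX hg (le_trans (Nat.mul_le_mul_left _ (Nat.le_add_right _ _)) hR)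
    D hgen θ hsurj hadd
  have hunit : IsUnit (P h) := by
    rw [isUnit_iff_exists]
    exact ⟨P h⁻¹, by rw [← map_mul, mul_inv_cancel, map_one],
      by rw [← map_mul, inv_mul_cancel, map_one]⟩
  obtain ⟨N, hN, c, hc⟩ := kron m (P h) hunit (by
    intro z hz
    by_contra hcon
    push Not at hcon
    refine absurd (growth_of_eigen hX D hgen θ P hsurj hadd hconj h hh (16 * m ^ 2) z hz hcon
      (K := K) (R := R) ?_) (not_le.2 hg)
    refine le_trans (Nat.mul_le_mul_left _ ?_) hR
    have h1 : m ^ 2 ≤ K ^ 2 := Nat.pow_le_pow_left hm.le 2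
    have h2 : 16 * m ^ 2 * L ≤ 16 * K ^ 2 * L := by gcongr
    omega)
  refine ⟨N, hN, c, ?_⟩
  have h1 : ratRep P h = Matrix.toLinAlgEquiv' ((Int.castRingHom ℚ).mapMatrix (P h)) := rfl
  rw [h1, ← map_pow, ← map_pow, ← map_one (Matrix.toLinAlgEquiv' (R := ℚ) (n := Fin m)),
    ← map_sub, ← map_one ((Int.castRingHom ℚ).mapMatrix (m := Fin m)), ← map_sub, ← map_pow,
    ← map_pow, hc, map_zero, map_zero]

/-- One section of the derived series. -/
theorem exists_CD (kron : KronStatement) (hX : X.Finite) {K R L : ℕ} (hg : growth X R < 2 ^ K)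
    (hR : K * (L + 16 * K ^ 2 * L) ≤ R) (r : ℕ) (hr : derivedSeries G r = ⊥)
    (hgen : ∀ i < r, Gen X L (derivedSeries G i)) (i : ℕ) (hi : i < r) :
    ∃ H : Subgroup G, H.FiniteIndex ∧ CD H (derivedSeries G i) (derivedSeries G (i + 1)) := by
  classical
  set D := derivedSeries G i with hD
  have hDn : D.Normal := inferInstance
  have hfg : D.FG := by
    have hfin : ((D : Set G) ∩ ball X L).Finite := (ball_finite hX L).inter_of_right _
    refine ⟨hfin.toFinset, ?_⟩
    rw [Set.Finite.coe_toFinset]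
    exact (hgen i hi).closure_eq.symm
  obtain ⟨m, θ, P, hsurj, hadd, hconj, hker, G₁, hG₁, hG₁'⟩ := exists_section D hfg
  obtain ⟨G₀, hG₀, c, F, hF0, hFc, hF⟩ := exists_unipotent_subgroup (k := ℚ) r hr
    (fun j => (derivedSeries G j : Set G) ∩ ball X L)
    (fun j _ => (ball_finite hX L).inter_of_right _)
    (fun j hj => (hgen j hj).closure_eq) _ (Fin m → ℚ) (ratRep P) le_rfl
    (fun j hj s hs => qu_ratRep kron hX hg hR D (hgen i hi) θ P hsurj hadd hconj s hs.2)
  have hθ1 : θ 1 = 0 := by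
    have := hadd 1 1
    rw [mul_one] at this
    simpa using this
  have hθinv : ∀ x, θ x⁻¹ = - θ x := by
    intro x
    have := hadd x x⁻¹
    rw [mul_inv_cancel, hθ1] at this
    exact (neg_eq_of_add_eq_zero_right this.symm).symm
  set ι : D → (Fin m → ℚ) := fun d i => ((θ d i : ℤ) : ℚ) with hι
  have hιadd : ∀ x y, ι (x * y) = ι x + ι y := by
    intro x y
    ext i
    simp [hι, hadd]
  have hι1 : ι 1 = 0 := by
    ext i
    simp [hι, hθ1]
  have hιinv : ∀ x, ι x⁻¹ = - ι x := by
    intro x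
    ext i
    simp [hι, hθinv]
  have hιconj : ∀ g d, ι (MulAut.conjNormal g d) = ratRep P g (ι d) := by
    intro g d
    ext i
    show (((θ (MulAut.conjNormal g d)) i : ℤ) : ℚ) = Matrix.toLin' _ _ i
    rw [hconj, Matrix.toLin'_apply]
    simp [Matrix.mulVec, dotProduct, hι]
  let M : Submodule ℚ (Fin m → ℚ) → Subgroup G := fun U =>
    Subgroup.map D.subtype
      { carrier := {d | ι d ∈ U}
        mul_mem' := by
          intro a b ha hb
          show ι (a * b) ∈ U
          rw [hιadd]; exact U.add_mem ha hb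
        one_mem' := by
          show ι 1 ∈ U
          rw [hι1]; exact U.zero_mem
        inv_mem' := by
          intro a ha
          show ι a⁻¹ ∈ U
          rw [hιinv]; exact U.neg_mem ha }
  have hM : ∀ U (d : D), (d : G) ∈ M U ↔ ι d ∈ U := by
    intro U d
    constructor
    · rintro ⟨d', hd', he⟩
      have : d' = d := Subtype.ext he
      rw [← this]
      exact hd'
    · intro h
      exact ⟨d, h, rfl⟩
  have hMD : ∀ U, M U ≤ D := by
    rintro U _ ⟨d, _, rfl⟩
    exact d.2
  have hstep : ∀ (x g : G) (hx : x ∈ D), x * g * x⁻¹ * g⁻¹ ∈ D ∧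
      ∀ h : x * g * x⁻¹ * g⁻¹ ∈ D, ι ⟨_, h⟩ = - (ratRep P g (ι ⟨x, hx⟩) - ι ⟨x, hx⟩) := by
    intro x g hx
    have h1 : x * g * x⁻¹ * g⁻¹ = x * (g * x⁻¹ * g⁻¹) := by group
    have h2 : g * x⁻¹ * g⁻¹ ∈ D := hDn.conj_mem _ (D.inv_mem hx) g
    refine ⟨h1 ▸ D.mul_mem hx h2, fun h => ?_⟩
    have h3 : (⟨x * g * x⁻¹ * g⁻¹, h⟩ : D) = ⟨x, hx⟩ * MulAut.conjNormal g (⟨x, hx⟩⁻¹) := by
      apply Subtype.ext
      simp [MulAut.conjNormal_apply, mul_assoc]
    rw [h3, hιadd, hιconj, hιinv, map_neg]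
    abel
  refine ⟨G₀ ⊓ G₁, inferInstance, c + 1,
    fun j => if j ≤ c then M (F j) else derivedSeries G (i + 1), ?_, ?_, ?_⟩
  · beta_reduce
    rw [if_pos (Nat.zero_le _), hF0]
    apply le_antisymm (hMD _)
    intro x hx
    exact (hM ⊤ ⟨x, hx⟩).2 trivial
  · simp
  · intro j x hx g hg
    beta_reduce at hx ⊢
    rcases lt_trichotomy j c with hj | hj | hj
    · rw [if_pos hj.le] at hx
      rw [if_pos (by omega)]
      have hxD : x ∈ D := hMD _ hx
      obtain ⟨h1, h2⟩ := hstep x g hxD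
      refine (hM (F (j + 1)) ⟨_, h1⟩).2 ?_
      rw [h2 h1]
      exact (F (j + 1)).neg_mem (hF j g hg.1 _ ((hM _ ⟨x, hxD⟩).1 hx))
    · subst hj
      rw [if_pos le_rfl, hFc] at hx
      rw [if_neg (by omega), derivedSeries_succ]
      have hxD : x ∈ D := hMD _ hx
      have h1 : ι ⟨x, hxD⟩ = 0 := (Submodule.mem_bot ℚ).1 ((hM _ ⟨x, hxD⟩).1 hx)
      have h2 : θ (⟨x, hxD⟩⁻¹) = 0 := by
        rw [hθinv]
        ext l
        have := congrFun h1 l
        simp only [hι, Pi.zero_apply, Int.cast_eq_zero] at this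
        simp [this]
      have h3 := hG₁' g hg.2 (⟨x, hxD⟩⁻¹) h2
      have h4 : x * g * x⁻¹ * g⁻¹ = x * (g * x⁻¹ * g⁻¹ * (x⁻¹)⁻¹) * x⁻¹ := by group
      rw [h4]
      exact (inferInstance : (⁅D, D⁆ : Subgroup G).Normal).conj_mem _ h3 x
    · rw [if_neg (by omega)] at hx
      rw [if_neg (by omega)]
      have h4 : x * g * x⁻¹ * g⁻¹ = x * (g * x⁻¹ * g⁻¹) := by group
      rw [h4]
      exact Subgroup.mul_mem _ hx
        ((inferInstance : (derivedSeries G (i + 1)).Normal).conj_mem _ (Subgroup.inv_mem _ hx) g)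

/-- The soluble part: small growth at one scale implies virtual nilpotence. -/
theorem exists_nilpotent (kron : KronStatement) (hX : X.Finite) {K R L : ℕ}
    (hg : growth X R < 2 ^ K) (hR : K * (L + 16 * K ^ 2 * L) ≤ R) (r : ℕ)
    (hr : derivedSeries G r = ⊥) (hgen : ∀ i < r, Gen X L (derivedSeries G i)) :
    ∃ H : Subgroup G, H.FiniteIndex ∧ Group.IsNilpotent H := by
  have key : ∀ i ≤ r, ∃ H : Subgroup G, H.FiniteIndex ∧ CD H ⊤ (derivedSeries G i) := by
    intro i
    induction i with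
    | zero =>
      intro _
      refine ⟨⊤, inferInstance, 0, fun _ => ⊤, rfl, ?_, fun _ _ _ _ _ => trivial⟩
      simp
    | succ i ih =>
      intro hi
      obtain ⟨H, hH, hcd⟩ := ih (by omega)
      obtain ⟨H', hH', hcd'⟩ := exists_CD kron hX hg hR r hr hgen i (by omega)
      exact ⟨H ⊓ H', inferInstance, (hcd.mono inf_le_left).trans (hcd'.mono inf_le_right)⟩
  obtain ⟨H, hH, hcd⟩ := key r le_rfl
  rw [hr] at hcd
  exact ⟨H, hH, hcd.isNilpotent⟩

end Pool.Agent.Helper5.Gap
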