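import Mathlib

/-!
Elementary estimates for a valuation `v` (multiplicative notation) on a field with
`v p < 1`: additivity of the Frobenius modulo `p`, the Gauss norm lemma.
-/

namespace Pool.Agent.Helper5.ID

open Polynomial

variable {Ω : Type*} [Field Ω] {Γ : Type*} [LinearOrderedCommGroupWithZero Γ]
  (v : Valuation Ω Γ)

lemma map_natCast_le_one (n : ℕ) : v (n : Ω) ≤ 1 := by
  induction n with
  | zero => simp
  | succ n ih =>
    rw [Nat.cast_succ]
    exact v.map_add_le ih (by simp)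

lemma map_intCast_le_one (n : ℤ) : v (n : Ω) ≤ 1 := by
  rcases Int.eq_nat_or_neg n with ⟨m, rfl | rfl⟩
  · simpa using map_natCast_le_one v m
  · simpa [Valuation.map_neg] using map_natCast_le_one v m

/-- An integer prime to `p` is a unit for `v`. -/
lemma map_natCast_eq_one {p : ℕ} (hvp : v (p : Ω) < 1) {n : ℕ} (hn : Nat.Coprime n p) :
    v (n : Ω) = 1 := by
  apply le_antisymm (map_natCast_le_one v n)
  by_contra h
  push Not at h
  have hb : (n : ℤ) * Nat.gcdA n p + (p : ℤ) * Nat.gcdB n p = 1 := by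
    have := Nat.gcd_eq_gcd_ab n p
    rw [Nat.Coprime.gcd_eq_one hn] at this
    simpa using this.symm
  have hb' : (n : Ω) * ((Nat.gcdA n p : ℤ) : Ω) + (p : Ω) * ((Nat.gcdB n p : ℤ) : Ω) = 1 := by
    exact_mod_cast congrArg (Int.cast : ℤ → Ω) hb
  have h1 : v ((n : Ω) * ((Nat.gcdA n p : ℤ) : Ω) + (p : Ω) * ((Nat.gcdB n p : ℤ) : Ω)) < 1 := by
    apply v.map_add_lt
    · rw [v.map_mul]
      exact mul_lt_one_of_lt_of_le h (map_intCast_le_one v _)
    · rw [v.map_mul]
      exact mul_lt_one_of_lt_of_le hvp (map_intCast_le_one v _)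
  rw [hb', v.map_one] at h1
  exact lt_irrefl _ h1

/-- `(x + y)^p ≡ x^p + y^p` modulo `p`, for integral `x`, `y`. -/
lemma frob_add {p : ℕ} (hp : p.Prime) {x y : Ω} (hx : v x ≤ 1) (hy : v y ≤ 1) :
    v ((x + y) ^ p - (x ^ p + y ^ p)) ≤ v (p : Ω) := by
  rw [add_pow_prime_eq' hp, add_sub_cancel_left, v.map_mul]
  refine mul_le_of_le_one_right' (v.map_sum_le fun i _ => ?_)
  rw [v.map_mul, v.map_mul, v.map_pow, v.map_pow]
  exact mul_le_one' (mul_le_one' (pow_le_one' hx _) (pow_le_one' hy _)) (map_natCast_le_one v _)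

lemma frob_sum {p : ℕ} (hp : p.Prime) {ι : Type*} (s : Finset ι) (f : ι → Ω)
    (hf : ∀ i ∈ s, v (f i) ≤ 1) :
    v ((∑ i ∈ s, f i) ^ p - ∑ i ∈ s, f i ^ p) ≤ v (p : Ω) := by
  classical
  induction s using Finset.induction_on with
  | empty => simp [hp.ne_zero]
  | insert a s ha ih =>
    rw [Finset.sum_insert ha, Finset.sum_insert ha]
    have h1 := ih fun i hi => hf i (Finset.mem_insert_of_mem hi)
    have h2 := frob_add v hp (hf a (Finset.mem_insert_self a s))
      (v.map_sum_le fun i hi => hf i (Finset.mem_insert_of_mem hi))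
    have h3 : (f a + ∑ i ∈ s, f i) ^ p - (f a ^ p + ∑ i ∈ s, f i ^ p) =
        ((f a + ∑ i ∈ s, f i) ^ p - (f a ^ p + (∑ i ∈ s, f i) ^ p)) +
        ((∑ i ∈ s, f i) ^ p - ∑ i ∈ s, f i ^ p) := by ring
    rw [h3]
    exact v.map_add_le h2 h1

/-- `n^p ≡ n` modulo `p`. -/
lemma frob_nat {p : ℕ} (hp : p.Prime) (n : ℕ) : v ((n : Ω) ^ p - n) ≤ v (p : Ω) := by
  have := Fact.mk hp
  have h : (p : ℤ) ∣ (n : ℤ) ^ p - n := by
    rw [← ZMod.intCast_zmod_eq_zero_iff_dvd _ p]
    · push_cast
      rw [ZMod.pow_card, sub_self]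
  obtain ⟨c, hc⟩ := h
  have hc' : (n : Ω) ^ p - n = (p : Ω) * (c : Ω) := by
    exact_mod_cast congrArg (Int.cast : ℤ → Ω) hc
  rw [hc', v.map_mul]
  exact mul_le_of_le_one_right' (map_intCast_le_one v c)

/-- Perturbation of a `p`-th power: if `v (x - y) < v x` then `v (x^p - y^p) < v x ^ p`. -/
lemma pow_sub_pow_lt {p : ℕ} {x y : Ω} (h : v (x - y) < v x) :
    v (x ^ p - y ^ p) < v x ^ p ∨ p = 0 := by
  rcases Nat.eq_zero_or_pos p with rfl | hp
  · right; rfl
  left
  have hx0 : 0 < v x := lt_of_le_of_lt zero_le h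
  have hy : v y ≤ v x := by
    have : y = x - (x - y) := by ring
    rw [this]
    exact v.map_sub_le le_rfl h.le
  have hgeom : x ^ p - y ^ p = (∑ i ∈ Finset.range p, x ^ i * y ^ (p - 1 - i)) * (x - y) :=
    (Commute.all x y).geom_sum₂_mul p |>.symm
  rw [hgeom, v.map_mul]
  have h1 : v (∑ i ∈ Finset.range p, x ^ i * y ^ (p - 1 - i)) ≤ v x ^ (p - 1) := by
    apply v.map_sum_le
    intro i hi
    rw [Finset.mem_range] at hi
    rw [v.map_mul, v.map_pow, v.map_pow]
    calc v x ^ i * v y ^ (p - 1 - i) ≤ v x ^ i * v x ^ (p - 1 - i) := by gcongr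
      _ = v x ^ (p - 1) := by rw [← pow_add]; congr 1; omega
  calc _ ≤ v x ^ (p - 1) * v (x - y) := by gcongr
    _ < v x ^ (p - 1) * v x := by
      exact mul_lt_mul_of_pos_left h (pow_pos hx0 _)
    _ = v x ^ p := by rw [← pow_succ]; congr 1; omega

/-- **Gauss norm lemma.**  Let `L` be a subfield-like set of coefficients: every nonconstant
polynomial over `F` of degree `< n` has a root in `F`.  If `θ` is at distance at least `v θ`
from every element of `F`, then `v (f θ) = max v (c_i θ^i)` for `deg f < n`. -/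
lemma gauss {F : Type*} [Field F] [Algebra F Ω] {n : ℕ}
    (hsplit : ∀ f : F[X], 0 < f.natDegree → f.natDegree < n → ∃ y : F, f.eval y = 0)
    {θ : Ω} (hθ : ∀ y : F, v θ ≤ v (θ - algebraMap F Ω y)) :
    ∀ (d : ℕ) (f : F[X]), f.natDegree = d → f.natDegree < n →
      ∀ i, v (algebraMap F Ω (f.coeff i) * θ ^ i) ≤ v (aeval θ f) := by
  intro d
  induction d with
  | zero =>
    intro f hf _ i
    rw [eq_C_of_natDegree_eq_zero hf]
    simp only [aeval_C]
    rcases Nat.eq_zero_or_pos i with rfl | hi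
    · simp
    · rw [coeff_C_of_ne_zero hi.ne']
      simp
  | succ d ih =>
    intro f hf hfn i
    obtain ⟨y, hy⟩ := hsplit f (by omega) hfn
    obtain ⟨g, rfl⟩ := dvd_iff_isRoot.mpr hy
    have hg0 : g ≠ 0 := by
      rintro rfl
      simp at hf
    have hgd : g.natDegree = d := by
      rw [natDegree_mul (X_sub_C_ne_zero y) hg0, natDegree_X_sub_C] at hf
      omega
    have hgn : g.natDegree < n := by omega
    have hg := ih g hgd hgn
    have h1 : aeval θ ((X - C y) * g) = (θ - algebraMap F Ω y) * aeval θ g := by simp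
    rw [h1, v.map_mul (θ - algebraMap F Ω y)]
    have hy1 : v (algebraMap F Ω y) ≤ v (θ - algebraMap F Ω y) := by
      have : algebraMap F Ω y = θ - (θ - algebraMap F Ω y) := by ring
      rw [this]
      refine v.map_sub_le ?_ (by rw [sub_sub_cancel])
      rw [sub_sub_cancel]
      exact hθ y
    rcases Nat.eq_zero_or_pos i with rfl | hi
    · have : ((X - C y) * g).coeff 0 = - (y * g.coeff 0) := by
        simp [mul_coeff_zero]
      rw [this, map_neg, neg_mul, v.map_neg, (algebraMap F Ω).map_mul, mul_assoc, v.map_mul]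
      exact mul_le_mul' hy1 (hg 0)
    · obtain ⟨j, rfl⟩ : ∃ j, i = j + 1 := ⟨i - 1, by omega⟩
      have : ((X - C y) * g).coeff (j + 1) = g.coeff j - y * g.coeff (j + 1) := by
        rw [sub_mul, coeff_sub, coeff_X_mul, coeff_C_mul]
      rw [this, map_sub, sub_mul]
      apply v.map_sub_le
      · rw [pow_succ, ← mul_assoc, v.map_mul, mul_comm]
        exact mul_le_mul' (hθ y) (hg j)
      · rw [(algebraMap F Ω).map_mul, mul_assoc, v.map_mul]
        exact mul_le_mul' hy1 (hg (j + 1))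

end Pool.Agent.Helper5.ID
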