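import Mathlib
import Pool.Agent.Helper5.IDBasic

/-!
The maximal algebraic extension `L` in which a given element `a` is not a `p`-th power
modulo `w`, and its properties.
-/

namespace Pool.Agent.Helper5.ID

open Polynomial IntermediateField

variable {K Ω : Type*} [Field K] [Field Ω] [Algebra K Ω] [IsAlgClosed Ω]
  [Algebra.IsAlgebraic K Ω] {Γ : Type*} [LinearOrderedCommGroupWithZero Γ]

/-- The standing hypotheses on the field `L`. -/
structure Setup (v : Valuation Ω Γ) (p : ℕ) (a w : Ω) (L : IntermediateField K Ω) : Prop where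
  hp : p.Prime
  inv : ∀ (σ : Ω ≃ₐ[K] Ω) (x : Ω), v (σ x) = v x
  ha : v a ≤ 1
  haL : a ∈ L
  hwL : w ∈ L
  hw0 : w ≠ 0
  hw1 : v w < 1
  hpw : v (p : Ω) ≤ v w ^ 2
  arch : ∀ x : Ω, v x < 1 → ∃ k : ℕ, v x ^ k ≤ v w
  P : ∀ b ∈ L, v w < v (a - b ^ p)
  max : ∀ L' : IntermediateField K Ω, L < L' → ∃ b ∈ L', v (a - b ^ p) ≤ v w

/-- An invariant valuation is preserved by all embeddings. -/
lemma inv_algHom {v : Valuation Ω Γ} (inv : ∀ (σ : Ω ≃ₐ[K] Ω) (x : Ω), v (σ x) = v x)
    {E : Type*} [Field E] [Algebra K E] [Algebra E Ω] [IsScalarTower K E Ω]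
    (σ : E →ₐ[K] Ω) (y : E) : v (σ y) = v (algebraMap E Ω y) := by
  have : Algebra.IsAlgebraic E Ω := Algebra.IsAlgebraic.tower_top (K := K) E
  obtain ⟨φ, hφ⟩ := IsAlgClosed.surjective_domRestrict_of_isAlgebraic (K := K) (L := E)
    (E := Ω) (M := Ω) σ
  have hb : Function.Bijective φ := Algebra.IsAlgebraic.algHom_bijective φ
  have h1 := inv (AlgEquiv.ofBijective φ hb) (algebraMap E Ω y)
  have h2 : φ (algebraMap E Ω y) = σ y := by
    rw [← hφ]; rfl
  rw [← h2]
  exact h1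

set_option linter.unusedSectionVars false

namespace Setup

variable {v : Valuation Ω Γ} {p : ℕ} {a w : Ω} {L : IntermediateField K Ω}

include Γ

lemma hpw' (h : Setup v p a w L) : v (p : Ω) ≤ v w := by
  refine h.hpw.trans ?_
  rw [pow_two]
  exact mul_le_of_le_one_right' h.hw1.le

lemma hp1 (h : Setup v p a w L) : v (p : Ω) < 1 := lt_of_le_of_lt h.hpw' h.hw1

lemma vw0 (h : Setup v p a w L) : 0 < v w := (v.pos_iff).2 h.hw0

lemma invL (h : Setup v p a w L) (σ : Ω ≃ₐ[L] Ω) (x : Ω) : v (σ x) = v x :=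
  h.inv (σ.restrictScalars K) x

/-- Every element of `Ω` whose degree over `L` is prime to `p` lies in `L`. -/
theorem claim1 (h : Setup v p a w L) (x : Ω) (hx : ¬ p ∣ (minpoly L x).natDegree) : x ∈ L := by
  by_contra hxL
  have hint : IsIntegral L x := Algebra.IsIntegral.isIntegral x
  -- separability
  have hsep : IsSeparable L x := by
    rw [IsSeparable, separable_iff_derivative_ne_zero (minpoly.irreducible hint)]
    intro hder
    have hc : (derivative (minpoly L x)).coeff ((minpoly L x).natDegree - 1) = 0 := by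
      rw [hder, coeff_zero]
    have hpos : 0 < (minpoly L x).natDegree := minpoly.natDegree_pos hint
    rw [coeff_derivative, Nat.sub_add_cancel hpos, coeff_natDegree,
      (minpoly.monic hint).leadingCoeff, one_mul] at hc
    have hc' : (((minpoly L x).natDegree : ℕ) : Ω) = 0 := by
      have h1 : (((minpoly L x).natDegree : ℕ) : L) = 0 := by
        have h2 : (((minpoly L x).natDegree - 1 : ℕ) : L) + 1 =
          (((minpoly L x).natDegree : ℕ) : L) := by
          rw [← Nat.cast_succ, Nat.succ_eq_add_one, Nat.sub_add_cancel hpos]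
        rw [← h2]; exact hc
      have := congrArg (algebraMap L Ω) h1
      simpa using this
    have h3 := map_natCast_eq_one v h.hp1 ((Nat.Prime.coprime_iff_not_dvd h.hp).2 hx).symm
    rw [hc', v.map_zero] at h3
    exact zero_ne_one h3
  have hlt : L < (L⟮x⟯).restrictScalars K := by
    constructor
    · intro y hy
      rw [IntermediateField.mem_restrictScalars]
      exact (L⟮x⟯).algebraMap_mem ⟨y, hy⟩
    · intro hle
      apply hxL
      apply hle
      rw [IntermediateField.mem_restrictScalars]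
      exact mem_adjoin_simple_self L x
  obtain ⟨b, hb, hab⟩ := h.max _ hlt
  rw [IntermediateField.mem_restrictScalars] at hb
  have : FiniteDimensional L L⟮x⟯ := IntermediateField.adjoin.finiteDimensional hint
  have : Algebra.IsSeparable L L⟮x⟯ := by
    rwa [IntermediateField.isSeparable_adjoin_simple_iff_isSeparable]
  set n := Fintype.card (L⟮x⟯ →ₐ[L] Ω) with hn
  have hn' : n = (minpoly L x).natDegree := by
    rw [hn, ← Nat.card_eq_fintype_card, AlgHom.natCard_of_splits L L⟮x⟯ Ω]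
    · exact IntermediateField.adjoin.finrank hint
    · intro y
      exact IsAlgClosed.splits _
  have hvn : v (n : Ω) = 1 := by
    rw [hn']
    exact map_natCast_eq_one v h.hp1 ((Nat.Prime.coprime_iff_not_dvd h.hp).2 hx).symm
  set B : L⟮x⟯ := ⟨b, hb⟩ with hB
  set a' : L := ⟨a, h.haL⟩ with ha'
  set T : L := Algebra.trace L L⟮x⟯ B with hT
  have hTsum : (T : Ω) = ∑ σ : L⟮x⟯ →ₐ[L] Ω, σ B := by
    rw [← trace_eq_sum_embeddings (K := L) (L := L⟮x⟯) Ω (x := B)]
    rfl
  have hinv : ∀ (σ : L⟮x⟯ →ₐ[L] Ω) (y : L⟮x⟯), v (σ y) = v (y : Ω) := fun σ y =>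
    inv_algHom (K := L) h.invL σ y
  have hvb : v b ≤ 1 := by
    by_contra hcon
    push Not at hcon
    have h1 : v a < v (b ^ p) := by
      rw [v.map_pow]
      exact lt_of_le_of_lt h.ha (one_lt_pow₀ hcon h.hp.ne_zero)
    have h2 : v (a - b ^ p) = v (b ^ p) := v.map_sub_eq_of_lt_right h1
    rw [h2] at hab
    have h3 := lt_of_lt_of_le h1 hab
    have h4 : 1 < v (b ^ p) := by rw [v.map_pow]; exact one_lt_pow₀ hcon h.hp.ne_zero
    exact absurd (h4.trans_le hab) (not_lt.2 h.hw1.le)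
  -- main estimate
  have hsa : ∀ σ : L⟮x⟯ →ₐ[L] Ω, σ (algebraMap L L⟮x⟯ a') = a := fun σ => by
    rw [σ.commutes]; rfl
  have e1 : v ((n : Ω) * a - ∑ σ : L⟮x⟯ →ₐ[L] Ω, (σ B) ^ p) ≤ v w := by
    have : (n : Ω) * a - ∑ σ : L⟮x⟯ →ₐ[L] Ω, (σ B) ^ p =
        ∑ σ : L⟮x⟯ →ₐ[L] Ω, σ (algebraMap L L⟮x⟯ a' - B ^ p) := by
      simp only [map_sub, hsa, map_pow, Finset.sum_sub_distrib, Finset.sum_const,
        Finset.card_univ, nsmul_eq_mul]
      rfl
    rw [this]
    apply v.map_sum_le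
    intro σ _
    rw [hinv]
    exact hab
  have e2 : v ((∑ σ : L⟮x⟯ →ₐ[L] Ω, σ B) ^ p - ∑ σ : L⟮x⟯ →ₐ[L] Ω, (σ B) ^ p) ≤ v w :=
    (frob_sum v h.hp _ _ fun σ _ => by rw [hinv]; exact hvb).trans h.hpw'
  have e3 : v (((n : Ω) ^ p - n) * a) ≤ v w := by
    rw [v.map_mul]
    exact (mul_le_of_le_one_right' h.ha).trans ((frob_nat v h.hp n).trans h.hpw')
  have e4 : v ((n : Ω) ^ p * a - (T : Ω) ^ p) ≤ v w := by
    rw [hTsum]
    have : (n : Ω) ^ p * a - (∑ σ : L⟮x⟯ →ₐ[L] Ω, σ B) ^ p =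
      ((n : Ω) ^ p - n) * a + (((n : Ω) * a - ∑ σ : L⟮x⟯ →ₐ[L] Ω, (σ B) ^ p) -
        ((∑ σ : L⟮x⟯ →ₐ[L] Ω, σ B) ^ p - ∑ σ : L⟮x⟯ →ₐ[L] Ω, (σ B) ^ p)) := by ring
    rw [this]
    exact v.map_add_le e3 (v.map_sub_le e1 e2)
  have hn0 : (n : Ω) ≠ 0 := by
    intro h0
    rw [h0, v.map_zero] at hvn
    exact zero_ne_one hvn
  have hmem : (T : Ω) / n ∈ L := by
    apply div_mem T.2
    exact IntermediateField.natCast_mem L n
  have h5 := h.P _ hmem
  have h6 : a - ((T : Ω) / n) ^ p = ((n : Ω) ^ p * a - (T : Ω) ^ p) / (n : Ω) ^ p := by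
    rw [div_pow, sub_div, mul_div_cancel_left₀ _ (pow_ne_zero _ hn0)]
  rw [h6, v.map_div, v.map_pow, hvn, one_pow, div_one] at h5
  exact absurd h5 (not_lt.2 e4)

/-- An element of `Ω` which is a root of a nonzero polynomial over `L` of degree `< p`
lies in `L`. -/
lemma mem_of_root (h : Setup v p a w L) {x : Ω} (f : L[X]) (hf0 : f ≠ 0)
    (hfx : aeval x f = 0) (hd : f.natDegree < p) : x ∈ L := by
  apply h.claim1
  intro hdvd
  have hint : IsIntegral L x := Algebra.IsIntegral.isIntegral x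
  have h1 : (minpoly L x).natDegree ≤ f.natDegree :=
    natDegree_le_of_dvd (minpoly.dvd L x hfx) hf0
  have h2 := Nat.le_of_dvd (minpoly.natDegree_pos hint) hdvd
  omega

lemma split (h : Setup v p a w L) (f : L[X]) (hf : 0 < f.natDegree) (hd : f.natDegree < p) :
    ∃ y : L, f.eval y = 0 := by
  have h1 : (f.map (algebraMap L Ω)).degree ≠ 0 := by
    rw [degree_map]
    exact (natDegree_pos_iff_degree_pos.1 hf).ne'
  obtain ⟨x, hx⟩ := IsAlgClosed.exists_root _ h1
  have hx' : aeval x f = 0 := by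
    rw [aeval_def, ← eval_map]; exact hx
  have hf0 : f ≠ 0 := by rintro rfl; simp at hf
  have hxL := h.mem_of_root f hf0 hx' hd
  refine ⟨⟨x, hxL⟩, ?_⟩
  apply (algebraMap L Ω).injective
  rw [map_zero, ← hx', aeval_def]
  exact (eval₂_at_apply (algebraMap L Ω) (⟨x, hxL⟩ : L)).symm

lemma root_prime (h : Setup v p a w L) {q : ℕ} (hq : q.Prime) (hqp : q ≠ p) (c : L) :
    ∃ y : L, y ^ q = c := by
  by_contra hcon
  push Not at hcon
  have hirr := X_pow_sub_C_irreducible_of_prime hq hcon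
  obtain ⟨x, hx⟩ := IsAlgClosed.exists_pow_nat_eq (algebraMap L Ω c) hq.pos
  have hmin : minpoly L x = X ^ q - C c := by
    symm
    apply minpoly.eq_of_irreducible_of_monic hirr
    · simp [hx]
    · exact monic_X_pow_sub_C c hq.ne_zero
  have hxL : x ∈ L := by
    apply h.claim1
    rw [hmin, natDegree_X_pow_sub_C]
    intro hdvd
    exact hqp ((Nat.prime_dvd_prime_iff_eq h.hp hq).1 hdvd).symm
  apply hcon ⟨x, hxL⟩
  apply (algebraMap L Ω).injective
  rw [map_pow]
  exact hx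

lemma root_exists (h : Setup v p a w L) (n : ℕ) (hn : Nat.Coprime n p) (c : L) :
    ∃ y : L, y ^ n = c := by
  induction n using Nat.recOnMul generalizing c with
  | zero =>
    rw [Nat.coprime_zero_left] at hn
    exact absurd hn h.hp.ne_one
  | one => exact ⟨c, pow_one c⟩
  | prime q hq =>
    apply h.root_prime hq
    rintro rfl
    rw [Nat.coprime_self] at hn
    exact hq.ne_one hn
  | mul m k hm hk =>
    obtain ⟨y, hy⟩ := hk (Nat.Coprime.coprime_mul_left hn) c
    obtain ⟨z, hz⟩ := hm (Nat.Coprime.coprime_mul_right hn) y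
    exact ⟨z, by rw [pow_mul, hz, hy]⟩

/-- Valuation independence of the powers of an element `θ` which is at distance at least
`v θ` from `L`. -/
lemma vi (h : Setup v p a w L) {θ : Ω} (hθ : ∀ y ∈ L, v θ ≤ v (θ - y)) (f : L[X])
    (hf : f.natDegree < p) (i : ℕ) : v ((f.coeff i : Ω) * θ ^ i) ≤ v (aeval θ f) :=
  gauss v h.split (fun y => hθ _ y.2) f.natDegree f rfl hf i

/-- The analogous statement for sums of `p`-th powers times powers of `r`. -/
lemma vi' (h : Setup v p a w L) {r : Ω} (hr : ∀ y ∈ L, v r ≤ v (r - y ^ p)) (f : L[X])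
    (hf : f.natDegree < p) (e : ℕ → Ω)
    (he : ∀ i, v (e i - (f.coeff i : Ω) ^ p * r ^ i) ≤ v (p : Ω) * v ((f.coeff i : Ω) ^ p * r ^ i))
    (i : ℕ) : v ((f.coeff i : Ω) ^ p * r ^ i) ≤ v (∑ j ∈ Finset.range p, e j) := by
  obtain ⟨θ, hθ⟩ := IsAlgClosed.exists_pow_nat_eq r h.hp.pos
  have hθL : ∀ y ∈ L, v θ ≤ v (θ - y) := by
    intro y hy
    by_contra hcon
    push Not at hcon
    have h1 := (pow_sub_pow_lt v (p := p) hcon).resolve_right h.hp.ne_zero
    rw [hθ, ← v.map_pow, hθ] at h1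
    exact absurd (hr y hy) (not_le.2 h1)
  have hv := h.vi hθL f hf
  set m := aeval θ f with hm
  have key : ∀ j, v ((f.coeff j : Ω) ^ p * r ^ j) = v ((f.coeff j : Ω) * θ ^ j) ^ p := by
    intro j
    rw [← v.map_pow, mul_pow, ← pow_mul, mul_comm j p, pow_mul, hθ]
  rw [key]
  rcases eq_or_ne m 0 with hm0 | hm0
  · have := hv i
    rw [hm0, v.map_zero, le_zero_iff] at this
    rw [this, zero_pow h.hp.ne_zero]
    exact zero_le
  · have hvm : 0 < v m := (v.pos_iff).2 hm0
    have hsum : m = ∑ j ∈ Finset.range p, (f.coeff j : Ω) * θ ^ j := by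
      rw [hm, aeval_eq_sum_range' hf]
      apply Finset.sum_congr rfl
      intro j _
      rw [Algebra.smul_def]
      rfl
    have h1 : v ((∑ j ∈ Finset.range p, (f.coeff j : Ω) * θ ^ j / m) ^ p -
        ∑ j ∈ Finset.range p, ((f.coeff j : Ω) * θ ^ j / m) ^ p) ≤ v (p : Ω) := by
      apply frob_sum v h.hp
      intro j _
      rw [v.map_div]
      exact div_le_one_of_le₀ (hv j) zero_le
    rw [← Finset.sum_div, ← hsum, div_self hm0, one_pow] at h1
    have h2 : v (m ^ p - ∑ j ∈ Finset.range p, ((f.coeff j : Ω) * θ ^ j) ^ p) < v m ^ p := by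
      have h3 : m ^ p - ∑ j ∈ Finset.range p, ((f.coeff j : Ω) * θ ^ j) ^ p =
          m ^ p * (1 - ∑ j ∈ Finset.range p, ((f.coeff j : Ω) * θ ^ j / m) ^ p) := by
        rw [mul_sub, mul_one, Finset.mul_sum]
        congr 1
        apply Finset.sum_congr rfl
        intro j _
        rw [div_pow, mul_div_cancel₀ _ (pow_ne_zero _ hm0)]
      rw [h3, v.map_mul, v.map_pow]
      exact mul_lt_of_lt_one_right (pow_pos hvm _) (lt_of_le_of_lt h1 h.hp1)
    have h4 : v (∑ j ∈ Finset.range p, ((f.coeff j : Ω) * θ ^ j) ^ p -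
        ∑ j ∈ Finset.range p, e j) < v m ^ p := by
      rw [← Finset.sum_sub_distrib]
      apply v.map_sum_lt (pow_pos hvm _).ne'
      intro j _
      rw [v.map_sub_swap, mul_pow, ← pow_mul, mul_comm j p, pow_mul, hθ]
      refine lt_of_le_of_lt (he j) ?_
      rw [key]
      calc v (p : Ω) * v ((f.coeff j : Ω) * θ ^ j) ^ p ≤ v (p : Ω) * v m ^ p := by
            gcongr
            exact hv j
        _ < v m ^ p := mul_lt_of_lt_one_left (pow_pos hvm _) h.hp1
    have h5 : v (m ^ p - ∑ j ∈ Finset.range p, e j) < v (m ^ p) := by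
      have : m ^ p - ∑ j ∈ Finset.range p, e j =
        (m ^ p - ∑ j ∈ Finset.range p, ((f.coeff j : Ω) * θ ^ j) ^ p) +
        (∑ j ∈ Finset.range p, ((f.coeff j : Ω) * θ ^ j) ^ p - ∑ j ∈ Finset.range p, e j) := by
          ring
      rw [this, v.map_pow]
      exact v.map_add_lt h2 h4
    rw [v.map_sub_swap] at h5
    rw [v.map_eq_of_sub_lt h5, v.map_pow]
    gcongr
    exact hv i

end Setup

end Pool.Agent.Helper5.ID
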