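import Mathlib
import Pool.Agent.Helper5.IDCore

/-!
The distances `v (a - b^p)`, `b ∈ L`, have no minimum (multiplicative notation).
-/

namespace Pool.Agent.Helper5.ID

open Polynomial IntermediateField

variable {K Ω : Type*} [Field K] [Field Ω] [Algebra K Ω] [IsAlgClosed Ω]
  [Algebra.IsAlgebraic K Ω] {Γ : Type*} [LinearOrderedCommGroupWithZero Γ]

set_option linter.unusedSectionVars false

/-- Elements of `L(θ)` are polynomials in `θ` of bounded degree. -/
lemma exists_poly {K Ω : Type*} [Field K] [Field Ω] [Algebra K Ω] {L : IntermediateField K Ω}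
    {θ : Ω} (P : L[X]) (hPm : P.Monic) (hP0 : 0 < P.natDegree)
    (hPθ : aeval θ P = 0) {B : Ω} (hB : B ∈ L⟮θ⟯) :
    ∃ f : L[X], f.natDegree < P.natDegree ∧ aeval θ f = B := by
  have halg : IsAlgebraic L θ := ⟨P, hPm.ne_zero, hPθ⟩
  have h1 : B ∈ (L⟮θ⟯).toSubalgebra := hB
  rw [IntermediateField.adjoin_simple_toSubalgebra_of_isAlgebraic halg,
    Algebra.adjoin_singleton_eq_range_aeval] at h1
  obtain ⟨g, hg⟩ := h1
  refine ⟨g %ₘ P, ?_, ?_⟩
  · apply natDegree_modByMonic_lt g hPm
    intro hc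
    rw [hc, natDegree_one] at hP0
    omega
  · rw [aeval_modByMonic_eq_self_of_root hPθ]
    exact hg

namespace Setup

variable {v : Valuation Ω Γ} {p : ℕ} {a w : Ω} {L : IntermediateField K Ω}

include Γ

/-- Choice of the element `d` of the Artin-Schreier-like polynomial `X^p - d X - r`. -/
lemma exists_d (h : Setup v p a w L) {r : Ω} (hrL : r ∈ L) (hr1 : v r ≤ 1) (hwr : v w < v r) :
    ∃ d : L, v (d : Ω) ^ p < v r ^ (p - 1) ∧ v w ^ p < v (d : Ω) ^ p * v r := by
  have hw0 := h.vw0
  have hr0 : 0 < v r := hw0.trans hwr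
  rcases hr1.eq_or_lt with hr1 | hr1
  · -- `v r = 1`
    obtain ⟨n, hn2, hnp⟩ : ∃ n : ℕ, 2 ≤ n ∧ Nat.Coprime n p :=
      ⟨p + 1, by have := h.hp.two_le; omega, by simp⟩
    obtain ⟨d, hd⟩ := h.root_exists n hnp ⟨w, h.hwL⟩
    have hd' : v (d : Ω) ^ n = v w := by
      rw [← v.map_pow, ← SubmonoidClass.coe_pow, hd]
    have hd1 : v (d : Ω) < 1 := by
      by_contra hcon
      push Not at hcon
      have := one_le_pow₀ hcon (n := n)
      rw [hd'] at this
      exact absurd h.hw1 (not_lt.2 this)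
    have hd0 : 0 < v (d : Ω) := by
      by_contra hcon
      rw [not_lt, le_zero_iff] at hcon
      rw [hcon, zero_pow (by omega)] at hd'
      exact hw0.ne hd'
    refine ⟨d, ?_, ?_⟩
    · rw [hr1, one_pow]
      exact pow_lt_one₀ zero_le hd1 h.hp.ne_zero
    · rw [hr1, mul_one, ← hd', ← pow_mul]
      apply pow_lt_pow_right_of_lt_one₀ hd0 hd1
      have := h.hp.pos
      nlinarith
  · -- `v r < 1`
    have hx : v (w / r) < 1 := by
      rw [v.map_div]
      exact (div_lt_one₀ hr0).2 hwr
    obtain ⟨k, hk⟩ := h.arch _ hx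
    set l := k + 1 with hl
    obtain ⟨q, hq⟩ : ∃ q, p = q + 1 := ⟨p - 1, by have := h.hp.pos; omega⟩
    set n := 1 + p * l with hn
    set m := 1 + q * l with hm
    have hnp : Nat.Coprime n p := by
      rw [hn]
      simp
    obtain ⟨d, hd⟩ := h.root_exists n hnp (⟨r, hrL⟩ ^ m)
    have hd' : v (d : Ω) ^ n = v r ^ m := by
      rw [← v.map_pow, ← v.map_pow, ← SubmonoidClass.coe_pow, hd]
      rfl
    have hn0 : n ≠ 0 := by omega
    refine ⟨d, ?_, ?_⟩
    · apply lt_of_pow_lt_pow_left₀ n zero_le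
      rw [← pow_mul, mul_comm p n, pow_mul, hd', ← pow_mul, ← pow_mul]
      apply pow_lt_pow_right_of_lt_one₀ hr0 hr1
      rw [hm, hn, hq]
      simp only [Nat.add_sub_cancel]
      nlinarith
    · apply lt_of_pow_lt_pow_left₀ n zero_le
      rw [mul_pow, ← pow_mul, ← pow_mul, mul_comm p n, pow_mul (v (d : Ω)) n p, hd', ← pow_mul,
        ← pow_add]
      have e1 : m * p + n = n * p + 1 := by
        rw [hm, hn, hq]; ring
      rw [e1, pow_succ]
      have e2 : v w ^ (n * p) = v (w / r) ^ (n * p) * v r ^ (n * p) := by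
        rw [v.map_div, div_pow, div_mul_cancel₀ _ (pow_ne_zero _ hr0.ne')]
      rw [e2, mul_comm]
      apply mul_lt_mul_of_pos_left _ (pow_pos hr0 _)
      calc v (w / r) ^ (n * p) ≤ v (w / r) ^ k := by
            apply pow_le_pow_right_of_le_one' hx.le
            have := h.hp.pos
            nlinarith
        _ ≤ v w := hk
        _ < v r := hwr

/-- The distances `v (a - b ^ p)` have no minimum. -/
theorem claim2 (h : Setup v p a w L) (b : Ω) (hb : b ∈ L) :
    ∃ b' ∈ L, v (a - b' ^ p) < v (a - b ^ p) := by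
  by_contra hcon
  push Not at hcon
  set r := a - b ^ p with hr
  have hp0 := h.hp.ne_zero
  have hppos := h.hp.pos
  have hrL : r ∈ L := sub_mem h.haL (pow_mem hb _)
  have hwr : v w < v r := h.P b hb
  have hr0 : 0 < v r := h.vw0.trans hwr
  have hr1 : v r ≤ 1 := by
    have := hcon 0 L.zero_mem
    rw [zero_pow hp0, sub_zero] at this
    exact this.trans h.ha
  have hpr : v (p : Ω) < v r := lt_of_le_of_lt h.hpw' hwr
  have hb1 : v b ≤ 1 := by
    by_contra hc
    push Not at hc
    have h1 : 1 < v (b ^ p) := by rw [v.map_pow]; exact one_lt_pow₀ hc hp0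
    have h2 : v r = v (b ^ p) := v.map_sub_eq_of_lt_right (lt_of_le_of_lt h.ha h1)
    rw [h2] at hr1
    exact absurd h1 (not_lt.2 hr1)
  -- `r` is not close to a `p`-th power
  have hrp : ∀ y ∈ L, v r ≤ v (r - y ^ p) := by
    intro y hy
    by_contra hc
    push Not at hc
    have hy1 : v y ≤ 1 := by
      by_contra hc'
      push Not at hc'
      have h1 : 1 < v (y ^ p) := by rw [v.map_pow]; exact one_lt_pow₀ hc' hp0
      have h2 : v (r - y ^ p) = v (y ^ p) := v.map_sub_eq_of_lt_right (lt_of_le_of_lt hr1 h1)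
      rw [h2] at hc
      exact absurd (h1.trans hc) (not_lt.2 hr1)
    have h1 := frob_add v h.hp hb1 hy1
    have h2 : a - (b + y) ^ p = (r - y ^ p) - ((b + y) ^ p - (b ^ p + y ^ p)) := by
      rw [hr]; ring
    have h3 : v (a - (b + y) ^ p) < v r := by
      rw [h2]
      exact v.map_sub_lt hc (lt_of_le_of_lt h1 hpr)
    exact absurd (hcon _ (add_mem hb hy)) (not_le.2 h3)
  obtain ⟨d, hd1, hd2⟩ := h.exists_d hrL hr1 hwr
  -- the root `θ` of `X^p - d X - r`
  obtain ⟨θ, hθ⟩ : ∃ θ : Ω, θ ^ p = r + d * θ := by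
    have hdeg : ((X : Polynomial Ω) ^ p - (C (d : Ω) * X + C r)).degree ≠ 0 := by
      have h1 : (C (d : Ω) * X + C r).degree < ((X : Polynomial Ω) ^ p).degree := by
        rw [degree_X_pow]
        refine lt_of_le_of_lt degree_linear_le ?_
        exact_mod_cast h.hp.one_lt
      rw [degree_sub_eq_left_of_degree_lt h1, degree_X_pow]
      exact_mod_cast hp0
    obtain ⟨θ, hθ⟩ := IsAlgClosed.exists_root _ hdeg
    refine ⟨θ, ?_⟩
    rw [IsRoot.def] at hθ
    simp only [eval_sub, eval_pow, eval_X, eval_add, eval_mul, eval_C] at hθ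
    linear_combination hθ
  have hdθ : v (d * θ) < v r := by
    by_contra hc
    push Not at hc
    have h1 : v θ ^ p ≤ v (d : Ω) * v θ := by
      rw [← v.map_pow, hθ, ← v.map_mul]
      exact v.map_add_le hc le_rfl
    have hθ0 : 0 < v θ := by
      by_contra hc'
      rw [not_lt, le_zero_iff] at hc'
      rw [v.map_mul, hc', mul_zero] at hc
      exact absurd hc (not_le.2 hr0)
    have h2 : v θ ^ (p - 1) ≤ v (d : Ω) := by
      have h3 : v θ ^ p = v θ ^ (p - 1) * v θ := by
        rw [← pow_succ]; congr 1; omega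
      rw [h3] at h1
      exact le_of_mul_le_mul_right h1 hθ0
    have h4 : v r ^ (p - 1) ≤ v (d : Ω) ^ p := by
      calc v r ^ (p - 1) ≤ v (d * θ) ^ (p - 1) := by gcongr
        _ = v (d : Ω) ^ (p - 1) * v θ ^ (p - 1) := by rw [v.map_mul, mul_pow]
        _ ≤ v (d : Ω) ^ (p - 1) * v (d : Ω) := by gcongr
        _ = v (d : Ω) ^ p := by rw [← pow_succ]; congr 1; omega
    exact absurd hd1 (not_lt.2 h4)
  have hvθ : v θ ^ p = v r := by
    rw [← v.map_pow, hθ]
    exact v.map_add_eq_of_lt_left hdθ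
  have hθ1 : v θ ≤ 1 := by
    by_contra hc
    push Not at hc
    have := one_lt_pow₀ hc hp0
    rw [hvθ] at this
    exact absurd this (not_lt.2 hr1)
  have hθL : θ ∉ L := by
    intro hc
    have h1 := hrp θ hc
    have h2 : r - θ ^ p = - (d * θ) := by rw [hθ]; ring
    rw [h2, v.map_neg] at h1
    exact absurd hdθ (not_lt.2 h1)
  have hvi : ∀ y ∈ L, v θ ≤ v (θ - y) := by
    intro y hy
    by_contra hc
    push Not at hc
    have h1 := (pow_sub_pow_lt v (p := p) hc).resolve_right hp0
    rw [hvθ] at h1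
    have h2 : r - y ^ p = (θ ^ p - y ^ p) - d * θ := by rw [hθ]; ring
    have h3 : v (r - y ^ p) < v r := by
      rw [h2]
      exact v.map_sub_lt h1 hdθ
    exact absurd (hrp y hy) (not_le.2 h3)
  -- maximality
  have hlt : L < (L⟮θ⟯).restrictScalars K := by
    constructor
    · intro y hy
      rw [IntermediateField.mem_restrictScalars]
      exact (L⟮θ⟯).algebraMap_mem ⟨y, hy⟩
    · intro hle
      apply hθL
      apply hle
      rw [IntermediateField.mem_restrictScalars]
      exact mem_adjoin_simple_self L θ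
  obtain ⟨B, hB, haB⟩ := h.max _ hlt
  rw [IntermediateField.mem_restrictScalars] at hB
  have hB1 : v B ≤ 1 := by
    by_contra hc
    push Not at hc
    have h1 : 1 < v (B ^ p) := by rw [v.map_pow]; exact one_lt_pow₀ hc hp0
    have h2 : v (a - B ^ p) = v (B ^ p) := v.map_sub_eq_of_lt_right (lt_of_le_of_lt h.ha h1)
    rw [h2] at haB
    exact absurd (h1.trans_le haB) (not_lt.2 h.hw1.le)
  set r' : L := ⟨r, hrL⟩ with hr'
  -- the polynomial `f` of degree `< p` with `f θ = B`
  obtain ⟨f, hfd, hfB⟩ : ∃ f : L[X], f.natDegree < p ∧ aeval θ f = B := by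
    set P : L[X] := X ^ p - (C d * X + C r') with hP
    have hPd : (C d * X + C r').degree < ((p : ℕ) : WithBot ℕ) :=
      lt_of_le_of_lt degree_linear_le (by exact_mod_cast h.hp.one_lt)
    have hPm : P.Monic := monic_X_pow_sub hPd
    have hPn : P.natDegree = p := by
      rw [hP]
      have h2 : (C d * X + C r').natDegree < ((X : L[X]) ^ p).natDegree := by
        rw [natDegree_X_pow]
        exact lt_of_le_of_lt natDegree_linear_le h.hp.one_lt
      rw [natDegree_sub_eq_left_of_natDegree_lt h2, natDegree_X_pow]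
    have hPθ : aeval θ P = 0 := by
      rw [hP]
      simp only [map_sub, map_pow, aeval_X, map_add, map_mul, aeval_C]
      rw [hθ]
      simp only [hr']
      rw [show (algebraMap L Ω) ⟨r, hrL⟩ = r from rfl, show (algebraMap L Ω) d = d from rfl]
      ring
    have := exists_poly P hPm (by omega) hPθ hB
    rwa [hPn] at this
  have hcoef : ∀ i, v ((f.coeff i : Ω) * θ ^ i) ≤ 1 := fun i => by
    have := h.vi hvi f hfd i
    rw [hfB] at this
    exact this.trans hB1
  have hBsum : B = ∑ i ∈ Finset.range p, (f.coeff i : Ω) * θ ^ i := by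
    rw [← hfB, aeval_eq_sum_range' hfd]
    apply Finset.sum_congr rfl
    intro j _
    rw [Algebra.smul_def]
    rfl
  -- the polynomial `F` with `F θ ≡ a` modulo `w`
  set F : L[X] := ∑ i ∈ Finset.range p, C (f.coeff i ^ p) * (C r' + C d * X) ^ i with hF
  have hFd : F.natDegree < p := by
    have : F.natDegree ≤ p - 1 := by
      apply natDegree_sum_le_of_forall_le
      intro i hi
      rw [Finset.mem_range] at hi
      calc (C (f.coeff i ^ p) * (C r' + C d * X) ^ i).natDegree
          ≤ ((C r' + C d * X) ^ i).natDegree := natDegree_C_mul_le _ _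
        _ ≤ i * (C r' + C d * X).natDegree := natDegree_pow_le
        _ ≤ i * 1 := by
            gcongr
            rw [add_comm]
            exact natDegree_linear_le
        _ ≤ p - 1 := by omega
    omega
  have hFθ : aeval θ F = ∑ i ∈ Finset.range p, ((f.coeff i : Ω) * θ ^ i) ^ p := by
    rw [hF, map_sum]
    apply Finset.sum_congr rfl
    intro i _
    have e : aeval θ (C r' + C d * X) = θ ^ p := by
      rw [map_add, aeval_C, map_mul, aeval_C, aeval_X, hθ]; rfl
    have e2 : aeval θ (C (f.coeff i ^ p)) = (f.coeff i : Ω) ^ p := by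
      rw [aeval_C, map_pow]; rfl
    rw [map_mul, e2, map_pow, e, mul_pow, ← pow_mul, ← pow_mul, mul_comm p i]
  have haF : v (a - aeval θ F) ≤ v w := by
    have h1 : v (B ^ p - aeval θ F) ≤ v w := by
      rw [hFθ]
      nth_rewrite 1 [hBsum]
      exact (frob_sum v h.hp _ _ fun i _ => hcoef i).trans h.hpw'
    have h2 : a - aeval θ F = (a - B ^ p) + (B ^ p - aeval θ F) := by ring
    rw [h2]
    exact v.map_add_le haB h1
  set a' : L := ⟨a, h.haL⟩ with ha'
  have hGd : (C a' - F).natDegree < p := by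
    refine lt_of_le_of_lt (natDegree_sub_le _ _) ?_
    rw [natDegree_C]
    exact max_lt hppos hFd
  have hG : ∀ i, v (((C a' - F).coeff i : Ω) * θ ^ i) ≤ v w := by
    intro i
    refine (h.vi hvi _ hGd i).trans ?_
    rw [map_sub, aeval_C]
    exact haF
  -- the constant coefficient
  have hc0 : v (a - ∑ i ∈ Finset.range p, (f.coeff i : Ω) ^ p * r ^ i) ≤ v w := by
    have h1 := hG 0
    have h2 : ((C a' - F).coeff 0 : Ω) = a - ∑ i ∈ Finset.range p, (f.coeff i : Ω) ^ p * r ^ i := by
      have h3 : (C a' - F).coeff 0 = a' - ∑ i ∈ Finset.range p, (f.coeff i) ^ p * r' ^ i := by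
        rw [coeff_zero_eq_eval_zero, eval_sub, eval_C, hF, eval_finsetSum]
        congr 1
        apply Finset.sum_congr rfl
        intro i _
        simp
      rw [h3]
      push_cast
      rfl
    rwa [h2, pow_zero, mul_one] at h1
  -- the coefficient of `θ`
  set S : Ω := ∑ i ∈ Finset.range p, (i : Ω) * (f.coeff i : Ω) ^ p * r ^ (i - 1) with hS
  have hc1 : v S * (v (d : Ω) * v θ) ≤ v w := by
    have h1 := hG 1
    have h2 : ((C a' - F).coeff 1 : Ω) = - (S * d) := by
      have h3 : (C a' - F).coeff 1 =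
          - ∑ i ∈ Finset.range p, (i : L) * (f.coeff i) ^ p * r' ^ (i - 1) * d := by
        rw [coeff_sub, coeff_C_of_ne_zero one_ne_zero, zero_sub]
        congr 1
        have h4 : F.coeff 1 = (derivative F).coeff 0 := by
          rw [coeff_derivative]; simp
        rw [h4, coeff_zero_eq_eval_zero, hF, derivative_sum, eval_finsetSum]
        apply Finset.sum_congr rfl
        intro i _
        simp only [derivative_mul, derivative_C, zero_mul, zero_add, derivative_pow,
          derivative_add, derivative_X, mul_one, eval_mul, eval_C, eval_pow, eval_add, eval_X,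
          mul_zero, add_zero, map_natCast, eval_natCast]
        ring
      rw [h3, hS, Finset.sum_mul]
      push_cast
      rfl
    rw [h2, pow_one, v.map_mul, v.map_neg, v.map_mul, mul_assoc] at h1
    exact h1
  have hS' : ∀ i, 1 ≤ i → i < p → v ((f.coeff i : Ω) ^ p * r ^ (i - 1)) ≤ v S := by
    intro i hi1 hip
    obtain ⟨j, rfl⟩ : ∃ j, i = j + 1 := ⟨i - 1, by omega⟩
    have hdd : (derivative f).natDegree < p :=
      lt_of_le_of_lt ((natDegree_derivative_le f).trans (Nat.sub_le _ _)) hfd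
    have hunit : ∀ j : ℕ, j + 1 < p → v ((j + 1 : ℕ) : Ω) = 1 := by
      intro j hj
      apply map_natCast_eq_one v h.hp1
      apply Nat.Coprime.symm
      rw [Nat.Prime.coprime_iff_not_dvd h.hp]
      intro hdvd
      have := Nat.le_of_dvd (by omega) hdvd
      omega
    have hcd : ∀ j : ℕ, ((derivative f).coeff j : Ω) = (f.coeff (j + 1) : Ω) * ((j + 1 : ℕ) : Ω) := by
      intro j
      rw [coeff_derivative]
      push_cast
      rfl
    have key := h.vi' hrp (derivative f) hdd
      (fun j => ((j + 1 : ℕ) : Ω) * (f.coeff (j + 1) : Ω) ^ p * r ^ j) (by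
        intro j
        rw [hcd]
        rcases lt_or_ge (j + 1) p with hj | hj
        · have h1 : ((j + 1 : ℕ) : Ω) * (f.coeff (j + 1) : Ω) ^ p * r ^ j -
            ((f.coeff (j + 1) : Ω) * ((j + 1 : ℕ) : Ω)) ^ p * r ^ j =
            -((((j + 1 : ℕ) : Ω) ^ p - ((j + 1 : ℕ) : Ω)) * ((f.coeff (j + 1) : Ω) ^ p * r ^ j)) := by
            ring
          have h2 : v (((f.coeff (j + 1) : Ω) * ((j + 1 : ℕ) : Ω)) ^ p * r ^ j) =
              v ((f.coeff (j + 1) : Ω) ^ p * r ^ j) := by
            rw [mul_pow, v.map_mul, v.map_mul, v.map_pow ((j + 1 : ℕ) : Ω), hunit j hj, one_pow,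
              mul_one, v.map_mul]
          rw [h1, v.map_neg, v.map_mul, h2]
          gcongr
          exact frob_nat v h.hp _
        · have h0 : f.coeff (j + 1) = 0 := coeff_eq_zero_of_natDegree_lt (by omega)
          rw [h0]
          simp [hp0]) j
    rw [hcd, mul_pow, v.map_mul, v.map_mul, v.map_pow ((j + 1 : ℕ) : Ω), hunit j hip, one_pow,
      mul_one, ← v.map_mul] at key
    have hsum : ∑ j ∈ Finset.range p, ((j + 1 : ℕ) : Ω) * (f.coeff (j + 1) : Ω) ^ p * r ^ j = S := by
      have h1 := Finset.sum_range_succ' (fun i => (i : Ω) * (f.coeff i : Ω) ^ p * r ^ (i - 1)) p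
      have h2 := Finset.sum_range_succ (fun i => (i : Ω) * (f.coeff i : Ω) ^ p * r ^ (i - 1)) p
      rw [h2] at h1
      have h0 : f.coeff p = 0 := coeff_eq_zero_of_natDegree_lt hfd
      simp only [h0, Nat.cast_zero, zero_mul, add_zero, Nat.add_sub_cancel] at h1
      rw [← h1, hS]
      simp [hp0]
    rw [hsum] at key
    exact key
  -- conclusion
  have hsmall : ∀ i, 1 ≤ i → i < p → v ((f.coeff i : Ω) ^ p * r ^ i) < v r := by
    intro i hi1 hip
    by_contra hc
    push Not at hc
    have h1 : v ((f.coeff i : Ω) ^ p * r ^ i) = v ((f.coeff i : Ω) ^ p * r ^ (i - 1)) * v r := by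
      rw [← v.map_mul, mul_assoc, ← pow_succ]
      congr 3
      omega
    have h2 : 1 ≤ v ((f.coeff i : Ω) ^ p * r ^ (i - 1)) := by
      rw [h1] at hc
      by_contra hc'
      push Not at hc'
      exact absurd (mul_lt_of_lt_one_left hr0 hc') (not_lt.2 hc)
    have h3 : v (d : Ω) * v θ ≤ v w := by
      calc v (d : Ω) * v θ ≤ v S * (v (d : Ω) * v θ) :=
            le_mul_of_one_le_left' (h2.trans (hS' i hi1 hip))
        _ ≤ v w := hc1
    have h4 : v (d : Ω) ^ p * v r ≤ v w ^ p := by
      rw [← hvθ, ← mul_pow]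
      gcongr
    exact absurd hd2 (not_lt.2 h4)
  have hfin : v (a - (f.coeff 0 : Ω) ^ p) < v r := by
    have h1 : a - (f.coeff 0 : Ω) ^ p =
        (a - ∑ i ∈ Finset.range p, (f.coeff i : Ω) ^ p * r ^ i) +
          ∑ i ∈ (Finset.range p).erase 0, (f.coeff i : Ω) ^ p * r ^ i := by
      rw [← Finset.add_sum_erase (Finset.range p) _ (Finset.mem_range.2 hppos)]
      simp only [pow_zero, mul_one]
      ring
    rw [h1]
    apply v.map_add_lt (lt_of_le_of_lt hc0 hwr)
    apply v.map_sum_lt hr0.ne'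
    intro i hi
    rw [Finset.mem_erase, Finset.mem_range] at hi
    exact hsmall i (Nat.one_le_iff_ne_zero.2 hi.1) hi.2
  exact absurd (hcon _ (f.coeff 0).2) (not_le.2 hfin)

end Setup

end Pool.Agent.Helper5.ID
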