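import Mathlib

/-!
The coarsening of a valuation ring `R` of `Ω` attached to an element `t ∈ R`, and invariance
of the valuation under automorphisms.
-/

namespace Pool.Agent.Helper5.ID

section Coarsen

variable {Ω : Type*} [Field Ω]

/-- The coarsening of `R` with maximal ideal the radical of `t R`. -/
def coarsen (R : ValuationSubring Ω) (t : Ω) (ht : t ∈ R) : ValuationSubring Ω where
  carrier := {x | ∀ n : ℕ, t * x ^ n ∈ R}
  mul_mem' := by
    intro x y hx hy n
    rw [← R.valuation_le_one_iff]
    rcases le_total (R.valuation x) (R.valuation y) with h | h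
    · have h1 := (R.valuation_le_one_iff _).2 (hy (2 * n))
      refine le_trans ?_ h1
      rw [map_mul, map_mul, map_pow, map_pow, map_mul, mul_pow, two_mul, pow_add]
      gcongr
    · have h1 := (R.valuation_le_one_iff _).2 (hx (2 * n))
      refine le_trans ?_ h1
      rw [map_mul, map_mul, map_pow, map_pow, map_mul, mul_pow, two_mul, pow_add]
      gcongr
  one_mem' := by
    intro n
    rw [one_pow, mul_one]
    exact ht
  add_mem' := by
    intro x y hx hy n
    rw [← R.valuation_le_one_iff]
    have h0 := R.valuation.map_add x y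
    rcases le_max_iff.1 h0 with h | h
    · refine le_trans ?_ ((R.valuation_le_one_iff _).2 (hx n))
      rw [map_mul, map_mul, map_pow, map_pow]
      gcongr
    · refine le_trans ?_ ((R.valuation_le_one_iff _).2 (hy n))
      rw [map_mul, map_mul, map_pow, map_pow]
      gcongr
  zero_mem' := by
    intro n
    rcases Nat.eq_zero_or_pos n with rfl | hn
    · rw [pow_zero, mul_one]; exact ht
    · rw [zero_pow hn.ne', mul_zero]; exact R.zero_mem
  neg_mem' := by
    intro x hx n
    rw [← R.valuation_le_one_iff, map_mul, map_pow, Valuation.map_neg, ← map_pow, ← map_mul,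
      R.valuation_le_one_iff]
    exact hx n
  mem_or_inv_mem' := by
    intro x
    rcases R.mem_or_inv_mem x with h | h
    · left
      intro n
      exact R.mul_mem _ _ ht (pow_mem h n)
    · right
      intro n
      exact R.mul_mem _ _ ht (pow_mem h n)

variable {R : ValuationSubring Ω} {t : Ω} (ht : t ∈ R)

lemma mem_coarsen {x : Ω} : x ∈ coarsen R t ht ↔ ∀ n : ℕ, t * x ^ n ∈ R := Iff.rfl

lemma le_coarsen : R ≤ coarsen R t ht := by
  intro x hx n
  exact R.mul_mem _ _ ht (pow_mem hx n)

lemma coarsen_arch {x : Ω} (hx : (coarsen R t ht).valuation x < 1) :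
    ∃ k : ℕ, (coarsen R t ht).valuation x ^ k ≤ (coarsen R t ht).valuation t := by
  rcases eq_or_ne x 0 with rfl | hx0
  · refine ⟨1, ?_⟩
    rw [map_zero, pow_one]
    exact zero_le
  have h1 : x⁻¹ ∉ coarsen R t ht := by
    intro hc
    rw [← ValuationSubring.valuation_le_one_iff, map_inv₀] at hc
    have h2 : 0 < (coarsen R t ht).valuation x := ((coarsen R t ht).valuation.pos_iff).2 hx0
    exact absurd hx (not_lt.2 ((inv_le_one₀ h2).1 hc))
  rw [mem_coarsen] at h1
  push Not at h1
  obtain ⟨n, hn⟩ := h1
  refine ⟨n, ?_⟩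
  rw [← R.valuation_le_one_iff, not_le, inv_pow, ← div_eq_mul_inv, map_div₀,
    one_lt_div₀ ((R.valuation.pos_iff).2 (pow_ne_zero n hx0))] at hn
  rw [← map_pow, ← ValuationSubring.mapOfLE_valuation_apply R _ (le_coarsen ht),
    ← ValuationSubring.mapOfLE_valuation_apply R _ (le_coarsen ht) t]
  exact ValuationSubring.monotone_mapOfLE _ _ (le_coarsen ht) hn.le

lemma coarsen_lt_one (ht0 : t ≠ 0) (ht1 : R.valuation t < 1) :
    (coarsen R t ht).valuation t < 1 := by
  by_contra hc
  push Not at hc
  have h1 : t⁻¹ ∈ coarsen R t ht := by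
    rw [← ValuationSubring.valuation_le_one_iff, map_inv₀]
    exact inv_le_one_of_one_le₀ hc
  have h2 := h1 2
  have h3 : t * t⁻¹ ^ 2 = t⁻¹ := by field_simp
  rw [h3, ← R.valuation_le_one_iff, map_inv₀,
    inv_le_one₀ ((R.valuation.pos_iff).2 ht0)] at h2
  exact absurd ht1 (not_lt.2 h2)

end Coarsen

section Invariance

variable {K Ω : Type*} [Field K] [Field Ω] [Algebra K Ω] [Algebra.IsAlgebraic K Ω]

/-- A valuation whose ring is stable under `Aut(Ω|K)` is invariant under `Aut(Ω|K)`. -/
lemma invariant_of_stable {S : ValuationSubring Ω}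
    (hS : ∀ (σ : Ω ≃ₐ[K] Ω) (x : Ω), x ∈ S → σ x ∈ S) (σ : Ω ≃ₐ[K] Ω) (x : Ω) :
    S.valuation (σ x) = S.valuation x := by
  have hmono : ∀ (σ : Ω ≃ₐ[K] Ω) (x y : Ω), S.valuation x ≤ S.valuation y →
      S.valuation (σ x) ≤ S.valuation (σ y) := by
    intro σ x y h
    rcases eq_or_ne y 0 with rfl | hy
    · rw [map_zero, le_zero_iff, map_eq_zero] at h
      rw [h]
    · have h1 : x / y ∈ S := by
        rw [← S.valuation_le_one_iff, map_div₀]
        exact div_le_one_of_le₀ h zero_le
      have h2 := hS σ _ h1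
      rw [← S.valuation_le_one_iff, map_div₀, map_div₀] at h2
      have h3 : 0 < S.valuation (σ y) := by
        rw [S.valuation.pos_iff]
        exact (map_ne_zero σ).2 hy
      exact (div_le_one₀ h3).1 h2
  have hstrict : ∀ (σ : Ω ≃ₐ[K] Ω) (x y : Ω), S.valuation x < S.valuation y →
      S.valuation (σ x) < S.valuation (σ y) := by
    intro σ x y h
    by_contra hc
    push Not at hc
    have := hmono σ.symm _ _ hc
    rw [σ.symm_apply_apply, σ.symm_apply_apply] at this
    exact absurd h (not_lt.2 this)
  have key : ∀ (σ : Ω ≃ₐ[K] Ω) (x : Ω), ¬ S.valuation (σ x) < S.valuation x := by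
    intro σ x hlt
    have hanti : StrictAnti fun n : ℕ => S.valuation ((σ ^ n) x) := by
      apply strictAnti_nat_of_succ_lt
      intro n
      rw [pow_succ, AlgEquiv.mul_apply]
      exact hstrict (σ ^ n) _ _ hlt
    have hinj : Function.Injective fun n : ℕ => (σ ^ n) x := by
      intro n m h
      apply hanti.injective
      simp only at h ⊢
      rw [h]
    have hfin : ((minpoly K x).rootSet Ω).Finite := Polynomial.rootSet_finite _ _
    have hinf := Set.infinite_of_injective_forall_mem hinj (s := (minpoly K x).rootSet Ω) (by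
      intro n
      rw [Polynomial.mem_rootSet]
      refine ⟨minpoly.ne_zero (Algebra.IsIntegral.isIntegral x), ?_⟩
      have h1 := Polynomial.aeval_algHom_apply ((σ ^ n : Ω ≃ₐ[K] Ω) : Ω →ₐ[K] Ω) x (minpoly K x)
      rw [minpoly.aeval, map_zero] at h1
      exact h1)
    exact hinf hfin
  apply le_antisymm
  · have h1 := key σ.symm (σ x)
    rw [σ.symm_apply_apply] at h1
    exact not_lt.1 h1
  · exact not_lt.1 (key σ x)

end Invariance

end Pool.Agent.Helper5.ID
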