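import Mathlib

/-!
# Defect, independent defect and roughly deeply ramified fields: definitions

A valued field `(K, v)` is given by its valuation ring `A : ValuationSubring K`; it is
nontrivially valued if `A ≠ ⊤`.  Mathlib's valuation `A.valuation` is written
multiplicatively and takes values in `A.ValueGroup`, with `A.valuation x ≤ 1 ↔ x ∈ A`.
So if the value group `vK` is written additively, as in the literature, then
`v x < v y` means `A.valuation y < A.valuation x`, and the positive elements of `vK` are the
elements `< 1` of `A.ValueGroup`, different from zero.
-/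

namespace Pool.Agent.Helper5.VF

open IsLocalRing

universe u

/-- The valuation ring `B` of `L` extends the valuation ring `A` of `K`, that is,
`B ∩ K = A`. -/
def Extends {K L : Type*} [Field K] [Field L] [Algebra K L]
    (A : ValuationSubring K) (B : ValuationSubring L) : Prop :=
  B.comap (algebraMap K L) = A

/-- `(K, v)` is henselian: `v` extends uniquely to every algebraic extension of `K`. -/
def IsHenselian {K : Type u} [Field K] (A : ValuationSubring K) : Prop :=
  ∀ (F : Type u) [Field F] [Algebra K F] [Algebra.IsAlgebraic K F],
    ∃! B : ValuationSubring F, Extends A B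

/-- The value group `vK`, written multiplicatively. -/
abbrev VG {K : Type*} [Field K] (A : ValuationSubring K) : Type _ := (A.ValueGroup)ˣ

/-- The value in `vK` of a nonzero element of `K`. -/
noncomputable def val {K : Type*} [Field K] (A : ValuationSubring K) : Kˣ →* VG A :=
  Units.map (A.valuation : K →* A.ValueGroup)

section Ext

variable (K : Type*) {L : Type*} [Field K] [Field L] [Algebra K L]

/-- The ramification index `(vL : vK)`: the index in `vL` of the group of the values of the
nonzero elements of `K`. -/
noncomputable def ramificationIndex (B : ValuationSubring L) : ℕ :=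
  ((val B).comp (Units.map (algebraMap K L : K →* L))).range.index

/-- The residue field `Kv` as a subfield of the residue field `Lv`: it consists of the
residues of the elements of `K` that lie in the valuation ring `B` of `L`. -/
noncomputable def residueSubfield (B : ValuationSubring L) : Subfield (ResidueField B) :=
  Subfield.closure {z | ∃ (x : K) (hx : algebraMap K L x ∈ B),
    z = residue B ⟨algebraMap K L x, hx⟩}

/-- The inertia degree `[Lv : Kv]`. -/
noncomputable def inertiaDegree (B : ValuationSubring L) : ℕ :=
  Module.finrank (residueSubfield K B) (ResidueField B)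

/-- The defect `d(L|K, v) = [L : K] / ((vL : vK) [Lv : Kv])` of a finite extension `L|K` such
that the valuation of `K` extends uniquely to `L`. -/
noncomputable def defect (B : ValuationSubring L) : ℕ :=
  Module.finrank K L / (ramificationIndex K B * inertiaDegree K B)

end Ext

section Independent

variable {K L : Type*} [Field K] [Field L] [Algebra K L]

/-- The set `Σ = {v ((σ f - f) / f) : f ∈ Lˣ}`, as a subset of `vK`. -/
def sigmaSet (A : ValuationSubring K) (B : ValuationSubring L) (σ : L ≃ₐ[K] L) :
    Set (VG A) :=
  {α | ∃ c : Kˣ, val A c = α ∧
    ∃ f : L, f ≠ 0 ∧ B.valuation ((σ f - f) / f) = B.valuation (algebraMap K L c)}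

/-- `{α ∈ vK : α > H}`. -/
def above {A : ValuationSubring K} (H : Subgroup (VG A)) : Set (VG A) :=
  {α | ∀ h ∈ H, α < h}

/-- Independent defect: `Σ = {α ∈ vK : α > H}` for a proper convex subgroup `H` of `vK`
such that `vK/H` has no smallest positive element (for every `α > H` there is `β > H` with
`α - β > H`). -/
def HasIndependentDefect (A : ValuationSubring K) (B : ValuationSubring L) : Prop :=
  ∃ H : Subgroup (VG A), (H : Set (VG A)).OrdConnected ∧ H ≠ ⊤ ∧
    (∀ α ∈ above H, ∃ β ∈ above H, α / β ∈ above H) ∧
    ∀ σ : L ≃ₐ[K] L, σ ≠ 1 → sigmaSet A B σ = above H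

end Independent

/-- `(K, v)` is an independent defect field: if `p = char Kv > 0` and `K'` is `K(ζ_p)` in
the case of `char K = 0` and `K' = K` otherwise, then for every extension of `v` to `K'`,
every Galois extension `M` of degree `p` of `(K', v)` with nontrivial defect (so `v` extends
uniquely to `M`) has independent defect. -/
def IsIndependentDefectField {K : Type u} [Field K] (A : ValuationSubring K) : Prop :=
  ∀ p : ℕ, p.Prime → CharP (ResidueField A) p →
  ∀ (K' : Type u) [Field K'] [Algebra K K'],
    (CharZero K → IsCyclotomicExtension {p} K K') →
    (¬ CharZero K → Function.Surjective (algebraMap K K')) →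
  ∀ A' : ValuationSubring K', Extends A A' →
  ∀ (M : Type u) [Field M] [Algebra K' M] [IsGalois K' M], Module.finrank K' M = p →
  ∀ B : ValuationSubring M, Extends A' B →
    (∀ B' : ValuationSubring M, Extends A' B' → B' = B) →
    1 < defect K' B → HasIndependentDefect A' B

/-- `R / pR` is semiperfect: the map `x ↦ x^p` is surjective on it. -/
def SemiperfectMod (p : ℕ) (R : Type*) [CommRing R] : Prop :=
  Function.Surjective fun x : R ⧸ Ideal.span {(p : R)} => x ^ p

/-- `v x` is the least positive element of `vK`. -/
def IsLeastPositive {K : Type*} [Field K] (A : ValuationSubring K) (x : K) : Prop :=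
  x ≠ 0 ∧ A.valuation x < 1 ∧ ∀ y : K, A.valuation y < 1 → A.valuation y ≤ A.valuation x

/-- `(K, v)` is roughly deeply ramified: if `p = char Kv > 0`, then (DRvr) `O_K / p O_K` is
semiperfect if `char K = 0`, and `O_K^ / p O_K^` is semiperfect if `char K = p`, where
`O_K^` is the valuation ring of the completion of `(K, v)`; (DRvp) `v p` is not the least
positive element of `vK`. -/
def IsRoughlyDeeplyRamified {K : Type u} [Field K] (A : ValuationSubring K) : Prop :=
  ∀ p : ℕ, p.Prime → CharP (ResidueField A) p →
    (CharZero K → SemiperfectMod p A) ∧
    (CharP K p → SemiperfectMod p (Valued.integer A.valuation.Completion)) ∧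
    ¬ IsLeastPositive A (p : K)

end Pool.Agent.Helper5.VF
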