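import Mathlib
import Pool.Agent.Helper5.IDDefs
import Pool.Agent.Helper5.IDBasic

/-!
In characteristic `p`: if `O_K / t O_K` is semiperfect for all `t`, then the valuation ring
of the completion is perfect.
-/

namespace Pool.Agent.Helper5.ID

open Pool.Agent.Helper5.VF IsLocalRing Topology Uniformity

section Complete

variable {H : Type*} [Field H] {Γ : Type*} [LinearOrderedCommGroupWithZero Γ] [hV : Valued H Γ]

/-- The Frobenius is a uniform embedding. -/
lemma frob_isUniformInducing {p : ℕ} (hp : p.Prime) [CharP H p] :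
    IsUniformInducing (fun x : H => x ^ p) := by
  have := Fact.mk hp
  rw [(Valued.hasBasis_uniformity H Γ).isUniformInducing_iff (Valued.hasBasis_uniformity H Γ)]
  constructor
  · intro γ _
    refine ⟨min γ 1, trivial, ?_⟩
    intro x y hxy
    simp only [Set.mem_ofPred_eq] at hxy ⊢
    rw [← sub_pow_char, map_pow]
    have h1 : hV.v.restrict (y - x) < γ := lt_of_lt_of_le hxy (by
      exact_mod_cast min_le_left γ 1)
    have h2 : hV.v.restrict (y - x) < 1 := lt_of_lt_of_le hxy (by
      exact_mod_cast min_le_right γ 1)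
    exact lt_of_le_of_lt (pow_le_of_le_one zero_le h2.le hp.ne_zero) h1
  · intro δ _
    refine ⟨δ ^ p, trivial, ?_⟩
    intro x y hxy
    simp only [Set.mem_ofPred_eq] at hxy ⊢
    rw [← sub_pow_char, map_pow, Units.val_pow_eq_pow_val] at hxy
    exact lt_of_pow_lt_pow_left₀ p zero_le hxy

lemma isClosed_range_frob [CompleteSpace H] {p : ℕ} (hp : p.Prime) [CharP H p] :
    IsClosed (Set.range (fun x : H => x ^ p)) :=
  (frob_isUniformInducing hp).isComplete_range.isClosed

end Complete

section Completion

variable {K : Type*} [Field K]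

/-- Approximation of arbitrary elements of `K` by `p`-th powers. -/
lemma approx_all {A : ValuationSubring K} {p : ℕ} (hp : p.Prime)
    (hA : ∀ t : K, t ≠ 0 → A.valuation t < 1 →
      ∀ a : K, A.valuation a ≤ 1 → ∃ b : K, A.valuation (a - b ^ p) ≤ A.valuation t)
    (hnt : A ≠ ⊤) (k : K) {γ : A.ValueGroup} (hγ : γ ≠ 0) :
    ∃ b : K, A.valuation (k - b ^ p) < γ := by
  -- an element of small value
  obtain ⟨t₀, ht₀, ht₀1⟩ : ∃ t : K, t ≠ 0 ∧ A.valuation t < 1 := by
    by_contra hcon
    push Not at hcon
    apply hnt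
    rw [eq_top_iff]
    intro x _
    rcases eq_or_ne x 0 with rfl | hx
    · exact A.zero_mem
    · have h1 := hcon x⁻¹ (inv_ne_zero hx)
      rw [map_inv₀, one_le_inv₀ ((A.valuation.pos_iff).2 hx)] at h1
      exact (A.valuation_le_one_iff x).1 h1
  obtain ⟨g, hg⟩ := A.valuation_surjective γ
  have hg0 : g ≠ 0 := by
    rintro rfl
    rw [map_zero] at hg
    exact hγ hg.symm
  obtain ⟨d, hd0, hkd⟩ : ∃ d : K, d ≠ 0 ∧ A.valuation (k * d ^ p) ≤ 1 := by
    by_cases hk : A.valuation k ≤ 1
    · exact ⟨1, one_ne_zero, by rwa [one_pow, mul_one]⟩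
    · push Not at hk
      have hk0 : k ≠ 0 := by
        rintro rfl
        rw [map_zero] at hk
        exact not_lt_zero hk
      refine ⟨k⁻¹, inv_ne_zero hk0, ?_⟩
      obtain ⟨q, rfl⟩ : ∃ q, p = q + 1 := ⟨p - 1, by have := hp.pos; omega⟩
      have : k * k⁻¹ ^ (q + 1) = k⁻¹ ^ q := by
        rw [pow_succ, mul_comm (k⁻¹ ^ q), ← mul_assoc, mul_inv_cancel₀ hk0, one_mul]
      rw [this, map_pow, map_inv₀]
      exact pow_le_one' (inv_le_one_of_one_le₀ hk.le) _
  have hvd : 0 < A.valuation d := (A.valuation.pos_iff).2 hd0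
  -- the precision
  obtain ⟨t, ht, ht1, htg⟩ : ∃ t : K, t ≠ 0 ∧ A.valuation t < 1 ∧
      A.valuation t < γ * A.valuation d ^ p := by
    rcases le_or_gt (A.valuation (g * d ^ p)) 1 with h | h
    · refine ⟨g * d ^ p * t₀, mul_ne_zero (mul_ne_zero hg0 (pow_ne_zero _ hd0)) ht₀, ?_, ?_⟩
      · rw [map_mul, mul_comm]
        exact mul_lt_one_of_lt_of_le ht₀1 h
      · rw [map_mul, map_mul, map_pow, hg]
        exact mul_lt_of_lt_one_right (mul_pos (zero_lt_iff.2 hγ) (pow_pos hvd _)) ht₀1
    · refine ⟨t₀, ht₀, ht₀1, ?_⟩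
      rw [map_mul, map_pow, hg] at h
      exact ht₀1.trans h
  obtain ⟨b, hb⟩ := hA t ht ht1 _ hkd
  refine ⟨b / d, ?_⟩
  have h1 : k - (b / d) ^ p = (k * d ^ p - b ^ p) / d ^ p := by
    rw [div_pow, sub_div, mul_div_cancel_right₀ _ (pow_ne_zero _ hd0)]
  rw [h1, map_div₀, map_pow, div_lt_iff₀ (pow_pos hvd _)]
  exact lt_of_le_of_lt hb htg

/-- The valuation ring of the completion is perfect. -/
theorem completion_semiperfect {A : ValuationSubring K} {p : ℕ} (hp : p.Prime) [CharP K p]
    (hA : ∀ t : K, t ≠ 0 → A.valuation t < 1 →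
      ∀ a : K, A.valuation a ≤ 1 → ∃ b : K, A.valuation (a - b ^ p) ≤ A.valuation t)
    (hnt : A ≠ ⊤) :
    SemiperfectMod p (Valued.integer A.valuation.Completion) := by
  have hchar : CharP (WithVal A.valuation) p :=
    charP_of_injective_ringHom (f := (WithVal.equiv A.valuation).symm.toRingHom)
      (WithVal.equiv A.valuation).symm.injective p
  have hchar' : CharP A.valuation.Completion p := by
    have h1 : Function.Injective (algebraMap (WithVal A.valuation) A.valuation.Completion) :=
      (algebraMap (WithVal A.valuation) A.valuation.Completion).injective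
    exact charP_of_injective_algebraMap h1 p
  have hclosed := isClosed_range_frob (H := A.valuation.Completion) hp
  have hall : ∀ x : A.valuation.Completion, ∃ y, y ^ p = x := by
    intro x
    have : x ∈ Set.range (fun x : A.valuation.Completion => x ^ p) := by
      rw [← hclosed.closure_eq]
      rw [mem_closure_iff_nhds]
      intro s hs
      rw [Valued.mem_nhds] at hs
      obtain ⟨γ, hγ⟩ := hs
      have hnhd : {y : A.valuation.Completion | Valued.v.restrict (y - x) < γ.1} ∈ 𝓝 x :=
        Valued.mem_nhds.2 ⟨γ, subset_rfl⟩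
      obtain ⟨k, hk⟩ := (UniformSpace.Completion.denseRange_coe
        (α := WithVal A.valuation)).mem_nhds hnhd
      rw [Set.mem_ofPred_eq, Valuation.restrict_lt_iff_lt_embedding] at hk
      set γ' : A.ValueGroup := MonoidWithZeroHom.ValueGroup₀.embedding γ.1 with hγ'
      have hγ'0 : γ' ≠ 0 := by
        intro hc
        rw [hc] at hk
        exact not_lt_zero hk
      obtain ⟨b, hb⟩ := approx_all hp hA hnt k.ofVal hγ'0
      refine ⟨((WithVal.toVal A.valuation b : WithVal A.valuation) :
        A.valuation.Completion) ^ p, hγ ?_, ⟨_, rfl⟩⟩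
      rw [Set.mem_ofPred_eq, Valuation.restrict_lt_iff_lt_embedding]
      have h1 : ((WithVal.toVal A.valuation b : WithVal A.valuation) :
          A.valuation.Completion) ^ p - x =
          (((k : WithVal A.valuation) : A.valuation.Completion) - x) -
          (((k - (WithVal.toVal A.valuation b) ^ p : WithVal A.valuation)) :
            A.valuation.Completion) := by
        have hpow : (((WithVal.toVal A.valuation b) ^ p : WithVal A.valuation) :
            A.valuation.Completion) = ((WithVal.toVal A.valuation b : WithVal A.valuation) :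
            A.valuation.Completion) ^ p :=
          map_pow UniformSpace.Completion.coeRingHom _ _
        rw [UniformSpace.Completion.coe_sub, hpow]
        ring
      rw [h1]
      apply Valuation.map_sub_lt _ hk
      rw [Valued.valuedCompletion_apply]
      exact hb
    exact this
  intro z
  obtain ⟨x, rfl⟩ := Ideal.Quotient.mk_surjective z
  obtain ⟨y, hy⟩ := hall x
  have hy1 : Valued.v y ≤ (1 : A.ValueGroup) := by
    by_contra hc
    push Not at hc
    have h1 := one_lt_pow₀ hc hp.ne_zero
    rw [← map_pow, hy] at h1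
    exact absurd h1 (not_lt.2 x.2)
  refine ⟨Ideal.Quotient.mk _ ⟨y, hy1⟩, ?_⟩
  simp only
  rw [← map_pow]
  congr 1
  exact Subtype.ext hy

end Completion

end Pool.Agent.Helper5.ID
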