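import Mathlib
import Pool.Agent.Helper5.IDBasic

/-!
Trace estimates in a Galois extension `M | F` of prime degree `p` generated by an element
`θ` with `θ^p ≡ a` modulo `E`, where `a` is not a `p`-th power modulo `w` in `F`.
-/

namespace Pool.Agent.Helper5.ID

open Polynomial

variable {F M : Type*} [Field F] [Field M] [Algebra F M] [FiniteDimensional F M] [IsGalois F M]
  {Γ : Type*} [LinearOrderedCommGroupWithZero Γ]

/-- The hypotheses for the trace estimate. -/
structure TraceSetup (u : Valuation M Γ) (p : ℕ) (a w : F) (θ E : M) : Prop where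
  hp : p.Prime
  inv : ∀ (σ : M ≃ₐ[F] M) (x : M), u (σ x) = u x
  ha : u (algebraMap F M a) ≤ 1
  hE0 : E ≠ 0
  hE1 : u E < 1
  hpE : u (p : M) ≤ u E
  hEw : u E ≤ u (algebraMap F M w) ^ 2
  hθ : u (θ ^ p - algebraMap F M a) ≤ u E
  P : ∀ b : F, u (algebraMap F M w) < u (algebraMap F M (a - b ^ p))
  imm : ∀ x : M, x ≠ 0 → ∃ y : F, u (x - algebraMap F M y) < u x

namespace TraceSetup

variable {u : Valuation M Γ} {p : ℕ} {a w : F} {θ E : M}

lemma trace_le_one (h : TraceSetup u p a w θ E) {x : M} (hx : u x ≤ 1) :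
    u (algebraMap F M (Algebra.trace F M x)) ^ (2 * p) ≤ u E := by
  have hp0 := h.hp.ne_zero
  have hθ1 : u θ ≤ 1 := by
    by_contra hc
    push Not at hc
    have h1 : 1 < u (θ ^ p) := by rw [u.map_pow]; exact one_lt_pow₀ hc hp0
    have h2 : u (θ ^ p - algebraMap F M a) = u (θ ^ p) :=
      u.map_sub_eq_of_lt_left (lt_of_le_of_lt h.ha h1)
    have h3 := h.hθ
    rw [h2] at h3
    exact absurd (h1.trans_le h3) (not_lt.2 h.hE1.le)
  set T := Algebra.trace F M x with hT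
  set T' := Algebra.trace F M (x * θ) with hT'
  have hTs : algebraMap F M T = ∑ σ : M ≃ₐ[F] M, σ x := trace_eq_sum_automorphisms x
  have hTs' : algebraMap F M T' = ∑ σ : M ≃ₐ[F] M, σ x * σ θ := by
    rw [hT', trace_eq_sum_automorphisms]
    simp
  have e1 : u ((∑ σ : M ≃ₐ[F] M, σ x * σ θ) ^ p - ∑ σ : M ≃ₐ[F] M, (σ x * σ θ) ^ p) ≤ u E := by
    refine (frob_sum u h.hp _ _ fun σ _ => ?_).trans h.hpE
    rw [u.map_mul, h.inv, h.inv]
    exact mul_le_one' hx hθ1
  have e2 : u ((∑ σ : M ≃ₐ[F] M, σ x) ^ p - ∑ σ : M ≃ₐ[F] M, (σ x) ^ p) ≤ u E := by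
    refine (frob_sum u h.hp _ _ fun σ _ => ?_).trans h.hpE
    rw [h.inv]
    exact hx
  have e3 : u (∑ σ : M ≃ₐ[F] M, (σ x * σ θ) ^ p -
      algebraMap F M a * ∑ σ : M ≃ₐ[F] M, (σ x) ^ p) ≤ u E := by
    have : ∑ σ : M ≃ₐ[F] M, (σ x * σ θ) ^ p - algebraMap F M a * ∑ σ : M ≃ₐ[F] M, (σ x) ^ p =
        ∑ σ : M ≃ₐ[F] M, (σ x) ^ p * σ (θ ^ p - algebraMap F M a) := by
      rw [Finset.mul_sum, ← Finset.sum_sub_distrib]
      apply Finset.sum_congr rfl
      intro σ _
      rw [map_sub, map_pow, σ.commutes]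
      ring
    rw [this]
    apply u.map_sum_le
    intro σ _
    rw [u.map_mul, h.inv, u.map_pow, h.inv]
    exact (mul_le_of_le_one_left' (pow_le_one' hx _)).trans h.hθ
  have e4 : u (algebraMap F M a * (algebraMap F M T) ^ p - (algebraMap F M T') ^ p) ≤ u E := by
    rw [hTs, hTs']
    have : algebraMap F M a * (∑ σ : M ≃ₐ[F] M, σ x) ^ p - (∑ σ : M ≃ₐ[F] M, σ x * σ θ) ^ p =
      (algebraMap F M a * ((∑ σ : M ≃ₐ[F] M, σ x) ^ p - ∑ σ : M ≃ₐ[F] M, (σ x) ^ p)) -
      (((∑ σ : M ≃ₐ[F] M, σ x * σ θ) ^ p - ∑ σ : M ≃ₐ[F] M, (σ x * σ θ) ^ p) +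
        (∑ σ : M ≃ₐ[F] M, (σ x * σ θ) ^ p -
          algebraMap F M a * ∑ σ : M ≃ₐ[F] M, (σ x) ^ p)) := by ring
    rw [this]
    refine u.map_sub_le ?_ (u.map_add_le e1 e3)
    rw [u.map_mul]
    exact (mul_le_of_le_one_left' h.ha).trans e2
  have hE0 : 0 < u E := (u.pos_iff).2 h.hE0
  rcases eq_or_ne T 0 with hT0 | hT0
  · rw [hT0, map_zero, u.map_zero, zero_pow (by have := h.hp.pos; omega)]
    exact zero_le
  · have hT0' : algebraMap F M T ≠ 0 := by
      rwa [Ne, map_eq_zero]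
    have hTpos : 0 < u (algebraMap F M T) := (u.pos_iff).2 hT0'
    have h1 := h.P (T' / T)
    have h2 : algebraMap F M (a - (T' / T) ^ p) =
        (algebraMap F M a * (algebraMap F M T) ^ p - (algebraMap F M T') ^ p) /
          (algebraMap F M T) ^ p := by
      rw [map_sub, map_pow, map_div₀, div_pow, sub_div, mul_div_cancel_right₀ _
        (pow_ne_zero _ hT0')]
    rw [h2, u.map_div, u.map_pow] at h1
    have h3 : u (algebraMap F M w) < u E / u (algebraMap F M T) ^ p := by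
      refine h1.trans_le ?_
      gcongr
      exact zero_le
    rw [lt_div_iff₀ (pow_pos hTpos _)] at h3
    have h4 : (u (algebraMap F M w) * u (algebraMap F M T) ^ p) ^ 2 < u E ^ 2 :=
      pow_lt_pow_left₀ h3 zero_le two_ne_zero
    rw [mul_pow, ← pow_mul, mul_comm p 2] at h4
    have h5 : u E * u (algebraMap F M T) ^ (2 * p) < u E * u E := by
      rw [← pow_two (u E)]
      refine lt_of_le_of_lt ?_ h4
      gcongr
      exact h.hEw
    exact (lt_of_mul_lt_mul_left h5 zero_le).le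

/-- Trace estimate. -/
lemma trace_le (h : TraceSetup u p a w θ E) (x : M) :
    u (algebraMap F M (Algebra.trace F M x)) ^ (2 * p) ≤ u E * u x ^ (2 * p) := by
  rcases eq_or_ne x 0 with rfl | hx
  · rw [map_zero, map_zero, u.map_zero]
    exact (mul_zero (u E)).symm ▸ by simp [h.hp.ne_zero]
  · obtain ⟨y, hy⟩ := h.imm x hx
    have hxy : u (algebraMap F M y) = u x := by
      rw [u.map_sub_swap] at hy
      exact u.map_eq_of_sub_lt hy
    have hy0 : algebraMap F M y ≠ 0 := by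
      intro hc
      rw [hc, u.map_zero] at hxy
      exact hx ((u.zero_iff).1 hxy.symm)
    have h1 : u (x / algebraMap F M y) ≤ 1 := by
      rw [u.map_div, hxy, div_self ((u.ne_zero_iff).2 hx)]
    have h2 := h.trace_le_one h1
    have h3 : Algebra.trace F M x = y * Algebra.trace F M (x / algebraMap F M y) := by
      rw [← smul_eq_mul, ← map_smul, Algebra.smul_def, mul_div_cancel₀ _ hy0]
    rw [h3, map_mul, u.map_mul, mul_pow, hxy, mul_comm]
    gcongr

/-- Euler's identity: `Tr (f^(p-1) / ∏ (f - ρ f)) = 1`. -/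
lemma euler [DecidableEq (M ≃ₐ[F] M)] (h : TraceSetup u p a w θ E) (hrank : Module.finrank F M = p)
    {f : M} (hf : ∀ σ : M ≃ₐ[F] M, σ ≠ 1 → σ f ≠ f) :
    algebraMap F M (Algebra.trace F M (f ^ (p - 1) /
      ∏ ρ ∈ (Finset.univ : Finset (M ≃ₐ[F] M)).erase 1, (f - ρ f))) = 1 := by
  have hcard : (Finset.univ : Finset (M ≃ₐ[F] M)).card = p := by
    rw [Finset.card_univ, ← Nat.card_eq_fintype_card, IsGalois.card_aut_eq_finrank, hrank]
  have hinj : Set.InjOn (fun τ : M ≃ₐ[F] M => τ f) (Finset.univ : Finset (M ≃ₐ[F] M)) := by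
    intro τ _ τ' _ he
    by_contra hne
    apply hf (τ⁻¹ * τ')
    · intro hc
      apply hne
      rw [inv_mul_eq_one] at hc
      exact hc
    · simp only at he
      rw [AlgEquiv.mul_apply, ← he, ← AlgEquiv.mul_apply, inv_mul_cancel, AlgEquiv.one_apply]
  have key := Lagrange.coeff_eq_sum hinj (P := (X : Polynomial M) ^ (p - 1)) (by
    rw [degree_X_pow, hcard]
    have := h.hp.pos
    exact_mod_cast (by omega : p - 1 < p))
  rw [hcard, coeff_X_pow, if_pos rfl] at key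
  rw [trace_eq_sum_automorphisms, key]
  apply Finset.sum_congr rfl
  intro τ _
  rw [map_div₀, map_pow, eval_pow, eval_X, map_prod]
  congr 1
  refine Finset.prod_bij (fun ρ _ => τ * ρ) ?_ ?_ ?_ ?_
  · intro ρ hρ
    rw [Finset.mem_erase] at hρ ⊢
    exact ⟨fun hc => hρ.1 (mul_eq_left.1 hc), Finset.mem_univ _⟩
  · intro ρ _ ρ' _ he
    exact mul_left_cancel he
  · intro ρ hρ
    rw [Finset.mem_erase] at hρ
    refine ⟨τ⁻¹ * ρ, ?_, by group⟩
    rw [Finset.mem_erase]
    refine ⟨fun hc => hρ.1 ?_, Finset.mem_univ _⟩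
    rw [inv_mul_eq_one] at hc
    exact hc.symm
  · intro ρ _
    rw [map_sub, AlgEquiv.mul_apply]

omit [IsGalois F M] in
/-- All nontrivial automorphisms move `f` by at least as much as `σ`. -/
lemma sub_le_sub {u : Valuation M Γ} (inv : ∀ (σ : M ≃ₐ[F] M) (x : M), u (σ x) = u x)
    {p : ℕ} (hp : p.Prime) (hcard : Nat.card (M ≃ₐ[F] M) = p) (f : M) (σ ρ : M ≃ₐ[F] M)
    (hρ : ρ ≠ 1) : u (σ f - f) ≤ u (ρ f - f) := by
  have := Fact.mk hp
  have hmem : σ ∈ Subgroup.zpowers ρ := by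
    exact mem_zpowers_of_prime_card hcard hρ
  obtain ⟨m, rfl⟩ : ∃ m : ℕ, ρ ^ m = σ := by
    have h1 := (mem_powers_iff_mem_zpowers (x := ρ) (y := σ)).2 hmem
    exact h1
  clear hmem
  induction m with
  | zero => simp
  | succ m ih =>
    have : (ρ ^ (m + 1)) f - f = (ρ ^ m) (ρ f - f) + ((ρ ^ m) f - f) := by
      rw [pow_succ, AlgEquiv.mul_apply, map_sub]
      ring
    rw [this]
    exact u.map_add_le (by rw [inv]) ih

/-- The main estimate: `σ f - f` is small. -/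
lemma sub_pow_le (h : TraceSetup u p a w θ E) (hrank : Module.finrank F M = p)
    (f : M) (σ : M ≃ₐ[F] M) :
    u (σ f - f) ^ (2 * p * (p - 1)) ≤ u E * u f ^ (2 * p * (p - 1)) := by
  classical
  have hcard : Nat.card (M ≃ₐ[F] M) = p := by
    rw [IsGalois.card_aut_eq_finrank, hrank]
  have hp1 := h.hp.one_lt
  have hne : 2 * p * (p - 1) ≠ 0 := by
    have : 0 < 2 * p * (p - 1) := Nat.mul_pos (by omega) (by omega)
    omega
  by_cases hσ : σ f = f
  · rw [hσ, sub_self, u.map_zero, zero_pow hne]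
    exact zero_le
  have hf : ∀ ρ : M ≃ₐ[F] M, ρ ≠ 1 → ρ f ≠ f := by
    intro ρ hρ hc
    have h1 := sub_le_sub h.inv h.hp hcard f σ ρ hρ
    rw [hc, sub_self, u.map_zero, le_zero_iff, u.zero_iff, sub_eq_zero] at h1
    exact hσ h1
  have h1 := h.euler hrank hf
  have h2 := h.trace_le (f ^ (p - 1) /
      ∏ ρ ∈ (Finset.univ : Finset (M ≃ₐ[F] M)).erase 1, (f - ρ f))
  rw [h1, u.map_one, one_pow] at h2
  set D := ∏ ρ ∈ (Finset.univ : Finset (M ≃ₐ[F] M)).erase 1, (f - ρ f) with hD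
  have hD0 : D ≠ 0 := by
    rw [hD, Finset.prod_ne_zero_iff]
    intro ρ hρ
    rw [Finset.mem_erase] at hρ
    exact sub_ne_zero.2 (hf ρ hρ.1).symm
  have hDpos : 0 < u D := (u.pos_iff).2 hD0
  rw [u.map_div, div_pow, ← mul_div_assoc, one_le_div₀ (pow_pos hDpos _), u.map_pow,
    ← pow_mul] at h2
  have h3 : u (σ f - f) ^ (p - 1) ≤ u D := by
    rw [hD, map_prod]
    have hc : ((Finset.univ : Finset (M ≃ₐ[F] M)).erase 1).card = p - 1 := by
      rw [Finset.card_erase_of_mem (Finset.mem_univ _), Finset.card_univ,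
        ← Nat.card_eq_fintype_card, hcard]
    rw [← hc]
    apply Finset.pow_card_le_prod
    intro ρ hρ
    rw [Finset.mem_erase] at hρ
    rw [u.map_sub_swap f (ρ f)]
    exact sub_le_sub h.inv h.hp hcard f σ ρ hρ.1
  calc u (σ f - f) ^ (2 * p * (p - 1)) = (u (σ f - f) ^ (p - 1)) ^ (2 * p) := by
        rw [← pow_mul]; congr 1; ring
    _ ≤ u D ^ (2 * p) := by gcongr
    _ ≤ _ := h2
    _ = _ := by congr 2; ring

end TraceSetup

end Pool.Agent.Helper5.ID
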