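import Mathlib
import Pool.Agent.Helper5.IDClaim2
import Pool.Agent.Helper5.IDGalois

/-!
The Galois extension `M = L(θ)` of degree `p`, and the proof that it is immediate.
-/

namespace Pool.Agent.Helper5.ID

open Polynomial IntermediateField

variable {K Ω : Type*} [Field K] [Field Ω] [Algebra K Ω] [IsAlgClosed Ω]
  [Algebra.IsAlgebraic K Ω] {Γ : Type*} [LinearOrderedCommGroupWithZero Γ]

set_option linter.unusedSectionVars false

/-- The hypotheses on the generator `θ` of the extension. -/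
structure ThetaSetup (v : Valuation Ω Γ) (p : ℕ) (a w : Ω) (L : IntermediateField K Ω)
    (θ E : Ω) : Prop where
  hE0 : E ≠ 0
  hEL : E ∈ L
  hpE : v (p : Ω) ≤ v E
  hEw : v E ≤ v w ^ 2
  hθ : v (θ ^ p - a) ≤ v E
  poly : ∃ P : L[X], P.Monic ∧ P.natDegree = p ∧ aeval θ P = 0
  sep : IsSeparable L θ
  conj : ∀ σ : Ω ≃ₐ[L] Ω, σ θ ∈ L⟮θ⟯
  diff : ∀ σ : Ω ≃ₐ[L] Ω, σ θ ≠ θ → v E * v θ ≤ v (σ θ - θ)

namespace ThetaSetup

variable {v : Valuation Ω Γ} {p : ℕ} {a w : Ω} {L : IntermediateField K Ω} {θ E : Ω}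

include Γ

lemma hEw' (t : ThetaSetup v p a w L θ E) (h : Setup v p a w L) : v E ≤ v w := by
  refine t.hEw.trans ?_
  rw [pow_two]
  exact mul_le_of_le_one_right' h.hw1.le

lemma vθ (t : ThetaSetup v p a w L θ E) (h : Setup v p a w L) : v θ ≤ 1 := by
  by_contra hc
  push Not at hc
  have h1 : 1 < v (θ ^ p) := by rw [v.map_pow]; exact one_lt_pow₀ hc h.hp.ne_zero
  have h2 : v (θ ^ p - a) = v (θ ^ p) := v.map_sub_eq_of_lt_left (lt_of_le_of_lt h.ha h1)
  have h3 := t.hθ
  rw [h2] at h3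
  exact absurd (h1.trans_le (h3.trans (t.hEw' h))) (not_lt.2 h.hw1.le)

lemma dist (t : ThetaSetup v p a w L θ E) (h : Setup v p a w L) {b : Ω} (hb : b ∈ L)
    (hb1 : v b ≤ 1) : v (θ - b) ^ p = v (a - b ^ p) := by
  have h1 : v (θ - b) ≤ 1 := v.map_sub_le (t.vθ h) hb1
  have h2 := frob_add v h.hp h1 hb1
  rw [sub_add_cancel] at h2
  have h3 : v ((θ - b) ^ p - (a - b ^ p)) < v (a - b ^ p) := by
    have : (θ - b) ^ p - (a - b ^ p) = (θ ^ p - a) - (θ ^ p - ((θ - b) ^ p + b ^ p)) := by ring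
    rw [this]
    apply v.map_sub_lt
    · exact lt_of_le_of_lt (t.hθ.trans (t.hEw' h)) (h.P b hb)
    · exact lt_of_le_of_lt (h2.trans (t.hpE.trans (t.hEw' h))) (h.P b hb)
  rw [← v.map_pow]
  exact v.map_eq_of_sub_lt h3

lemma no_min (t : ThetaSetup v p a w L θ E) (h : Setup v p a w L) {b : Ω} (hb : b ∈ L) :
    ∃ b' ∈ L, v (θ - b') < v (θ - b) := by
  rcases le_or_gt (v b) 1 with hb1 | hb1
  · obtain ⟨b', hb', hlt⟩ := h.claim2 b hb
    have hb'1 : v b' ≤ 1 := by
      by_contra hc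
      push Not at hc
      have h1 : 1 < v (b' ^ p) := by rw [v.map_pow]; exact one_lt_pow₀ hc h.hp.ne_zero
      have h2 : v (a - b' ^ p) = v (b' ^ p) := v.map_sub_eq_of_lt_right (lt_of_le_of_lt h.ha h1)
      have h3 : v (a - b ^ p) ≤ 1 := v.map_sub_le h.ha (by
        rw [v.map_pow]; exact pow_le_one' hb1 _)
      rw [h2] at hlt
      exact absurd (h1.trans hlt) (not_lt.2 h3)
    refine ⟨b', hb', ?_⟩
    rw [← t.dist h hb' hb'1, ← t.dist h hb hb1] at hlt
    exact lt_of_pow_lt_pow_left₀ p zero_le hlt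
  · refine ⟨0, L.zero_mem, ?_⟩
    rw [sub_zero, v.map_sub_eq_of_lt_right (lt_of_le_of_lt (t.vθ h) hb1)]
    exact lt_of_le_of_lt (t.vθ h) hb1

lemma notMem (t : ThetaSetup v p a w L θ E) (h : Setup v p a w L) : θ ∉ L := by
  intro hc
  obtain ⟨b', _, hlt⟩ := t.no_min h hc
  rw [sub_self, v.map_zero] at hlt
  exact not_lt_zero hlt

lemma natDegree_minpoly (t : ThetaSetup v p a w L θ E) (h : Setup v p a w L) :
    (minpoly L θ).natDegree = p := by
  obtain ⟨P, hPm, hPn, hPθ⟩ := t.poly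
  have hint : IsIntegral L θ := Algebra.IsIntegral.isIntegral θ
  have h1 : (minpoly L θ).natDegree ≤ p := by
    rw [← hPn]
    exact natDegree_le_of_dvd (minpoly.dvd L θ hPθ) hPm.ne_zero
  have h2 : p ∣ (minpoly L θ).natDegree := by
    by_contra hc
    exact t.notMem h (h.claim1 θ hc)
  exact le_antisymm h1 (Nat.le_of_dvd (minpoly.natDegree_pos hint) h2)

lemma finrank (t : ThetaSetup v p a w L θ E) (h : Setup v p a w L) :
    Module.finrank L L⟮θ⟯ = p := by
  rw [IntermediateField.adjoin.finrank (Algebra.IsIntegral.isIntegral θ)]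
  exact t.natDegree_minpoly h

/-- `L(θ) | L` is immediate. -/
theorem imm (t : ThetaSetup v p a w L θ E) (h : Setup v p a w L) {x : Ω} (hx : x ∈ L⟮θ⟯)
    (hx0 : x ≠ 0) : ∃ y ∈ L, v (x - y) < v x := by
  by_contra hcon
  push Not at hcon
  have hxL : x ∉ L := by
    intro hc
    have := hcon x hc
    rw [sub_self, v.map_zero, le_zero_iff, v.zero_iff] at this
    exact hx0 this
  have hint : IsIntegral L x := Algebra.IsIntegral.isIntegral x
  have : FiniteDimensional L L⟮θ⟯ :=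
    IntermediateField.adjoin.finiteDimensional (Algebra.IsIntegral.isIntegral θ)
  have hle : L⟮x⟯ ≤ L⟮θ⟯ := adjoin_simple_le_iff.2 hx
  have hdeg : (minpoly L x).natDegree = p := by
    have h1 : (minpoly L x).natDegree ≤ p := by
      rw [← IntermediateField.adjoin.finrank hint, ← t.finrank h]
      exact IntermediateField.finrank_le_of_le_right hle
    have h2 : p ∣ (minpoly L x).natDegree := by
      by_contra hc
      exact hxL (h.claim1 x hc)
    exact le_antisymm h1 (Nat.le_of_dvd (minpoly.natDegree_pos hint) h2)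
  have heq : L⟮x⟯ = L⟮θ⟯ := by
    apply IntermediateField.eq_of_le_of_finrank_eq hle
    rw [IntermediateField.adjoin.finrank hint, hdeg, t.finrank h]
  have hθx : θ ∈ L⟮x⟯ := by
    rw [heq]
    exact mem_adjoin_simple_self L θ
  obtain ⟨f, hfd, hfθ⟩ := exists_poly (minpoly L x) (minpoly.monic hint)
    (minpoly.natDegree_pos hint) (minpoly.aeval L x) hθx
  rw [hdeg] at hfd
  obtain ⟨b', hb', hlt⟩ := t.no_min h (f.coeff 0).2
  have hfd' : (f - C (⟨b', hb'⟩ : L)).natDegree < p := by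
    refine lt_of_le_of_lt (natDegree_sub_le _ _) ?_
    rw [natDegree_C]
    exact max_lt hfd h.hp.pos
  have h1 : v (θ - f.coeff 0) ≤ v (θ - b') := by
    have h2 : θ - f.coeff 0 = ∑ i ∈ (Finset.range p).erase 0, (f.coeff i : Ω) * x ^ i := by
      have h3 : θ = ∑ i ∈ Finset.range p, (f.coeff i : Ω) * x ^ i := by
        nth_rewrite 1 [← hfθ]
        rw [aeval_eq_sum_range' hfd]
        apply Finset.sum_congr rfl
        intro j _
        rw [Algebra.smul_def]
        rfl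
      nth_rewrite 1 [h3]
      rw [← Finset.add_sum_erase (Finset.range p) _ (Finset.mem_range.2 h.hp.pos)]
      simp
    rw [h2]
    apply v.map_sum_le
    intro i hi
    rw [Finset.mem_erase] at hi
    have h4 := h.vi hcon (f - C (⟨b', hb'⟩ : L)) hfd' i
    rw [coeff_sub, coeff_C_of_ne_zero hi.1, sub_zero, map_sub, hfθ, aeval_C] at h4
    exact h4
  exact absurd hlt (not_lt.2 h1)

lemma isGalois (t : ThetaSetup v p a w L θ E) : IsGalois L L⟮θ⟯ := by
  have h1 : Algebra.IsSeparable L L⟮θ⟯ := by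
    rw [IntermediateField.isSeparable_adjoin_simple_iff_isSeparable]
    exact t.sep
  have hcl : IsAlgClosure L Ω := ⟨inferInstance, inferInstance⟩
  have hn : Normal L Ω := IsAlgClosure.normal L Ω
  have h2 : Normal L L⟮θ⟯ := by
    rw [IntermediateField.normal_iff_forall_map_le']
    intro σ
    rw [IntermediateField.adjoin_map, Set.image_singleton, adjoin_simple_le_iff]
    exact t.conj σ
  exact ⟨⟩

/-- The trace setup for `L(θ) | L`. -/
theorem traceSetup (t : ThetaSetup v p a w L θ E) (h : Setup v p a w L) :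
    TraceSetup (F := L) (M := L⟮θ⟯) (v.comap (algebraMap L⟮θ⟯ Ω)) p ⟨a, h.haL⟩ ⟨w, h.hwL⟩
      ⟨θ, mem_adjoin_simple_self L θ⟩ (algebraMap L L⟮θ⟯ ⟨E, t.hEL⟩) where
  hp := h.hp
  inv σ x := by
    have := inv_algHom (K := L) h.invL ((L⟮θ⟯.val).comp (σ : L⟮θ⟯ →ₐ[L] L⟮θ⟯)) x
    exact this
  ha := h.ha
  hE0 := by
    rw [Ne, map_eq_zero]
    intro hc
    exact t.hE0 (congrArg Subtype.val hc)
  hE1 := lt_of_le_of_lt (t.hEw' h) h.hw1
  hpE := by
    have := t.hpE
    rw [Valuation.comap_apply, map_natCast]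
    exact this
  hEw := t.hEw
  hθ := t.hθ
  P b := h.P b b.2
  imm x hx := by
    obtain ⟨y, hy, hlt⟩ := t.imm h x.2 (fun hc => hx (Subtype.ext hc))
    exact ⟨⟨y, hy⟩, hlt⟩

end ThetaSetup

end Pool.Agent.Helper5.ID
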