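import Mathlib
import Pool.Agent.Helper5.IDCore

/-!
Construction of the starting data `a`, `w`, and of the maximal field `L` (Zorn).
-/

namespace Pool.Agent.Helper5.ID

open Polynomial IntermediateField

/-! ### Approximation lemmas in a valued field -/

section Approx

variable {K : Type*} [Field K] {Γ Γ' : Type*} [LinearOrderedCommGroupWithZero Γ]
  [LinearOrderedCommGroupWithZero Γ']

/-- If every integral element is a `p`-th power modulo `w`, then also modulo `t`, if
`v w` is not maximal among the values `< 1`. -/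
lemma lemmaS {u : Valuation K Γ} {p : ℕ} (hp : p.Prime) {t w : K}
    (hpt : u (p : K) ≤ u t) (arch : ∀ x : K, u x < 1 → ∃ k : ℕ, u x ^ k ≤ u t)
    {x : K} (hwx : u w < u x) (hx1 : u x < 1)
    (hw : ∀ a : K, u a ≤ 1 → ∃ b : K, u (a - b ^ p) ≤ u w) (a : K) (ha : u a ≤ 1) :
    ∃ b : K, u (a - b ^ p) ≤ u t := by
  obtain ⟨π, hπ⟩ := hw x hx1.le
  have hπx : u (π ^ p) = u x := by
    have h1 : u (π ^ p - x) < u x := by
      rw [u.map_sub_swap]; exact lt_of_le_of_lt hπ hwx
    exact u.map_eq_of_sub_lt h1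
  have hx0 : 0 < u x := lt_of_le_of_lt zero_le hwx
  have hπ0 : π ≠ 0 := by
    rintro rfl
    rw [zero_pow hp.ne_zero, u.map_zero] at hπx
    exact hx0.ne hπx
  have key : ∀ k : ℕ, ∃ b : K, u (a - b ^ p) ≤ max (u x ^ k) (u t) := by
    intro k
    induction k with
    | zero =>
      refine ⟨0, ?_⟩
      rw [zero_pow hp.ne_zero, sub_zero, pow_zero]
      exact ha.trans (le_max_left _ _)
    | succ k ih =>
      obtain ⟨b, hb⟩ := ih
      by_cases hbt : u (a - b ^ p) ≤ u t
      · exact ⟨b, hbt.trans (le_max_right _ _)⟩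
      have hbk : u (a - b ^ p) ≤ u x ^ k := by
        rcases le_max_iff.1 hb with h | h
        · exact h
        · exact absurd h hbt
      have hb1 : u b ≤ 1 := by
        by_contra hc
        push Not at hc
        have h1 : 1 < u (b ^ p) := by rw [u.map_pow]; exact one_lt_pow₀ hc hp.ne_zero
        have h2 : u (a - b ^ p) = u (b ^ p) := u.map_sub_eq_of_lt_right (lt_of_le_of_lt ha h1)
        rw [h2] at hbk
        exact absurd (h1.trans_le hbk) (not_lt.2 (pow_le_one' hx1.le _))
      have hc1 : u ((a - b ^ p) / (π ^ p) ^ k) ≤ 1 := by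
        rw [u.map_div, u.map_pow, hπx]
        exact div_le_one_of_le₀ hbk zero_le
      obtain ⟨c', hc'⟩ := hw _ hc1
      have hc'1 : u c' ≤ 1 := by
        by_contra hc
        push Not at hc
        have h1 : 1 < u (c' ^ p) := by rw [u.map_pow]; exact one_lt_pow₀ hc hp.ne_zero
        have h2 : u ((a - b ^ p) / (π ^ p) ^ k - c' ^ p) = u (c' ^ p) :=
          u.map_sub_eq_of_lt_right (lt_of_le_of_lt hc1 h1)
        rw [h2] at hc'
        exact absurd (h1.trans_le hc') (not_lt.2 (hwx.trans hx1).le)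
      have hπ1 : u π ≤ 1 := by
        by_contra hc
        push Not at hc
        have h1 := one_lt_pow₀ hc hp.ne_zero
        rw [← u.map_pow, hπx] at h1
        exact absurd h1 (not_lt.2 hx1.le)
      refine ⟨b + π ^ k * c', ?_⟩
      have h1 : a - (b + π ^ k * c') ^ p =
          (π ^ p) ^ k * ((a - b ^ p) / (π ^ p) ^ k - c' ^ p) -
          ((b + π ^ k * c') ^ p - (b ^ p + (π ^ k * c') ^ p)) := by
        have h2 : (π ^ p) ^ k * ((a - b ^ p) / (π ^ p) ^ k) = a - b ^ p :=
          mul_div_cancel₀ _ (pow_ne_zero _ (pow_ne_zero _ hπ0))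
        rw [mul_sub, h2, mul_pow, ← pow_mul, ← pow_mul, mul_comm p k]
        ring
      rw [h1]
      apply u.map_sub_le
      · refine le_trans ?_ (le_max_left _ _)
        rw [u.map_mul, u.map_pow, hπx, pow_succ]
        gcongr
        exact hc'.trans hwx.le
      · refine le_trans ?_ (le_max_right _ _)
        refine (frob_add u hp hb1 ?_).trans hpt
        rw [u.map_mul, u.map_pow]
        exact mul_le_one' (pow_le_one' hπ1 _) hc'1
  obtain ⟨k, hk⟩ := arch x hx1
  obtain ⟨b, hb⟩ := key k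
  exact ⟨b, hb.trans (max_le hk le_rfl)⟩

/-- From the coarse valuation `u` to the fine valuation `uf`. -/
lemma lemmaR {u : Valuation K Γ} {uf : Valuation K Γ'} (hle : ∀ x y, uf x ≤ uf y → u x ≤ u y)
    {p : ℕ} (hp : p.Prime) {t : K} (hpt : uf (p : K) ≤ uf t) (ht1 : u t < 1)
    {x : K} (htx : u t < u x) (hx1 : u x < 1)
    (hs : ∀ a : K, u a ≤ 1 → ∃ b : K, u (a - b ^ p) ≤ u t) (a : K) (ha : uf a ≤ 1) :
    ∃ b : K, uf (a - b ^ p) ≤ uf t := by
  have hlt1 : ∀ y, u y < 1 → uf y < 1 := by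
    intro y hy
    by_contra hc
    push Not at hc
    have := hle 1 y (by rwa [uf.map_one])
    rw [u.map_one] at this
    exact absurd hy (not_lt.2 this)
  have hle1 : ∀ y, uf y ≤ 1 → u y ≤ 1 := by
    intro y hy
    have := hle y 1 (by rwa [uf.map_one])
    rwa [u.map_one] at this
  have hp0 := hp.ne_zero
  by_cases ht0 : t = 0
  · -- degenerate case: then `p = 0` as well
    subst ht0
    rw [uf.map_zero, le_zero_iff] at hpt
    obtain ⟨b, hb⟩ := hs a (hle1 a ha)
    rw [u.map_zero, le_zero_iff, u.zero_iff] at hb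
    exact ⟨b, by rw [hb]⟩
  have hx0 : 0 < u x := lt_of_le_of_lt zero_le htx
  have hut0 : 0 < u t := (u.pos_iff).2 ht0
  have hxne : x ≠ 0 := (u.pos_iff).1 hx0
  -- `x` and `t / x` have values divisible by `p`
  obtain ⟨b1, hb1⟩ := hs x hx1.le
  have e1 : u (b1 ^ p) = u x := by
    have h1 : u (b1 ^ p - x) < u x := by
      rw [u.map_sub_swap]; exact lt_of_le_of_lt hb1 htx
    exact u.map_eq_of_sub_lt h1
  have htx1 : u (t / x) < 1 := by
    rw [u.map_div]
    exact (div_lt_one₀ hx0).2 htx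
  have htx2 : u t < u (t / x) := by
    rw [u.map_div, lt_div_iff₀ hx0]
    exact mul_lt_of_lt_one_right hut0 hx1
  obtain ⟨b2, hb2⟩ := hs (t / x) htx1.le
  have e2 : u (b2 ^ p) = u (t / x) := by
    have h1 : u (b2 ^ p - t / x) < u (t / x) := by
      rw [u.map_sub_swap]; exact lt_of_le_of_lt hb2 htx2
    exact u.map_eq_of_sub_lt h1
  set β := b1 * b2 with hβ
  have hβp : u (β ^ p) = u t := by
    rw [hβ, mul_pow, u.map_mul, e1, e2, ← u.map_mul, mul_div_cancel₀ _ hxne]
  have hβ0 : β ^ p ≠ 0 := by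
    intro hc
    rw [hc, u.map_zero] at hβp
    exact hut0.ne hβp
  -- first approximation of `a`
  obtain ⟨b, hb⟩ := hs a (hle1 a ha)
  set c := (a - b ^ p) / t with hc
  have hc1 : u c ≤ 1 := by
    rw [hc, u.map_div]
    exact div_le_one_of_le₀ hb zero_le
  have hU : u (t / β ^ p * c) ≤ 1 := by
    rw [u.map_mul, u.map_div, hβp, div_self hut0.ne', one_mul]
    exact hc1
  obtain ⟨g, hg⟩ := hs _ hU
  have hg1 : u g ≤ 1 := by
    by_contra hcon
    push Not at hcon
    have h1 : 1 < u (g ^ p) := by rw [u.map_pow]; exact one_lt_pow₀ hcon hp0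
    have h2 : u (t / β ^ p * c - g ^ p) = u (g ^ p) :=
      u.map_sub_eq_of_lt_right (lt_of_le_of_lt hU h1)
    rw [h2] at hg
    exact absurd (h1.trans_le hg) (not_lt.2 ht1.le)
  have htc : uf (t * c) < 1 := by
    apply hlt1
    rw [u.map_mul]
    exact mul_lt_one_of_lt_of_le ht1 hc1
  have hab : a - b ^ p = t * c := by
    rw [hc, mul_div_cancel₀ _ ht0]
  have hbf : uf b ≤ 1 := by
    by_contra hcon
    push Not at hcon
    have h1 : 1 < uf (b ^ p) := by rw [uf.map_pow]; exact one_lt_pow₀ hcon hp0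
    have h2 : b ^ p = a - t * c := by rw [← hab]; ring
    rw [h2] at h1
    exact absurd h1 (not_lt.2 (uf.map_sub_le ha htc.le))
  have hβg : uf (β * g) ≤ 1 := by
    apply (hlt1 _ _).le
    by_contra hcon
    push Not at hcon
    have h1 := one_le_pow₀ hcon (n := p)
    rw [← u.map_pow, mul_pow, u.map_mul, hβp, u.map_pow] at h1
    exact absurd h1 (not_le.2 (mul_lt_one_of_lt_of_le ht1 (pow_le_one' hg1 _)))
  refine ⟨b + β * g, ?_⟩
  have h1 : a - (b + β * g) ^ p = t * ((β ^ p / t) * (t / β ^ p * c - g ^ p)) -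
      ((b + β * g) ^ p - (b ^ p + (β * g) ^ p)) := by
    have h2 : t * ((β ^ p / t) * (t / β ^ p * c - g ^ p)) = t * c - β ^ p * g ^ p := by
      field_simp
    rw [h2, ← hab, mul_pow]
    ring
  rw [h1]
  apply uf.map_sub_le
  · rw [uf.map_mul]
    apply mul_le_of_le_one_right'
    apply (hlt1 _ _).le
    rw [u.map_mul, u.map_div, hβp, div_self hut0.ne', one_mul]
    exact lt_of_le_of_lt hg ht1
  · exact (frob_add uf hp hbf hβg).trans hpt

end Approx

/-! ### The starting data -/

section Start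

variable {K Ω : Type*} [Field K] [Field Ω] [Algebra K Ω] [IsAlgClosed Ω]
  [Algebra.IsAlgebraic K Ω] {Γ : Type*} [LinearOrderedCommGroupWithZero Γ]

/-- An element of degree `≤ n` over `K` has a power with exponent between `1` and `n`
whose value is attained in `K`. -/
lemma exists_value {v : Valuation Ω Γ} {b : Ω} (hb0 : b ≠ 0) {n : ℕ}
    (hn : (minpoly K b).natDegree ≤ n) :
    ∃ m : ℕ, 1 ≤ m ∧ m ≤ n ∧ ∃ c : K, v (algebraMap K Ω c) = v b ^ m := by
  have hint : IsIntegral K b := Algebra.IsIntegral.isIntegral b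
  set f := minpoly K b with hf
  set N := f.natDegree with hN
  have hsum : ∑ i ∈ Finset.range (N + 1), algebraMap K Ω (f.coeff i) * b ^ i = 0 := by
    have h1 := minpoly.aeval K b
    rw [aeval_eq_sum_range] at h1
    rw [← h1]
    apply Finset.sum_congr rfl
    intro i _
    rw [Algebra.smul_def]
  -- an index where the maximum is attained
  obtain ⟨i, hi, hmax⟩ := Finset.exists_max_image (Finset.range (N + 1))
    (fun i => v (algebraMap K Ω (f.coeff i) * b ^ i)) ⟨0, by simp⟩
  have hlead : v (algebraMap K Ω (f.coeff N) * b ^ N) ≠ 0 := by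
    rw [hN, coeff_natDegree, (minpoly.monic hint).leadingCoeff, map_one, one_mul, v.ne_zero_iff]
    exact pow_ne_zero _ hb0
  have hi0 : 0 < v (algebraMap K Ω (f.coeff i) * b ^ i) :=
    lt_of_lt_of_le (zero_lt_iff.2 hlead) (hmax N (by simp))
  -- another index with the same value
  obtain ⟨j, hj, hji, heq⟩ : ∃ j ∈ Finset.range (N + 1), j ≠ i ∧
      v (algebraMap K Ω (f.coeff j) * b ^ j) = v (algebraMap K Ω (f.coeff i) * b ^ i) := by
    by_contra hcon
    push Not at hcon
    have h1 : v (∑ j ∈ (Finset.range (N + 1)).erase i, algebraMap K Ω (f.coeff j) * b ^ j) <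
        v (algebraMap K Ω (f.coeff i) * b ^ i) := by
      apply v.map_sum_lt hi0.ne'
      intro j hj
      rw [Finset.mem_erase] at hj
      exact lt_of_le_of_ne (hmax j hj.2) (hcon j hj.2 hj.1)
    have h2 := Finset.add_sum_erase (Finset.range (N + 1))
      (fun j => algebraMap K Ω (f.coeff j) * b ^ j) hi
    rw [hsum] at h2
    have h3 : v (algebraMap K Ω (f.coeff i) * b ^ i) =
      v (∑ j ∈ (Finset.range (N + 1)).erase i, algebraMap K Ω (f.coeff j) * b ^ j) := by
      rw [← v.map_neg]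
      congr 1
      linear_combination -h2
    exact absurd h1 (not_lt.2 h3.le)
  have hb0' : 0 < v b := (v.pos_iff).2 hb0
  -- the conclusion for an ordered pair of indices
  have main : ∀ i j : ℕ, i < j → j ≤ N → 0 < v (algebraMap K Ω (f.coeff i) * b ^ i) →
      v (algebraMap K Ω (f.coeff j) * b ^ j) = v (algebraMap K Ω (f.coeff i) * b ^ i) →
      ∃ m : ℕ, 1 ≤ m ∧ m ≤ n ∧ ∃ c : K, v (algebraMap K Ω c) = v b ^ m := by
    intro i j hij hjN h0 he
    refine ⟨j - i, by omega, by omega, f.coeff i / f.coeff j, ?_⟩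
    rw [v.map_mul, v.map_mul, v.map_pow, v.map_pow] at he
    rw [v.map_mul, v.map_pow] at h0
    have hj0 : v (algebraMap K Ω (f.coeff j)) ≠ 0 := by
      intro hc
      rw [hc, zero_mul] at he
      exact h0.ne he
    have hji : v b ^ j = v b ^ (j - i) * v b ^ i := by
      rw [← pow_add]; congr 1; omega
    rw [hji, ← mul_assoc] at he
    have he' := mul_right_cancel₀ (pow_ne_zero i hb0'.ne') he
    rw [map_div₀, v.map_div, ← he', mul_div_cancel_left₀ _ hj0]
  rw [Finset.mem_range] at hi hj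
  rcases lt_or_gt_of_ne hji with h | h
  · exact main j i h (by omega) (heq ▸ hi0) heq.symm
  · exact main i j h (by omega) hi0 heq

/-- The starting data: a field `L₀` and elements `a`, `w` of `L₀` such that `a` is not a
`p`-th power modulo `w` in `L₀`. -/
lemma exists_start {v : Valuation Ω Γ} {p : ℕ} (hp : p.Prime) {t : K} (ht0 : t ≠ 0)
    (hpt : v (p : Ω) ≤ v (algebraMap K Ω t))
    (arch : ∀ x : Ω, v x < 1 → ∃ k : ℕ, v x ^ k ≤ v (algebraMap K Ω t))
    (ht1 : v (algebraMap K Ω t) < 1)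
    (H : (∃ a : K, v (algebraMap K Ω a) ≤ 1 ∧
        ∀ b : K, v (algebraMap K Ω t) < v (algebraMap K Ω (a - b ^ p))) ∨
      (∀ x : K, v (algebraMap K Ω x) < 1 → v (algebraMap K Ω x) ≤ v (algebraMap K Ω t))) :
    ∃ (L₀ : IntermediateField K Ω) (a w : Ω), a ∈ L₀ ∧ w ∈ L₀ ∧ v a ≤ 1 ∧ w ≠ 0 ∧ v w < 1 ∧
      v (algebraMap K Ω t) ≤ v w ^ 2 ∧ ∀ b ∈ L₀, v w < v (a - b ^ p) := by
  have hp0 := hp.ne_zero
  by_cases hD : ∃ x₀ : K, x₀ ≠ 0 ∧ v (algebraMap K Ω x₀) < 1 ∧
      ∀ x : K, v (algebraMap K Ω x) < 1 → v (algebraMap K Ω x) ≤ v (algebraMap K Ω x₀)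
  · obtain ⟨x₀, hx₀, hx₀1, hmax⟩ := hD
    obtain ⟨s, hs⟩ := IsAlgClosed.exists_pow_nat_eq (algebraMap K Ω x₀) (show 0 < 4 by norm_num)
    have hs0 : s ≠ 0 := by
      rintro rfl
      rw [zero_pow (by norm_num)] at hs
      exact hx₀ ((map_eq_zero _).1 hs.symm)
    have hvs : v s ^ 4 = v (algebraMap K Ω x₀) := by rw [← v.map_pow, hs]
    have hvs0 : 0 < v s := (v.pos_iff).2 hs0
    have hvs1 : v s < 1 := by
      by_contra hc
      push Not at hc
      have := one_le_pow₀ hc (n := 4)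
      rw [hvs] at this
      exact absurd hx₀1 (not_lt.2 this)
    have hint : IsIntegral K s := Algebra.IsIntegral.isIntegral s
    have hfd : FiniteDimensional K K⟮s⟯ := IntermediateField.adjoin.finiteDimensional hint
    have hfr : Module.finrank K K⟮s⟯ ≤ 4 := by
      rw [IntermediateField.adjoin.finrank hint]
      have h1 : aeval s (X ^ 4 - C x₀ : K[X]) = 0 := by
        rw [map_sub, map_pow, aeval_X, aeval_C, hs, sub_self]
      have h2 := natDegree_le_of_dvd (minpoly.dvd K s h1)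
        (X_pow_sub_C_ne_zero (by norm_num) x₀)
      rwa [natDegree_X_pow_sub_C] at h2
    refine ⟨K⟮s⟯, s, s ^ 2, mem_adjoin_simple_self K s, pow_mem (mem_adjoin_simple_self K s) 2,
      hvs1.le, pow_ne_zero _ hs0, ?_, ?_, ?_⟩
    · rw [v.map_pow]
      exact pow_lt_one₀ zero_le hvs1 two_ne_zero
    · rw [v.map_pow, ← pow_mul, hvs]
      exact hmax t ht1
    · intro b hb
      by_contra hcon
      push Not at hcon
      have h1 : v (s ^ 2) < v s := by
        rw [v.map_pow, pow_two]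
        exact mul_lt_of_lt_one_left hvs0 hvs1
      have h2 : v (b ^ p) = v s := by
        have h3 : v (b ^ p - s) < v s := by
          rw [v.map_sub_swap]; exact lt_of_le_of_lt hcon h1
        exact v.map_eq_of_sub_lt h3
      rw [v.map_pow] at h2
      have hb0 : b ≠ 0 := by
        rintro rfl
        rw [v.map_zero, zero_pow hp0] at h2
        exact hvs0.ne h2
      have hvb0 : 0 < v b := (v.pos_iff).2 hb0
      have hvb1 : v b < 1 := by
        by_contra hc
        push Not at hc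
        have := one_le_pow₀ hc (n := p)
        rw [h2] at this
        exact absurd hvs1 (not_lt.2 this)
      have hbdeg : (minpoly K b).natDegree ≤ 4 := by
        have hintb : IsIntegral K b := Algebra.IsIntegral.isIntegral b
        rw [← IntermediateField.adjoin.finrank hintb]
        refine le_trans ?_ hfr
        exact IntermediateField.finrank_le_of_le_right (adjoin_simple_le_iff.2 hb)
      obtain ⟨m, hm1, hm4, c, hc⟩ := exists_value (v := v) hb0 hbdeg
      have hc1 : v (algebraMap K Ω c) < 1 := by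
        rw [hc]
        exact pow_lt_one₀ zero_le hvb1 (by omega)
      have h5 := hmax c hc1
      rw [hc, ← hvs, ← h2, ← pow_mul] at h5
      have h6 : v b ^ (p * 4) < v b ^ m := by
        apply pow_lt_pow_right_of_lt_one₀ hvb0 hvb1
        have := hp.two_le
        omega
      exact absurd h5 (not_le.2 h6)
  · push Not at hD
    -- no least positive value
    have H1 : ∃ a : K, v (algebraMap K Ω a) ≤ 1 ∧
        ∀ b : K, v (algebraMap K Ω t) < v (algebraMap K Ω (a - b ^ p)) := by
      rcases H with H | H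
      · exact H
      · obtain ⟨x, hx1, hx2⟩ := hD t ht0 ht1
        exact absurd (H x hx1) (not_le.2 hx2)
    obtain ⟨w, hw0, hw1, hwt⟩ : ∃ w : K, w ≠ 0 ∧ v (algebraMap K Ω w) < 1 ∧
        v (algebraMap K Ω t) ≤ v (algebraMap K Ω w) ^ 2 := by
      obtain ⟨x, hx1, hx2⟩ := hD t ht0 ht1
      have hx0 : x ≠ 0 := by
        rintro rfl
        rw [map_zero, v.map_zero] at hx2
        exact not_lt_zero hx2
      have hvx0 : 0 < v (algebraMap K Ω x) := (v.pos_iff).2 ((_root_.map_ne_zero _).2 hx0)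
      have hvt0 : 0 < v (algebraMap K Ω t) := (v.pos_iff).2 ((_root_.map_ne_zero _).2 ht0)
      rcases le_or_gt (v (algebraMap K Ω t)) (v (algebraMap K Ω x) ^ 2) with h | h
      · exact ⟨x, hx0, hx1, h⟩
      · refine ⟨t / x, div_ne_zero ht0 hx0, ?_, ?_⟩
        · rw [map_div₀, v.map_div]
          exact (div_lt_one₀ hvx0).2 hx2
        · rw [map_div₀, v.map_div, div_pow, le_div_iff₀ (pow_pos hvx0 2), pow_two
            (v (algebraMap K Ω t))]
          exact mul_le_mul_right h.le _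
    obtain ⟨x, hx1, hx2⟩ := hD w hw0 hw1
    obtain ⟨a₀, ha₀, hb₀⟩ := H1
    set u : Valuation K Γ := v.comap (algebraMap K Ω) with hu
    have hnot : ¬ ∀ a : K, u a ≤ 1 → ∃ b : K, u (a - b ^ p) ≤ u w := by
      intro hw
      obtain ⟨b, hb⟩ := lemmaS (u := u) hp (t := t) (w := w) (by
        rw [hu, Valuation.comap_apply, map_natCast]; exact hpt)
        (fun x hx => arch _ hx) (x := x) hx2 hx1 hw a₀ ha₀
      exact absurd (hb₀ b) (not_lt.2 hb)
    push Not at hnot
    obtain ⟨a, ha1, ha2⟩ := hnot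
    refine ⟨⊥, algebraMap K Ω a, algebraMap K Ω w, IntermediateField.algebraMap_mem _ _,
      IntermediateField.algebraMap_mem _ _, ha1, (_root_.map_ne_zero _).2 hw0, hw1, hwt, ?_⟩
    intro b hb
    obtain ⟨b', rfl⟩ := IntermediateField.mem_bot.1 hb
    have := ha2 b'
    rw [hu, Valuation.comap_apply, Valuation.comap_apply, map_sub, map_pow] at this
    exact this

/-- Zorn's lemma. -/
lemma exists_setup {v : Valuation Ω Γ} {p : ℕ} (hp : p.Prime)
    (inv : ∀ (σ : Ω ≃ₐ[K] Ω) (x : Ω), v (σ x) = v x) {t : K} (ht0 : t ≠ 0)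
    (hpt : v (p : Ω) ≤ v (algebraMap K Ω t))
    (arch : ∀ x : Ω, v x < 1 → ∃ k : ℕ, v x ^ k ≤ v (algebraMap K Ω t))
    (ht1 : v (algebraMap K Ω t) < 1)
    (H : (∃ a : K, v (algebraMap K Ω a) ≤ 1 ∧
        ∀ b : K, v (algebraMap K Ω t) < v (algebraMap K Ω (a - b ^ p))) ∨
      (∀ x : K, v (algebraMap K Ω x) < 1 → v (algebraMap K Ω x) ≤ v (algebraMap K Ω t))) :
    ∃ (L : IntermediateField K Ω) (a w : Ω), Setup v p a w L := by
  obtain ⟨L₀, a, w, haL, hwL, ha1, hw0, hw1, htw, hP⟩ := exists_start hp ht0 hpt arch ht1 H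
  obtain ⟨L, hL0, hL⟩ := zorn_le_nonempty₀ {L : IntermediateField K Ω | L₀ ≤ L ∧
      ∀ b ∈ L, v w < v (a - b ^ p)} (by
    intro c hc hchain y hy
    refine ⟨sSup c, ⟨?_, ?_⟩, fun z hz => le_sSup hz⟩
    · exact (hc hy).1.trans (le_sSup hy)
    · intro b hb
      have hdir : DirectedOn (· ≤ ·) c := hchain.directedOn
      have hne : c.Nonempty := ⟨y, hy⟩
      have : Nonempty c := hne.to_subtype
      rw [sSup_eq_iSup', ← SetLike.mem_coe,
        IntermediateField.coe_iSup_of_directed hdir.directed_val, Set.mem_iUnion] at hb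
      obtain ⟨⟨z, hz⟩, hbz⟩ := hb
      exact (hc hz).2 b hbz) L₀ ⟨le_rfl, hP⟩
  refine ⟨L, a, w, ⟨hp, inv, ha1, hL0 haL, hL0 hwL, hw0, hw1, hpt.trans htw, ?_, hL.prop.2, ?_⟩⟩
  · intro x hx
    obtain ⟨k, hk⟩ := arch x hx
    refine ⟨k, hk.trans (htw.trans ?_)⟩
    rw [pow_two]
    exact mul_le_of_le_one_right' hw1.le
  · intro L' hlt
    by_contra hcon
    push Not at hcon
    have hmem : L' ∈ {L : IntermediateField K Ω | L₀ ≤ L ∧
      ∀ b ∈ L, v w < v (a - b ^ p)} := ⟨hL0.trans hlt.le, hcon⟩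
    exact absurd (hL.le_of_ge hmem hlt.le) (not_le_of_gt hlt)

end Start

end Pool.Agent.Helper5.ID
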