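import Mathlib
import Pool.Agent.Helper5.IDExt

/-!
Existence of the generator `θ`: Kummer extensions if `p ≠ 0` and Artin-Schreier
extensions if `p = 0` in `Ω`.
-/

namespace Pool.Agent.Helper5.ID

open Polynomial IntermediateField

variable {K Ω : Type*} [Field K] [Field Ω] [Algebra K Ω] [IsAlgClosed Ω]
  [Algebra.IsAlgebraic K Ω] {Γ : Type*} [LinearOrderedCommGroupWithZero Γ]

set_option linter.unusedSectionVars false

namespace Setup

variable {v : Valuation Ω Γ} {p : ℕ} {a w : Ω} {L : IntermediateField K Ω}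

include Γ

/-- `L` contains the `p`-th roots of unity. -/
lemma mem_of_pow_eq_one (h : Setup v p a w L) {z : Ω} (hz : z ^ p = 1) : z ∈ L := by
  by_cases hz1 : z = 1
  · rw [hz1]; exact L.one_mem
  apply h.mem_of_root (∑ i ∈ Finset.range p, (X : L[X]) ^ i)
  · intro hc
    have h1 := congrArg (fun f => f.coeff 0) hc
    simp only [finsetSum_coeff, coeff_X_pow, coeff_zero] at h1
    rw [Finset.sum_ite_eq, if_pos (Finset.mem_range.2 h.hp.pos)] at h1
    exact one_ne_zero h1
  · have h1 := geom_sum_mul z p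
    rw [hz, sub_self] at h1
    rw [map_sum]
    simp only [map_pow, aeval_X]
    exact (mul_eq_zero.1 h1).resolve_right (sub_ne_zero.2 hz1)
  · have h1 : (∑ i ∈ Finset.range p, (X : L[X]) ^ i).natDegree ≤ p - 1 := by
      apply natDegree_sum_le_of_forall_le
      intro i hi
      rw [Finset.mem_range] at hi
      rw [natDegree_X_pow]
      omega
    have := h.hp.pos
    omega

/-- `v (p) ≤ v (z - 1)` for a nontrivial `p`-th root of unity `z`. -/
lemma map_le_sub_one (h : Setup v p a w L) {z : Ω} (hz : z ^ p = 1) (hz1 : z ≠ 1) :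
    v (p : Ω) ≤ v (z - 1) := by
  have hvz : v z ≤ 1 := by
    by_contra hc
    push Not at hc
    have h1 := one_lt_pow₀ hc h.hp.ne_zero
    rw [← v.map_pow, hz, v.map_one] at h1
    exact lt_irrefl _ h1
  have h1 := geom_sum_mul z p
  rw [hz, sub_self] at h1
  have h2 := (mul_eq_zero.1 h1).resolve_right (sub_ne_zero.2 hz1)
  have h3 : (p : Ω) = - ∑ i ∈ Finset.range p, (z ^ i - 1) := by
    rw [Finset.sum_sub_distrib, h2]
    simp
  rw [h3, v.map_neg]
  apply v.map_sum_le
  intro i _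
  rw [← geom_sum_mul z i, v.map_mul]
  apply mul_le_of_le_one_left'
  apply v.map_sum_le
  intro j _
  rw [v.map_pow]
  exact pow_le_one' hvz _

theorem exists_theta_kummer (h : Setup v p a w L) (hp0 : (p : Ω) ≠ 0) :
    ∃ θ E : Ω, ThetaSetup v p a w L θ E := by
  obtain ⟨θ, hθ⟩ := IsAlgClosed.exists_pow_nat_eq a h.hp.pos
  have ha0 : a ≠ 0 := by
    intro hc
    have := h.P 0 L.zero_mem
    rw [hc, zero_pow h.hp.ne_zero, sub_zero, v.map_zero] at this
    exact not_lt_zero this
  have hθ0 : θ ≠ 0 := by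
    rintro rfl
    rw [zero_pow h.hp.ne_zero] at hθ
    exact ha0 hθ.symm
  have hpL : ((p : ℕ) : L) ≠ 0 := by
    intro hc
    apply hp0
    have := congrArg (algebraMap L Ω) hc
    simpa using this
  set a' : L := ⟨a, h.haL⟩ with ha'
  have ha'0 : a' ≠ 0 := fun hc => ha0 (congrArg Subtype.val hc)
  have hroot : aeval θ (X ^ p - C a' : L[X]) = 0 := by
    rw [map_sub, map_pow, aeval_X, aeval_C, hθ]
    exact sub_self a
  have hz : ∀ σ : Ω ≃ₐ[L] Ω, (σ θ / θ) ^ p = 1 := by
    intro σ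
    have h1 : σ a = a := σ.commutes a'
    rw [div_pow, ← map_pow, hθ, h1, div_self ha0]
  refine ⟨θ, (p : Ω), ⟨hp0, ?_, le_rfl, h.hpw, ?_, ?_, ?_, ?_, ?_⟩⟩
  · exact IntermediateField.natCast_mem L p
  · rw [hθ, sub_self, v.map_zero]
    exact zero_le
  · exact ⟨X ^ p - C a', monic_X_pow_sub_C a' h.hp.ne_zero, natDegree_X_pow_sub_C, hroot⟩
  · exact (separable_X_pow_sub_C a' hpL ha'0).of_dvd (minpoly.dvd L θ hroot)
  · intro σ
    have h1 : σ θ = (σ θ / θ) * θ := by rw [div_mul_cancel₀ _ hθ0]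
    rw [h1]
    apply mul_mem _ (mem_adjoin_simple_self L θ)
    exact (L⟮θ⟯).algebraMap_mem ⟨_, h.mem_of_pow_eq_one (hz σ)⟩
  · intro σ hσ
    have h1 : σ θ - θ = (σ θ / θ - 1) * θ := by
      rw [sub_mul, div_mul_cancel₀ _ hθ0, one_mul]
    rw [h1, v.map_mul]
    apply mul_le_mul_left
    apply h.map_le_sub_one (hz σ)
    intro hc
    rw [div_eq_one_iff_eq hθ0] at hc
    exact hσ hc

theorem exists_theta_artinSchreier (h : Setup v p a w L) (hp0 : (p : Ω) = 0) :
    ∃ θ E : Ω, ThetaSetup v p a w L θ E := by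
  have := Fact.mk h.hp
  have hchar : CharP Ω p := (CharP.charP_iff_prime_eq_zero h.hp).2 hp0
  have hpL : ((p : ℕ) : L) = 0 := by
    apply (algebraMap L Ω).injective
    simp
  have hp1 := h.hp.one_lt
  set g : Ω := w ^ 2 with hg
  have hgL : g ∈ L := pow_mem h.hwL 2
  have hg0 : g ≠ 0 := pow_ne_zero _ h.hw0
  have hg1 : v g ≤ 1 := by rw [hg, v.map_pow]; exact pow_le_one' h.hw1.le _
  set G : Ω := g ^ (p - 1) with hG
  have hGL : G ∈ L := pow_mem hgL _
  have hG0 : G ≠ 0 := pow_ne_zero _ hg0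
  have hGg : v G ≤ v g := by
    rw [hG, v.map_pow]
    exact pow_le_of_le_one zero_le hg1 (by omega)
  set a' : L := ⟨a, h.haL⟩ with ha'
  set G' : L := ⟨G, hGL⟩ with hG'
  have hG'0 : G' ≠ 0 := fun hc => hG0 (congrArg Subtype.val hc)
  set P : L[X] := X ^ p - (C G' * X + C a') with hP
  have hPd : (C G' * X + C a').degree < ((p : ℕ) : WithBot ℕ) :=
    lt_of_le_of_lt degree_linear_le (by exact_mod_cast hp1)
  have hPm : P.Monic := monic_X_pow_sub hPd
  have hPn : P.natDegree = p := by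
    rw [hP]
    have h2 : (C G' * X + C a').natDegree < ((X : L[X]) ^ p).natDegree := by
      rw [natDegree_X_pow]
      exact lt_of_le_of_lt natDegree_linear_le h.hp.one_lt
    rw [natDegree_sub_eq_left_of_natDegree_lt h2, natDegree_X_pow]
  obtain ⟨θ, hPθ⟩ : ∃ θ : Ω, aeval θ P = 0 := by
    have h1 : (P.map (algebraMap L Ω)).degree ≠ 0 := by
      rw [degree_map, degree_eq_natDegree hPm.ne_zero, hPn]
      exact_mod_cast h.hp.ne_zero
    obtain ⟨x, hx⟩ := IsAlgClosed.exists_root _ h1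
    refine ⟨x, ?_⟩
    rw [aeval_def, ← eval_map]; exact hx
  have hθ : θ ^ p = G * θ + a := by
    rw [hP] at hPθ
    simp only [map_sub, map_pow, aeval_X, map_add, map_mul, aeval_C] at hPθ
    rw [sub_eq_zero] at hPθ
    exact hPθ
  have hθ1 : v θ ≤ 1 := by
    by_contra hc
    push Not at hc
    have h1 : v (θ ^ p) ≤ v θ := by
      rw [hθ]
      apply v.map_add_le
      · rw [v.map_mul]
        exact mul_le_of_le_one_left' (hGg.trans hg1)
      · exact h.ha.trans hc.le
    rw [v.map_pow] at h1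
    exact absurd h1 (not_le.2 (lt_self_pow₀ hc hp1))
  have hδ : ∀ σ : Ω ≃ₐ[L] Ω, (σ θ - θ) ^ p = G * (σ θ - θ) := by
    intro σ
    have h1 : σ a = a := σ.commutes a'
    have h2 : σ G = G := σ.commutes G'
    rw [sub_pow_char, ← map_pow, hθ, map_add, map_mul, h1, h2]
    ring
  have hδ' : ∀ σ : Ω ≃ₐ[L] Ω, σ θ ≠ θ → (σ θ - θ) ^ (p - 1) = g ^ (p - 1) := by
    intro σ hσ
    have h1 := hδ σ
    have h2 : (σ θ - θ) ^ p = (σ θ - θ) ^ (p - 1) * (σ θ - θ) := by
      rw [← pow_succ]; congr 1; omega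
    rw [h2] at h1
    exact mul_right_cancel₀ (sub_ne_zero.2 hσ) h1
  refine ⟨θ, G, ⟨hG0, hGL, ?_, ?_, ?_, ?_, ?_, ?_, ?_⟩⟩
  · rw [hp0, v.map_zero]; exact zero_le
  · refine hGg.trans ?_
    rw [hg, v.map_pow]
  · have : θ ^ p - a = G * θ := by rw [hθ]; ring
    rw [this, v.map_mul]
    exact mul_le_of_le_one_right' hθ1
  · exact ⟨P, hPm, hPn, hPθ⟩
  · have hPs : P.Separable := by
      rw [separable_def]
      have : derivative P = C (-G') := by
        rw [hP]
        simp only [derivative_sub, derivative_X_pow, derivative_add, derivative_mul,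
          derivative_C, zero_mul, derivative_X, mul_one, zero_add, add_zero, hpL, map_zero,
          zero_sub, map_neg]
      rw [this]
      refine ⟨0, C (-G')⁻¹, ?_⟩
      rw [zero_mul, zero_add, ← C_mul, inv_mul_cancel₀ (neg_ne_zero.2 hG'0), C_1]
    exact hPs.of_dvd (minpoly.dvd L θ hPθ)
  · intro σ
    by_cases hσ : σ θ = θ
    · rw [hσ]; exact mem_adjoin_simple_self L θ
    have h1 : ((σ θ - θ) / g) ^ (p - 1) = 1 := by
      rw [div_pow, hδ' σ hσ, div_self (pow_ne_zero _ hg0)]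
    have h2 : (σ θ - θ) / g ∈ L := by
      apply h.mem_of_root ((X : L[X]) ^ (p - 1) - C 1)
      · exact X_pow_sub_C_ne_zero (by omega) 1
      · simp [h1]
      · rw [natDegree_X_pow_sub_C]; omega
    have h3 : σ θ = θ + (σ θ - θ) / g * g := by
      rw [div_mul_cancel₀ _ hg0]; ring
    rw [h3]
    apply add_mem (mem_adjoin_simple_self L θ)
    exact (L⟮θ⟯).algebraMap_mem ⟨_, mul_mem h2 hgL⟩
  · intro σ hσ
    have h1 := congrArg v (hδ' σ hσ)
    rw [v.map_pow, v.map_pow] at h1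
    have h2 : v (σ θ - θ) = v g := by
      exact (pow_left_inj₀ zero_le zero_le (by omega)).1 h1
    rw [h2]
    exact (mul_le_of_le_one_right' hθ1).trans hGg

theorem exists_theta (h : Setup v p a w L) : ∃ θ E : Ω, ThetaSetup v p a w L θ E := by
  by_cases hp0 : (p : Ω) = 0
  · exact h.exists_theta_artinSchreier hp0
  · exact h.exists_theta_kummer hp0

end Setup

end Pool.Agent.Helper5.ID
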