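import Mathlib
import Pool.Agent.Helper5.IDDefs
import Pool.Agent.Helper5.IDTheta
import Pool.Agent.Helper5.IDStart
import Pool.Agent.Helper5.IDCoarse

/-!
The field `L` is not an independent defect field.
-/

namespace Pool.Agent.Helper5.ID

open Polynomial IntermediateField Pool.Agent.Helper5.VF IsLocalRing

universe u

section Comap

variable {F Ω : Type*} [Field F] [Field Ω] (f : F →+* Ω) (R : ValuationSubring Ω)

lemma comap_val_le (x y : F) :
    (R.comap f).valuation x ≤ (R.comap f).valuation y ↔ R.valuation (f x) ≤ R.valuation (f y) := by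
  rcases eq_or_ne y 0 with rfl | hy
  · rw [map_zero, map_zero, map_zero, le_zero_iff, le_zero_iff, map_eq_zero, map_eq_zero,
      map_eq_zero]
  · have h1 : 0 < (R.comap f).valuation y := ((R.comap f).valuation.pos_iff).2 hy
    have h2 : 0 < R.valuation (f y) := (R.valuation.pos_iff).2 ((_root_.map_ne_zero f).2 hy)
    rw [← div_le_one₀ h1, ← div_le_one₀ h2, ← map_div₀, ← map_div₀, ← map_div₀,
      ValuationSubring.valuation_le_one_iff, ValuationSubring.valuation_le_one_iff,
      ValuationSubring.mem_comap]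

lemma comap_val_lt (x y : F) :
    (R.comap f).valuation x < (R.comap f).valuation y ↔ R.valuation (f x) < R.valuation (f y) := by
  rw [← not_le, ← not_le, comap_val_le]

lemma comap_val_eq (x y : F) :
    (R.comap f).valuation x = (R.comap f).valuation y ↔ R.valuation (f x) = R.valuation (f y) := by
  rw [le_antisymm_iff, le_antisymm_iff, comap_val_le, comap_val_le]

end Comap

section Coarse

variable {Ω : Type*} [Field Ω] {R O : ValuationSubring Ω} (hRO : R ≤ O)

include hRO

lemma coarse_le {x y : Ω} (h : R.valuation x ≤ R.valuation y) :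
    O.valuation x ≤ O.valuation y := by
  rw [← ValuationSubring.mapOfLE_valuation_apply R O hRO,
    ← ValuationSubring.mapOfLE_valuation_apply R O hRO]
  exact ValuationSubring.monotone_mapOfLE _ _ hRO h

lemma coarse_eq {x y : Ω} (h : R.valuation x = R.valuation y) :
    O.valuation x = O.valuation y :=
  le_antisymm (coarse_le hRO h.le) (coarse_le hRO h.ge)

lemma fine_lt {x y : Ω} (h : O.valuation x < O.valuation y) :
    R.valuation x < R.valuation y := by
  by_contra hc
  push Not at hc
  exact absurd h (not_lt.2 (coarse_le hRO hc))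

end Coarse

section Immediate

variable {K L : Type*} [Field K] [Field L] [Algebra K L] {B : ValuationSubring L}

lemma ramificationIndex_eq_one
    (himm : ∀ x : L, x ≠ 0 → ∃ y : K, B.valuation (x - algebraMap K L y) < B.valuation x) :
    ramificationIndex K B = 1 := by
  rw [ramificationIndex, Subgroup.index_eq_one, eq_top_iff]
  intro γ _
  obtain ⟨x, hx⟩ := B.valuation_surjective (γ : B.ValueGroup)
  have hx0 : x ≠ 0 := by
    rintro rfl
    rw [map_zero] at hx
    exact γ.ne_zero hx.symm
  obtain ⟨y, hy⟩ := himm x hx0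
  have hxy : B.valuation (algebraMap K L y) = B.valuation x := by
    rw [Valuation.map_sub_swap] at hy
    exact B.valuation.map_eq_of_sub_lt hy
  have hy0 : y ≠ 0 := by
    rintro rfl
    rw [map_zero, map_zero, hx] at hxy
    exact γ.ne_zero hxy.symm
  refine ⟨Units.mk0 y hy0, ?_⟩
  apply Units.ext
  rw [← hx, ← hxy]
  rfl

lemma inertiaDegree_eq_one
    (himm : ∀ x : L, x ≠ 0 → ∃ y : K, B.valuation (x - algebraMap K L y) < B.valuation x) :
    inertiaDegree K B = 1 := by
  rw [inertiaDegree]
  apply finrank_eq_one (1 : ResidueField B) one_ne_zero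
  intro z
  have hz : z ∈ residueSubfield K B := by
    obtain ⟨c, rfl⟩ := IsLocalRing.residue_surjective z
    by_cases hc : B.valuation (c : L) < 1
    · have h1 : residue B c = 0 := by
        rw [residue_eq_zero_iff]
        exact (B.valuation_lt_one_iff c).2 hc
      rw [h1]
      exact Subfield.zero_mem _
    · have hc1 : B.valuation (c : L) = 1 :=
        le_antisymm ((B.valuation_le_one_iff _).2 c.2) (not_lt.1 hc)
      have hc0 : (c : L) ≠ 0 := by
        intro h0
        rw [h0, map_zero] at hc1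
        exact zero_ne_one hc1
      obtain ⟨y, hy⟩ := himm c hc0
      have hyc : B.valuation (algebraMap K L y) = B.valuation c := by
        rw [Valuation.map_sub_swap] at hy
        exact B.valuation.map_eq_of_sub_lt hy
      have hyB : algebraMap K L y ∈ B := by
        rw [← B.valuation_le_one_iff, hyc, hc1]
      apply Subfield.subset_closure
      refine ⟨y, hyB, ?_⟩
      rw [← sub_eq_zero, ← map_sub, residue_eq_zero_iff]
      apply (B.valuation_lt_one_iff _).2
      rw [hc1] at hy
      exact hy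
  exact ⟨⟨z, hz⟩, by rw [Subfield.smul_def, smul_eq_mul, mul_one]⟩

end Immediate

section Dependent

variable {K Ω : Type u} [Field K] [Field Ω] [Algebra K Ω] [IsAlgClosed Ω]
  [Algebra.IsAlgebraic K Ω]

omit [IsAlgClosed Ω] in
/-- Embeddings extend to automorphisms of the algebraic closure. -/
lemma exists_lift [IsAlgClosed Ω] {E : Type*} [Field E] [Algebra K E] [Algebra E Ω]
    [IsScalarTower K E Ω] (σ : E →ₐ[K] Ω) :
    ∃ φ : Ω ≃ₐ[K] Ω, ∀ y : E, φ (algebraMap E Ω y) = σ y := by
  have : Algebra.IsAlgebraic E Ω := Algebra.IsAlgebraic.tower_top (K := K) E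
  obtain ⟨φ, hφ⟩ := IsAlgClosed.surjective_domRestrict_of_isAlgebraic (K := K) (L := E)
    (E := Ω) (M := Ω) σ
  have hb : Function.Bijective φ := Algebra.IsAlgebraic.algHom_bijective φ
  refine ⟨AlgEquiv.ofBijective φ hb, fun y => ?_⟩
  rw [← hφ]; rfl

/-- If a power lies above a convex subgroup, then so does the element. -/
lemma above_of_pow {F : Type*} [Field F] {B : ValuationSubring F} {H : Subgroup (VG B)}
    (hH : (H : Set (VG B)).OrdConnected) {γ : VG B} {n : ℕ} (h : γ ^ n ∈ above H) :
    γ ∈ above H := by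
  have h1 : γ ^ n < 1 := h 1 H.one_mem
  have hγ : γ < 1 := by
    by_contra hc
    push Not at hc
    exact absurd h1 (not_lt.2 (one_le_pow_of_one_le' hc n))
  intro η hη
  by_contra hc
  push Not at hc
  have h2 : γ ∈ H := hH.out hη H.one_mem ⟨hc, hγ.le⟩
  exact lt_irrefl _ (h (γ ^ n) (H.pow_mem h2 n))

/-- The maximal field `L` is not an independent defect field. -/
theorem dependent {A : ValuationSubring K} (hH : IsHenselian A) {R O : ValuationSubring Ω}
    (hRO : R ≤ O) (hR : Extends A R) {p : ℕ} {a w : Ω} {L : IntermediateField K Ω}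
    (h : Setup O.valuation p a w L) (hRp : R.valuation (p : Ω) < 1) :
    ¬ IsIndependentDefectField (R.comap (algebraMap L Ω)) := by
  intro hI
  obtain ⟨θ, E, t⟩ := h.exists_theta
  have hgal : IsGalois L L⟮θ⟯ := t.isGalois
  have hrank : Module.finrank L L⟮θ⟯ = p := t.finrank h
  have hfd : FiniteDimensional L L⟮θ⟯ :=
    IntermediateField.adjoin.finiteDimensional (Algebra.IsIntegral.isIntegral θ)
  have hts := t.traceSetup h
  set B : ValuationSubring L := R.comap (algebraMap L Ω) with hB
  set C : ValuationSubring L⟮θ⟯ := R.comap (algebraMap L⟮θ⟯ Ω) with hC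
  have hp := h.hp
  -- the residue characteristic
  have hBp : CharP (ResidueField B) p := by
    rw [CharP.charP_iff_prime_eq_zero hp]
    have h1 : (p : ResidueField B) = residue B (p : B) := by rw [map_natCast]
    rw [h1, residue_eq_zero_iff]
    apply (B.valuation_lt_one_iff _).2
    have h2 : ((p : B) : L) = ((p : ℕ) : L) := by push_cast; rfl
    rw [h2]
    have h3 := (comap_val_lt (algebraMap L Ω) R ((p : ℕ) : L) 1).2 (by
      rw [map_natCast, map_one, map_one]
      exact hRp)
    rwa [map_one] at h3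
  have hBC : Extends B C := by
    ext x
    rfl
  have hAB : ∀ C' : ValuationSubring L⟮θ⟯, Extends B C' → Extends A C' := by
    intro C' hC'
    have h1 : C'.comap (algebraMap K L⟮θ⟯) = (C'.comap (algebraMap L L⟮θ⟯)).comap
      (algebraMap K L) := by
      ext x; rfl
    rw [Extends, h1, hC', hB, ← hR]
    ext x; rfl
  have halg : Algebra.IsAlgebraic K L⟮θ⟯ := Algebra.IsAlgebraic.trans K L _
  have huniq : ∀ C' : ValuationSubring L⟮θ⟯, Extends B C' → C' = C := by
    intro C' hC'
    exact (hH L⟮θ⟯).unique (hAB C' hC') (hAB C hBC)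
  -- immediateness
  have himm : ∀ x : L⟮θ⟯, x ≠ 0 → ∃ y : L,
      C.valuation (x - algebraMap L L⟮θ⟯ y) < C.valuation x := by
    intro x hx
    obtain ⟨y, hy⟩ := hts.imm x hx
    refine ⟨y, ?_⟩
    rw [hC, comap_val_lt]
    exact fine_lt hRO hy
  have hdef : 1 < defect L C := by
    rw [defect, ramificationIndex_eq_one himm, inertiaDegree_eq_one himm, hrank, mul_one,
      Nat.div_one]
    exact hp.one_lt
  -- independent defect of `L(θ) | L`
  have hind : HasIndependentDefect B C := by
    refine hI p hp hBp L ?_ ?_ B ?_ L⟮θ⟯ hrank C hBC huniq hdef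
    · intro hchar
      have hΩ : CharZero Ω := charZero_of_injective_algebraMap (algebraMap L Ω).injective
      have hne : NeZero ((p : ℕ) : Ω) := ⟨Nat.cast_ne_zero.2 hp.ne_zero⟩
      obtain ⟨ζ, hζ⟩ := HasEnoughRootsOfUnity.exists_primitiveRoot Ω p
      have hζL : ζ ∈ L := h.mem_of_pow_eq_one hζ.pow_eq_one
      constructor
      · intro n hn _
        rw [Set.mem_singleton_iff] at hn
        subst hn
        refine ⟨⟨ζ, hζL⟩, ?_⟩
        exact IsPrimitiveRoot.of_map_of_injective (f := algebraMap L Ω) hζ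
          (algebraMap L Ω).injective
      · intro x
        exact Subalgebra.algebraMap_mem _ x
    · intro _
      exact Function.surjective_id
    · ext x; rfl
  obtain ⟨H, hconv, -, -, hsig⟩ := hind
  -- a nontrivial automorphism
  obtain ⟨σ, hσ⟩ : ∃ σ : L⟮θ⟯ ≃ₐ[L] L⟮θ⟯, σ ≠ 1 := by
    have hcard : Nat.card (L⟮θ⟯ ≃ₐ[L] L⟮θ⟯) = p := by
      rw [IsGalois.card_aut_eq_finrank, hrank]
    have : Nontrivial (L⟮θ⟯ ≃ₐ[L] L⟮θ⟯) := by
      rw [← Finite.one_lt_card_iff_nontrivial, hcard]
      exact hp.one_lt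
    exact exists_ne 1
  have hs := hsig σ hσ
  set θ' : L⟮θ⟯ := ⟨θ, mem_adjoin_simple_self L θ⟩ with hθ'
  have hσθ : σ θ' ≠ θ' := by
    intro hfix
    apply hσ
    have hint : IsIntegral L θ := Algebra.IsIntegral.isIntegral θ
    have h1 : (σ : L⟮θ⟯ →ₐ[L] L⟮θ⟯) = AlgHom.id L L⟮θ⟯ := by
      apply (adjoin.powerBasis hint).algHom_ext
      rw [adjoin.powerBasis_gen]
      exact hfix
    apply AlgEquiv.ext
    intro x
    exact congrArg (fun g : L⟮θ⟯ →ₐ[L] L⟮θ⟯ => g x) h1
  have hθ0 : θ' ≠ 0 := by
    intro hc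
    apply t.notMem h
    have : θ = 0 := congrArg Subtype.val hc
    rw [this]
    exact L.zero_mem
  -- the element `c`
  have hx0 : (σ θ' - θ') / θ' ≠ 0 := div_ne_zero (sub_ne_zero.2 hσθ) hθ0
  obtain ⟨c, hc⟩ := himm _ hx0
  have hcv : C.valuation (algebraMap L L⟮θ⟯ c) = C.valuation ((σ θ' - θ') / θ') := by
    rw [Valuation.map_sub_swap] at hc
    exact C.valuation.map_eq_of_sub_lt hc
  have hc0 : c ≠ 0 := by
    rintro rfl
    rw [map_zero, map_zero] at hcv
    exact hx0 ((C.valuation.zero_iff).1 hcv.symm)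
  have hcmem : val B (Units.mk0 c hc0) ∈ above H := by
    rw [← hs]
    exact ⟨Units.mk0 c hc0, rfl, θ', hθ0, hcv.symm⟩
  -- the root
  set N := 2 * p * (p - 1) with hN
  obtain ⟨t', ht'⟩ := h.root_exists (N + 1) (by
    rw [hN]
    have : 2 * p * (p - 1) + 1 = p * (2 * (p - 1)) + 1 := by ring
    rw [this]
    simp) c
  have ht'0 : t' ≠ 0 := by
    rintro rfl
    rw [zero_pow (by omega)] at ht'
    exact hc0 ht'.symm
  have ht'mem : val B (Units.mk0 t' ht'0) ∈ above H := by
    apply above_of_pow hconv (n := N + 1)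
    rw [← map_pow]
    have : Units.mk0 t' ht'0 ^ (N + 1) = Units.mk0 c hc0 := by
      ext
      simp [ht']
    rw [this]
    exact hcmem
  rw [← hs] at ht'mem
  obtain ⟨c', hc', f, hf0, hf⟩ := ht'mem
  -- compare
  have hE0 : 0 < O.valuation E := (O.valuation.pos_iff).2 t.hE0
  have hE1 : O.valuation E < 1 := lt_of_le_of_lt (t.hEw' h) h.hw1
  have hc't' : O.valuation ((c' : L) : Ω) = O.valuation (t' : Ω) := by
    apply coarse_eq hRO
    have h1 : B.valuation (c' : L) = B.valuation t' := by
      have := congrArg (fun z : VG B => (z : B.ValueGroup)) hc'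
      exact this
    exact (comap_val_eq (algebraMap L Ω) R _ _).1 h1
  have hfv : O.valuation ((((σ f - f) / f : L⟮θ⟯)) : Ω) = O.valuation (t' : Ω) := by
    rw [← hc't']
    apply coarse_eq hRO
    exact (comap_val_eq (algebraMap L⟮θ⟯ Ω) R _ _).1 hf
  have hmain := hts.sub_pow_le hrank f σ
  -- `v(t')^N ≤ v(E)`
  have h1 : O.valuation (t' : Ω) ^ N ≤ O.valuation E := by
    rw [← hfv]
    have h2 : O.valuation ((((σ f - f) / f : L⟮θ⟯)) : Ω) =
        O.valuation ((σ f - f : L⟮θ⟯) : Ω) / O.valuation (f : Ω) := by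
      rw [← map_div₀]; rfl
    have h3 : 0 < O.valuation (f : Ω) :=
      (O.valuation.pos_iff).2 (fun hc => hf0 (Subtype.ext hc))
    rw [h2, div_pow, div_le_iff₀ (pow_pos h3 _)]
    exact hmain
  -- `v(E) ≤ v(c)`
  have h4 : O.valuation E ≤ O.valuation ((c : L) : Ω) := by
    have h5 : O.valuation ((c : L) : Ω) = O.valuation ((((σ θ' - θ') / θ' : L⟮θ⟯)) : Ω) := by
      apply coarse_eq hRO
      exact (comap_val_eq (algebraMap L⟮θ⟯ Ω) R _ _).1 hcv
    have h6 : O.valuation ((((σ θ' - θ') / θ' : L⟮θ⟯)) : Ω) =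
        O.valuation ((σ θ' : L⟮θ⟯) - θ : Ω) / O.valuation θ := by
      rw [← map_div₀]; rfl
    have h7 : 0 < O.valuation θ :=
      (O.valuation.pos_iff).2 (fun hc => hθ0 (Subtype.ext hc))
    rw [h5, h6, le_div_iff₀ h7]
    obtain ⟨φ, hφ⟩ := exists_lift (K := L) (Ω := Ω)
      ((L⟮θ⟯.val).comp (σ : L⟮θ⟯ →ₐ[L] L⟮θ⟯))
    have h8 : φ θ = (σ θ' : Ω) := hφ θ'
    rw [← h8]
    apply t.diff φ
    rw [h8]
    intro hc
    exact hσθ (Subtype.ext hc)
  have h5 : O.valuation ((c : L) : Ω) = O.valuation (t' : Ω) ^ (N + 1) := by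
    rw [← map_pow, ← SubmonoidClass.coe_pow, ht']
  have ht'1 : O.valuation (t' : Ω) < 1 := by
    by_contra hcon
    push Not at hcon
    exact absurd ((one_le_pow₀ hcon).trans h1) (not_le.2 hE1)
  rw [h5, pow_succ] at h4
  have h6 : O.valuation (t' : Ω) ^ N * O.valuation (t' : Ω) ≤
      O.valuation E * O.valuation (t' : Ω) := by gcongr
  exact absurd (h4.trans h6) (not_le.2 (mul_lt_of_lt_one_right hE0 ht'1))

end Dependent

end Pool.Agent.Helper5.ID
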