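import Mathlib
import Pool.Agent.Helper5.IDMain
import Pool.Agent.Helper5.IDCompletion

/-!
The final assembly: a henselian field all of whose algebraic extensions are independent
defect fields is roughly deeply ramified.
-/

namespace Pool.Agent.Helper5.ID

open Pool.Agent.Helper5.VF IsLocalRing

universe u

variable {K : Type u} [Field K] {A : ValuationSubring K}

lemma val_le_iff {Ω : Type*} [Field Ω] [Algebra K Ω] {R : ValuationSubring Ω}
    (hR : Extends A R) (x y : K) : A.valuation x ≤ A.valuation y ↔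
      R.valuation (algebraMap K Ω x) ≤ R.valuation (algebraMap K Ω y) := by
  have h := comap_val_le (algebraMap K Ω) R x y
  have hR' : R.comap (algebraMap K Ω) = A := hR
  rwa [hR'] at h

lemma val_lt_iff {Ω : Type*} [Field Ω] [Algebra K Ω] {R : ValuationSubring Ω}
    (hR : Extends A R) (x y : K) : A.valuation x < A.valuation y ↔
      R.valuation (algebraMap K Ω x) < R.valuation (algebraMap K Ω y) := by
  rw [← not_le, ← not_le, val_le_iff hR]

/-- The core of the argument. -/
theorem core (hH : IsHenselian A)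
    (h : ∀ (L : Type u) [Field L] [Algebra K L] [Algebra.IsAlgebraic K L]
      (B : ValuationSubring L), Extends A B → IsIndependentDefectField B)
    {p : ℕ} (hp : p.Prime) {t : K} (ht0 : t ≠ 0) (ht1 : A.valuation t < 1)
    (hpt : A.valuation (p : K) ≤ A.valuation t)
    (H : (¬ ∀ a : K, A.valuation a ≤ 1 → ∃ b : K, A.valuation (a - b ^ p) ≤ A.valuation t) ∨
      (∀ x : K, A.valuation x < 1 → A.valuation x ≤ A.valuation t)) : False := by
  obtain ⟨R, hR, huniq⟩ := hH (AlgebraicClosure K)
  set Ω := AlgebraicClosure K with hΩ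
  -- the fine valuation ring is stable
  have hRstab : ∀ (σ : Ω ≃ₐ[K] Ω) (x : Ω), x ∈ R → σ x ∈ R := by
    intro σ x hx
    have h1 : Extends A (R.comap (σ : Ω →+* Ω)) := by
      have hR' : R.comap (algebraMap K Ω) = A := hR
      rw [Extends, ← hR']
      ext y
      rw [ValuationSubring.mem_comap, ValuationSubring.mem_comap, ValuationSubring.mem_comap]
      have : (σ : Ω →+* Ω) (algebraMap K Ω y) = algebraMap K Ω y := σ.commutes y
      rw [this]
    have h2 : R.comap (σ : Ω →+* Ω) = R := huniq _ h1
    rw [← h2] at hx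
    exact hx
  set t' : Ω := algebraMap K Ω t with ht'
  have ht'0 : t' ≠ 0 := (map_ne_zero _).2 ht0
  have ht'1 : R.valuation t' < 1 := by
    have h1 := (val_lt_iff hR t 1).1 (by rwa [map_one])
    rwa [map_one, map_one] at h1
  have ht'R : t' ∈ R := (R.valuation_le_one_iff _).1 ht'1.le
  set O : ValuationSubring Ω := coarsen R t' ht'R with hO
  have hRO : R ≤ O := le_coarsen ht'R
  have hOstab : ∀ (σ : Ω ≃ₐ[K] Ω) (x : Ω), x ∈ O → σ x ∈ O := by
    intro σ x hx n
    have h1 := hRstab σ _ (hx n)
    rw [map_mul, map_pow, ht', σ.commutes] at h1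
    exact h1
  have inv := invariant_of_stable (K := K) hOstab
  have hpt' : O.valuation (p : Ω) ≤ O.valuation t' := by
    apply coarse_le hRO
    have h1 := (val_le_iff hR (p : K) t).1 hpt
    rwa [map_natCast] at h1
  have hRp : R.valuation (p : Ω) < 1 := by
    have h1 := (val_le_iff hR (p : K) t).1 hpt
    rw [map_natCast] at h1
    exact lt_of_le_of_lt h1 ht'1
  have arch : ∀ x : Ω, O.valuation x < 1 → ∃ k : ℕ, O.valuation x ^ k ≤ O.valuation t' :=
    fun x hx => coarsen_arch ht'R hx
  have hOt1 : O.valuation t' < 1 := coarsen_lt_one ht'R ht'0 ht'1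
  -- the comparison of the fine and the coarse valuation on `K`
  have hcmp : ∀ x y : K, A.valuation x ≤ A.valuation y →
      O.valuation (algebraMap K Ω x) ≤ O.valuation (algebraMap K Ω y) := fun x y hxy =>
    coarse_le hRO ((val_le_iff hR x y).1 hxy)
  have hcmp1 : ∀ x : K, O.valuation (algebraMap K Ω x) < 1 → A.valuation x < 1 := by
    intro x hx
    by_contra hc
    push Not at hc
    have h1 := hcmp 1 x (by rwa [map_one])
    rw [map_one, map_one] at h1
    exact absurd hx (not_lt.2 h1)
  have H' : (∃ a : K, O.valuation (algebraMap K Ω a) ≤ 1 ∧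
        ∀ b : K, O.valuation (algebraMap K Ω t) < O.valuation (algebraMap K Ω (a - b ^ p))) ∨
      (∀ x : K, O.valuation (algebraMap K Ω x) < 1 →
        O.valuation (algebraMap K Ω x) ≤ O.valuation (algebraMap K Ω t)) := by
    by_contra hcon
    rw [not_or] at hcon
    obtain ⟨h1, h2⟩ := hcon
    push Not at h1 h2
    obtain ⟨x, hx1, hx2⟩ := h2
    rcases H with H | H
    · apply H
      exact lemmaR (u := O.valuation.comap (algebraMap K Ω)) (uf := A.valuation)
        (fun x y hxy => hcmp x y hxy) hp hpt hOt1 hx2 hx1 h1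
    · exact absurd (hcmp _ _ (H x (hcmp1 x hx1))) (not_le.2 hx2)
  obtain ⟨L, a, w, hsetup⟩ := exists_setup hp inv ht0 hpt' arch hOt1 H'
  have hext : Extends A (R.comap (algebraMap L Ω)) := by
    have hR' : R.comap (algebraMap K Ω) = A := hR
    rw [Extends, ← hR']
    ext y
    rfl
  exact dependent hH hRO hR hsetup hRp (h L _ hext)

/-- From approximability to semiperfectness of `O_K / p O_K`. -/
lemma semiperfect_of_approx {p : ℕ} (hp : p.Prime) (hp0 : (p : K) ≠ 0)
    (h : ∀ a : K, A.valuation a ≤ 1 → ∃ b : K, A.valuation (a - b ^ p) ≤ A.valuation (p : K)) :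
    SemiperfectMod p A := by
  intro z
  obtain ⟨a, rfl⟩ := Ideal.Quotient.mk_surjective z
  obtain ⟨b, hb⟩ := h a ((A.valuation_le_one_iff _).2 a.2)
  have hpos : 0 < A.valuation (p : K) := (A.valuation.pos_iff).2 hp0
  have hp1 : A.valuation (p : K) ≤ 1 := (A.valuation_le_one_iff _).2 (natCast_mem A p)
  have hc : ((a : K) - b ^ p) / p ∈ A := by
    rw [← A.valuation_le_one_iff, map_div₀]
    exact div_le_one_of_le₀ hb zero_le
  have hb1 : b ∈ A := by
    rw [← A.valuation_le_one_iff]
    by_contra hcon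
    push Not at hcon
    have h1 : 1 < A.valuation (b ^ p) := by rw [map_pow]; exact one_lt_pow₀ hcon hp.ne_zero
    have h2 : A.valuation ((a : K) - b ^ p) = A.valuation (b ^ p) :=
      A.valuation.map_sub_eq_of_lt_right
        (lt_of_le_of_lt ((A.valuation_le_one_iff _).2 a.2) h1)
    rw [h2] at hb
    exact absurd (h1.trans_le hb) (not_lt.2 hp1)
  refine ⟨Ideal.Quotient.mk _ ⟨b, hb1⟩, ?_⟩
  simp only
  rw [← map_pow, Ideal.Quotient.mk_eq_mk_iff_sub_mem, Ideal.mem_span_singleton]
  refine ⟨- ⟨((a : K) - b ^ p) / p, hc⟩, ?_⟩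
  apply Subtype.ext
  push_cast
  rw [mul_neg, mul_div_cancel₀ _ hp0]
  ring

theorem affirmative (hA : A ≠ ⊤) (hH : IsHenselian A)
    (h : ∀ (L : Type u) [Field L] [Algebra K L] [Algebra.IsAlgebraic K L]
      (B : ValuationSubring L), Extends A B → IsIndependentDefectField B) :
    IsRoughlyDeeplyRamified A := by
  intro p hp hres
  have hvp : A.valuation (p : K) < 1 := by
    have h1 : residue A (p : A) = 0 := by
      rw [map_natCast]
      exact CharP.cast_eq_zero _ p
    rw [residue_eq_zero_iff] at h1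
    have h2 := (A.valuation_lt_one_iff _).1 h1
    exact h2
  refine ⟨?_, ?_, ?_⟩
  · intro hchar
    have hp0 : (p : K) ≠ 0 := Nat.cast_ne_zero.2 hp.ne_zero
    by_contra hns
    exact core hH h hp hp0 hvp le_rfl (Or.inl fun hap => hns (semiperfect_of_approx hp hp0 hap))
  · intro hchar
    refine completion_semiperfect hp ?_ hA
    intro t ht0 ht1
    by_contra hcon
    exact core hH h hp ht0 ht1 (by
      rw [CharP.cast_eq_zero, map_zero]; exact zero_le) (Or.inl hcon)
  · rintro ⟨hp0, hp1, hmax⟩
    exact core hH h hp hp0 hp1 le_rfl (Or.inr hmax)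

end Pool.Agent.Helper5.ID
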