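import Mathlib
import Pool.Agent.Helper5.SL2Sum

set_option autoImplicit false

namespace Pool.Agent.Helper5.PropT

open Finset
open scoped InnerProductSpace

section Avg

variable {H : Type} [NormedAddCommGroup H] [InnerProductSpace ℂ H] [CompleteSpace H]

theorem unitary_inner {K : Type*} [Group K] (U : K →* unitary (H →L[ℂ] H)) (g : K) (v w : H) :
    ⟪(U g : H →L[ℂ] H) v, w⟫_ℂ = ⟪v, (U g⁻¹ : H →L[ℂ] H) w⟫_ℂ := by
  have h : (U g⁻¹ : H →L[ℂ] H) = star (U g : H →L[ℂ] H) := by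
    rw [map_inv]; rfl
  rw [h, ContinuousLinearMap.star_eq_adjoint, ContinuousLinearMap.adjoint_inner_right]

theorem unitary_mul_apply {K : Type*} [Group K] (U : K →* unitary (H →L[ℂ] H)) (g h : K) (v : H) :
    (U (g * h) : H →L[ℂ] H) v = (U g : H →L[ℂ] H) ((U h : H →L[ℂ] H) v) := by
  rw [map_mul]; rfl

theorem unitary_one_apply {K : Type*} [Group K] (U : K →* unitary (H →L[ℂ] H)) (v : H) :
    (U 1 : H →L[ℂ] H) v = v := by
  rw [map_one]; rfl

/-- The averaging operator of a unitary representation of a finite group. -/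
noncomputable def avg {K : Type*} [Group K] [Fintype K] (U : K →* unitary (H →L[ℂ] H)) (v : H) : H :=
  ((Fintype.card K : ℂ)⁻¹) • ∑ k : K, (U k : H →L[ℂ] H) v

variable {K : Type*} [Group K] [Fintype K] (U : K →* unitary (H →L[ℂ] H))

theorem card_pos' : (0 : ℝ) < (Fintype.card K : ℝ) := by
  exact_mod_cast Fintype.card_pos

theorem card_ne' : (Fintype.card K : ℂ) ≠ 0 := by
  exact_mod_cast Fintype.card_ne_zero

theorem sum_eq_card_smul_avg (v : H) :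
    ∑ k : K, (U k : H →L[ℂ] H) v = (Fintype.card K : ℂ) • avg U v := by
  unfold avg
  rw [smul_smul, mul_inv_cancel₀ (card_ne' (K := K)), one_smul]

theorem U_avg (g : K) (v : H) : (U g : H →L[ℂ] H) (avg U v) = avg U v := by
  unfold avg
  rw [map_smul, map_sum]
  congr 1
  simp_rw [← unitary_mul_apply]
  exact Fintype.sum_equiv (Equiv.mulLeft g) _ _ (fun x => rfl)

theorem avg_of_fixed (v : H) (h : ∀ g : K, (U g : H →L[ℂ] H) v = v) : avg U v = v := by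
  unfold avg
  simp_rw [h]
  rw [Finset.sum_const, Finset.card_univ, ← Nat.cast_smul_eq_nsmul ℂ, smul_smul,
    inv_mul_cancel₀ (card_ne' (K := K)), one_smul]

theorem avg_avg (v : H) : avg U (avg U v) = avg U v :=
  avg_of_fixed U _ (fun g => U_avg U g v)

theorem avg_add (v w : H) : avg U (v + w) = avg U v + avg U w := by
  unfold avg
  simp [Finset.sum_add_distrib, smul_add]

theorem avg_sub (v w : H) : avg U (v - w) = avg U v - avg U w := by
  unfold avg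
  simp [Finset.sum_sub_distrib, smul_sub]

theorem avg_smul (c : ℂ) (v : H) : avg U (c • v) = c • avg U v := by
  unfold avg
  simp only [map_smul, ← Finset.smul_sum]
  rw [smul_comm]

theorem continuous_avg : Continuous (avg U) := by
  unfold avg
  fun_prop

theorem inner_avg_left (v w : H) : ⟪avg U v, w⟫_ℂ = ⟪v, avg U w⟫_ℂ := by
  unfold avg
  rw [inner_smul_left, inner_smul_right, sum_inner, inner_sum]
  congr 1
  · simp
  · simp_rw [unitary_inner]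
    exact Fintype.sum_equiv (Equiv.inv K) _ _ (fun x => rfl)

theorem re_inner_avg_self (v : H) : (⟪avg U v, v⟫_ℂ).re = ‖avg U v‖ ^ 2 := by
  have h : ⟪avg U v, v⟫_ℂ = ⟪avg U v, avg U v⟫_ℂ := by
    rw [inner_avg_left, inner_avg_left, avg_avg]
  rw [h]
  exact inner_self_eq_norm_sq (𝕜 := ℂ) _

theorem re_inner_self_avg (v : H) : (⟪v, avg U v⟫_ℂ).re = ‖avg U v‖ ^ 2 := by
  rw [← inner_avg_left, re_inner_avg_self]

theorem re_inner_avg_avg' (v w : H) : ⟪avg U v, avg U w⟫_ℂ = ⟪avg U v, w⟫_ℂ := by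
  rw [← inner_avg_left, avg_avg]

theorem norm_sub_avg_sq (v : H) : ‖v - avg U v‖ ^ 2 = (⟪v - avg U v, v⟫_ℂ).re := by
  have h1 : ‖v - avg U v‖ ^ 2 = (⟪v - avg U v, v - avg U v⟫_ℂ).re :=
    (inner_self_eq_norm_sq (𝕜 := ℂ) _).symm
  rw [h1, inner_sub_right (v - avg U v) v (avg U v)]
  have h2 : ⟪v - avg U v, avg U v⟫_ℂ = 0 := by
    rw [← inner_avg_left, avg_sub, avg_avg, sub_self, inner_zero_left]
  rw [h2, sub_zero]

theorem norm_sub_avg_le_norm (v : H) : ‖v - avg U v‖ ^ 2 ≤ ‖v‖ ^ 2 := by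
  have h : ‖v‖ ^ 2 = ‖v - avg U v‖ ^ 2 + ‖avg U v‖ ^ 2 := by
    rw [norm_sub_avg_sq, inner_sub_left, Complex.sub_re, re_inner_avg_self]
    have : (⟪v, v⟫_ℂ).re = ‖v‖ ^ 2 := inner_self_eq_norm_sq (𝕜 := ℂ) _
    rw [this]; ring
  rw [h]
  nlinarith [sq_nonneg ‖avg U v‖]

theorem norm_sub_avg_le (v : H) (δ : ℝ) (h : ∀ g : K, ‖(U g : H →L[ℂ] H) v - v‖ ≤ δ) :
    ‖v - avg U v‖ ≤ δ := by
  have h1 : v - avg U v = ((Fintype.card K : ℂ)⁻¹) • ∑ k : K, (v - (U k : H →L[ℂ] H) v) := by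
    unfold avg
    rw [Finset.sum_sub_distrib, smul_sub, Finset.sum_const, Finset.card_univ,
      ← Nat.cast_smul_eq_nsmul ℂ, smul_smul, inv_mul_cancel₀ (card_ne' (K := K)), one_smul]
  rw [h1, norm_smul]
  have h2 : ‖∑ k : K, (v - (U k : H →L[ℂ] H) v)‖ ≤ (Fintype.card K : ℝ) * δ := by
    refine (norm_sum_le _ _).trans ?_
    refine (Finset.sum_le_card_nsmul _ _ δ (fun k _ => ?_)).trans ?_
    · rw [norm_sub_rev]; exact h k
    · simp [Finset.card_univ]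
  have h3 : ‖(Fintype.card K : ℂ)⁻¹‖ = (Fintype.card K : ℝ)⁻¹ := by
    rw [norm_inv]; simp
  rw [h3]
  have hc := card_pos' (K := K)
  calc (Fintype.card K : ℝ)⁻¹ * ‖∑ k : K, (v - (U k : H →L[ℂ] H) v)‖
      ≤ (Fintype.card K : ℝ)⁻¹ * ((Fintype.card K : ℝ) * δ) := by
        apply mul_le_mul_of_nonneg_left h2 (inv_nonneg.mpr hc.le)
    _ = δ := by field_simp

end Avg

section Pair

variable {H : Type} [NormedAddCommGroup H] [InnerProductSpace ℂ H]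

/-- The two-projection inequality. -/
theorem pair_ineq (v x y : H) (ε : ℝ) (h0 : 0 ≤ ε) (h1 : ε ≤ 1)
    (hx : (⟪v, x⟫_ℂ).re = ‖x‖ ^ 2) (hy : (⟪v, y⟫_ℂ).re = ‖y‖ ^ 2)
    (hxy : (⟪x, y⟫_ℂ).re ≤ ε * (‖x‖ * ‖y‖)) :
    - (ε * (‖v - x‖ ^ 2 + ‖v - y‖ ^ 2)) ≤ 2 * (⟪v - x, v - y⟫_ℂ).re := by
  have hv : (⟪v, v⟫_ℂ).re = ‖v‖ ^ 2 := inner_self_eq_norm_sq (𝕜 := ℂ) _
  have hxx : (⟪x, x⟫_ℂ).re = ‖x‖ ^ 2 := inner_self_eq_norm_sq (𝕜 := ℂ) _
  have hyy : (⟪y, y⟫_ℂ).re = ‖y‖ ^ 2 := inner_self_eq_norm_sq (𝕜 := ℂ) _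
  have hx' : (⟪x, v⟫_ℂ).re = ‖x‖ ^ 2 := by rw [← hx]; exact inner_re_symm (𝕜 := ℂ) x v
  have hy' : (⟪y, v⟫_ℂ).re = ‖y‖ ^ 2 := by rw [← hy]; exact inner_re_symm (𝕜 := ℂ) y v
  have hyx : (⟪y, x⟫_ℂ).re = (⟪x, y⟫_ℂ).re := inner_re_symm (𝕜 := ℂ) y x
  have e1 : ‖v - x‖ ^ 2 = ‖v‖ ^ 2 - ‖x‖ ^ 2 := by
    have : ‖v - x‖ ^ 2 = (⟪v - x, v - x⟫_ℂ).re := (inner_self_eq_norm_sq (𝕜 := ℂ) _).symm
    rw [this, inner_sub_left, inner_sub_right, inner_sub_right]
    simp only [Complex.sub_re, hv, hx, hx', hxx]; ring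
  have e2 : ‖v - y‖ ^ 2 = ‖v‖ ^ 2 - ‖y‖ ^ 2 := by
    have : ‖v - y‖ ^ 2 = (⟪v - y, v - y⟫_ℂ).re := (inner_self_eq_norm_sq (𝕜 := ℂ) _).symm
    rw [this, inner_sub_left, inner_sub_right, inner_sub_right]
    simp only [Complex.sub_re, hv, hy, hy', hyy]; ring
  have e3 : (⟪v - x, v - y⟫_ℂ).re = ‖v‖ ^ 2 - ‖x‖ ^ 2 - ‖y‖ ^ 2 + (⟪x, y⟫_ℂ).re := by
    rw [inner_sub_left, inner_sub_right, inner_sub_right]
    simp only [Complex.sub_re, hv, hy, hx']; ring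
  -- the square of (1+ε) v - x - y
  have e4 : 0 ≤ (1 + ε) ^ 2 * ‖v‖ ^ 2 - (1 + 2 * ε) * (‖x‖ ^ 2 + ‖y‖ ^ 2) + 2 * (⟪x, y⟫_ℂ).re := by
    have h : 0 ≤ ‖((1 + ε : ℝ) : ℂ) • v - x - y‖ ^ 2 := sq_nonneg _
    have h' : ‖((1 + ε : ℝ) : ℂ) • v - x - y‖ ^ 2 =
        (⟪((1 + ε : ℝ) : ℂ) • v - x - y, ((1 + ε : ℝ) : ℂ) • v - x - y⟫_ℂ).re :=
      (inner_self_eq_norm_sq (𝕜 := ℂ) _).symm
    rw [h'] at h
    simp only [inner_sub_left, inner_sub_right, inner_smul_left, inner_smul_right,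
      Complex.sub_re, Complex.conj_ofReal, Complex.re_ofReal_mul, hv, hx, hy, hx', hy', hxx, hyy, hyx] at h
    nlinarith [h]
  rw [e1, e2, e3]
  set a := ‖x‖
  set b := ‖y‖
  set t := (⟪x, y⟫_ℂ).re
  set n := ‖v‖ ^ 2
  have h5 : 0 ≤ (1 - ε) * (ε * (a ^ 2 + b ^ 2) / 2 - t) := by
    apply mul_nonneg (by linarith)
    nlinarith [mul_nonneg h0 (sq_nonneg (a - b))]
  -- goal: 0 ≤ (2+2ε) n - (2+ε)(a²+b²) + 2t
  have h6 : 0 ≤ (1 + ε) * ((2 + 2 * ε) * n - (2 + ε) * (a ^ 2 + b ^ 2) + 2 * t) := by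
    nlinarith [e4, h5]
  have h7 : 0 ≤ (2 + 2 * ε) * n - (2 + ε) * (a ^ 2 + b ^ 2) + 2 * t := by
    by_contra hneg
    push Not at hneg
    nlinarith [h6, hneg]
  nlinarith [h7]

end Pair

section SL2Rep

variable {H : Type} [NormedAddCommGroup H] [InnerProductSpace ℂ H] [CompleteSpace H]
variable {p : ℕ} [Fact p.Prime]

theorem sum_comp_hom {G : Type*} [Group G] (U : G →* unitary (H →L[ℂ] H))
    (t : Multiplicative (ZMod p) →* G) (v : H) :
    (p : ℂ) • avg (U.comp t) v = ∑ a : ZMod p, (U (t (Multiplicative.ofAdd a)) : H →L[ℂ] H) v := by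
  have h := sum_eq_card_smul_avg (U.comp t) v
  rw [Fintype.card_multiplicative, ZMod.card] at h
  rw [← h]
  exact Fintype.sum_equiv Multiplicative.toAdd _ _ (fun x => rfl)

theorem sl2_triple (U : Matrix.SpecialLinearGroup (Fin 2) (ZMod p) →* unitary (H →L[ℂ] H)) (v : H)
    (hv : avg U v = 0) :
    (p : ℂ) • (p : ℂ) • (p : ℂ) • avg (U.comp xHom) (avg (U.comp yHom) (avg (U.comp xHom) v)) =
      (p : ℂ) • (p : ℂ) • avg (U.comp xHom) v -
        (Fintype.card (Bsub p) : ℂ) • avg (U.comp (Bsub p).subtype) v := by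
  have h1 : (p : ℂ) • (p : ℂ) • (p : ℂ) • avg (U.comp xHom) (avg (U.comp yHom) (avg (U.comp xHom) v)) =
      ∑ a : ZMod p, ∑ b : ZMod p, ∑ c : ZMod p, (U (xx a * yy b * xx c) : H →L[ℂ] H) v := by
    have e1 : (p : ℂ) • (p : ℂ) • avg (U.comp yHom) (avg (U.comp xHom) v) =
        ∑ b : ZMod p, ∑ c : ZMod p, (U (yy b * xx c) : H →L[ℂ] H) v := by
      rw [← avg_smul, sum_comp_hom, sum_comp_hom]
      refine Finset.sum_congr rfl (fun b _ => ?_)
      rw [map_sum]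
      refine Finset.sum_congr rfl (fun c _ => ?_)
      rw [unitary_mul_apply]
      rfl
    have e2 : (p : ℂ) • (p : ℂ) • (p : ℂ) • avg (U.comp xHom) (avg (U.comp yHom) (avg (U.comp xHom) v))
        = (p : ℂ) • avg (U.comp xHom) ((p : ℂ) • (p : ℂ) • avg (U.comp yHom) (avg (U.comp xHom) v)) := by
      rw [avg_smul, avg_smul]
    rw [e2, sum_comp_hom, e1]
    refine Finset.sum_congr rfl (fun a _ => ?_)
    rw [map_sum]
    refine Finset.sum_congr rfl (fun b _ => ?_)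
    rw [map_sum]
    refine Finset.sum_congr rfl (fun c _ => ?_)
    rw [mul_assoc, unitary_mul_apply U (xx a)]
    rfl
  rw [h1, sum_xyx (fun g => (U g : H →L[ℂ] H) v), sum_eq_card_smul_avg U v, hv, smul_zero, zero_sub,
    ← sub_eq_add_neg, ← Nat.cast_smul_eq_nsmul ℂ]
  congr 1
  · congr 1
    exact (sum_comp_hom U xHom v).symm
  · exact sum_eq_card_smul_avg (U.comp (Bsub p).subtype) v

theorem norm_avg_y_sq (U : Matrix.SpecialLinearGroup (Fin 2) (ZMod p) →* unitary (H →L[ℂ] H)) (v : H)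
    (hv : avg U v = 0) :
    (p : ℝ) * ‖avg (U.comp yHom) (avg (U.comp xHom) v)‖ ^ 2 ≤ ‖avg (U.comp xHom) v‖ ^ 2 := by
  have hp : (0 : ℝ) < (p : ℝ) := by exact_mod_cast (Fact.out : p.Prime).pos
  have h := congrArg (fun w => (⟪w, v⟫_ℂ).re) (sl2_triple U v hv)
  simp only [inner_sub_left, inner_smul_left, Complex.conj_natCast, Complex.sub_re] at h
  have e1 : (⟪avg (U.comp xHom) (avg (U.comp yHom) (avg (U.comp xHom) v)), v⟫_ℂ).re =
      ‖avg (U.comp yHom) (avg (U.comp xHom) v)‖ ^ 2 := by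
    rw [inner_avg_left, re_inner_avg_self]
  have e2 : (⟪avg (U.comp xHom) v, v⟫_ℂ).re = ‖avg (U.comp xHom) v‖ ^ 2 := re_inner_avg_self _ _
  have e3 : (⟪avg (U.comp (Bsub p).subtype) v, v⟫_ℂ).re =
    ‖avg (U.comp (Bsub p).subtype) v‖ ^ 2 := re_inner_avg_self _ _
  have c1 : ∀ z : ℂ, ((p : ℂ) * z).re = (p : ℝ) * z.re := by
    intro z
    have : (p : ℂ) = ((p : ℝ) : ℂ) := by simp
    rw [this, Complex.re_ofReal_mul]
  have c2 : ∀ z : ℂ, (((Fintype.card (Bsub p) : ℕ) : ℂ) * z).re = (Fintype.card (Bsub p) : ℝ) * z.re := by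
    intro z
    have : ((Fintype.card (Bsub p) : ℕ) : ℂ) = ((Fintype.card (Bsub p) : ℝ) : ℂ) := by simp
    rw [this, Complex.re_ofReal_mul]
  rw [c1, c1, c1, c1, c1, c2, e1, e2, e3] at h
  have h2 : 0 ≤ (Fintype.card (Bsub p) : ℝ) * ‖avg (U.comp (Bsub p).subtype) v‖ ^ 2 := by positivity
  have h3 : (p : ℝ) * ((p : ℝ) * ((p : ℝ) * ‖avg (U.comp yHom) (avg (U.comp xHom) v)‖ ^ 2)) ≤
      (p : ℝ) * ((p : ℝ) * ‖avg (U.comp xHom) v‖ ^ 2) := by linarith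
  exact le_of_mul_le_mul_left (le_of_mul_le_mul_left h3 hp) hp

theorem sl2_ineq (hp : 5 ≤ p)
    (U : Matrix.SpecialLinearGroup (Fin 2) (ZMod p) →* unitary (H →L[ℂ] H)) (v : H) :
    - ((9 / 20 : ℝ) * (‖v - avg (U.comp xHom) v‖ ^ 2 + ‖v - avg (U.comp yHom) v‖ ^ 2)) ≤
      2 * (⟪v - avg (U.comp xHom) v, v - avg (U.comp yHom) v⟫_ℂ).re := by
  set v0 := avg U v with hv0
  have hfix : ∀ g, (U g : H →L[ℂ] H) v0 = v0 := fun g => U_avg U g v
  have hx0 : avg (U.comp xHom) v0 = v0 := avg_of_fixed _ _ (fun g => hfix _)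
  have hy0 : avg (U.comp yHom) v0 = v0 := avg_of_fixed _ _ (fun g => hfix _)
  set v' := v - v0 with hv'
  have hav : avg U v' = 0 := by
    rw [hv', avg_sub, avg_of_fixed U v0 hfix, ← hv0, sub_self]
  have ex : v - avg (U.comp xHom) v = v' - avg (U.comp xHom) v' := by
    rw [hv', avg_sub, hx0]; abel
  have ey : v - avg (U.comp yHom) v = v' - avg (U.comp yHom) v' := by
    rw [hv', avg_sub, hy0]; abel
  rw [ex, ey]
  apply pair_ineq v' _ _ (9 / 20) (by norm_num) (by norm_num) (re_inner_self_avg _ _)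
    (re_inner_self_avg _ _)
  have h1 : ⟪avg (U.comp xHom) v', avg (U.comp yHom) v'⟫_ℂ =
      ⟪avg (U.comp yHom) (avg (U.comp xHom) v'), avg (U.comp yHom) v'⟫_ℂ := by
    rw [inner_avg_left (U.comp yHom) (avg (U.comp xHom) v') (avg (U.comp yHom) v'), avg_avg]
  have h2 : (⟪avg (U.comp xHom) v', avg (U.comp yHom) v'⟫_ℂ).re ≤
      ‖avg (U.comp yHom) (avg (U.comp xHom) v')‖ * ‖avg (U.comp yHom) v'‖ := by
    rw [h1]
    exact (Complex.re_le_norm _).trans (norm_inner_le_norm _ _)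
  have h3 := norm_avg_y_sq U v' hav
  have hp' : (5 : ℝ) ≤ p := by exact_mod_cast hp
  have h4 : ‖avg (U.comp yHom) (avg (U.comp xHom) v')‖ ≤ 9 / 20 * ‖avg (U.comp xHom) v'‖ := by
    apply le_of_sq_le_sq _ (by positivity)
    nlinarith [sq_nonneg ‖avg (U.comp yHom) (avg (U.comp xHom) v')‖,
      sq_nonneg ‖avg (U.comp xHom) v'‖]
  refine h2.trans ?_
  rw [← mul_assoc]
  exact mul_le_mul_of_nonneg_right h4 (norm_nonneg _)

end SL2Rep

section Main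

variable {H : Type} [NormedAddCommGroup H] [InnerProductSpace ℂ H] [CompleteSpace H]
variable {G : Type*} [Group G] {p : ℕ} [Fact p.Prime]

theorem avg_neg_reindex (ρ : G →* unitary (H →L[ℂ] H))
    (ψ : Matrix.SpecialLinearGroup (Fin 2) (ZMod p) →* G) (t : Multiplicative (ZMod p) →* G)
    (h : ∀ a : ZMod p, ψ (yy a) = t (Multiplicative.ofAdd (-a))) (v : H) :
    avg ((ρ.comp ψ).comp yHom) v = avg (ρ.comp t) v := by
  unfold avg
  congr 1
  refine Fintype.sum_equiv (Equiv.inv _) _ _ (fun x => ?_)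
  change (ρ (ψ (yy (Multiplicative.toAdd x))) : H →L[ℂ] H) v = (ρ (t (x⁻¹)) : H →L[ℂ] H) v
  rw [h]
  rfl

theorem avg_comp_reindex (ρ : G →* unitary (H →L[ℂ] H))
    (ψ : Matrix.SpecialLinearGroup (Fin 2) (ZMod p) →* G) (t : Multiplicative (ZMod p) →* G)
    (h : ∀ a : ZMod p, ψ (xx a) = t (Multiplicative.ofAdd a)) (v : H) :
    avg ((ρ.comp ψ).comp xHom) v = avg (ρ.comp t) v := by
  unfold avg
  congr 1
  refine Fintype.sum_equiv (Equiv.refl _) _ _ (fun x => ?_)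
  change (ρ (ψ (xx (Multiplicative.toAdd x))) : H →L[ℂ] H) v = (ρ (t x) : H →L[ℂ] H) v
  rw [h]
  rfl

theorem pair_ineq' (hp : 5 ≤ p) (ρ : G →* unitary (H →L[ℂ] H))
    (ψ : Matrix.SpecialLinearGroup (Fin 2) (ZMod p) →* G) (t t' : Multiplicative (ZMod p) →* G)
    (h : ∀ a : ZMod p, ψ (xx a) = t (Multiplicative.ofAdd a))
    (h' : ∀ a : ZMod p, ψ (yy a) = t' (Multiplicative.ofAdd (-a))) (v : H) :
    - ((9 / 20 : ℝ) * (‖v - avg (ρ.comp t) v‖ ^ 2 + ‖v - avg (ρ.comp t') v‖ ^ 2)) ≤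
      2 * (⟪v - avg (ρ.comp t) v, v - avg (ρ.comp t') v⟫_ℂ).re := by
  have := sl2_ineq hp (ρ.comp ψ) v
  rwa [avg_neg_reindex ρ ψ t' h', avg_comp_reindex ρ ψ t h] at this

/-- Property (T), in the form used by the frozen statement, for a group generated by three
subgroups of order `p ≥ 5`, pairwise generating images of `SL₂(p)`. -/
theorem propT_of_triangle (hp : 5 ≤ p)
    (t1 t2 t3 : Multiplicative (ZMod p) →* G)
    (ψ12 ψ23 ψ31 : Matrix.SpecialLinearGroup (Fin 2) (ZMod p) →* G)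
    (h12x : ∀ a : ZMod p, ψ12 (xx a) = t1 (Multiplicative.ofAdd a))
    (h12y : ∀ a : ZMod p, ψ12 (yy a) = t2 (Multiplicative.ofAdd (-a)))
    (h23x : ∀ a : ZMod p, ψ23 (xx a) = t2 (Multiplicative.ofAdd a))
    (h23y : ∀ a : ZMod p, ψ23 (yy a) = t3 (Multiplicative.ofAdd (-a)))
    (h31x : ∀ a : ZMod p, ψ31 (xx a) = t3 (Multiplicative.ofAdd a))
    (h31y : ∀ a : ZMod p, ψ31 (yy a) = t1 (Multiplicative.ofAdd (-a)))
    (hgen : Subgroup.closure (Set.range t1 ∪ Set.range t2 ∪ Set.range t3) = ⊤)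
    (ρ : G →* unitary (H →L[ℂ] H))
    (hai : ∀ (S : Finset G) (ε : ℝ), 0 < ε →
      ∃ v : H, ‖v‖ = 1 ∧ ∀ s ∈ S, ‖(ρ s : H →L[ℂ] H) v - v‖ < ε) :
    ∃ v : H, v ≠ 0 ∧ ∀ g : G, (ρ g : H →L[ℂ] H) v = v := by
  classical
  -- notation-free abbreviations
  set P1 : H → H := avg (ρ.comp t1) with hP1
  set P2 : H → H := avg (ρ.comp t2) with hP2
  set P3 : H → H := avg (ρ.comp t3) with hP3
  set A : H → H := fun v => (v - P1 v) + (v - P2 v) + (v - P3 v) with hA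
  set E : H → ℝ := fun v => ‖v - P1 v‖ ^ 2 + ‖v - P2 v‖ ^ 2 + ‖v - P3 v‖ ^ 2 with hE
  have hEnn : ∀ v, 0 ≤ E v := fun v => by simp only [hE]; positivity
  have hEA : ∀ v, E v = (⟪A v, v⟫_ℂ).re := by
    intro v
    simp only [hE, hA, inner_add_left, Complex.add_re]
    rw [norm_sub_avg_sq, norm_sub_avg_sq, norm_sub_avg_sq]
  have hAsub : ∀ v w, A (v - w) = A v - A w := by
    intro v w
    simp only [hA, hP1, hP2, hP3, avg_sub]
    abel
  have hAsmul : ∀ (c : ℂ) v, A (c • v) = c • A v := by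
    intro c v
    simp only [hA, hP1, hP2, hP3, avg_smul, smul_add, smul_sub]
  have hAsa : ∀ v w, ⟪A v, w⟫_ℂ = ⟪v, A w⟫_ℂ := by
    intro v w
    simp only [hA, hP1, hP2, hP3, inner_add_left, inner_add_right, inner_sub_left, inner_sub_right,
      inner_avg_left]
  have hE3 : ∀ v, E v ≤ 3 * ‖v‖ ^ 2 := by
    intro v
    have h1 : ‖v - P1 v‖ ^ 2 ≤ ‖v‖ ^ 2 := norm_sub_avg_le_norm _ v
    have h2 : ‖v - P2 v‖ ^ 2 ≤ ‖v‖ ^ 2 := norm_sub_avg_le_norm _ v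
    have h3 : ‖v - P3 v‖ ^ 2 ≤ ‖v‖ ^ 2 := norm_sub_avg_le_norm _ v
    simp only [hE]; linarith
  have hAE : ∀ v, (1 / 10) * E v ≤ ‖A v‖ ^ 2 := by
    intro v
    have i12 := pair_ineq' hp ρ ψ12 t1 t2 h12x h12y v
    have i23 := pair_ineq' hp ρ ψ23 t2 t3 h23x h23y v
    have i31 := pair_ineq' hp ρ ψ31 t3 t1 h31x h31y v
    have e : ‖A v‖ ^ 2 = E v + 2 * (⟪v - P1 v, v - P2 v⟫_ℂ).re + 2 * (⟪v - P2 v, v - P3 v⟫_ℂ).re +
        2 * (⟪v - P3 v, v - P1 v⟫_ℂ).re := by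
      have h0 : ‖A v‖ ^ 2 = (⟪A v, A v⟫_ℂ).re := (inner_self_eq_norm_sq (𝕜 := ℂ) _).symm
      have n1 : ‖v - P1 v‖ ^ 2 = (⟪v - P1 v, v - P1 v⟫_ℂ).re := (inner_self_eq_norm_sq (𝕜 := ℂ) _).symm
      have n2 : ‖v - P2 v‖ ^ 2 = (⟪v - P2 v, v - P2 v⟫_ℂ).re := (inner_self_eq_norm_sq (𝕜 := ℂ) _).symm
      have n3 : ‖v - P3 v‖ ^ 2 = (⟪v - P3 v, v - P3 v⟫_ℂ).re := (inner_self_eq_norm_sq (𝕜 := ℂ) _).symm
      have s12 : (⟪v - P2 v, v - P1 v⟫_ℂ).re = (⟪v - P1 v, v - P2 v⟫_ℂ).re := inner_re_symm (𝕜 := ℂ) _ _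
      have s23 : (⟪v - P3 v, v - P2 v⟫_ℂ).re = (⟪v - P2 v, v - P3 v⟫_ℂ).re := inner_re_symm (𝕜 := ℂ) _ _
      have s31 : (⟪v - P1 v, v - P3 v⟫_ℂ).re = (⟪v - P3 v, v - P1 v⟫_ℂ).re := inner_re_symm (𝕜 := ℂ) _ _
      rw [h0]
      simp only [hA, hE]
      rw [inner_add_left, inner_add_left, inner_add_right, inner_add_right, inner_add_right,
        inner_add_right, inner_add_right, inner_add_right]
      simp only [Complex.add_re]
      rw [s12, s23, s31, n1, n2, n3]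
      ring
    rw [e]
    simp only [hE]
    simp only [← hP1, ← hP2, ← hP3] at i12 i23 i31
    nlinarith [i12, i23, i31]
  have hA3 : ∀ v, ‖A v‖ ^ 2 ≤ 3 * E v := by
    intro v
    simp only [hA, hE]
    have h := norm_add₃_le (a := v - P1 v) (b := v - P2 v) (c := v - P3 v)
    have h' : ‖v - P1 v + (v - P2 v) + (v - P3 v)‖ ^ 2 ≤
        (‖v - P1 v‖ + ‖v - P2 v‖ + ‖v - P3 v‖) ^ 2 := by
      apply pow_le_pow_left₀ (norm_nonneg _) h
    refine h'.trans ?_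
    nlinarith [sq_nonneg (‖v - P1 v‖ - ‖v - P2 v‖), sq_nonneg (‖v - P2 v‖ - ‖v - P3 v‖),
      sq_nonneg (‖v - P3 v‖ - ‖v - P1 v‖)]
  set T : H → H := fun v => v - (3 : ℂ)⁻¹ • A v with hT
  have hET : ∀ v, E (T v) ≤ (29 / 30) * E v := by
    intro v
    have h1 : E (T v) = E v - (2 / 3) * ‖A v‖ ^ 2 + (1 / 9) * E (A v) := by
      rw [hEA, hEA v, hEA (A v)]
      simp only [hT]
      rw [hAsub, hAsmul, inner_sub_left, inner_sub_right, inner_sub_right, inner_smul_left,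
        inner_smul_right, inner_smul_left, inner_smul_right]
      have c3 : (starRingEnd ℂ) (3 : ℂ)⁻¹ = (3 : ℂ)⁻¹ := by
        rw [map_inv₀]; congr 1; exact map_ofNat (starRingEnd ℂ) 3
      have c3' : (3 : ℂ)⁻¹ = (((3 : ℝ)⁻¹ : ℝ) : ℂ) := by push_cast; rfl
      have n1 : (⟪A v, A v⟫_ℂ).re = ‖A v‖ ^ 2 := inner_self_eq_norm_sq (𝕜 := ℂ) _
      have n2 : (⟪A (A v), v⟫_ℂ).re = ‖A v‖ ^ 2 := by rw [hAsa, n1]
      rw [c3, c3']
      simp only [Complex.sub_re, Complex.re_ofReal_mul, n1, n2]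
      ring
    have h2 := hE3 (A v)
    have h3 := hAE v
    rw [h1]; nlinarith
  have hTd : ∀ v, dist v (T v) ≤ Real.sqrt (E v) := by
    intro v
    rw [dist_eq_norm]
    have : v - T v = (3 : ℂ)⁻¹ • A v := by simp only [hT]; abel
    rw [this, norm_smul]
    apply Real.le_sqrt_of_sq_le
    have h3 : ‖(3 : ℂ)⁻¹‖ = 1 / 3 := by rw [norm_inv]; simp
    rw [h3]
    have := hA3 v
    have := hEnn v
    nlinarith
  have hPc : Continuous E := by
    have c1 : Continuous P1 := continuous_avg _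
    have c2 : Continuous P2 := continuous_avg _
    have c3 : Continuous P3 := continuous_avg _
    simp only [hE]
    fun_prop
  -- the ratio
  set r : ℝ := Real.sqrt (29 / 30) with hr
  have hr0 : 0 ≤ r := Real.sqrt_nonneg _
  have hr1 : r < 1 := by
    rw [hr, Real.sqrt_lt' one_pos]; norm_num
  have hrsq : r ^ 2 = 29 / 30 := Real.sq_sqrt (by norm_num)
  -- choose the almost invariant vector
  set δ : ℝ := (1 - r) / 4 with hδ
  have hδ0 : 0 < δ := by rw [hδ]; linarith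
  obtain ⟨v, hv1, hv⟩ := hai
    (Finset.univ.image t1 ∪ Finset.univ.image t2 ∪ Finset.univ.image t3) δ hδ0
  have hE0 : E v ≤ (2 * δ) ^ 2 := by
    have d1 : ‖v - P1 v‖ ≤ δ := norm_sub_avg_le _ _ _ (fun g => (hv (t1 g) (by simp)).le)
    have d2 : ‖v - P2 v‖ ≤ δ := norm_sub_avg_le _ _ _ (fun g => (hv (t2 g) (by simp)).le)
    have d3 : ‖v - P3 v‖ ≤ δ := norm_sub_avg_le _ _ _ (fun g => (hv (t3 g) (by simp)).le)
    have q1 := pow_le_pow_left₀ (norm_nonneg _) d1 2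
    have q2 := pow_le_pow_left₀ (norm_nonneg _) d2 2
    have q3 := pow_le_pow_left₀ (norm_nonneg _) d3 2
    simp only [hE]; nlinarith
  set x : ℕ → H := fun n => T^[n] v with hx
  have hxE : ∀ n, E (x n) ≤ (2 * δ * r ^ n) ^ 2 := by
    intro n
    induction n with
    | zero => simpa [hx] using hE0
    | succ n ih =>
      have : x (n + 1) = T (x n) := by
        simp only [hx]; exact Function.iterate_succ_apply' T n v
      rw [this]
      refine (hET (x n)).trans ?_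
      calc (29 / 30) * E (x n) ≤ r ^ 2 * (2 * δ * r ^ n) ^ 2 := by
            rw [hrsq]; nlinarith
        _ = (2 * δ * r ^ (n + 1)) ^ 2 := by ring
  have hdist : ∀ n, dist (x n) (x (n + 1)) ≤ (2 * δ) * r ^ n := by
    intro n
    have : x (n + 1) = T (x n) := by
      simp only [hx]; exact Function.iterate_succ_apply' T n v
    rw [this]
    refine (hTd (x n)).trans ?_
    rw [Real.sqrt_le_left (by positivity)]
    exact hxE n
  have hcau : CauchySeq x := cauchySeq_of_le_geometric r (2 * δ) hr1 hdist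
  obtain ⟨y, hy⟩ := cauchySeq_tendsto_of_complete hcau
  have hd0 : dist (x 0) y ≤ (2 * δ) / (1 - r) :=
    dist_le_of_le_geometric_of_tendsto₀ r (2 * δ) hr1 hdist hy
  have hd0' : dist v y ≤ 1 / 2 := by
    have : (2 * δ) / (1 - r) = 1 / 2 := by
      rw [hδ]; field_simp [sub_ne_zero.mpr hr1.ne']
      norm_num
    rw [this] at hd0
    simpa [hx] using hd0
  have hy0 : y ≠ 0 := by
    rintro rfl
    rw [dist_zero_right, hv1] at hd0'
    norm_num at hd0'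
  have hEy : E y = 0 := by
    have l1 : Filter.Tendsto (fun n => E (x n)) Filter.atTop (nhds (E y)) :=
      (hPc.tendsto y).comp hy
    have l2 : Filter.Tendsto (fun n : ℕ => (2 * δ * r ^ n) ^ 2) Filter.atTop (nhds 0) := by
      have l3 : Filter.Tendsto (fun n : ℕ => r ^ n) Filter.atTop (nhds 0) :=
        tendsto_pow_atTop_nhds_zero_of_lt_one hr0 hr1
      have l4 := (l3.const_mul (2 * δ)).pow 2
      simpa using l4
    exact tendsto_nhds_unique l1 (squeeze_zero (fun n => hEnn _) hxE l2)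
  have hz1 : P1 y = y := by
    have h : ‖y - P1 y‖ ^ 2 = 0 := by
      simp only [hE] at hEy
      nlinarith [sq_nonneg ‖y - P1 y‖, sq_nonneg ‖y - P2 y‖, sq_nonneg ‖y - P3 y‖]
    have := norm_eq_zero.mp (pow_eq_zero_iff (two_ne_zero) |>.mp h)
    exact (sub_eq_zero.mp this).symm
  have hz2 : P2 y = y := by
    have h : ‖y - P2 y‖ ^ 2 = 0 := by
      simp only [hE] at hEy
      nlinarith [sq_nonneg ‖y - P1 y‖, sq_nonneg ‖y - P2 y‖, sq_nonneg ‖y - P3 y‖]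
    have := norm_eq_zero.mp (pow_eq_zero_iff (two_ne_zero) |>.mp h)
    exact (sub_eq_zero.mp this).symm
  have hz3 : P3 y = y := by
    have h : ‖y - P3 y‖ ^ 2 = 0 := by
      simp only [hE] at hEy
      nlinarith [sq_nonneg ‖y - P1 y‖, sq_nonneg ‖y - P2 y‖, sq_nonneg ‖y - P3 y‖]
    have := norm_eq_zero.mp (pow_eq_zero_iff (two_ne_zero) |>.mp h)
    exact (sub_eq_zero.mp this).symm
  refine ⟨y, hy0, fun g => ?_⟩
  have hg : g ∈ Subgroup.closure (Set.range t1 ∪ Set.range t2 ∪ Set.range t3) := by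
    rw [hgen]; trivial
  induction hg using Subgroup.closure_induction with
  | mem z hz =>
    rcases hz with (⟨a, rfl⟩ | ⟨a, rfl⟩) | ⟨a, rfl⟩
    · rw [← hz1]; exact U_avg (ρ.comp t1) a y
    · rw [← hz2]; exact U_avg (ρ.comp t2) a y
    · rw [← hz3]; exact U_avg (ρ.comp t3) a y
  | one => exact unitary_one_apply ρ y
  | mul a b _ _ ha hb => rw [unitary_mul_apply, hb, ha]
  | inv a _ ha =>
    have : (ρ a⁻¹ : H →L[ℂ] H) ((ρ a : H →L[ℂ] H) y) = y := by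
      rw [← unitary_mul_apply, inv_mul_cancel, unitary_one_apply]
    rw [ha] at this
    exact this

end Main

end Pool.Agent.Helper5.PropT
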