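import Mathlib

set_option autoImplicit false

namespace Pool.Agent.Helper5.Quandle

open Real

/-- Euclidean three-space. -/
abbrev E3 : Type := EuclideanSpace ℝ (Fin 3)

/-- The unit sphere of Euclidean three-space, with its usual topology. -/
abbrev S2 : Type := Metric.sphere (0 : E3) 1

/-- `op` is a topological quandle structure on the sphere: idempotent, every right translation is a
bijection, right self-distributive, and (jointly) continuous. -/
structure IsTopQuandle (op : S2 → S2 → S2) : Prop where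
  idem : ∀ x, op x x = x
  bij : ∀ y, Function.Bijective (fun x => op x y)
  distrib : ∀ x y z, op (op x y) z = op (op x z) (op y z)
  cont : Continuous (fun q : S2 × S2 => op q.1 q.2)

/-- Two operations on the sphere are isomorphic if a homeomorphism carries one to the other. -/
def Iso (op op' : S2 → S2 → S2) : Prop :=
  ∃ f : S2 ≃ₜ S2, ∀ x y, f (op x y) = op' (f x) (f y)

/-- The trivial quandle operation. -/
def triv : S2 → S2 → S2 := fun x _ => x

/-- The cross product `v × u`. -/
def cross (v u : E3) : E3 :=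
  !₂[v 1 * u 2 - v 2 * u 1, v 2 * u 0 - v 0 * u 2, v 0 * u 1 - v 1 * u 0]

/-- The image of `u` under the rotation by the angle `ψ` about the axis through `0` and the unit
vector `v`, in the positive sense with respect to `v` (formula of Rodrigues). -/
noncomputable def rodrigues (ψ : ℝ) (u v : E3) : E3 :=
  cos ψ • u + sin ψ • cross v u + ((1 - cos ψ) * inner ℝ v u) • v

theorem sphere_iff (u : E3) : u ∈ Metric.sphere (0 : E3) 1 ↔ u 0 ^ 2 + u 1 ^ 2 + u 2 ^ 2 = 1 := by
  rw [mem_sphere_zero_iff_norm, EuclideanSpace.norm_eq, Fin.sum_univ_three]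
  simp only [Real.norm_eq_abs, sq_abs]
  rw [Real.sqrt_eq_one]

theorem inner_coord (v u : E3) : inner ℝ v u = v 0 * u 0 + v 1 * u 1 + v 2 * u 2 := by
  rw [PiLp.inner_apply, Fin.sum_univ_three]
  simp [mul_comm]

theorem rodrigues_mem (ψ : ℝ) (u v : S2) : rodrigues ψ u.1 v.1 ∈ Metric.sphere (0 : E3) 1 := by
  have hu := (sphere_iff u.1).mp u.2
  have hv := (sphere_iff v.1).mp v.2
  rw [sphere_iff]
  have hc := Real.sin_sq_add_cos_sq ψ
  simp only [rodrigues, inner_coord, cross]
  simp
  linear_combination (cos ψ ^ 2 + sin ψ ^ 2 * (v.1 0 ^ 2 + v.1 1 ^ 2 + v.1 2 ^ 2)) * hu +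
    (sin ψ ^ 2 + (1 - cos ψ) ^ 2 * (v.1 0 * u.1 0 + v.1 1 * u.1 1 + v.1 2 * u.1 2) ^ 2) * hv +
    (1 - (v.1 0 * u.1 0 + v.1 1 * u.1 1 + v.1 2 * u.1 2) ^ 2) * hc

/-- The spherical quandle operation `u *_ψ v`. -/
noncomputable def sph (ψ : ℝ) : S2 → S2 → S2 := fun u v => ⟨rodrigues ψ u.1 v.1, rodrigues_mem ψ u v⟩

end Pool.Agent.Helper5.Quandle
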