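import Mathlib
import Pool.Agent.Helper5.QuandleDefs

set_option autoImplicit false

namespace Pool.Agent.Helper5.Quandle

open Real

/-- Rotation by the angle `θ` about the third coordinate axis. -/
noncomputable def rotz (θ : ℝ) (u : S2) : S2 :=
  ⟨!₂[cos θ * u.1 0 - sin θ * u.1 1, sin θ * u.1 0 + cos θ * u.1 1, u.1 2], by
    have hu := (sphere_iff u.1).mp u.2
    have hc := Real.sin_sq_add_cos_sq θ
    rw [sphere_iff]
    simp
    linear_combination hu + (u.1 0 ^ 2 + u.1 1 ^ 2) * hc⟩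

theorem rotz_0 (θ : ℝ) (u : S2) : (rotz θ u).1 0 = cos θ * u.1 0 - sin θ * u.1 1 := rfl
theorem rotz_1 (θ : ℝ) (u : S2) : (rotz θ u).1 1 = sin θ * u.1 0 + cos θ * u.1 1 := rfl
theorem rotz_2 (θ : ℝ) (u : S2) : (rotz θ u).1 2 = u.1 2 := rfl

theorem S2_ext {u v : S2} (h0 : u.1 0 = v.1 0) (h1 : u.1 1 = v.1 1) (h2 : u.1 2 = v.1 2) : u = v := by
  apply Subtype.ext
  ext i
  fin_cases i
  · exact h0
  · exact h1
  · exact h2

theorem rotz_rotz (a b : ℝ) (u : S2) : rotz a (rotz b u) = rotz (a + b) u := by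
  apply S2_ext
  · simp only [rotz_0, rotz_1, cos_add, sin_add]; ring
  · simp only [rotz_0, rotz_1, cos_add, sin_add]; ring
  · simp only [rotz_2]

theorem rotz_zero (u : S2) : rotz 0 u = u := by
  apply S2_ext
  · simp [rotz_0]
  · simp [rotz_1]
  · simp [rotz_2]

/-- The new operations: `u * v` is the rotation of `u` about the third axis by the angle
`c (v₃ - u₃)`. -/
noncomputable def lat (c : ℝ) : S2 → S2 → S2 := fun u v => rotz (c * (v.1 2 - u.1 2)) u

theorem lat_2 (c : ℝ) (u v : S2) : (lat c u v).1 2 = u.1 2 := rfl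

theorem continuous_coord (i : Fin 3) : Continuous (fun u : S2 => u.1 i) := by
  fun_prop

theorem lat_cont (c : ℝ) : Continuous (fun q : S2 × S2 => lat c q.1 q.2) := by
  apply Continuous.subtype_mk
  have : Continuous (fun q : S2 × S2 => (WithLp.toLp 2
      ![cos (c * (q.2.1 2 - q.1.1 2)) * q.1.1 0 - sin (c * (q.2.1 2 - q.1.1 2)) * q.1.1 1,
        sin (c * (q.2.1 2 - q.1.1 2)) * q.1.1 0 + cos (c * (q.2.1 2 - q.1.1 2)) * q.1.1 1,
        q.1.1 2] : E3)) := by
    fun_prop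
  exact this

theorem lat_top (c : ℝ) : IsTopQuandle (lat c) where
  idem u := by unfold lat; rw [sub_self, mul_zero, rotz_zero]
  bij v := by
    constructor
    · intro u w h
      have h2 : u.1 2 = w.1 2 := by
        have := congrArg (fun x : S2 => x.1 2) h
        simpa only [lat_2] using this
      have h3 := congrArg (rotz (-(c * (v.1 2 - u.1 2)))) h
      simp only [lat] at h3
      rw [← h2, rotz_rotz, rotz_rotz, neg_add_cancel, rotz_zero, rotz_zero] at h3
      exact h3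
    · intro w
      refine ⟨rotz (-(c * (v.1 2 - w.1 2))) w, ?_⟩
      simp only [lat]
      rw [rotz_2, rotz_rotz, add_neg_cancel, rotz_zero]
  distrib u v w := by
    simp only [lat]
    rw [rotz_2, rotz_2, rotz_2, rotz_rotz, rotz_rotz]
    congr 1
    ring
  cont := lat_cont c

/-- A point of the sphere from its coordinates. -/
noncomputable def pt (a b c : ℝ) (h : a ^ 2 + b ^ 2 + c ^ 2 = 1) : S2 :=
  ⟨!₂[a, b, c], by rw [sphere_iff]; simpa using h⟩

theorem pt_0 (a b c : ℝ) (h : a ^ 2 + b ^ 2 + c ^ 2 = 1) : (pt a b c h).1 0 = a := rfl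
theorem pt_1 (a b c : ℝ) (h : a ^ 2 + b ^ 2 + c ^ 2 = 1) : (pt a b c h).1 1 = b := rfl
theorem pt_2 (a b c : ℝ) (h : a ^ 2 + b ^ 2 + c ^ 2 = 1) : (pt a b c h).1 2 = c := rfl

theorem rotz_eq_iff (θ : ℝ) (u : S2) : rotz θ u = u ↔ (u.1 0 = 0 ∧ u.1 1 = 0) ∨ cos θ = 1 := by
  constructor
  · intro h
    have h0 : cos θ * u.1 0 - sin θ * u.1 1 = u.1 0 := congrArg (fun x : S2 => x.1 0) h
    have h1 : sin θ * u.1 0 + cos θ * u.1 1 = u.1 1 := congrArg (fun x : S2 => x.1 1) h
    have h2 : (cos θ - 1) * (u.1 0 ^ 2 + u.1 1 ^ 2) = 0 := by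
      linear_combination u.1 0 * h0 + u.1 1 * h1
    rcases mul_eq_zero.mp h2 with h3 | h3
    · right; linarith
    · left
      constructor
      · nlinarith [sq_nonneg (u.1 0), sq_nonneg (u.1 1)]
      · nlinarith [sq_nonneg (u.1 0), sq_nonneg (u.1 1)]
  · rintro (⟨h0, h1⟩ | h)
    · apply S2_ext
      · rw [rotz_0, h0, h1]; ring
      · rw [rotz_1, h0, h1]; ring
      · rw [rotz_2]
    · have hs : sin θ = 0 := by
        have := Real.sin_sq_add_cos_sq θ
        rw [h] at this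
        nlinarith
      apply S2_ext
      · rw [rotz_0, h, hs]; ring
      · rw [rotz_1, h, hs]; ring
      · rw [rotz_2]

/-- Fixed points of right translations in a spherical quandle. -/
theorem sph_fix (ψ : ℝ) (h0 : 0 < ψ) (h1 : ψ < 2 * π) (u v : S2) (h : sph ψ u v = u) :
    (u.1 0 = v.1 0 ∧ u.1 1 = v.1 1 ∧ u.1 2 = v.1 2) ∨
    (u.1 0 = -v.1 0 ∧ u.1 1 = -v.1 1 ∧ u.1 2 = -v.1 2) := by
  have hu := (sphere_iff u.1).mp u.2
  have hv := (sphere_iff v.1).mp v.2
  have hcos : cos ψ ≠ 1 := by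
    intro hc
    rw [Real.cos_eq_one_iff_of_lt_of_lt (by linarith) h1] at hc
    linarith
  have hE : rodrigues ψ u.1 v.1 = u.1 := congrArg Subtype.val h
  have e0 := congrArg (fun x : E3 => x 0) hE
  have e1 := congrArg (fun x : E3 => x 1) hE
  have e2 := congrArg (fun x : E3 => x 2) hE
  simp only [rodrigues, inner_coord, cross] at e0 e1 e2
  simp at e0 e1 e2
  set d := v.1 0 * u.1 0 + v.1 1 * u.1 1 + v.1 2 * u.1 2 with hd
  have key : (1 - cos ψ) * (d ^ 2 - 1) = 0 := by
    linear_combination u.1 0 * e0 + u.1 1 * e1 + u.1 2 * e2 + (1 - cos ψ) * hu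
  have h3 : d ^ 2 - 1 = 0 := (mul_eq_zero.mp key).resolve_left (sub_ne_zero.mpr hcos.symm)
  have h4 : (d - 1) * (d + 1) = 0 := by linear_combination h3
  rcases mul_eq_zero.mp h4 with h5 | h5
  · left
    have h6 : (u.1 0 - v.1 0) ^ 2 + (u.1 1 - v.1 1) ^ 2 + (u.1 2 - v.1 2) ^ 2 = 0 := by
      linear_combination hu + hv - 2 * h5 + 2 * hd
    refine ⟨?_, ?_, ?_⟩ <;>
      nlinarith [sq_nonneg (u.1 0 - v.1 0), sq_nonneg (u.1 1 - v.1 1), sq_nonneg (u.1 2 - v.1 2)]
  · right
    have h6 : (u.1 0 + v.1 0) ^ 2 + (u.1 1 + v.1 1) ^ 2 + (u.1 2 + v.1 2) ^ 2 = 0 := by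
      linear_combination hu + hv + 2 * h5 - 2 * hd
    refine ⟨?_, ?_, ?_⟩ <;>
      nlinarith [sq_nonneg (u.1 0 + v.1 0), sq_nonneg (u.1 1 + v.1 1), sq_nonneg (u.1 2 + v.1 2)]

theorem not_iso_triv (c : ℝ) (h0 : 0 < c) (h1 : c ≤ 1) : ¬ Iso (lat c) triv := by
  rintro ⟨f, hf⟩
  have h := hf (pt 1 0 0 (by norm_num)) (pt 0 0 1 (by norm_num))
  have h2 : lat c (pt 1 0 0 (by norm_num)) (pt 0 0 1 (by norm_num)) = pt 1 0 0 (by norm_num) :=
    f.injective h
  unfold lat at h2
  rw [rotz_eq_iff, pt_0, pt_2, pt_2] at h2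
  rcases h2 with h2 | h2
  · norm_num at h2
  · rw [Real.cos_eq_one_iff_of_lt_of_lt] at h2
    · norm_num at h2; linarith
    · nlinarith [Real.pi_gt_three]
    · nlinarith [Real.pi_gt_three]

theorem not_iso_sph (c ψ : ℝ) (h0 : 0 < ψ) (h1 : ψ < 2 * π) : ¬ Iso (lat c) (sph ψ) := by
  rintro ⟨f, hf⟩
  -- three fixed points of the translation by (1,0,0)
  have hfix : ∀ u : S2, u.1 2 = 0 → sph ψ (f u) (f (pt 1 0 0 (by norm_num))) = f u := by
    intro u hu
    rw [← hf]
    congr 1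
    unfold lat
    rw [rotz_eq_iff, pt_2, hu]
    right; simp
  set v := f (pt 1 0 0 (by norm_num)) with hv
  have hA := sph_fix ψ h0 h1 _ _ (hfix (pt 1 0 0 (by norm_num)) rfl)
  have hB := sph_fix ψ h0 h1 _ _ (hfix (pt 0 1 0 (by norm_num)) rfl)
  have hC := sph_fix ψ h0 h1 _ _ (hfix (pt (-1) 0 0 (by norm_num)) rfl)
  have nAB : f (pt 0 1 0 (by norm_num)) ≠ v := by
    intro h
    have := congrArg (fun x : S2 => x.1 0) (f.injective h)
    simp only [pt_0] at this
    norm_num at this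
  have nAC : f (pt (-1) 0 0 (by norm_num)) ≠ v := by
    intro h
    have := congrArg (fun x : S2 => x.1 0) (f.injective h)
    simp only [pt_0] at this
    norm_num at this
  have nBC : f (pt 0 1 0 (by norm_num)) ≠ f (pt (-1) 0 0 (by norm_num)) := by
    intro h
    have := congrArg (fun x : S2 => x.1 0) (f.injective h)
    simp only [pt_0] at this
    norm_num at this
  rcases hB with ⟨b0, b1, b2⟩ | ⟨b0, b1, b2⟩
  · exact nAB (S2_ext b0 b1 b2)
  · rcases hC with ⟨c0, c1, c2⟩ | ⟨c0, c1, c2⟩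
    · exact nAC (S2_ext c0 c1 c2)
    · exact nBC (S2_ext (by rw [b0, c0]) (by rw [b1, c1]) (by rw [b2, c2]))

/-- The invariant: some right translation has a non-fixed point returning after `n` steps. -/
def Ret (op : S2 → S2 → S2) (n : ℕ) : Prop :=
  ∃ u v, op u v ≠ u ∧ (fun x => op x v)^[n] u = u

theorem Iso.ret {op op' : S2 → S2 → S2} (h : Iso op op') (n : ℕ) (hr : Ret op n) : Ret op' n := by
  obtain ⟨f, hf⟩ := h
  obtain ⟨u, v, h1, h2⟩ := hr
  refine ⟨f u, f v, ?_, ?_⟩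
  · rw [← hf]
    intro h3
    exact h1 (f.injective h3)
  · have h3 : ∀ k, (fun x => op' x (f v))^[k] (f u) = f ((fun x => op x v)^[k] u) := by
      intro k
      induction k with
      | zero => rfl
      | succ k ih =>
        rw [Function.iterate_succ_apply', Function.iterate_succ_apply', ih, ← hf]
    rw [h3, h2]

theorem Iso.symm {op op' : S2 → S2 → S2} (h : Iso op op') : Iso op' op := by
  obtain ⟨f, hf⟩ := h
  refine ⟨f.symm, fun x y => ?_⟩
  apply f.injective
  rw [hf]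
  simp

theorem iterate_lat (c : ℝ) (u v : S2) (n : ℕ) :
    (fun x => lat c x v)^[n] u = rotz (n * (c * (v.1 2 - u.1 2))) u := by
  induction n with
  | zero => simp [rotz_zero]
  | succ n ih =>
    rw [Function.iterate_succ_apply', ih]
    simp only [lat]
    rw [rotz_2, rotz_rotz]
    congr 1
    push_cast
    ring

theorem ret_lat (c : ℝ) (h0 : 0 < c) (h1 : c ≤ 1) (n : ℕ) (hn : 0 < n) :
    Ret (lat c) n ↔ π < n * c := by
  have hn' : (0 : ℝ) < n := by exact_mod_cast hn
  constructor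
  · rintro ⟨u, v, h2, h3⟩
    rw [iterate_lat, rotz_eq_iff] at h3
    have hu := (sphere_iff u.1).mp u.2
    have hv := (sphere_iff v.1).mp v.2
    have h4 : ¬ ((u.1 0 = 0 ∧ u.1 1 = 0) ∨ cos (c * (v.1 2 - u.1 2)) = 1) := by
      rw [← rotz_eq_iff]; exact h2
    push Not at h4
    obtain ⟨h5, h6⟩ := h4
    have h7 : cos (n * (c * (v.1 2 - u.1 2))) = 1 := by
      rcases h3 with h3 | h3
      · exact absurd h3.2 (h5 h3.1)
      · exact h3
    rw [Real.cos_eq_one_iff] at h7
    obtain ⟨k, hk⟩ := h7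
    have hx : c * (v.1 2 - u.1 2) ≠ 0 := by
      intro h; apply h6; rw [h, cos_zero]
    have hk0 : k ≠ 0 := by
      rintro rfl
      simp at hk
      rcases hk with hk | hk
      · omega
      · apply hx
        rcases hk with hk | hk
        · rw [hk, zero_mul]
        · rw [hk, mul_zero]
    have hk1 : (1 : ℝ) ≤ |(k : ℝ)| := by
      have := Int.one_le_abs hk0
      exact_mod_cast this
    have hu2 : u.1 2 ^ 2 < 1 := by
      by_contra hcon
      push Not at hcon
      have h8 : u.1 0 = 0 := by nlinarith [sq_nonneg (u.1 0), sq_nonneg (u.1 1)]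
      have h9 : u.1 1 = 0 := by nlinarith [sq_nonneg (u.1 0), sq_nonneg (u.1 1)]
      exact h5 h8 h9
    have hv2 : v.1 2 ^ 2 ≤ 1 := by nlinarith [sq_nonneg (v.1 0), sq_nonneg (v.1 1)]
    have hu3 : |u.1 2| < 1 := by
      rw [← sq_lt_one_iff_abs_lt_one]; exact hu2
    have hv3 : |v.1 2| ≤ 1 := by
      rw [← sq_le_one_iff_abs_le_one]; exact hv2
    have h10 : |v.1 2 - u.1 2| < 2 := by
      have := abs_sub (v.1 2) (u.1 2)
      linarith
    have h11 : |(k : ℝ)| * (2 * π) = n * c * |v.1 2 - u.1 2| := by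
      have := congrArg abs hk
      rw [abs_mul (k : ℝ), abs_mul (n : ℝ), abs_mul c, abs_of_pos (by positivity : (0 : ℝ) < 2 * π),
        abs_of_pos hn', abs_of_pos h0] at this
      linarith
    have hpi := Real.pi_pos
    have h12 : 2 * π ≤ n * c * |v.1 2 - u.1 2| := by
      rw [← h11]; nlinarith
    have h13 : n * c * |v.1 2 - u.1 2| < n * c * 2 := by
      apply mul_lt_mul_of_pos_left h10; positivity
    linarith
  · intro h
    have hpi := Real.pi_gt_three
    set t := π / (n * c) with ht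
    have hnc : 0 < n * c := by positivity
    have ht0 : 0 < t := by positivity
    have ht1 : t < 1 := by rw [ht, div_lt_one hnc]; exact h
    have hr : 0 ≤ 1 - t ^ 2 := by nlinarith
    have hsq : Real.sqrt (1 - t ^ 2) ^ 2 = 1 - t ^ 2 := Real.sq_sqrt hr
    have hpos : 0 < Real.sqrt (1 - t ^ 2) := Real.sqrt_pos.mpr (by nlinarith)
    refine ⟨pt (Real.sqrt (1 - t ^ 2)) 0 (-t) (by rw [hsq]; ring),
      pt (Real.sqrt (1 - t ^ 2)) 0 t (by rw [hsq]; ring), ?_, ?_⟩
    · unfold lat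
      rw [Ne, rotz_eq_iff, pt_0, pt_2, pt_2]
      push Not
      refine ⟨fun h' => absurd h' hpos.ne', ?_⟩
      have hx : c * (t - -t) = 2 * π / n := by
        rw [ht]; field_simp; ring
      rw [hx]
      intro h'
      have hn3 : (3 : ℝ) < n := by nlinarith
      rw [Real.cos_eq_one_iff_of_lt_of_lt] at h'
      · have : 0 < 2 * π / n := by positivity
        linarith
      · have : 0 < 2 * π / n := by positivity
        nlinarith [Real.pi_pos]
      · rw [div_lt_iff₀ hn']; nlinarith [Real.pi_pos]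
    · rw [iterate_lat, rotz_eq_iff, pt_2, pt_2]
      right
      have hx : (n : ℝ) * (c * (t - -t)) = 2 * π := by
        rw [ht]; field_simp; ring
      rw [hx, Real.cos_two_pi]

/-- **Main result.** There are infinitely many pairwise non-isomorphic topological quandle
structures on the two-sphere, none of which is isomorphic to the trivial quandle or to a spherical
quandle. -/
theorem main_result : ∃ op : ℕ → S2 → S2 → S2,
    (∀ m, IsTopQuandle (op m)) ∧
    (∀ m, ¬ Iso (op m) triv) ∧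
    (∀ m (ψ : ℝ), 0 < ψ → ψ < 2 * π → ¬ Iso (op m) (sph ψ)) ∧
    (∀ m m', m ≠ m' → ¬ Iso (op m) (op m')) := by
  have hc0 : ∀ m : ℕ, (0 : ℝ) < 1 / ((m : ℝ) + 1) := fun m => by positivity
  have hc1 : ∀ m : ℕ, 1 / ((m : ℝ) + 1) ≤ 1 := fun m => by
    rw [div_le_one (by positivity)]; linarith [(Nat.cast_nonneg m : (0 : ℝ) ≤ m)]
  have main : ∀ m m' : ℕ, m < m' → ¬ Iso (lat (1 / ((m : ℝ) + 1))) (lat (1 / ((m' : ℝ) + 1))) := by
    intro m m' hlt hiso
    have hpi := Real.pi_gt_three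
    set n := ⌊π * ((m : ℝ) + 1)⌋₊ + 1 with hn
    have hn0 : 0 < n := Nat.succ_pos _
    have hm1 : (0 : ℝ) < (m : ℝ) + 1 := by positivity
    have hm1' : (0 : ℝ) < (m' : ℝ) + 1 := by positivity
    have h1 : π * ((m : ℝ) + 1) < n := by
      rw [hn]; push_cast; exact Nat.lt_floor_add_one _
    have h2 : (n : ℝ) ≤ π * ((m : ℝ) + 1) + 1 := by
      rw [hn]; push_cast
      have := Nat.floor_le (by positivity : 0 ≤ π * ((m : ℝ) + 1))
      linarith
    have h3 : (m : ℝ) + 1 ≤ m' := by exact_mod_cast hlt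
    have h4 : Ret (lat (1 / ((m : ℝ) + 1))) n := by
      rw [ret_lat _ (hc0 m) (hc1 m) n hn0, mul_one_div, lt_div_iff₀ hm1]
      exact h1
    have h5 := hiso.ret n h4
    rw [ret_lat _ (hc0 m') (hc1 m') n hn0, mul_one_div, lt_div_iff₀ hm1'] at h5
    nlinarith
  refine ⟨fun m => lat (1 / ((m : ℝ) + 1)), fun m => lat_top _, fun m => not_iso_triv _ (hc0 m) (hc1 m),
    fun m ψ h0 h1 => not_iso_sph _ ψ h0 h1, ?_⟩
  intro m m' hne hiso
  rcases Nat.lt_or_gt_of_ne hne with h | h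
  · exact main m m' h hiso
  · exact main m' m h hiso.symm

end Pool.Agent.Helper5.Quandle
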