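import Mathlib
import Pool.Agent.Helper5.PropT
import Pool.Agent.Helper5.Triangle

set_option autoImplicit false

namespace Pool.Agent.Helper5.PropT

open Matrix

variable {S : Type*} [CommRing S] {p : ℕ} [Fact p.Prime] [Algebra (ZMod p) S]

/-- Property (T) for the triangle group over any commutative `𝔽_p`-algebra. -/
theorem propT_Tri (hp : 5 ≤ p) (s s' : S) (hs : s * s' = 1)
    {H : Type} [NormedAddCommGroup H] [InnerProductSpace ℂ H] [CompleteSpace H]
    (ρ : ↥(Tri p s s') →* unitary (H →L[ℂ] H))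
    (hai : ∀ (F : Finset ↥(Tri p s s')) (ε : ℝ), 0 < ε →
      ∃ v : H, ‖v‖ = 1 ∧ ∀ g ∈ F, ‖(ρ g : H →L[ℂ] H) v - v‖ < ε) :
    ∃ v : H, v ≠ 0 ∧ ∀ g : ↥(Tri p s s'), (ρ g : H →L[ℂ] H) v = v := by
  refine propT_of_triangle hp
    ((t1H p s').codRestrict (Tri p s s') (t1_mem s s'))
    ((t2H p (S := S)).codRestrict (Tri p s s') (t2_mem s s'))
    ((t3H p s).codRestrict (Tri p s s') (t3_mem s s'))
    ((psi12 s').codRestrict (Tri p s s') (psi12_mem s s'))
    ((psi23 s).codRestrict (Tri p s s') (psi23_mem s s'))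
    ((psi31 s s' hs).codRestrict (Tri p s s') (psi31_mem s s' hs))
    (fun a => Subtype.ext (psi12_xx s' a)) (fun a => Subtype.ext (psi12_yy s' a))
    (fun a => Subtype.ext (psi23_xx s a)) (fun a => Subtype.ext (psi23_yy s a))
    (fun a => Subtype.ext (psi31_xx s s' hs a)) (fun a => Subtype.ext (psi31_yy s s' hs a))
    ?_ ρ hai
  have h := Subgroup.closure_closure_coe_preimage
    (k := Set.range (t1H p s') ∪ Set.range (t2H p (S := S)) ∪ Set.range (t3H p s))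
  refine (congrArg Subgroup.closure ?_).trans h
  ext x
  simp only [Set.mem_union, Set.mem_range, Set.mem_preimage]
  constructor
  · rintro ((⟨a, rfl⟩ | ⟨a, rfl⟩) | ⟨a, rfl⟩)
    · exact Or.inl (Or.inl ⟨a, rfl⟩)
    · exact Or.inl (Or.inr ⟨a, rfl⟩)
    · exact Or.inr ⟨a, rfl⟩
  · rintro ((⟨a, ha⟩ | ⟨a, ha⟩) | ⟨a, ha⟩)
    · exact Or.inl (Or.inl ⟨a, Subtype.ext ha⟩)
    · exact Or.inl (Or.inr ⟨a, Subtype.ext ha⟩)
    · exact Or.inr ⟨a, Subtype.ext ha⟩

end Pool.Agent.Helper5.PropT
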